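import Mathlib

set_option autoImplicit false

namespace Pool.Agent.Helper380.VDCX

open Real Finset

/-- normalised quadratic Gauss sum `(1/q) ∑_{r<q} e((a r² + l r)/q)` -/
noncomputable def G (a l : ℤ) (q : ℕ) : ℂ :=
  (1 / (q : ℂ)) * ∑ r ∈ range q,
    Complex.exp (2 * π * Complex.I * ((a * (r : ℤ) ^ 2 + l * (r : ℤ) : ℤ) : ℂ) / (q : ℂ))

/-- `F_d(x) = (d/N) ∑_{j∈ℤ} exp(-π j² d²/N²) e(j² d² x)` -/
noncomputable def F (d N : ℕ) (x : ℝ) : ℂ :=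
  ((d : ℂ) / (N : ℂ)) * ∑' j : ℤ,
    Complex.exp (-(π : ℂ) * (j : ℂ) ^ 2 * ((d : ℂ) ^ 2 / (N : ℂ) ^ 2)
      + 2 * π * Complex.I * ((j : ℂ) ^ 2 * (d : ℂ) ^ 2 * (x : ℂ)))

/-- the archimedean factor `(1 - 2 i β N²)^{-1/2}` -/
noncomputable def Ar (N : ℕ) (β : ℝ) : ℂ :=
  1 / (1 - 2 * Complex.I * (β : ℂ) * (N : ℂ) ^ 2) ^ (1 / 2 : ℂ)

/-- local coefficients -/
noncomputable def cc (s : ℝ) (h : ℕ → ℂ) (j : ℕ) : ℂ :=
  if j = 0 then h 0 else (s : ℂ) ^ j * (h j - h (j - 1))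

/-- index set: exponent vectors `f` with `∑ f ≤ K`, and `b ≤ f`, `b ∈ {0,1}` -/
def Jset (ι : Type) [Fintype ι] [DecidableEq ι] (K : ℕ) : Finset ((ι → ℕ) × (ι → ℕ)) :=
  ((Fintype.piFinset fun _ : ι => range (K + 1)) ×ˢ (Fintype.piFinset fun _ : ι => range 2)).filter
    (fun fb => ∑ i, fb.1 i ≤ K ∧ ∀ i, fb.2 i ≤ fb.1 i)

/-- the primes up to `Q`, as a type -/
abbrev PP (Q : ℕ) : Type := {p : ℕ // p ∈ (range (Q + 1)).filter Nat.Prime}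

/-- the primes in `(P, Q]`, as a type -/
abbrev PQ (P Q : ℕ) : Type := {p : ℕ // p ∈ (range (Q + 1)).filter (fun p => p.Prime ∧ P < p)}

/-- real coefficient of the pair `(f, b)` -/
noncomputable def cf {ι : Type} [Fintype ι] (s : ℝ) (fb : (ι → ℕ) × (ι → ℕ)) : ℝ :=
  ∏ i, ((-1 : ℝ) ^ (fb.2 i) * s ^ (fb.1 i))

/-- dilation of the pair `(f, b)` -/
def dd {ι : Type} [Fintype ι] (p : ι → ℕ) (fb : (ι → ℕ) × (ι → ℕ)) : ℕ :=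
  ∏ i, p i ^ (fb.1 i - fb.2 i)

/-- admissible polynomials: `T(x) = c₀ + ∑_{k=1}^H c_k cos(2π k² x)` with `T ≥ 0` on the real line
and `T(0) = 1` -/
def Admissible (H : ℕ) (c0 : ℝ) (c : ℕ → ℝ) : Prop :=
  (∀ x : ℝ, 0 ≤ c0 + ∑ k ∈ Icc 1 H, c k * Real.cos (2 * π * (k : ℝ) ^ 2 * x)) ∧
    c0 + ∑ k ∈ Icc 1 H, c k = 1

/-- `δ(H)` is the infimum of the constant terms of admissible polynomials -/
noncomputable def delta (H : ℕ) : ℝ := sInf {c0 : ℝ | ∃ c : ℕ → ℝ, Admissible H c0 c}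

/-- `e(θ) = exp(2π i θ)` -/
noncomputable def ee (θ : ℝ) : ℂ := Complex.exp ((2 * π * θ : ℝ) * Complex.I)

end Pool.Agent.Helper380.VDCX
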