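import Mathlib
import Pool.Agent.Helper380.VDC.Defs

set_option autoImplicit false

namespace Pool.Agent.Helper380.VDCX.J04

open Real Finset







theorem G_norm_sq_le_card (c : ℤ) (q : ℕ) [NeZero q] :
    (Finset.univ.filter (fun h : ZMod q => h * (c : ZMod q) = 0)).card ≤ Int.gcd c (q : ℤ) := by
  have hq : 0 < q := Nat.pos_of_ne_zero (NeZero.ne q)
  set g : ℕ := Int.gcd c (q : ℤ) with hg
  have hgpos : 0 < g := Int.gcd_pos_of_ne_zero_right _ (by exact_mod_cast hq.ne')
  have hgq : g ∣ q := by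
    have := Int.gcd_dvd_right (a := c) (b := (q : ℤ))
    exact_mod_cast this
  obtain ⟨q', hq'⟩ := hgq
  have hq'pos : 0 < q' := by
    rcases Nat.eq_zero_or_pos q' with h | h
    · rw [h] at hq'; omega
    · exact h
  have hdiv : ∀ h : ZMod q, h * (c : ZMod q) = 0 → q' ∣ h.val := by
    intro h hh
    have h1 : ((h.val * c : ℤ) : ZMod q) = 0 := by
      push_cast
      rw [ZMod.natCast_zmod_val]
      exact hh
    have h2 : (q : ℤ) ∣ (h.val : ℤ) * c := (ZMod.intCast_zmod_eq_zero_iff_dvd _ _).1 h1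
    obtain ⟨c', hc'⟩ : (g : ℤ) ∣ c := Int.gcd_dvd_left ..
    have hgz : (g : ℤ) ≠ 0 := by exact_mod_cast hgpos.ne'
    have h3 : (q' : ℤ) ∣ (h.val : ℤ) * c' := by
      have h4 : (g : ℤ) * (q' : ℤ) ∣ (g : ℤ) * ((h.val : ℤ) * c') := by
        have e1 : (g : ℤ) * (q' : ℤ) = (q : ℤ) := by rw [hq']; push_cast; ring
        have e2 : (g : ℤ) * ((h.val : ℤ) * c') = (h.val : ℤ) * c := by
          rw [hc']; ring
        rw [e1, e2]; exact h2
      exact Int.dvd_of_mul_dvd_mul_left hgz h4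
    have hcop : IsCoprime (q' : ℤ) c' := by
      rw [Int.isCoprime_iff_gcd_eq_one]
      have e : Int.gcd ((g : ℤ) * c') ((g : ℤ) * q') = g * Int.gcd c' q' := by
        rw [Int.gcd_mul_left]; simp
      have e2 : Int.gcd ((g : ℤ) * c') ((g : ℤ) * q') = g := by
        rw [← hc']
        have e1 : (g : ℤ) * (q' : ℤ) = (q : ℤ) := by rw [hq']; push_cast; ring
        rw [e1]
      rw [e2] at e
      have : Int.gcd c' q' = 1 := by
        have h5 : g * 1 = g * Int.gcd c' q' := by rw [mul_one]; exact e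
        exact (Nat.eq_of_mul_eq_mul_left hgpos h5).symm
      rw [Int.gcd_comm]; exact this
    have := hcop.dvd_of_dvd_mul_right h3
    exact_mod_cast this
  have hcard : (Finset.univ.filter (fun h : ZMod q => h * (c : ZMod q) = 0)).card ≤
      (Finset.range g).card := by
    apply Finset.card_le_card_of_injOn (fun h : ZMod q => h.val / q')
    · intro h hh
      simp only [Finset.coe_range, Set.mem_Iio]
      have : h.val < g * q' := by
        have := ZMod.val_lt h
        rwa [← hq']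
      exact Nat.div_lt_of_lt_mul (by rwa [mul_comm] at this)
    · intro x hx y hy hxy
      have hx' := hdiv x (by simpa using hx)
      have hy' := hdiv y (by simpa using hy)
      obtain ⟨u, hu⟩ := hx'
      obtain ⟨v, hv⟩ := hy'
      have : x.val = y.val := by
        simp only [hu, hv, Nat.mul_div_cancel_left _ hq'pos] at hxy
        rw [hu, hv, hxy]
      exact ZMod.val_injective q this
  simpa using hcard

/-- squaring out a Gauss sum -/
theorem G_norm_sq_le (a l : ℤ) (q : ℕ) (hq : 1 ≤ q) :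
    ‖G a l q‖ ^ 2 ≤ (Int.gcd (2 * a) (q : ℤ) : ℝ) / (q : ℝ) := by
  haveI : NeZero q := ⟨by omega⟩
  have hqR : (0 : ℝ) < (q : ℝ) := by exact_mod_cast hq
  set ψ : AddChar (ZMod q) ℂ := ZMod.stdAddChar with hψ
  set f : ZMod q → ℂ := fun x => ψ ((a : ZMod q) * x ^ 2 + (l : ZMod q) * x) with hf
  have hsum : ∑ r ∈ range q,
      Complex.exp (2 * π * Complex.I * ((a * (r : ℤ) ^ 2 + l * (r : ℤ) : ℤ) : ℂ) / (q : ℂ))
      = ∑ x : ZMod q, f x := by
    apply Finset.sum_nbij' (fun r : ℕ => (r : ZMod q)) (fun x : ZMod q => x.val)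
    · intro r _; exact Finset.mem_univ _
    · intro x _; exact Finset.mem_range.2 (ZMod.val_lt x)
    · intro r hr; exact ZMod.val_cast_of_lt (Finset.mem_range.1 hr)
    · intro x _; exact ZMod.natCast_zmod_val x
    · intro r _
      rw [← ZMod.stdAddChar_coe]
      simp only [hf, hψ]
      congr 1
      push_cast
      ring
  have hnorm : ∀ x, ‖ψ x‖ = 1 := fun x => AddChar.norm_apply ψ x
  have hconj : ∀ x, (starRingEnd ℂ) (ψ x) = ψ (-x) := fun x => by
    rw [AddChar.map_neg_eq_conj]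
  have hprim : ψ.IsPrimitive := ZMod.isPrimitive_stdAddChar q
  have hsq : (∑ x : ZMod q, f x) * (starRingEnd ℂ) (∑ x : ZMod q, f x) =
      ∑ h : ZMod q, ψ ((a : ZMod q) * h ^ 2 + (l : ZMod q) * h) *
        (if h * ((2 * a : ℤ) : ZMod q) = 0 then (q : ℂ) else 0) := by
    rw [map_sum, Finset.sum_mul_sum]
    calc ∑ x : ZMod q, ∑ y : ZMod q, f x * (starRingEnd ℂ) (f y)
        = ∑ y : ZMod q, ∑ x : ZMod q, f x * (starRingEnd ℂ) (f y) := Finset.sum_comm
      _ = ∑ y : ZMod q, ∑ h : ZMod q, f (h + y) * (starRingEnd ℂ) (f y) := by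
          refine Finset.sum_congr rfl fun y _ => ?_
          exact (Fintype.sum_equiv (Equiv.addRight y) _ _ (fun h => rfl)).symm
      _ = ∑ h : ZMod q, ∑ y : ZMod q, f (h + y) * (starRingEnd ℂ) (f y) := Finset.sum_comm
      _ = _ := by
          refine Finset.sum_congr rfl fun h _ => ?_
          have e : ∀ y : ZMod q, f (h + y) * (starRingEnd ℂ) (f y) =
              ψ ((a : ZMod q) * h ^ 2 + (l : ZMod q) * h) * ψ (y * (h * ((2 * a : ℤ) : ZMod q))) := by
            intro y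
            simp only [hf]
            rw [hconj, ← AddChar.map_add_eq_mul, ← AddChar.map_add_eq_mul]
            congr 1
            push_cast
            ring
          rw [Finset.sum_congr rfl (fun y _ => e y), ← Finset.mul_sum,
            AddChar.sum_mulShift _ hprim]
          simp [ZMod.card]
  have hS : ‖∑ x : ZMod q, f x‖ ^ 2 ≤ (q : ℝ) * (Int.gcd (2 * a) (q : ℤ) : ℝ) := by
    have h1 : ‖∑ x : ZMod q, f x‖ ^ 2 =
        ‖(∑ x : ZMod q, f x) * (starRingEnd ℂ) (∑ x : ZMod q, f x)‖ := by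
      rw [norm_mul, RCLike.norm_conj, sq]
    rw [h1, hsq]
    calc ‖∑ h : ZMod q, ψ ((a : ZMod q) * h ^ 2 + (l : ZMod q) * h) *
        (if h * ((2 * a : ℤ) : ZMod q) = 0 then (q : ℂ) else 0)‖
        ≤ ∑ h : ZMod q, ‖ψ ((a : ZMod q) * h ^ 2 + (l : ZMod q) * h) *
        (if h * ((2 * a : ℤ) : ZMod q) = 0 then (q : ℂ) else 0)‖ := norm_sum_le _ _
      _ = ∑ h : ZMod q, (if h * ((2 * a : ℤ) : ZMod q) = 0 then (q : ℝ) else 0) := by
          refine Finset.sum_congr rfl fun h _ => ?_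
          rw [norm_mul, hnorm, one_mul]
          split_ifs <;> simp
      _ = (q : ℝ) * ((Finset.univ.filter
            (fun h : ZMod q => h * ((2 * a : ℤ) : ZMod q) = 0)).card : ℝ) := by
          rw [← Finset.sum_filter, Finset.sum_const, nsmul_eq_mul, mul_comm]
      _ ≤ _ := by
          apply mul_le_mul_of_nonneg_left _ hqR.le
          exact_mod_cast G_norm_sq_le_card (2 * a) q
  unfold G
  rw [hsum, norm_mul, mul_pow]
  have e1 : ‖(1 / (q : ℂ))‖ = 1 / (q : ℝ) := by simp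
  rw [e1, le_div_iff₀ hqR]
  calc (1 / (q : ℝ)) ^ 2 * ‖∑ x : ZMod q, f x‖ ^ 2 * (q : ℝ)
      ≤ (1 / (q : ℝ)) ^ 2 * ((q : ℝ) * (Int.gcd (2 * a) (q : ℤ) : ℝ)) * (q : ℝ) := by gcongr
    _ = (Int.gcd (2 * a) (q : ℤ) : ℝ) := by field_simp

end Pool.Agent.Helper380.VDCX.J04
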