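import Mathlib
import Pool.Agent.Helper380.VDC.Defs

set_option autoImplicit false

namespace Pool.Agent.Helper380.VDCX.J05

open Real Finset







/-- dilated Gauss sums -/
theorem G_dil (norm_sq : ∀ (a l : ℤ) (q : ℕ), 1 ≤ q →
      ‖G a l q‖ ^ 2 ≤ (Int.gcd (2 * a) (q : ℤ) : ℝ) / (q : ℝ))
    (a l : ℤ) (q d : ℕ) (hq : 1 ≤ q) (hd : 1 ≤ d) (h : IsCoprime a (q : ℤ)) :
    ‖G ((d : ℤ) ^ 2 * a) l q‖ ≤ √2 * d / √(q : ℝ) := by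
  have hqp : (0 : ℝ) < (q : ℝ) := by
    have : 0 < q := hq
    exact_mod_cast this
  have hdp : (0 : ℝ) < (d : ℝ) := by
    have : 0 < d := hd
    exact_mod_cast this
  have h1 := norm_sq ((d : ℤ) ^ 2 * a) l q hq
  have hdvd : ((Int.gcd (2 * ((d : ℤ) ^ 2 * a)) (q : ℤ) : ℕ) : ℤ) ∣ (2 * (d : ℤ) ^ 2) := by
    have e1 : ((Int.gcd (2 * ((d : ℤ) ^ 2 * a)) (q : ℤ) : ℕ) : ℤ) ∣ 2 * ((d : ℤ) ^ 2 * a) :=
      Int.gcd_dvd_left _ _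
    have e2 : ((Int.gcd (2 * ((d : ℤ) ^ 2 * a)) (q : ℤ) : ℕ) : ℤ) ∣ (q : ℤ) :=
      Int.gcd_dvd_right _ _
    have hcop : IsCoprime ((Int.gcd (2 * ((d : ℤ) ^ 2 * a)) (q : ℤ) : ℕ) : ℤ) a :=
      (IsCoprime.of_isCoprime_of_dvd_right h e2).symm
    apply hcop.dvd_of_dvd_mul_right
    have e3 : 2 * (d : ℤ) ^ 2 * a = 2 * ((d : ℤ) ^ 2 * a) := by ring
    rw [e3]
    exact e1
  have hle : (Int.gcd (2 * ((d : ℤ) ^ 2 * a)) (q : ℤ) : ℝ) ≤ 2 * (d : ℝ) ^ 2 := by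
    have hpos : (0 : ℤ) < 2 * (d : ℤ) ^ 2 := by
      have : 0 < d := hd
      positivity
    have := Int.le_of_dvd hpos hdvd
    exact_mod_cast this
  have h2 : ‖G ((d : ℤ) ^ 2 * a) l q‖ ^ 2 ≤ (√2 * d / √(q : ℝ)) ^ 2 := by
    have e4 : (√2 * d / √(q : ℝ)) ^ 2 = 2 * (d : ℝ) ^ 2 / (q : ℝ) := by
      rw [div_pow, mul_pow, Real.sq_sqrt (by norm_num), Real.sq_sqrt hqp.le]
    rw [e4]
    refine h1.trans ?_
    gcongr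
  exact abs_le_of_sq_le_sq' h2 (by positivity) |>.2

end Pool.Agent.Helper380.VDCX.J05
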