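import Mathlib
import Pool.Agent.Helper380.VDC.Defs

set_option autoImplicit false

namespace Pool.Agent.Helper380.VDCX.J06

open Real Finset







theorem th_cpow (q : ℕ) (hq : 1 ≤ q) (w : ℂ) (hw : w ≠ 0) :
    ((q : ℂ) ^ 2 * w) ^ (1 / 2 : ℂ) = q * w ^ (1 / 2 : ℂ) := by
  have hq0 : (0 : ℝ) < (q : ℝ) := by exact_mod_cast hq
  have hq' : (0 : ℝ) < (q : ℝ) ^ 2 := by positivity
  have hqc : (q : ℂ) ^ 2 = (((q : ℝ) ^ 2 : ℝ) : ℂ) := by push_cast; rfl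
  have hne : (((q : ℝ) ^ 2 : ℝ) : ℂ) ≠ 0 := Complex.ofReal_ne_zero.mpr hq'.ne'
  rw [hqc, Complex.cpow_def_of_ne_zero (mul_ne_zero hne hw), Complex.log_ofReal_mul hq' hw,
    add_mul, Complex.exp_add, ← Complex.cpow_def_of_ne_zero hw]
  congr 1
  rw [Real.log_pow]
  have : (((2 : ℕ) : ℝ) * Real.log q : ℝ) = 2 * Real.log q := by norm_num
  rw [this]
  have e : (((2 * Real.log q : ℝ) : ℂ) * (1 / 2 : ℂ)) = ((Real.log q : ℝ) : ℂ) := by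
    push_cast
    ring
  rw [e, ← Complex.ofReal_exp, Real.exp_log hq0]
  norm_num

theorem th_term (t β : ℝ) (a m : ℤ) (q r : ℕ) (hq : 1 ≤ q) :
    Complex.exp (-(π : ℂ) * ((m * (q : ℤ) + (r : ℤ) : ℤ) : ℂ) ^ 2 * (t : ℂ)
        + 2 * π * Complex.I * (((m * (q : ℤ) + (r : ℤ) : ℤ) : ℂ) ^ 2 * ((a : ℂ) / (q : ℂ) + (β : ℂ)))) =
      (Complex.exp (2 * π * Complex.I * ((a : ℂ) * (r : ℂ) ^ 2 / q)) *
        Complex.exp (π * Complex.I * (r : ℂ) ^ 2 * (2 * (β : ℂ) + Complex.I * t))) *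
        jacobiTheta₂_term m (q * r * (2 * (β : ℂ) + Complex.I * t))
          ((q : ℂ) ^ 2 * (2 * (β : ℂ) + Complex.I * t)) := by
  have hq0 : (q : ℂ) ≠ 0 := by
    have : q ≠ 0 := by omega
    exact_mod_cast this
  have h1 := Complex.exp_int_mul_two_pi_mul_I (a * (m ^ 2 * q + 2 * m * r))
  rw [jacobiTheta₂_term, ← Complex.exp_add, ← Complex.exp_add]
  conv_rhs => rw [← one_mul (Complex.exp _), ← h1, ← Complex.exp_add]
  congr 1
  push_cast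
  have hI : Complex.I ^ 2 = -1 := Complex.I_sq
  field_simp
  linear_combination ((q : ℂ) * t * (m * q + r) ^ 2) * (-1 : ℂ) * hI

theorem th_tau_ne (t β : ℝ) (ht : 0 < t) : (2 * (β : ℂ) + Complex.I * t) ≠ 0 := by
  intro h
  have := congrArg Complex.im h
  simp at this
  exact ht.ne' this

theorem th_im (t β : ℝ) (ht : 0 < t) (q : ℕ) (hq : 1 ≤ q) :
    0 < ((-1 : ℂ) / ((q : ℂ) ^ 2 * (2 * (β : ℂ) + Complex.I * t))).im := by
  have hq0 : (0 : ℝ) < (q : ℝ) := by exact_mod_cast hq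
  have h0 : (q : ℂ) ^ 2 * (2 * (β : ℂ) + Complex.I * t) ≠ 0 := by
    apply mul_ne_zero _ (th_tau_ne t β ht)
    have : (q : ℂ) ≠ 0 := by
      have : q ≠ 0 := by omega
      exact_mod_cast this
    exact pow_ne_zero _ this
  have h1 : 0 < Complex.normSq ((q : ℂ) ^ 2 * (2 * (β : ℂ) + Complex.I * t)) :=
    Complex.normSq_pos.mpr h0
  rw [neg_div, Complex.neg_im, one_div, Complex.inv_im, neg_div, neg_neg]
  apply div_pos _ h1
  have hqc : (q : ℂ) ^ 2 = (((q : ℝ) ^ 2 : ℝ) : ℂ) := by push_cast; rfl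
  rw [hqc, Complex.im_ofReal_mul]
  have : (2 * (β : ℂ) + Complex.I * t).im = t := by simp
  rw [this]
  positivity

theorem th_rterm (t β : ℝ) (ht : 0 < t) (a l : ℤ) (q r : ℕ) (hq : 1 ≤ q) :
    ((1 / (q : ℂ)) * Complex.exp (2 * π * Complex.I * ((a * (r : ℤ) ^ 2 + l * (r : ℤ) : ℤ) : ℂ) / (q : ℂ)))
      * Complex.exp (-(π : ℂ) * (l : ℂ) ^ 2 / ((q : ℂ) ^ 2 * ((t : ℂ) - 2 * Complex.I * (β : ℂ)))) =
    ((1 / (q : ℂ)) * Complex.exp (2 * π * Complex.I * ((a : ℂ) * (r : ℂ) ^ 2 / q))) *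
      jacobiTheta₂_term l ((r : ℂ) / q) ((-1 : ℂ) / ((q : ℂ) ^ 2 * (2 * (β : ℂ) + Complex.I * t))) := by
  have hq0 : (q : ℂ) ≠ 0 := by
    have : q ≠ 0 := by omega
    exact_mod_cast this
  have h0 := th_tau_ne t β ht
  have hw : (t : ℂ) - 2 * Complex.I * (β : ℂ) = -Complex.I * (2 * (β : ℂ) + Complex.I * t) := by
    linear_combination (t : ℂ) * Complex.I_sq
  rw [mul_assoc (1 / (q : ℂ)) (Complex.exp _), mul_assoc (1 / (q : ℂ)) (Complex.exp _),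
    jacobiTheta₂_term, ← Complex.exp_add, ← Complex.exp_add]
  congr 2
  rw [hw]
  generalize (2 * (β : ℂ) + Complex.I * t) = τ at h0
  push_cast
  have hI : Complex.I ^ 2 = -1 := Complex.I_sq
  have hI0 : Complex.I ≠ 0 := Complex.I_ne_zero
  have e1 : -(π : ℂ) * (l : ℂ) ^ 2 / ((q : ℂ) ^ 2 * (-Complex.I * τ)) =
      π * Complex.I * (l : ℂ) ^ 2 * (-1 / ((q : ℂ) ^ 2 * τ)) := by
    field_simp
    linear_combination (l : ℂ) ^ 2 * hI
  rw [e1]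
  field_simp
  ring

theorem th_inner (t β : ℝ) (ht : 0 < t) (a : ℤ) (q r : ℕ) (hq : 1 ≤ q) :
    ∑' m : ℤ, Complex.exp (-(π : ℂ) * ((m * (q : ℤ) + (r : ℤ) : ℤ) : ℂ) ^ 2 * (t : ℂ)
        + 2 * π * Complex.I * (((m * (q : ℤ) + (r : ℤ) : ℤ) : ℂ) ^ 2 * ((a : ℂ) / (q : ℂ) + (β : ℂ)))) =
      1 / ((t : ℂ) - 2 * Complex.I * (β : ℂ)) ^ (1 / 2 : ℂ) * ∑' l : ℤ,
    ((1 / (q : ℂ)) * Complex.exp (2 * π * Complex.I * ((a * (r : ℤ) ^ 2 + l * (r : ℤ) : ℤ) : ℂ) / (q : ℂ)))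
      * Complex.exp (-(π : ℂ) * (l : ℂ) ^ 2 / ((q : ℂ) ^ 2 * ((t : ℂ) - 2 * Complex.I * (β : ℂ)))) := by
  have hq0 : (q : ℂ) ≠ 0 := by
    have : q ≠ 0 := by omega
    exact_mod_cast this
  have h0 := th_tau_ne t β ht
  simp_rw [th_term t β a _ q r hq, th_rterm t β ht a _ q r hq]
  rw [tsum_mul_left, tsum_mul_left]
  change _ * jacobiTheta₂ _ _ = _ * (_ * jacobiTheta₂ _ _)
  rw [jacobiTheta₂_functional_equation]
  have hw : -Complex.I * ((q : ℂ) ^ 2 * (2 * (β : ℂ) + Complex.I * t)) =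
      (q : ℂ) ^ 2 * ((t : ℂ) - 2 * Complex.I * (β : ℂ)) := by
    linear_combination (-(q : ℂ) ^ 2 * t) * Complex.I_sq
  have hw0 : (t : ℂ) - 2 * Complex.I * (β : ℂ) ≠ 0 := by
    intro h
    have h2 := congrArg Complex.re h
    simp at h2
    exact ht.ne' h2
  rw [hw, th_cpow q hq _ hw0]
  have e1 : (q : ℂ) * r * (2 * (β : ℂ) + Complex.I * t) / ((q : ℂ) ^ 2 * (2 * (β : ℂ) + Complex.I * t)) =
      (r : ℂ) / q := by
    field_simp
  have e2 : -(π : ℂ) * Complex.I * ((q : ℂ) * r * (2 * (β : ℂ) + Complex.I * t)) ^ 2 /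
      ((q : ℂ) ^ 2 * (2 * (β : ℂ) + Complex.I * t)) =
      -(π * Complex.I * (r : ℂ) ^ 2 * (2 * (β : ℂ) + Complex.I * t)) := by
    field_simp
  rw [e1, e2, Complex.exp_neg]
  have h3 := Complex.exp_ne_zero (π * Complex.I * (r : ℂ) ^ 2 * (2 * (β : ℂ) + Complex.I * t))
  generalize Complex.exp (π * Complex.I * (r : ℂ) ^ 2 * (2 * (β : ℂ) + Complex.I * t)) = X at h3
  generalize ((t : ℂ) - 2 * Complex.I * (β : ℂ)) ^ (1 / 2 : ℂ) = Y
  generalize Complex.exp (2 * π * Complex.I * ((a : ℂ) * (r : ℂ) ^ 2 / q)) = Z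
  generalize jacobiTheta₂ _ _ = J
  rw [one_div, one_div, one_div, mul_inv]
  field_simp

theorem th_summ (t β : ℝ) (ht : 0 < t) (a : ℤ) (q : ℕ) :
    Summable (fun k : ℤ => Complex.exp (-(π : ℂ) * (k : ℂ) ^ 2 * (t : ℂ)
        + 2 * π * Complex.I * ((k : ℂ) ^ 2 * ((a : ℂ) / (q : ℂ) + (β : ℂ))))) := by
  have h1 : Summable (fun k : ℤ => jacobiTheta₂_term k 0 (Complex.I * t)) := by
    rw [summable_jacobiTheta₂_term_iff]
    simpa using ht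
  apply Summable.of_norm_bounded h1.norm
  intro k
  rw [norm_jacobiTheta₂_term, Complex.norm_exp]
  apply le_of_eq
  congr 1
  have e : (-(π : ℂ) * (k : ℂ) ^ 2 * (t : ℂ)
        + 2 * π * Complex.I * ((k : ℂ) ^ 2 * ((a : ℂ) / (q : ℂ) + (β : ℂ)))) =
      ((-π * (k : ℝ) ^ 2 * t : ℝ) : ℂ) + ((2 * π * ((k : ℝ) ^ 2 * ((a : ℝ) / (q : ℝ) + β)) : ℝ) : ℂ)
        * Complex.I := by
    push_cast
    ring
  rw [e, Complex.add_re, Complex.re_ofReal_mul, Complex.I_re, Complex.ofReal_re]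
  simp

/-- theta transformation at a rational point: Poisson summation in residue classes -/
theorem theta (t : ℝ) (ht : 0 < t) (β : ℝ) (a : ℤ) (q : ℕ) (hq : 1 ≤ q) :
    ∑' k : ℤ, Complex.exp (-(π : ℂ) * (k : ℂ) ^ 2 * (t : ℂ)
        + 2 * π * Complex.I * ((k : ℂ) ^ 2 * ((a : ℂ) / (q : ℂ) + (β : ℂ)))) =
      1 / ((t : ℂ) - 2 * Complex.I * (β : ℂ)) ^ (1 / 2 : ℂ) *
        ∑' l : ℤ, G a l q *
          Complex.exp (-(π : ℂ) * (l : ℂ) ^ 2 / ((q : ℂ) ^ 2 * ((t : ℂ) - 2 * Complex.I * (β : ℂ)))) := by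
  have : NeZero q := ⟨by omega⟩
  have hs := th_summ t β ht a q
  set T : ℤ → ℂ := fun k : ℤ => Complex.exp (-(π : ℂ) * (k : ℂ) ^ 2 * (t : ℂ)
        + 2 * π * Complex.I * ((k : ℂ) ^ 2 * ((a : ℂ) / (q : ℂ) + (β : ℂ)))) with hT
  have e : Fin q × ℤ ≃ ℤ := (Equiv.prodComm _ _).trans (Int.divModEquiv q).symm
  have h1 : ∑' k : ℤ, T k = ∑ r : Fin q, ∑' m : ℤ, T (m * (q : ℤ) + ((r : ℕ) : ℤ)) := by
    have h2 : ∑' k : ℤ, T k =
        ∑' p : Fin q × ℤ, T (((Equiv.prodComm (Fin q) ℤ).trans (Int.divModEquiv q).symm) p) :=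
      (Equiv.tsum_eq _ _).symm
    have h3 : Summable (fun p : Fin q × ℤ =>
        T (((Equiv.prodComm (Fin q) ℤ).trans (Int.divModEquiv q).symm) p)) :=
      (Equiv.summable_iff ((Equiv.prodComm (Fin q) ℤ).trans (Int.divModEquiv q).symm)).mpr hs
    rw [h2, h3.tsum_prod, tsum_fintype]
    rfl
  rw [h1]
  have h4 : ∀ r : Fin q, ∑' m : ℤ, T (m * (q : ℤ) + ((r : ℕ) : ℤ)) =
      1 / ((t : ℂ) - 2 * Complex.I * (β : ℂ)) ^ (1 / 2 : ℂ) * ∑' l : ℤ,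
    ((1 / (q : ℂ)) * Complex.exp (2 * π * Complex.I *
      ((a * (((r : ℕ) : ℤ)) ^ 2 + l * ((r : ℕ) : ℤ) : ℤ) : ℂ) / (q : ℂ)))
      * Complex.exp (-(π : ℂ) * (l : ℂ) ^ 2 / ((q : ℂ) ^ 2 * ((t : ℂ) - 2 * Complex.I * (β : ℂ)))) :=
    fun r => th_inner t β ht a q r hq
  rw [Finset.sum_congr rfl (fun r _ => h4 r), ← Finset.mul_sum, ← Summable.tsum_finsetSum]
  · congr 1
    apply tsum_congr
    intro l
    rw [← Finset.sum_mul]
    congr 1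
    unfold G
    rw [Finset.sum_range, Finset.mul_sum]
  · intro r _
    have h5 := fun l => th_rterm t β ht a l q r hq
    simp_rw [h5]
    apply Summable.mul_left
    rw [summable_jacobiTheta₂_term_iff]
    exact th_im t β ht q hq

end Pool.Agent.Helper380.VDCX.J06
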