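import Mathlib
import Pool.Agent.Helper380.VDC.Defs

set_option autoImplicit false

namespace Pool.Agent.Helper380.VDCX.J07

open Real Finset







/-- the nonzero frequencies are small: everything but the `l = 0` term -/
theorem dual_bound (t : ℝ) (ht : 0 < t) (β : ℝ) (q : ℕ) (hq : 1 ≤ q) (g : ℤ → ℂ) (M : ℝ)
    (hM : ∀ l, ‖g l‖ ≤ M) :
    Summable (fun l : ℤ => g l *
      Complex.exp (-(π : ℂ) * (l : ℂ) ^ 2 / ((q : ℂ) ^ 2 * ((t : ℂ) - 2 * Complex.I * (β : ℂ))))) ∧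
    ‖∑' l : ℤ, g l *
      Complex.exp (-(π : ℂ) * (l : ℂ) ^ 2 / ((q : ℂ) ^ 2 * ((t : ℂ) - 2 * Complex.I * (β : ℂ)))) - g 0‖
      ≤ M * ((q : ℝ) ^ 2 * (t + 4 * β ^ 2 / t)) := by
  have hq0 : (0 : ℝ) < q := by exact_mod_cast (lt_of_lt_of_le one_pos hq)
  have hM0 : 0 ≤ M := (norm_nonneg _).trans (hM 0)
  obtain ⟨Y, hY⟩ : ∃ Y : ℝ, Y = t / ((q : ℝ) ^ 2 * (t ^ 2 + 4 * β ^ 2)) := ⟨_, rfl⟩
  have hden : 0 < (q : ℝ) ^ 2 * (t ^ 2 + 4 * β ^ 2) := by positivity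
  have hY0 : 0 < Y := by rw [hY]; positivity
  obtain ⟨a, ha⟩ : ∃ a : ℝ, a = Real.exp (-(π * Y)) := ⟨_, rfl⟩
  have ha0 : 0 < a := by rw [ha]; exact Real.exp_pos _
  have ha1 : a < 1 := by
    rw [ha, ← Real.exp_zero]
    exact Real.exp_lt_exp.2 (by have := mul_pos Real.pi_pos hY0; linarith)
  have hnorm : ∀ l : ℤ, ‖Complex.exp (-(π : ℂ) * (l : ℂ) ^ 2 /
      ((q : ℂ) ^ 2 * ((t : ℂ) - 2 * Complex.I * (β : ℂ))))‖ = Real.exp (-(π * ((l : ℝ) ^ 2 * Y))) := by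
    intro l
    rw [Complex.norm_exp]
    congr 1
    have hne : (t : ℂ) - 2 * Complex.I * (β : ℂ) ≠ 0 := by
      intro h
      have := congrArg Complex.re h
      simp at this
      exact ht.ne' this
    have hne2 : (t : ℂ) + 2 * Complex.I * (β : ℂ) ≠ 0 := by
      intro h
      have := congrArg Complex.re h
      simp at this
      exact ht.ne' this
    have hqC : (q : ℂ) ≠ 0 := by exact_mod_cast hq0.ne'
    have hprod : ((t : ℂ) - 2 * Complex.I * (β : ℂ)) * ((t : ℂ) + 2 * Complex.I * (β : ℂ)) =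
        ((t ^ 2 + 4 * β ^ 2 : ℝ) : ℂ) := by
      push_cast
      ring_nf
      rw [Complex.I_sq]
      ring
    have hreal : ((t ^ 2 + 4 * β ^ 2 : ℝ) : ℂ) ≠ 0 := by
      rw [← hprod]; exact mul_ne_zero hne hne2
    have h1 : -(π : ℂ) * (l : ℂ) ^ 2 / ((q : ℂ) ^ 2 * ((t : ℂ) - 2 * Complex.I * (β : ℂ))) =
        ((-(π * (l : ℝ) ^ 2) / ((q : ℝ) ^ 2 * (t ^ 2 + 4 * β ^ 2)) : ℝ) : ℂ) *
          ((t : ℂ) + 2 * Complex.I * (β : ℂ)) := by
      have h2 : ((-(π * (l : ℝ) ^ 2) / ((q : ℝ) ^ 2 * (t ^ 2 + 4 * β ^ 2)) : ℝ) : ℂ) =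
          -(π : ℂ) * (l : ℂ) ^ 2 / ((q : ℂ) ^ 2 * (((t : ℂ) - 2 * Complex.I * (β : ℂ)) *
            ((t : ℂ) + 2 * Complex.I * (β : ℂ)))) := by
        rw [hprod]
        push_cast
        ring
      rw [h2]
      field_simp
    rw [h1, Complex.re_ofReal_mul]
    simp
    rw [hY]
    ring
  have hle : ∀ l : ℤ, Real.exp (-(π * ((l : ℝ) ^ 2 * Y))) ≤ a ^ l.natAbs := by
    intro l
    rw [ha, ← Real.exp_nat_mul]
    apply Real.exp_le_exp.2
    have h1 : (l.natAbs : ℝ) ≤ (l : ℝ) ^ 2 := by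
      have h2 : l.natAbs ≤ l.natAbs ^ 2 := Nat.le_self_pow (by norm_num) _
      have h3 : ((l.natAbs : ℕ) : ℝ) ≤ ((l.natAbs : ℕ) : ℝ) ^ 2 := by exact_mod_cast h2
      have h4 : ((l.natAbs : ℕ) : ℝ) ^ 2 = (l : ℝ) ^ 2 := by
        have h5 := Int.natAbs_sq l
        have h6 : (((l.natAbs : ℕ) : ℤ) ^ 2 : ℤ) = l ^ 2 := h5
        have h7 : ((((l.natAbs : ℕ) : ℤ) ^ 2 : ℤ) : ℝ) = ((l ^ 2 : ℤ) : ℝ) := by rw [h6]
        push_cast at h7
        simpa using h7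
      rw [h4] at h3
      exact h3
    have h3 := mul_le_mul_of_nonneg_right h1 (mul_pos Real.pi_pos hY0).le
    nlinarith
  have hgeo : HasSum (fun n : ℕ => a ^ (n + 1)) (a * (1 - a)⁻¹) := by
    have := (hasSum_geometric_of_lt_one ha0.le ha1).mul_left a
    simpa [pow_succ'] using this
  -- two-sided sum without the zero term
  have hh : HasSum (fun l : ℤ => if l = 0 then 0 else a ^ l.natAbs)
      (a * (1 - a)⁻¹ + a * (1 - a)⁻¹) := by
    apply HasSum.of_nat_of_neg_add_one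
    · have h1 : (fun n : ℕ => (fun n : ℕ => if ((n : ℤ)) = 0 then (0 : ℝ) else
          a ^ (n : ℤ).natAbs) (n + 1)) = fun n : ℕ => a ^ (n + 1) := by
        funext n
        simp only
        rw [if_neg (by push_cast; omega)]
        congr 1
      have h0 : HasSum (fun n : ℕ => (fun n : ℕ => if ((n : ℤ)) = 0 then (0 : ℝ) else
          a ^ (n : ℤ).natAbs) (n + 1)) (a * (1 - a)⁻¹) := by rw [h1]; exact hgeo
      have h2 := (hasSum_nat_add_iff (f := fun n : ℕ => if ((n : ℤ)) = 0 then (0 : ℝ) else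
          a ^ (n : ℤ).natAbs) 1).1 h0
      simpa using h2
    · have h1 : (fun n : ℕ => if (-((n : ℤ) + 1)) = 0 then (0 : ℝ) else
          a ^ (-((n : ℤ) + 1)).natAbs) = fun n : ℕ => a ^ (n + 1) := by
        funext n
        rw [if_neg (by omega)]
        congr 1
      rw [h1]
      exact hgeo
  obtain ⟨f, hf⟩ : ∃ f : ℤ → ℂ, f = fun l : ℤ => g l *
      Complex.exp (-(π : ℂ) * (l : ℂ) ^ 2 / ((q : ℂ) ^ 2 * ((t : ℂ) - 2 * Complex.I * (β : ℂ)))) :=
    ⟨_, rfl⟩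
  have hf0 : f 0 = g 0 := by rw [hf]; simp
  have hfn : ∀ l : ℤ, ‖f l‖ ≤ M * a ^ l.natAbs := by
    intro l
    rw [hf]
    simp only
    rw [norm_mul, hnorm l]
    exact mul_le_mul (hM l) (hle l) (Real.exp_pos _).le hM0
  have hbound : ∀ l : ℤ, ‖(if l = 0 then (0 : ℂ) else f l)‖ ≤
      M * (if l = 0 then 0 else a ^ l.natAbs) := by
    intro l
    by_cases hl : l = 0
    · simp [hl]
    · rw [if_neg hl, if_neg hl]; exact hfn l
  have hs0 : Summable (fun l : ℤ => if l = 0 then (0 : ℂ) else f l) :=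
    Summable.of_norm_bounded (hh.mul_left M).summable hbound
  have hs : Summable f := by
    have h1 : Summable (fun l : ℤ => if l = 0 then f 0 else (0 : ℂ)) :=
      (hasSum_ite_eq (0 : ℤ) (f 0)).summable
    have h2 := hs0.add h1
    refine h2.congr fun l => ?_
    by_cases hl : l = 0
    · simp [hl]
    · simp [hl]
  rw [← hf]
  refine ⟨hs, ?_⟩
  rw [hs.tsum_eq_add_tsum_ite 0, hf0, add_sub_cancel_left]
  refine (tsum_of_norm_bounded (hh.mul_left M) hbound).trans ?_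
  apply mul_le_mul_of_nonneg_left _ hM0
  have hx0 : 0 < π * Y := mul_pos Real.pi_pos hY0
  have h1 : a * (1 + π * Y) ≤ 1 := by
    have h2 : a * Real.exp (π * Y) = 1 := by rw [ha, ← Real.exp_add]; simp
    have h3 := Real.add_one_le_exp (π * Y)
    have h4 := mul_le_mul_of_nonneg_left h3 ha0.le
    linarith
  have h5 : a * (1 - a)⁻¹ ≤ 1 / (π * Y) := by
    rw [← div_eq_mul_inv, div_le_div_iff₀ (by linarith) hx0]
    linarith
  have h6 : 1 / (π * Y) + 1 / (π * Y) ≤ 1 / Y := by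
    have h7 : 1 / (π * Y) + 1 / (π * Y) = (2 / π) * (1 / Y) := by
      have := Real.pi_pos.ne'
      have := hY0.ne'
      field_simp
      norm_num
    rw [h7]
    have h8 : 2 / π ≤ 1 := by
      rw [div_le_one Real.pi_pos]; exact Real.two_le_pi
    have h9 : 0 ≤ 1 / Y := by positivity
    nlinarith
  have h10 : 1 / Y = (q : ℝ) ^ 2 * (t + 4 * β ^ 2 / t) := by
    rw [hY]
    have := ht.ne'
    have := hden.ne'
    have h11 : t ^ 2 + 4 * β ^ 2 ≠ 0 := by positivity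
    have h12 : (q : ℝ) ≠ 0 := hq0.ne'
    field_simp
  rw [← h10]
  linarith

end Pool.Agent.Helper380.VDCX.J07
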