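import Mathlib
import Pool.Agent.Helper380.VDC.Defs

set_option autoImplicit false

namespace Pool.Agent.Helper380.VDCX.J08

open Real Finset







/-- `F_d` at `a/q + β` is the archimedean factor times (Gauss sum + small error) -/
theorem F_expand
    (theta : ∀ (t : ℝ), 0 < t → ∀ (β : ℝ) (a : ℤ) (q : ℕ), 1 ≤ q →
      ∑' k : ℤ, Complex.exp (-(π : ℂ) * (k : ℂ) ^ 2 * (t : ℂ)
        + 2 * π * Complex.I * ((k : ℂ) ^ 2 * ((a : ℂ) / (q : ℂ) + (β : ℂ)))) =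
      1 / ((t : ℂ) - 2 * Complex.I * (β : ℂ)) ^ (1 / 2 : ℂ) *
        ∑' l : ℤ, G a l q *
          Complex.exp (-(π : ℂ) * (l : ℂ) ^ 2 / ((q : ℂ) ^ 2 * ((t : ℂ) - 2 * Complex.I * (β : ℂ)))))
    (dual_bound : ∀ (t : ℝ), 0 < t → ∀ (β : ℝ) (q : ℕ), 1 ≤ q → ∀ (g : ℤ → ℂ) (M : ℝ),
      (∀ l, ‖g l‖ ≤ M) →
      ‖∑' l : ℤ, g l *
        Complex.exp (-(π : ℂ) * (l : ℂ) ^ 2 / ((q : ℂ) ^ 2 * ((t : ℂ) - 2 * Complex.I * (β : ℂ)))) - g 0‖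
        ≤ M * ((q : ℝ) ^ 2 * (t + 4 * β ^ 2 / t)))
    (d N q : ℕ) (hd : 1 ≤ d) (hN : 1 ≤ N) (hq : 1 ≤ q) (a : ℤ) (β : ℝ) (M : ℝ)
    (hM : ∀ l, ‖G ((d : ℤ) ^ 2 * a) l q‖ ≤ M) :
    ∃ err : ℂ, ‖err‖ ≤ M * ((q : ℝ) ^ 2 * (d : ℝ) ^ 2 * (1 / (N : ℝ) ^ 2 + 4 * β ^ 2 * (N : ℝ) ^ 2)) ∧
      F d N ((a : ℝ) / (q : ℝ) + β) = Ar N β * (G ((d : ℤ) ^ 2 * a) 0 q + err) := by
  have hd0 : (0 : ℝ) < d := by exact_mod_cast hd
  have hN0 : (0 : ℝ) < N := by exact_mod_cast hN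
  have hdC : (d : ℂ) ≠ 0 := by
    have : (d : ℝ) ≠ 0 := hd0.ne'
    exact_mod_cast this
  have hNC : (N : ℂ) ≠ 0 := by
    have : (N : ℝ) ≠ 0 := hN0.ne'
    exact_mod_cast this
  have hqC : (q : ℂ) ≠ 0 := by
    have : q ≠ 0 := by omega
    exact_mod_cast this
  set t : ℝ := (d : ℝ) ^ 2 / (N : ℝ) ^ 2 with ht
  have ht0 : 0 < t := by positivity
  set β' : ℝ := (d : ℝ) ^ 2 * β with hβ'
  set a' : ℤ := (d : ℤ) ^ 2 * a with ha'
  have hth := theta t ht0 β' a' q hq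
  have hdb := dual_bound t ht0 β' q hq (fun l => G a' l q) M hM
  refine ⟨(∑' l : ℤ, G a' l q *
        Complex.exp (-(π : ℂ) * (l : ℂ) ^ 2 / ((q : ℂ) ^ 2 * ((t : ℂ) - 2 * Complex.I * (β' : ℂ)))))
        - G a' 0 q, ?_, ?_⟩
  · refine hdb.trans (le_of_eq ?_)
    congr 1
    rw [ht, hβ']
    field_simp
  · have hF : F d N ((a : ℝ) / (q : ℝ) + β) = ((d : ℂ) / (N : ℂ)) *
        ∑' k : ℤ, Complex.exp (-(π : ℂ) * (k : ℂ) ^ 2 * (t : ℂ)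
        + 2 * π * Complex.I * ((k : ℂ) ^ 2 * ((a' : ℂ) / (q : ℂ) + (β' : ℂ)))) := by
      unfold F
      congr 1
      refine tsum_congr fun k => ?_
      congr 1
      rw [ht, hβ', ha']
      push_cast
      field_simp
    rw [hF, hth]
    have hz : (t : ℂ) - 2 * Complex.I * (β' : ℂ) =
        (((d : ℝ) / N) ^ 2 : ℝ) * (1 - 2 * Complex.I * (β : ℂ) * (N : ℂ) ^ 2) := by
      rw [ht, hβ']
      push_cast
      field_simp
    have hne : (1 - 2 * Complex.I * (β : ℂ) * (N : ℂ) ^ 2) ≠ 0 := by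
      intro h
      have := congrArg Complex.re h
      simp [← Complex.ofReal_natCast, ← Complex.ofReal_pow] at this
    have hcp : ((t : ℂ) - 2 * Complex.I * (β' : ℂ)) ^ (1 / 2 : ℂ) =
        ((d : ℂ) / N) * (1 - 2 * Complex.I * (β : ℂ) * (N : ℂ) ^ 2) ^ (1 / 2 : ℂ) := by
      have hr : 0 < ((d : ℝ) / N) ^ 2 := by positivity
      have h1 : ((((d : ℝ) / N) ^ 2 : ℝ) : ℂ) ^ (1 / 2 : ℂ) = (d : ℂ) / N := by
        have h2 := Complex.ofReal_cpow hr.le (1 / 2)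
        have h3 : (((d : ℝ) / N) ^ 2) ^ (1 / 2 : ℝ) = (d : ℝ) / N := by
          rw [← Real.sqrt_eq_rpow, Real.sqrt_sq (by positivity)]
        rw [h3] at h2
        have h4 : (((1 / 2 : ℝ)) : ℂ) = 1 / 2 := by push_cast; ring
        rw [h4] at h2
        rw [← h2]
        push_cast
        ring
      have hrC : ((((d : ℝ) / N) ^ 2 : ℝ) : ℂ) ≠ 0 := by exact_mod_cast hr.ne'
      rw [← h1, hz, Complex.cpow_def_of_ne_zero (mul_ne_zero hrC hne),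
        Complex.cpow_def_of_ne_zero hrC, Complex.cpow_def_of_ne_zero hne,
        Complex.log_ofReal_mul hr hne, Complex.ofReal_log hr.le, add_mul, Complex.exp_add]
    have hne2 : (1 - 2 * Complex.I * (β : ℂ) * (N : ℂ) ^ 2) ^ (1 / 2 : ℂ) ≠ 0 := by
      rw [Complex.cpow_ne_zero_iff_of_exponent_ne_zero (by norm_num)]
      exact hne
    rw [hcp]
    unfold Ar
    field_simp
    ring

end Pool.Agent.Helper380.VDCX.J08
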