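import Mathlib
import Pool.Agent.Helper380.VDC.Defs

set_option autoImplicit false

namespace Pool.Agent.Helper380.VDCX.Jk1

open Real Finset





theorem loc0_geom (r : ℝ) (hr0 : 0 ≤ r) (hr1 : r < 1) (n : ℕ) :
    ∑ k ∈ range n, r ^ (n - k) ≤ r / (1 - r) := by
  have h1r : 0 < 1 - r := by linarith
  induction n with
  | zero => simp only [range_zero, sum_empty]; positivity
  | succ n ih =>
    rw [sum_range_succ]
    have h1 : ∑ k ∈ range n, r ^ (n + 1 - k) = r * ∑ k ∈ range n, r ^ (n - k) := by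
      rw [mul_sum]
      apply sum_congr rfl
      intro k hk
      have hk' := mem_range.1 hk
      have h2 : n + 1 - k = (n - k) + 1 := by omega
      rw [h2, pow_succ]; ring
    have h3 : n + 1 - n = 1 := by omega
    rw [h1, h3, pow_one]
    have h4 : r * ∑ k ∈ range n, r ^ (n - k) ≤ r * (r / (1 - r)) :=
      mul_le_mul_of_nonneg_left ih hr0
    have h5 : r * (r / (1 - r)) + r = r / (1 - r) := by
      field_simp
      ring
    linarith

/-- geometric bound -/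
theorem loc0 (s : ℝ) (hs : 3 / 4 ≤ s) (hs1 : s < 1) (p : ℕ) (hp : 2 ≤ p) (n : ℕ) (h : ℕ → ℂ)
    (h2 : ∀ k, k < n → ‖h k‖ ≤ √2 * √(p : ℝ) / (p : ℝ) ^ (n - k)) :
    ∑ k ∈ range n, s ^ k * ‖h k‖ ≤ 6 / √(p : ℝ) * s ^ n := by
  have hs0 : 0 < s := by linarith
  have hp2 : (2 : ℝ) ≤ p := by exact_mod_cast hp
  have hp0 : (0 : ℝ) < p := by linarith
  have hsp : 3 / 2 ≤ s * p := by nlinarith
  have hsp0 : 0 < s * p := by positivity
  obtain ⟨r, hr⟩ : ∃ r : ℝ, r = 1 / (s * p) := ⟨_, rfl⟩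
  have hr0 : 0 < r := by rw [hr]; positivity
  have hr1 : r < 1 := by
    rw [hr, div_lt_one hsp0]; linarith
  obtain ⟨W, hW⟩ : ∃ W : ℝ, W = √(p : ℝ) := ⟨_, rfl⟩
  have hW0 : 0 < W := by rw [hW]; exact Real.sqrt_pos.2 hp0
  have hWW : W * W = p := by rw [hW]; exact Real.mul_self_sqrt hp0.le
  have h22 : √2 ≤ 3 / 2 := by
    rw [Real.sqrt_le_left (by norm_num)]; norm_num
  have h2nn : (0 : ℝ) ≤ √2 := Real.sqrt_nonneg 2
  have hterm : ∀ k ∈ range n, s ^ k * ‖h k‖ ≤ s ^ n * √2 * W * r ^ (n - k) := by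
    intro k hk
    have hk' := mem_range.1 hk
    have h3 := mul_le_mul_of_nonneg_left (h2 k hk') (pow_nonneg hs0.le k)
    refine h3.trans (le_of_eq ?_)
    have h4 : s ^ n = s ^ k * s ^ (n - k) := by
      rw [← pow_add]; congr 1; omega
    rw [h4, hr, div_pow, one_pow, mul_pow, ← hW]
    have h5 : s ^ (n - k) ≠ 0 := pow_ne_zero _ hs0.ne'
    have h6 : (p : ℝ) ^ (n - k) ≠ 0 := pow_ne_zero _ hp0.ne'
    field_simp
  have hsum : ∑ k ∈ range n, s ^ k * ‖h k‖ ≤ s ^ n * √2 * W * (r / (1 - r)) := by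
    refine (sum_le_sum hterm).trans ?_
    rw [← mul_sum]
    exact mul_le_mul_of_nonneg_left (loc0_geom r hr0.le hr1 n) (by positivity)
  have hrr : r / (1 - r) ≤ 4 / p := by
    have h7 : r / (1 - r) = 1 / (s * p - 1) := by
      rw [hr]
      have : s * p - 1 ≠ 0 := by linarith
      have h8 : (1 : ℝ) - 1 / (s * p) = (s * p - 1) / (s * p) := by
        field_simp
      rw [h8]
      field_simp
    rw [h7, div_le_div_iff₀ (by linarith) hp0]
    nlinarith
  have hfin : √2 * W * (4 / p) ≤ 6 / W := by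
    rw [← hWW, le_div_iff₀ hW0]
    have h9 : √2 * W * (4 / (W * W)) * W = 4 * √2 := by
      field_simp
    rw [h9]; linarith
  rw [← hW]
  calc ∑ k ∈ range n, s ^ k * ‖h k‖ ≤ s ^ n * √2 * W * (r / (1 - r)) := hsum
    _ ≤ s ^ n * √2 * W * (4 / p) := mul_le_mul_of_nonneg_left hrr (by positivity)
    _ = (√2 * W * (4 / p)) * s ^ n := by ring
    _ ≤ 6 / W * s ^ n := mul_le_mul_of_nonneg_right hfin (by positivity)

end Pool.Agent.Helper380.VDCX.Jk1
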