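import Mathlib
import Pool.Agent.Helper380.VDC.Defs

set_option autoImplicit false

namespace Pool.Agent.Helper380.VDCX.Jk2

open Real Finset





theorem loc_abs (s : ℝ) (hs : 3 / 4 ≤ s) (hs1 : s < 1) (p : ℕ) (hp : 2 ≤ p) (n K : ℕ) (h : ℕ → ℂ)
    (h1 : ∀ k, n ≤ k → h k = 1)
    (loc0 : ∑ k ∈ range n, s ^ k * ‖h k‖ ≤ 6 / √(p : ℝ) * s ^ n) :
    ∑ j ∈ range (K + 1), ‖cc s h j‖ ≤ if n = 0 then 1 else s ^ n * (1 + 12 / √(p : ℝ)) := by
  have hs0 : 0 ≤ s := by linarith
  by_cases hn : n = 0
  · rw [if_pos hn]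
    have hall : ∀ k, h k = 1 := fun k => h1 k (by omega)
    rw [Finset.sum_range_succ']
    have e1 : ∀ j, ‖cc s h (j + 1)‖ = 0 := by
      intro j
      unfold cc
      rw [if_neg (Nat.succ_ne_zero j), hall, hall]
      simp
    simp only [e1, Finset.sum_const_zero, zero_add]
    unfold cc
    rw [if_pos rfl, hall]
    simp
  · rw [if_neg hn]
    obtain ⟨a, ha⟩ : ∃ a : ℕ → ℝ, a = fun k => if k < n then s ^ k * ‖h k‖ else 0 := ⟨_, rfl⟩
    have ha0 : ∀ k, 0 ≤ a k := by
      intro k; rw [ha]; show 0 ≤ (if k < n then s ^ k * ‖h k‖ else 0)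
      split_ifs <;> positivity
    have hasum : ∀ m, ∑ j ∈ range m, a j ≤ ∑ k ∈ range n, s ^ k * ‖h k‖ := by
      intro m
      rw [ha]
      rw [← Finset.sum_filter]
      refine Finset.sum_le_sum_of_subset_of_nonneg ?_ (fun k _ _ => by positivity)
      intro k hk
      exact Finset.mem_range.2 (Finset.mem_filter.1 hk).2
    have hpt : ∀ j, ‖cc s h j‖ ≤ a j + (if j = 0 then 0 else s * a (j - 1)) +
        (if j = n then s ^ n else 0) := by
      intro j
      rcases Nat.eq_zero_or_pos j with hj | hj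
      · subst hj
        have e1 : a 0 = ‖h 0‖ := by
          rw [ha]; show (if 0 < n then s ^ 0 * ‖h 0‖ else 0) = _
          rw [if_pos (Nat.pos_of_ne_zero hn)]; simp
        have e2 : (0 : ℝ) ≤ (if (0:ℕ) = n then s ^ n else 0) := by split_ifs <;> positivity
        unfold cc
        rw [if_pos rfl, if_pos rfl, e1]
        linarith
      · have hj0 : j ≠ 0 := by omega
        unfold cc
        rw [if_neg hj0, if_neg hj0]
        rcases lt_trichotomy j n with hjn | hjn | hjn
        · have e1 : a j = s ^ j * ‖h j‖ := by rw [ha]; exact if_pos hjn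
          have e2 : a (j - 1) = s ^ (j - 1) * ‖h (j - 1)‖ := by rw [ha]; exact if_pos (by omega)
          rw [if_neg (by omega : j ≠ n), e1, e2, norm_mul, norm_pow, Complex.norm_real,
            Real.norm_of_nonneg hs0]
          have e3 : s * (s ^ (j - 1) * ‖h (j - 1)‖) = s ^ j * ‖h (j - 1)‖ := by
            rw [← mul_assoc, ← pow_succ', Nat.sub_add_cancel hj]
          rw [e3]
          have e4 := norm_sub_le (h j) (h (j - 1))
          have e5 : 0 ≤ s ^ j := by positivity
          nlinarith [mul_le_mul_of_nonneg_left e4 e5]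
        · subst hjn
          have e1 : a j = 0 := by rw [ha]; exact if_neg (lt_irrefl _)
          have e2 : a (j - 1) = s ^ (j - 1) * ‖h (j - 1)‖ := by rw [ha]; exact if_pos (by omega)
          rw [if_pos rfl, e1, e2, h1 j le_rfl, norm_mul, norm_pow, Complex.norm_real,
            Real.norm_of_nonneg hs0]
          have e3 : s * (s ^ (j - 1) * ‖h (j - 1)‖) = s ^ j * ‖h (j - 1)‖ := by
            rw [← mul_assoc, ← pow_succ', Nat.sub_add_cancel hj]
          rw [e3]
          have e4 := norm_sub_le (1 : ℂ) (h (j - 1))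
          rw [norm_one] at e4
          have e5 : 0 ≤ s ^ j := by positivity
          nlinarith [mul_le_mul_of_nonneg_left e4 e5]
        · rw [h1 j (by omega), h1 (j - 1) (by omega), if_neg (by omega : j ≠ n)]
          have e1 := ha0 j
          have e2 := mul_nonneg hs0 (ha0 (j - 1))
          simp only [sub_self, mul_zero, norm_zero]
          linarith
    have hsum1 : ∑ j ∈ range (K + 1), (if j = 0 then 0 else s * a (j - 1)) ≤
        ∑ k ∈ range n, s ^ k * ‖h k‖ := by
      rw [Finset.sum_range_succ', if_pos rfl, add_zero]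
      have e1 : ∀ j ∈ range K, (if j + 1 = 0 then 0 else s * a (j + 1 - 1)) = s * a j := by
        intro j _
        rw [if_neg (Nat.succ_ne_zero j), Nat.add_sub_cancel]
      rw [Finset.sum_congr rfl e1, ← Finset.mul_sum]
      have e2 := hasum K
      have e3 : 0 ≤ ∑ j ∈ range K, a j := Finset.sum_nonneg fun j _ => ha0 j
      nlinarith
    have hsum2 : ∑ j ∈ range (K + 1), (if j = n then s ^ n else 0) ≤ s ^ n := by
      rw [Finset.sum_ite_eq']
      split_ifs
      · exact le_rfl
      · positivity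
    calc ∑ j ∈ range (K + 1), ‖cc s h j‖ ≤ ∑ j ∈ range (K + 1),
          (a j + (if j = 0 then 0 else s * a (j - 1)) + (if j = n then s ^ n else 0)) :=
          Finset.sum_le_sum fun j _ => hpt j
      _ = ∑ j ∈ range (K + 1), a j + ∑ j ∈ range (K + 1), (if j = 0 then 0 else s * a (j - 1)) +
          ∑ j ∈ range (K + 1), (if j = n then s ^ n else 0) := by
        rw [Finset.sum_add_distrib, Finset.sum_add_distrib]
      _ ≤ 6 / √(p : ℝ) * s ^ n + 6 / √(p : ℝ) * s ^ n + s ^ n := by
        have := hasum (K + 1)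
        linarith
      _ = s ^ n * (1 + 12 / √(p : ℝ)) := by ring

theorem loc_sum (s : ℝ) (n K : ℕ) (hnK : n ≤ K) (h : ℕ → ℂ) (h1 : ∀ k, n ≤ k → h k = 1) :
    ∑ j ∈ range (K + 1), cc s h j = (s : ℂ) ^ n + (1 - (s : ℂ)) * ∑ k ∈ range n, (s : ℂ) ^ k * h k := by
  have htel : ∀ m, ∑ j ∈ range (m + 1), cc s h j =
      (s : ℂ) ^ m * h m + (1 - (s : ℂ)) * ∑ k ∈ range m, (s : ℂ) ^ k * h k := by
    intro m
    induction m with
    | zero => simp [cc]
    | succ m ih =>
      rw [Finset.sum_range_succ, ih, Finset.sum_range_succ _ m]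
      unfold cc
      rw [if_neg (Nat.succ_ne_zero m), Nat.add_sub_cancel]
      ring
  rw [htel]
  induction K, hnK using Nat.le_induction with
  | base => rw [h1 n le_rfl, mul_one]
  | succ K hK ih =>
    rw [← ih, h1 (K + 1) (by omega), h1 K hK, Finset.sum_range_succ, h1 K hK]
    ring

end Pool.Agent.Helper380.VDCX.Jk2
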