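import Mathlib
import Pool.Agent.Helper380.VDC.Defs

set_option autoImplicit false

namespace Pool.Agent.Helper380.VDCX.Jk3

open Real Finset





theorem trunc_full {ι : Type} [Fintype ι] [DecidableEq ι] (K : ℕ) (c : ι → ℕ → ℂ) (n : ι → ℕ)
    (hz : ∀ i j, n i < j → c i j = 0) (hK : ∑ i, n i ≤ K) :
    ∑ f ∈ (Fintype.piFinset fun _ : ι => range (K + 1)).filter (fun f => ∑ i, f i ≤ K),
      ∏ i, c i (f i) = ∏ i, ∑ j ∈ range (K + 1), c i j := by
  rw [Finset.prod_univ_sum]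
  refine Finset.sum_subset (Finset.filter_subset _ _) ?_
  intro f hf hnf
  rw [Finset.mem_filter, not_and, not_le] at hnf
  have h1 := hnf hf
  obtain ⟨i, hi⟩ : ∃ i, n i < f i := by
    by_contra hcon
    have hcon' : ∀ i, f i ≤ n i := fun i => not_lt.mp (fun h => hcon ⟨i, h⟩)
    have h2 : ∑ i, f i ≤ ∑ i, n i := Finset.sum_le_sum (fun i _ => hcon' i)
    omega
  exact Finset.prod_eq_zero (Finset.mem_univ i) (hz i (f i) hi)

theorem trunc_abs {ι : Type} [Fintype ι] [DecidableEq ι] (K : ℕ) (c : ι → ℕ → ℂ) :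
    ‖∑ f ∈ (Fintype.piFinset fun _ : ι => range (K + 1)).filter (fun f => ∑ i, f i ≤ K),
      ∏ i, c i (f i)‖ ≤ ∏ i, ∑ j ∈ range (K + 1), ‖c i j‖ := by
  refine le_trans (norm_sum_le _ _) ?_
  rw [Finset.prod_univ_sum]
  have h1 : ∑ f ∈ (Fintype.piFinset fun _ : ι => range (K + 1)).filter (fun f => ∑ i, f i ≤ K),
      ‖∏ i, c i (f i)‖ ≤ ∑ f ∈ (Fintype.piFinset fun _ : ι => range (K + 1)), ‖∏ i, c i (f i)‖ :=
    Finset.sum_le_sum_of_subset_of_nonneg (Finset.filter_subset _ _) (fun _ _ _ => norm_nonneg _)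
  refine le_trans h1 (le_of_eq ?_)
  refine Finset.sum_congr rfl (fun f _ => ?_)
  rw [norm_prod]

end Pool.Agent.Helper380.VDCX.Jk3
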