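import Mathlib
import Pool.Agent.Helper380.VDC.Defs

set_option autoImplicit false

namespace Pool.Agent.Helper380.VDCX.Jm1

open Real Finset















/-- dichotomy for the truncated Euler product -/
theorem comb_gen
    (loc0 : ∀ (s : ℝ), 3 / 4 ≤ s → s < 1 → ∀ (p : ℕ), 2 ≤ p → ∀ (n : ℕ) (h : ℕ → ℂ),
      (∀ k, k < n → ‖h k‖ ≤ √2 * √(p : ℝ) / (p : ℝ) ^ (n - k)) →
      ∑ k ∈ range n, s ^ k * ‖h k‖ ≤ 6 / √(p : ℝ) * s ^ n)
    (loc_abs : ∀ (s : ℝ), 3 / 4 ≤ s → s < 1 → ∀ (p : ℕ), 2 ≤ p → ∀ (n K : ℕ) (h : ℕ → ℂ),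
      (∀ k, n ≤ k → h k = 1) →
      (∑ k ∈ range n, s ^ k * ‖h k‖ ≤ 6 / √(p : ℝ) * s ^ n) →
      ∑ j ∈ range (K + 1), ‖cc s h j‖ ≤ if n = 0 then 1 else s ^ n * (1 + 12 / √(p : ℝ)))
    (loc_sum : ∀ (s : ℝ) (n K : ℕ), n ≤ K → ∀ (h : ℕ → ℂ), (∀ k, n ≤ k → h k = 1) →
      ∑ j ∈ range (K + 1), cc s h j = (s : ℂ) ^ n + (1 - (s : ℂ)) * ∑ k ∈ range n, (s : ℂ) ^ k * h k)
    {ι : Type} [Fintype ι] [DecidableEq ι]
    (trunc_full : ∀ (K : ℕ) (c : ι → ℕ → ℂ) (n : ι → ℕ), (∀ i j, n i < j → c i j = 0) →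
      ∑ i, n i ≤ K →
      ∑ f ∈ (Fintype.piFinset fun _ : ι => range (K + 1)).filter (fun f => ∑ i, f i ≤ K),
        ∏ i, c i (f i) = ∏ i, ∑ j ∈ range (K + 1), c i j)
    (trunc_abs : ∀ (K : ℕ) (c : ι → ℕ → ℂ),
      ‖∑ f ∈ (Fintype.piFinset fun _ : ι => range (K + 1)).filter (fun f => ∑ i, f i ≤ K),
        ∏ i, c i (f i)‖ ≤ ∏ i, ∑ j ∈ range (K + 1), ‖c i j‖)
    (p n : ι → ℕ) (hp : ∀ i, 2 ≤ p i) (s : ℝ) (hs : 3 / 4 ≤ s) (hs1 : s < 1)
    (h : ι → ℕ → ℂ)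
    (h1 : ∀ i, ∀ k, n i ≤ k → h i k = 1)
    (h2 : ∀ i, ∀ k, k < n i → ‖h i k‖ ≤ √2 * √(p i : ℝ) / (p i : ℝ) ^ (n i - k))
    (h3 : ∀ i k, ‖h i k‖ ≤ 1) (K : ℕ) (W : ℂ)
    (hW : W = ∑ f ∈ (Fintype.piFinset fun _ : ι => range (K + 1)).filter (fun f => ∑ i, f i ≤ K),
        ∏ i, cc s (h i) (f i)) :
    (∑ i, n i ≤ K → ‖W‖ ≤ 1 ∧ ∃ z : ι → ℂ, W = (s : ℂ) ^ (∑ i, n i) * ∏ i, (1 + z i) ∧
      ∀ i, ‖z i‖ ≤ (1 - s) * (if n i = 0 then 0 else 6 / √(p i : ℝ))) ∧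
    (K < ∑ i, n i →
      ‖W‖ ≤ ∏ i, (if n i = 0 then (1 : ℝ) else s ^ (n i) * (1 + 12 / √(p i : ℝ)))) := by
  have hs0 : 0 < s := by linarith
  have hsc : (s : ℂ) ≠ 0 := by exact_mod_cast hs0.ne'
  have hnormS : ‖(s : ℂ)‖ = s := by rw [Complex.norm_real, Real.norm_eq_abs, abs_of_pos hs0]
  have hnorm1S : ‖(1 - (s : ℂ))‖ = 1 - s := by
    rw [← Complex.ofReal_one, ← Complex.ofReal_sub, Complex.norm_real, Real.norm_eq_abs,
      abs_of_nonneg (by linarith)]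
  have hloc0 : ∀ i, ∑ k ∈ range (n i), s ^ k * ‖h i k‖ ≤ 6 / √(p i : ℝ) * s ^ (n i) :=
    fun i => loc0 s hs hs1 (p i) (hp i) (n i) (h i) (h2 i)
  constructor
  · intro hK
    have hnK : ∀ i, n i ≤ K := fun i =>
      le_trans (Finset.single_le_sum (f := n) (fun _ _ => Nat.zero_le _) (Finset.mem_univ i)) hK
    have hz : ∀ i j, n i < j → cc s (h i) j = 0 := by
      intro i j hij
      have hj : j ≠ 0 := by omega
      rw [cc, if_neg hj, h1 i j hij.le, h1 i (j - 1) (by omega), sub_self, mul_zero]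
    have hWp : W = ∏ i, ((s : ℂ) ^ (n i) + (1 - (s : ℂ)) * ∑ k ∈ range (n i), (s : ℂ) ^ k * h i k) := by
      rw [hW, trunc_full K (fun i => cc s (h i)) n hz hK]
      refine Finset.prod_congr rfl fun i _ => ?_
      exact loc_sum s (n i) K (hnK i) (h i) (h1 i)
    constructor
    · rw [hWp, norm_prod]
      apply Finset.prod_le_one (fun i _ => norm_nonneg _)
      intro i _
      calc ‖(s : ℂ) ^ (n i) + (1 - (s : ℂ)) * ∑ k ∈ range (n i), (s : ℂ) ^ k * h i k‖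
          ≤ ‖(s : ℂ) ^ (n i)‖ + ‖(1 - (s : ℂ)) * ∑ k ∈ range (n i), (s : ℂ) ^ k * h i k‖ :=
            norm_add_le _ _
        _ ≤ s ^ (n i) + (1 - s) * ∑ k ∈ range (n i), s ^ k := by
            rw [norm_pow, hnormS, norm_mul, hnorm1S]
            refine add_le_add le_rfl (mul_le_mul_of_nonneg_left ?_ (by linarith))
            refine le_trans (norm_sum_le _ _) (Finset.sum_le_sum fun k _ => ?_)
            rw [norm_mul, norm_pow, hnormS]
            calc s ^ k * ‖h i k‖ ≤ s ^ k * 1 :=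
                  mul_le_mul_of_nonneg_left (h3 i k) (pow_nonneg hs0.le k)
              _ = s ^ k := mul_one _
        _ = 1 := by rw [mul_neg_geom_sum]; ring
    · refine ⟨fun i => (1 - (s : ℂ)) * ((s : ℂ) ^ (n i))⁻¹ * ∑ k ∈ range (n i), (s : ℂ) ^ k * h i k,
        ?_, ?_⟩
      · rw [hWp, ← Finset.prod_pow_eq_pow_sum, ← Finset.prod_mul_distrib]
        refine Finset.prod_congr rfl fun i _ => ?_
        have hne : (s : ℂ) ^ (n i) ≠ 0 := pow_ne_zero _ hsc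
        field_simp
      · intro i
        by_cases hn : n i = 0
        · simp [hn]
        · rw [if_neg hn, norm_mul, norm_mul, hnorm1S, norm_inv, norm_pow, hnormS, mul_assoc]
          refine mul_le_mul_of_nonneg_left ?_ (by linarith)
          have hsp : 0 < s ^ (n i) := pow_pos hs0 _
          rw [inv_mul_le_iff₀ hsp]
          calc ‖∑ k ∈ range (n i), (s : ℂ) ^ k * h i k‖ ≤ ∑ k ∈ range (n i), s ^ k * ‖h i k‖ := by
                refine le_trans (norm_sum_le _ _) (Finset.sum_le_sum fun k _ => ?_)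
                rw [norm_mul, norm_pow, hnormS]
            _ ≤ 6 / √(p i : ℝ) * s ^ (n i) := hloc0 i
            _ = s ^ (n i) * (6 / √(p i : ℝ)) := mul_comm _ _
  · intro _
    rw [hW]
    refine le_trans (trunc_abs K (fun i => cc s (h i))) ?_
    apply Finset.prod_le_prod
    · intro i _
      exact Finset.sum_nonneg fun _ _ => norm_nonneg _
    · intro i _
      exact loc_abs s hs hs1 (p i) (hp i) (n i) K (h i) (h1 i) (hloc0 i)

end Pool.Agent.Helper380.VDCX.Jm1
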