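import Mathlib
import Pool.Agent.Helper380.VDC.Defs
import Pool.Agent.Helper380.VDC.J04
import Pool.Agent.Helper380.VDC.J05
import Pool.Agent.Helper380.VDC.J06
import Pool.Agent.Helper380.VDC.J07
import Pool.Agent.Helper380.VDC.J08
import Pool.Agent.Helper380.VDC.Jk1
import Pool.Agent.Helper380.VDC.Jk2
import Pool.Agent.Helper380.VDC.Jk3
import Pool.Agent.Helper380.VDC.Jm1

set_option autoImplicit false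

namespace Pool.Agent.Helper380.VDCX

open Real Finset

theorem F_expand3 (d N q : ℕ) (hd : 1 ≤ d) (hN : 1 ≤ N) (hq : 1 ≤ q) (a : ℤ) (β M : ℝ)
    (hM : ∀ l, ‖G ((d : ℤ) ^ 2 * a) l q‖ ≤ M) :
    ∃ err : ℂ, ‖err‖ ≤ M * ((q : ℝ) ^ 2 * (d : ℝ) ^ 2 * (1 / (N : ℝ) ^ 2 + 4 * β ^ 2 * (N : ℝ) ^ 2)) ∧
      F d N ((a : ℝ) / (q : ℝ) + β) = Ar N β * (G ((d : ℤ) ^ 2 * a) 0 q + err) :=
  J08.F_expand (fun t ht β a q hq => J06.theta t ht β a q hq)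
    (fun t ht β q hq g M hM => (J07.dual_bound t ht β q hq g M hM).2) d N q hd hN hq a β M hM

theorem G_dil3 (a l : ℤ) (q d : ℕ) (hq : 1 ≤ q) (hd : 1 ≤ d) (h : IsCoprime a (q : ℤ)) :
    ‖G ((d : ℤ) ^ 2 * a) l q‖ ≤ √2 * d / √(q : ℝ) :=
  J05.G_dil J04.G_norm_sq_le a l q d hq hd h

theorem comb3 {ι : Type} [Fintype ι] [DecidableEq ι] (p n : ι → ℕ) (hp : ∀ i, 2 ≤ p i) (s : ℝ)
    (hs : 3 / 4 ≤ s) (hs1 : s < 1) (h : ι → ℕ → ℂ)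
    (h1 : ∀ i, ∀ k, n i ≤ k → h i k = 1)
    (h2 : ∀ i, ∀ k, k < n i → ‖h i k‖ ≤ √2 * √(p i : ℝ) / (p i : ℝ) ^ (n i - k))
    (h3 : ∀ i k, ‖h i k‖ ≤ 1) (K : ℕ) (W : ℂ)
    (hW : W = ∑ f ∈ (Fintype.piFinset fun _ : ι => range (K + 1)).filter (fun f => ∑ i, f i ≤ K),
        ∏ i, cc s (h i) (f i)) :
    (∑ i, n i ≤ K → ‖W‖ ≤ 1 ∧ ∃ z : ι → ℂ, W = (s : ℂ) ^ (∑ i, n i) * ∏ i, (1 + z i) ∧
      ∀ i, ‖z i‖ ≤ (1 - s) * (if n i = 0 then 0 else 6 / √(p i : ℝ))) ∧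
    (K < ∑ i, n i →
      ‖W‖ ≤ ∏ i, (if n i = 0 then (1 : ℝ) else s ^ (n i) * (1 + 12 / √(p i : ℝ)))) :=
  Jm1.comb_gen Jk1.loc0 Jk2.loc_abs Jk2.loc_sum Jk3.trunc_full Jk3.trunc_abs p n hp s hs hs1 h h1 h2
    h3 K W hW


end Pool.Agent.Helper380.VDCX
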