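import Mathlib
import Pool.Agent.Helper380.VDC.Defs

set_option autoImplicit false

namespace Pool.Agent.Helper380.VDCX

open Real Finset

/-- weighted index set -/
def Jw (ι : Type) [Fintype ι] [DecidableEq ι] (u : ι → ℕ) (K : ℕ) : Finset ((ι → ℕ) × (ι → ℕ)) :=
  ((Fintype.piFinset fun _ : ι => range (K + 1)) ×ˢ (Fintype.piFinset fun _ : ι => range 2)).filter
    (fun fb => ∑ i, fb.1 i * u i ≤ K ∧ ∀ i, fb.2 i ≤ fb.1 i)

/-- coefficient with index-dependent `s` -/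
noncomputable def cg {ι : Type} [Fintype ι] (s : ι → ℝ) (fb : (ι → ℕ) × (ι → ℕ)) : ℝ :=
  ∏ i, ((-1 : ℝ) ^ (fb.2 i) * s i ^ (fb.1 i))

/-- mixture weights -/
noncomputable def wj (B : ℝ) (J j : ℕ) : ℝ :=
  if j = J then Real.exp (-(J : ℝ) * B) else Real.exp (-(j : ℝ) * B) * (1 - Real.exp (-B))

end Pool.Agent.Helper380.VDCX
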