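import Mathlib
import Pool.Agent.Helper380.VDC.Defs

set_option autoImplicit false

namespace Pool.Agent.Helper380.VDCX

open Real Finset

/-- `Q_j(z) = 1 - e^{-z} ∑_{i<j} z^i/i!` -/
noncomputable def QQ (j : ℕ) (z : ℂ) : ℂ :=
  1 - Complex.exp (-z) * ∑ i ∈ range j, z ^ i / (i.factorial : ℂ)

end Pool.Agent.Helper380.VDCX
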