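import Mathlib
import Pool.Agent.Helper380.VDC.Defs

set_option autoImplicit false

namespace Pool.Agent.Helper380.VDCX.J01

open Real Finset







/-- trivial bound -/
theorem G_norm_le_one (a l : ℤ) (q : ℕ) : ‖G a l q‖ ≤ 1 := by
  unfold G
  rcases Nat.eq_zero_or_pos q with rfl | hq
  · simp
  have hq0 : (0:ℝ) < q := by exact_mod_cast hq
  rw [norm_mul]
  have h1 : ‖(1 / (q : ℂ))‖ = 1 / (q : ℝ) := by
    rw [norm_div, norm_one, Complex.norm_natCast]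
  have h2 : ‖∑ r ∈ range q, Complex.exp (2 * π * Complex.I *
      ((a * (r : ℤ) ^ 2 + l * (r : ℤ) : ℤ) : ℂ) / (q : ℂ))‖ ≤ q := by
    refine (norm_sum_le _ _).trans ?_
    have h3 : ∀ r ∈ range q, ‖Complex.exp (2 * π * Complex.I *
      ((a * (r : ℤ) ^ 2 + l * (r : ℤ) : ℤ) : ℂ) / (q : ℂ))‖ = 1 := by
      intro r _
      have e : (2 * π * Complex.I * ((a * (r : ℤ) ^ 2 + l * (r : ℤ) : ℤ) : ℂ) / (q : ℂ)) =
          ((2 * π * ((a * (r : ℤ) ^ 2 + l * (r : ℤ) : ℤ) : ℝ) / (q : ℝ) : ℝ) : ℂ) *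
            Complex.I := by
        push_cast
        ring
      rw [e, Complex.norm_exp_ofReal_mul_I]
    rw [Finset.sum_congr rfl h3]
    simp
  rw [h1]
  calc 1 / (q : ℝ) * _ ≤ 1 / (q : ℝ) * q := by gcongr
    _ = 1 := by field_simp

/-- if `q ∣ a` then the (l = 0) sum is 1 -/
theorem G_of_dvd (a : ℤ) (q : ℕ) (hq : 1 ≤ q) (h : (q : ℤ) ∣ a) : G a 0 q = 1 := by
  obtain ⟨b, rfl⟩ := h
  have hq0 : (q : ℂ) ≠ 0 := by
    have : q ≠ 0 := by omega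
    exact_mod_cast this
  unfold G
  have h3 : ∀ r ∈ range q, Complex.exp (2 * π * Complex.I *
      (((q : ℤ) * b * (r : ℤ) ^ 2 + 0 * (r : ℤ) : ℤ) : ℂ) / (q : ℂ)) = 1 := by
    intro r _
    rw [Complex.exp_eq_one_iff]
    refine ⟨b * (r : ℤ) ^ 2, ?_⟩
    push_cast
    field_simp
    ring
  rw [Finset.sum_congr rfl h3]
  simp [hq0]

end Pool.Agent.Helper380.VDCX.J01
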