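import Mathlib
import Pool.Agent.Helper380.VDC.Defs

set_option autoImplicit false

namespace Pool.Agent.Helper380.VDCX.J02

open Real Finset







theorem G_mul_per (a : ℤ) (q : ℕ) (hq : 1 ≤ q) (r : ℕ) :
    Complex.exp (2 * π * Complex.I * ((a : ℂ) * (r : ℂ) ^ 2) / (q : ℂ)) =
      Complex.exp (2 * π * Complex.I * ((a : ℂ) * ((r % q : ℕ) : ℂ) ^ 2) / (q : ℂ)) := by
  have hq0 : (q : ℂ) ≠ 0 := by
    exact_mod_cast (by omega : q ≠ 0)
  have hr : r = q * (r / q) + r % q := (Nat.div_add_mod r q).symm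
  generalize r / q = k at hr
  generalize r % q = s at hr ⊢
  subst hr
  rw [Complex.exp_eq_exp_iff_exists_int]
  refine ⟨a * ((q : ℤ) * (k : ℤ) ^ 2 + 2 * (k : ℤ) * (s : ℤ)), ?_⟩
  push_cast
  field_simp
  ring

/-- Chinese remainder: additive decomposition gives exact multiplicativity -/
theorem G_mul (a b : ℤ) (q m : ℕ) (hq : 1 ≤ q) (hm : 1 ≤ m) (h : Nat.Coprime q m) :
    G (a * m + b * q) 0 (q * m) = G a 0 q * G b 0 m := by
  have hq0 : (q : ℂ) ≠ 0 := by exact_mod_cast (by omega : q ≠ 0)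
  have hm0 : (m : ℂ) ≠ 0 := by exact_mod_cast (by omega : m ≠ 0)
  have key : ∀ r : ℕ, Complex.exp (2 * π * Complex.I *
      (((a * m + b * q) * (r : ℤ) ^ 2 + 0 * (r : ℤ) : ℤ) : ℂ) / ((q * m : ℕ) : ℂ)) =
      Complex.exp (2 * π * Complex.I * ((a : ℂ) * ((r % q : ℕ) : ℂ) ^ 2) / (q : ℂ)) *
        Complex.exp (2 * π * Complex.I * ((b : ℂ) * ((r % m : ℕ) : ℂ) ^ 2) / (m : ℂ)) := by
    intro r
    rw [← G_mul_per a q hq r, ← G_mul_per b m hm r, ← Complex.exp_add]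
    congr 1
    push_cast
    field_simp
    ring
  have hsum : ∑ r ∈ range (q * m), Complex.exp (2 * π * Complex.I *
      (((a * m + b * q) * (r : ℤ) ^ 2 + 0 * (r : ℤ) : ℤ) : ℂ) / ((q * m : ℕ) : ℂ)) =
      ∑ p ∈ range q ×ˢ range m,
        Complex.exp (2 * π * Complex.I * ((a : ℂ) * ((p.1 : ℕ) : ℂ) ^ 2) / (q : ℂ)) *
        Complex.exp (2 * π * Complex.I * ((b : ℂ) * ((p.2 : ℕ) : ℂ) ^ 2) / (m : ℂ)) := by
    refine Finset.sum_bij (fun r _ => (r % q, r % m)) ?_ ?_ ?_ ?_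
    · intro r _
      simp only [mem_product, mem_range]
      exact ⟨Nat.mod_lt _ (by omega), Nat.mod_lt _ (by omega)⟩
    · intro r hr s hs hrs
      simp only [Prod.mk.injEq] at hrs
      have h1 : r ≡ s [MOD q * m] :=
        (Nat.modEq_and_modEq_iff_modEq_mul h).mp ⟨hrs.1, hrs.2⟩
      exact Nat.ModEq.eq_of_lt_of_lt h1 (mem_range.mp hr) (mem_range.mp hs)
    · rintro ⟨i, j⟩ hij
      simp only [mem_product, mem_range] at hij
      refine ⟨(Nat.chineseRemainder h i j : ℕ), mem_range.mpr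
        (Nat.chineseRemainder_lt_mul h i j (by omega) (by omega)), ?_⟩
      have h1 := (Nat.chineseRemainder h i j).2.1
      have h2 := (Nat.chineseRemainder h i j).2.2
      simp only [Prod.mk.injEq]
      exact ⟨Nat.mod_eq_of_modEq h1 hij.1, Nat.mod_eq_of_modEq h2 hij.2⟩
    · intro r _
      exact key r
  unfold G
  rw [hsum, Finset.sum_product]
  have e1 : ∀ (c : ℤ) (n : ℕ), ∑ r ∈ range n, Complex.exp (2 * π * Complex.I *
      ((c * (r : ℤ) ^ 2 + 0 * (r : ℤ) : ℤ) : ℂ) / (n : ℂ)) =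
      ∑ r ∈ range n, Complex.exp (2 * π * Complex.I * ((c : ℂ) * (r : ℂ) ^ 2) / (n : ℂ)) := by
    intro c n
    refine Finset.sum_congr rfl fun r _ => ?_
    congr 2
    push_cast
    ring
  rw [e1 a q, e1 b m]
  have e2 : ∑ x ∈ range q, ∑ y ∈ range m,
      Complex.exp (2 * π * Complex.I * ((a : ℂ) * ((x : ℕ) : ℂ) ^ 2) / (q : ℂ)) *
        Complex.exp (2 * π * Complex.I * ((b : ℂ) * ((y : ℕ) : ℂ) ^ 2) / (m : ℂ)) =
      (∑ r ∈ range q, Complex.exp (2 * π * Complex.I * ((a : ℂ) * (r : ℂ) ^ 2) / (q : ℂ))) *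
      (∑ r ∈ range m, Complex.exp (2 * π * Complex.I * ((b : ℂ) * (r : ℂ) ^ 2) / (m : ℂ))) := by
    rw [Finset.sum_mul_sum]
  rw [e2]
  push_cast
  field_simp

end Pool.Agent.Helper380.VDCX.J02
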