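import Mathlib
import Pool.Agent.Helper380.VDC.Defs

set_option autoImplicit false

namespace Pool.Agent.Helper380.VDCX.J03

open Real Finset







theorem aux_exp (q : ℕ) (hq : 1 ≤ q) (m n : ℤ) (h : m ≡ n [ZMOD q]) :
    Complex.exp (2 * π * Complex.I * (m : ℂ) / (q : ℂ)) =
      Complex.exp (2 * π * Complex.I * (n : ℂ) / (q : ℂ)) := by
  obtain ⟨k, hk⟩ := h.symm.dvd
  have hq0 : (q : ℂ) ≠ 0 := by exact_mod_cast (by omega : q ≠ 0)
  have hm : m = n + q * k := by linarith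
  subst hm
  have : (2 * π * Complex.I * ((n + q * k : ℤ) : ℂ) / (q : ℂ)) =
      2 * π * Complex.I * (n : ℂ) / (q : ℂ) + k * (2 * π * Complex.I) := by
    push_cast
    field_simp
  rw [this, Complex.exp_add, Complex.exp_int_mul_two_pi_mul_I, mul_one]

/-- multiplying by the square of a unit mod `q` does not change the sum -/
theorem G_sq_unit (a u : ℤ) (q : ℕ) (hq : 1 ≤ q) (h : IsCoprime u (q : ℤ)) :
    G (u ^ 2 * a) 0 q = G a 0 q := by
  obtain ⟨v, w, hvw⟩ := h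
  have hqpos : (0 : ℤ) < q := by exact_mod_cast hq
  have hq0 : (q : ℤ) ≠ 0 := hqpos.ne'
  unfold G
  congr 1
  have key : ∀ (s t : ℤ) (r : ℕ), (s * t ≡ 1 [ZMOD q]) → r ∈ range q →
      ((t * ((((s * (r : ℤ)) % q).toNat : ℕ) : ℤ)) % q).toNat = r := by
    intro s t r hst hr
    have h1 : (((s * (r : ℤ)) % q).toNat : ℤ) = (s * (r : ℤ)) % q :=
      Int.toNat_of_nonneg (Int.emod_nonneg _ hq0)
    rw [h1]
    have h2 : (t * ((s * (r : ℤ)) % q)) ≡ r [ZMOD q] := by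
      have h3 : (s * (r : ℤ)) % q ≡ s * r [ZMOD q] := Int.mod_modEq _ _
      calc t * ((s * (r : ℤ)) % q) ≡ t * (s * r) [ZMOD q] := h3.mul_left t
        _ = (s * t) * r := by ring
        _ ≡ 1 * r [ZMOD q] := hst.mul_right _
        _ = r := by ring
    have h4 : (t * ((s * (r : ℤ)) % q)) % q = r % q := h2
    rw [h4]
    have hr' : (r : ℤ) < q := by exact_mod_cast Finset.mem_range.mp hr
    rw [Int.emod_eq_of_lt (by positivity) hr']
    simp
  have hmem : ∀ (s : ℤ) (r : ℕ), ((s * (r : ℤ)) % q).toNat ∈ range q := by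
    intro s r
    rw [Finset.mem_range]
    have h1 := Int.emod_lt_of_pos (s * (r : ℤ)) hqpos
    have h2 := Int.emod_nonneg (s * (r : ℤ)) hq0
    omega
  have huv : u * v ≡ 1 [ZMOD q] := by
    have : (q : ℤ) ∣ 1 - u * v := ⟨w, by linarith⟩
    exact (Int.modEq_iff_dvd.mpr this)
  have hvu : v * u ≡ 1 [ZMOD q] := by rw [mul_comm]; exact huv
  refine Finset.sum_nbij' (fun r => ((u * (r : ℤ)) % q).toNat)
    (fun r => ((v * (r : ℤ)) % q).toNat) (fun r _ => hmem u r) (fun r _ => hmem v r)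
    (fun r hr => key u v r huv hr) (fun r hr => key v u r hvu hr) ?_
  intro r hr
  apply aux_exp q hq
  have h1 : ((((u * (r : ℤ)) % q).toNat : ℕ) : ℤ) = (u * (r : ℤ)) % q :=
    Int.toNat_of_nonneg (Int.emod_nonneg _ hq0)
  show u ^ 2 * a * (r : ℤ) ^ 2 + 0 * (r : ℤ) ≡
    a * ((((u * (r : ℤ)) % q).toNat : ℕ) : ℤ) ^ 2 + 0 * ((((u * (r : ℤ)) % q).toNat : ℕ) : ℤ) [ZMOD q]
  rw [h1]
  have h3 : (u * (r : ℤ)) % q ≡ u * r [ZMOD q] := Int.mod_modEq _ _
  have h5 : a * ((u * (r : ℤ)) % q) ^ 2 ≡ a * (u * r) ^ 2 [ZMOD q] := (h3.pow 2).mul_left a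
  have h6 : u ^ 2 * a * (r : ℤ) ^ 2 + 0 * (r : ℤ) = a * (u * r) ^ 2 := by ring
  rw [h6, zero_mul, add_zero]
  exact h5.symm

end Pool.Agent.Helper380.VDCX.J03
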