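import Mathlib
import Pool.Agent.Helper380.VDC.Defs

set_option autoImplicit false

namespace Pool.Agent.Helper380.VDCX.J09

open Real Finset







/-- elementary facts on the archimedean factor -/
theorem Ar_facts (N : ℕ) (β : ℝ) :
    ‖Ar N β‖ ≤ 1 ∧ |(Ar N β).im| ≤ (Ar N β).re ∧
      (∀ B : ℝ, 0 < B → B ≤ |β| * (N : ℝ) ^ 2 → ‖Ar N β‖ ≤ 1 / √(2 * B)) := by
  set z : ℂ := 1 - 2 * Complex.I * (β : ℂ) * (N : ℂ) ^ 2 with hz
  have hzre : z.re = 1 := by
    rw [hz]
    have : (2 * Complex.I * (β : ℂ) * (N : ℂ) ^ 2) = ((2 * β * (N : ℝ) ^ 2 : ℝ) : ℂ) * Complex.I := by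
      push_cast; ring
    rw [this, Complex.sub_re, Complex.one_re, Complex.re_ofReal_mul, Complex.I_re]
    ring
  have hzim : z.im = -(2 * β * (N : ℝ) ^ 2) := by
    rw [hz]
    have : (2 * Complex.I * (β : ℂ) * (N : ℂ) ^ 2) = ((2 * β * (N : ℝ) ^ 2 : ℝ) : ℂ) * Complex.I := by
      push_cast; ring
    rw [this]
    simp only [Complex.sub_im, Complex.one_im, Complex.mul_im, Complex.ofReal_re, Complex.I_im,
      Complex.ofReal_im, Complex.I_re]
    ring
  have hz0 : z ≠ 0 := by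
    intro h
    rw [h] at hzre
    simp at hzre
  set w : ℂ := z ^ (1 / 2 : ℂ) with hw
  have hw2 : w ^ 2 = z := by
    rw [hw]
    have h2 : (1 / 2 : ℂ) = ((2 : ℕ) : ℂ)⁻¹ := by norm_num
    rw [h2]
    exact Complex.cpow_nat_inv_pow z (by norm_num)
  have hAr : Ar N β = 1 / w := by
    rw [hw, hz]; rfl
  have hw0 : w ≠ 0 := by
    intro h
    rw [h] at hw2
    apply hz0
    rw [← hw2]; norm_num
  have hre : 0 ≤ w.re := by
    rw [hw, Complex.cpow_def_of_ne_zero hz0, Complex.exp_re]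
    apply mul_nonneg (Real.exp_pos _).le
    apply Real.cos_nonneg_of_mem_Icc
    have h1 : (Complex.log z * (1 / 2 : ℂ)).im = Complex.arg z / 2 := by
      have : (Complex.log z * (1 / 2 : ℂ)) = Complex.log z * ((1 / 2 : ℝ) : ℂ) := by push_cast; ring
      rw [this, Complex.im_mul_ofReal, Complex.log_im]
      ring
    rw [h1]
    have h2 := Complex.neg_pi_lt_arg z
    have h3 := Complex.arg_le_pi z
    constructor <;> linarith
  have hsq : w.re ^ 2 - w.im ^ 2 = 1 := by
    have h := congrArg Complex.re hw2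
    rw [hzre] at h
    rw [← h, sq w, Complex.mul_re]
    ring
  have hnw : ‖w‖ ^ 2 = ‖z‖ := by
    rw [← hw2, norm_pow]
  have hnz1 : 1 ≤ ‖z‖ := by
    have := Complex.abs_re_le_norm z
    rw [hzre] at this
    simpa using this
  have hnw0 : 0 < ‖w‖ := norm_pos_iff.mpr hw0
  have hnA : ‖Ar N β‖ = 1 / ‖w‖ := by
    rw [hAr, norm_div, norm_one]
  refine ⟨?_, ?_, ?_⟩
  · rw [hnA, div_le_one hnw0]
    nlinarith
  · rw [hAr, one_div, Complex.inv_re, Complex.inv_im]
    have hn : 0 < Complex.normSq w := Complex.normSq_pos.mpr hw0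
    rw [abs_div, abs_of_pos hn, abs_neg]
    apply div_le_div_of_nonneg_right _ hn.le
    apply abs_le_of_sq_le_sq _ hre
    linarith
  · intro B hB hBle
    have hz2 : 2 * B ≤ ‖z‖ := by
      have h1 := Complex.abs_im_le_norm z
      rw [hzim, abs_neg, abs_mul, abs_mul, abs_of_pos (show (0:ℝ) < 2 by norm_num),
        abs_of_nonneg (show (0:ℝ) ≤ (N : ℝ) ^ 2 by positivity)] at h1
      nlinarith
    rw [hnA]
    have hs : √(2 * B) ≤ ‖w‖ := by
      rw [← Real.sqrt_sq hnw0.le, hnw]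
      exact Real.sqrt_le_sqrt hz2
    exact one_div_le_one_div_of_le (Real.sqrt_pos.mpr (by positivity)) hs

end Pool.Agent.Helper380.VDCX.J09
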