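import Mathlib
import Pool.Agent.Helper380.VDC.Defs

set_option autoImplicit false

namespace Pool.Agent.Helper380.VDCX.J10a

open Real Finset







/-- minor arcs -/
theorem minor
    (G_le : ∀ (a l : ℤ) (q : ℕ), ‖G a l q‖ ≤ 1)
    (G_dil : ∀ (a l : ℤ) (q d : ℕ), 1 ≤ q → 1 ≤ d → IsCoprime a (q : ℤ) →
      ‖G ((d : ℤ) ^ 2 * a) l q‖ ≤ √2 * d / √(q : ℝ))
    (F_expand : ∀ (d N q : ℕ), 1 ≤ d → 1 ≤ N → 1 ≤ q → ∀ (a : ℤ) (β M : ℝ),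
      (∀ l, ‖G ((d : ℤ) ^ 2 * a) l q‖ ≤ M) →
      ∃ err : ℂ, ‖err‖ ≤ M * ((q : ℝ) ^ 2 * (d : ℝ) ^ 2 * (1 / (N : ℝ) ^ 2 + 4 * β ^ 2 * (N : ℝ) ^ 2)) ∧
        F d N ((a : ℝ) / (q : ℝ) + β) = Ar N β * (G ((d : ℤ) ^ 2 * a) 0 q + err))
    (Ar_facts : ∀ (N : ℕ) (β : ℝ), ‖Ar N β‖ ≤ 1 ∧ |(Ar N β).im| ≤ (Ar N β).re ∧
      (∀ B : ℝ, 0 < B → B ≤ |β| * (N : ℝ) ^ 2 → ‖Ar N β‖ ≤ 1 / √(2 * B)))
    (A D N q d : ℕ) (hA : 1 ≤ A) (hD : 1 ≤ D) (hN : 1 ≤ N) (hq : 1 ≤ q) (hd : 1 ≤ d) (hdD : d ≤ D)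
    (ε : ℝ) (hε : 0 < ε) (hε1 : ε ≤ 1) (a : ℤ) (hcop : IsCoprime a (q : ℤ)) (β : ℝ)
    (hqN : q ≤ N) (hβ : |β| ≤ 1 / (((N : ℝ) + 1) * q))
    (h : 162 * ((A : ℝ) * D / ε) ^ 6 < q ∨ 162 * ((A : ℝ) * D / ε) ^ 6 ≤ |β| * (N : ℝ) ^ 2) :
    ‖F d N ((a : ℝ) / (q : ℝ) + β)‖ ≤ ε / A := by
  have hA' : (1:ℝ) ≤ A := by exact_mod_cast hA
  have hD' : (1:ℝ) ≤ D := by exact_mod_cast hD
  have hN' : (1:ℝ) ≤ N := by exact_mod_cast hN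
  have hq' : (1:ℝ) ≤ q := by exact_mod_cast hq
  have hd' : (1:ℝ) ≤ d := by exact_mod_cast hd
  have hdD' : (d:ℝ) ≤ D := by exact_mod_cast hdD
  have hqN' : (q:ℝ) ≤ N := by exact_mod_cast hqN
  set X : ℝ := (A : ℝ) * D / ε with hX
  have hX0 : 0 < X := by positivity
  have hX1 : 1 ≤ X := by
    rw [hX, le_div_iff₀ hε]
    nlinarith
  have hDX : (D:ℝ) / X = ε / A := by
    rw [hX]; field_simp
  set y : ℝ := ε / A with hy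
  have hy0 : 0 < y := by positivity
  have hy1 : y ≤ 1 := by
    rw [hy, div_le_one (by positivity)]
    linarith
  have hr0 : 0 ≤ ‖Ar N β‖ := norm_nonneg _
  have hr1 := (Ar_facts N β).1
  -- the error factor
  have herr : (q : ℝ) ^ 2 * (d : ℝ) ^ 2 * (1 / (N : ℝ) ^ 2 + 4 * β ^ 2 * (N : ℝ) ^ 2) ≤ 5 * (D:ℝ)^2 := by
    have h1 : (q:ℝ)^2 / (N:ℝ)^2 ≤ 1 := by
      rw [div_le_one (by positivity)]
      exact pow_le_pow_left₀ (by positivity) hqN' 2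
    have h2 : (q:ℝ) * |β| * N ≤ 1 := by
      calc (q:ℝ) * |β| * N ≤ (q:ℝ) * (1 / (((N : ℝ) + 1) * q)) * N := by gcongr
        _ = N / (N + 1) := by field_simp
        _ ≤ 1 := by
          rw [div_le_one (by positivity)]
          linarith
    have h3 : (q:ℝ)^2 * β^2 * (N:ℝ)^2 ≤ 1 := by
      have h4 : (q:ℝ)^2 * β^2 * (N:ℝ)^2 = ((q:ℝ) * |β| * N)^2 := by
        rw [mul_pow, mul_pow, sq_abs]
      rw [h4]
      exact pow_le_one₀ (by positivity) h2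
    have h5 : (d:ℝ)^2 ≤ (D:ℝ)^2 := pow_le_pow_left₀ (by positivity) hdD' 2
    calc (q : ℝ) ^ 2 * (d : ℝ) ^ 2 * (1 / (N : ℝ) ^ 2 + 4 * β ^ 2 * (N : ℝ) ^ 2)
        = (d:ℝ)^2 * ((q:ℝ)^2 / (N:ℝ)^2 + 4 * ((q:ℝ)^2 * β^2 * (N:ℝ)^2)) := by ring
      _ ≤ (D:ℝ)^2 * (1 + 4 * 1) := by gcongr
      _ = _ := by ring
  have hmain : ∀ M : ℝ, (∀ l, ‖G ((d : ℤ) ^ 2 * a) l q‖ ≤ M) →
      ‖F d N ((a : ℝ) / (q : ℝ) + β)‖ ≤ 6 * (D:ℝ)^2 * M * ‖Ar N β‖ := by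
    intro M hM
    have hM0 : 0 ≤ M := (norm_nonneg _).trans (hM 0)
    obtain ⟨err, he, hF⟩ := F_expand d N q hd hN hq a β M hM
    rw [hF, norm_mul]
    have h1 : ‖G ((d : ℤ) ^ 2 * a) 0 q + err‖ ≤ M + M * (5 * (D:ℝ)^2) := by
      refine (norm_add_le _ _).trans (add_le_add (hM 0) (he.trans ?_))
      exact mul_le_mul_of_nonneg_left herr hM0
    have h2 : M + M * (5 * (D:ℝ)^2) ≤ 6 * (D:ℝ)^2 * M := by
      have h3 : (1:ℝ) ≤ (D:ℝ)^2 := one_le_pow₀ hD'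
      nlinarith
    calc ‖Ar N β‖ * ‖G ((d : ℤ) ^ 2 * a) 0 q + err‖ ≤ ‖Ar N β‖ * (6 * (D:ℝ)^2 * M) :=
          mul_le_mul_of_nonneg_left (h1.trans h2) hr0
      _ = _ := by ring
  rcases h with h | h
  · -- large denominator
    have hsq : 9 * √2 * X^3 ≤ √(q:ℝ) := by
      apply Real.le_sqrt_of_sq_le
      have h1 : (9 * √2 * X^3)^2 = 162 * X^6 := by
        have h2 : √2 ^ 2 = (2:ℝ) := Real.sq_sqrt (by norm_num)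
        calc (9 * √2 * X^3)^2 = 81 * (√2 ^ 2) * X^6 := by ring
          _ = _ := by rw [h2]; ring
      rw [h1]
      exact h.le
    have h2pos : 0 < √(2:ℝ) := Real.sqrt_pos.2 (by norm_num)
    have h1 := hmain (√2 * d / √(q : ℝ)) (fun l => G_dil a l q d hq hd hcop)
    have h2 : √2 * d / √(q : ℝ) ≤ (D:ℝ) / (9 * X^3) := by
      rw [div_le_div_iff₀ (by positivity) (by positivity)]
      calc √2 * d * (9 * X^3) = d * (9 * √2 * X^3) := by ring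
        _ ≤ D * √(q:ℝ) := by gcongr
    calc ‖F d N ((a : ℝ) / (q : ℝ) + β)‖ ≤ 6 * (D:ℝ)^2 * (√2 * d / √(q : ℝ)) * ‖Ar N β‖ := h1
      _ ≤ 6 * (D:ℝ)^2 * ((D:ℝ) / (9 * X^3)) * 1 := by gcongr
      _ = (2/3) * ((D:ℝ)/X)^3 := by field_simp; ring
      _ ≤ y := by
        rw [hDX]
        nlinarith [mul_pos hy0 hy0, mul_nonneg hy0.le (sub_nonneg.2 hy1),
          mul_nonneg (mul_pos hy0 hy0).le (sub_nonneg.2 hy1)]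
  · have h1 := hmain 1 (fun l => G_le _ _ _)
    have h2 := (Ar_facts N β).2.2 (162 * X^6) (by positivity) h
    have h3 : √(2 * (162 * X^6)) = 18 * X^3 := by
      rw [show 2 * (162 * X^6) = (18 * X^3)^2 by ring]
      exact Real.sqrt_sq (by positivity)
    rw [h3] at h2
    calc ‖F d N ((a : ℝ) / (q : ℝ) + β)‖ ≤ 6 * (D:ℝ)^2 * 1 * ‖Ar N β‖ := h1
      _ ≤ 6 * (D:ℝ)^2 * 1 * (1 / (18 * X^3)) := by gcongr
      _ = (1/3) * ((D:ℝ)/X)^2 * (1/X) := by field_simp; ring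
      _ ≤ (1/3) * ((D:ℝ)/X)^2 * 1 := by
        gcongr
        rw [div_le_one hX0]
        exact hX1
      _ ≤ y := by
        rw [hDX]
        nlinarith [mul_pos hy0 hy0, mul_nonneg hy0.le (sub_nonneg.2 hy1)]

end Pool.Agent.Helper380.VDCX.J10a
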