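import Mathlib
import Pool.Agent.Helper380.VDC.Defs

set_option autoImplicit false

namespace Pool.Agent.Helper380.VDCX.J10b

open Real Finset







/-- major arcs: the error term is small (pure inequality) -/
theorem major_err (A D N q d : ℕ) (hA : 1 ≤ A) (hD : 1 ≤ D) (hN : 1 ≤ N) (hdD : d ≤ D)
    (ε : ℝ) (hε : 0 < ε) (hε1 : ε ≤ 1) (β : ℝ)
    (hq : (q : ℝ) ≤ 162 * ((A : ℝ) * D / ε) ^ 6)
    (hβ : |β| * (N : ℝ) ^ 2 ≤ 162 * ((A : ℝ) * D / ε) ^ 6)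
    (hNbig : (10 * ((A : ℝ) * D / ε)) ^ 13 ≤ (N : ℝ)) :
    1 * ((q : ℝ) ^ 2 * (d : ℝ) ^ 2 * (1 / (N : ℝ) ^ 2 + 4 * β ^ 2 * (N : ℝ) ^ 2)) ≤ ε / A := by
  have hA0 : (1:ℝ) ≤ A := by exact_mod_cast hA
  have hD0 : (1:ℝ) ≤ D := by exact_mod_cast hD
  have hN0 : (1:ℝ) ≤ N := by exact_mod_cast hN
  have hdD0 : (d:ℝ) ≤ D := by exact_mod_cast hdD
  have hNp : (0:ℝ) < N := by linarith
  obtain ⟨X, hX⟩ : ∃ X, X = (A : ℝ) * D / ε := ⟨_, rfl⟩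
  rw [← hX] at hq hβ hNbig
  have hXe : X * ε = A * D := by
    rw [hX]
    field_simp
  have hX1 : 1 ≤ X := by
    rw [hX, one_le_div hε]
    nlinarith
  obtain ⟨T, hT⟩ : ∃ T, T = 162 * X ^ 6 := ⟨_, rfl⟩
  rw [← hT] at hq hβ
  have hX6 : 1 ≤ X ^ 6 := one_le_pow₀ hX1
  have hT1 : 1 ≤ T := by rw [hT]; linarith
  have hT0 : 0 ≤ T := by linarith
  have h1 : (q : ℝ) ^ 2 ≤ T ^ 2 := pow_le_pow_left₀ (by positivity) hq 2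
  have h2 : (d : ℝ) ^ 2 ≤ (D : ℝ) ^ 2 := pow_le_pow_left₀ (by positivity) hdD0 2
  have h3 : β ^ 2 * (N : ℝ) ^ 2 ≤ T ^ 2 / (N : ℝ) ^ 2 := by
    rw [le_div_iff₀ (by positivity)]
    calc β ^ 2 * (N : ℝ) ^ 2 * (N : ℝ) ^ 2 = (|β| * (N : ℝ) ^ 2) ^ 2 := by
          rw [mul_pow, sq_abs]
          ring
      _ ≤ T ^ 2 := pow_le_pow_left₀ (by positivity) hβ 2
  have hTT : 1 ≤ T ^ 2 := one_le_pow₀ hT1
  have h4 : 1 / (N : ℝ) ^ 2 + 4 * β ^ 2 * (N : ℝ) ^ 2 ≤ 5 * T ^ 2 / (N : ℝ) ^ 2 := by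
    have e1 : 1 / (N : ℝ) ^ 2 ≤ T ^ 2 / (N : ℝ) ^ 2 := by gcongr
    have e2 : 5 * T ^ 2 / (N : ℝ) ^ 2 = T ^ 2 / (N : ℝ) ^ 2 + 4 * (T ^ 2 / (N : ℝ) ^ 2) := by
      ring
    rw [e2]
    have e3 : 4 * β ^ 2 * (N : ℝ) ^ 2 = 4 * (β ^ 2 * (N : ℝ) ^ 2) := by ring
    rw [e3]
    linarith
  have h5 : (q : ℝ) ^ 2 * (d : ℝ) ^ 2 * (1 / (N : ℝ) ^ 2 + 4 * β ^ 2 * (N : ℝ) ^ 2) ≤
      T ^ 2 * (D : ℝ) ^ 2 * (5 * T ^ 2 / (N : ℝ) ^ 2) := by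
    apply mul_le_mul (mul_le_mul h1 h2 (by positivity) (by positivity)) h4 (by positivity)
      (by positivity)
  rw [one_mul]
  refine h5.trans ?_
  have e4 : T ^ 2 * (D : ℝ) ^ 2 * (5 * T ^ 2 / (N : ℝ) ^ 2) = 5 * T ^ 4 * (D : ℝ) ^ 2 /
      (N : ℝ) ^ 2 := by ring
  rw [e4, div_le_div_iff₀ (by positivity) (by linarith)]
  have h6 : ((10 * X) ^ 13) ^ 2 ≤ (N : ℝ) ^ 2 := pow_le_pow_left₀ (by positivity) hNbig 2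
  have h7 : (A : ℝ) * (D : ℝ) ^ 2 ≤ ε * X ^ 2 := by
    have e5 : ε ^ 2 * X ^ 2 = (A : ℝ) ^ 2 * (D : ℝ) ^ 2 := by
      rw [← mul_pow, mul_comm ε X, hXe, mul_pow]
    have e6 : ε ^ 2 * X ^ 2 ≤ ε * X ^ 2 := by
      apply mul_le_mul_of_nonneg_right _ (by positivity)
      nlinarith
    have e7 : (A : ℝ) * (D : ℝ) ^ 2 ≤ (A : ℝ) ^ 2 * (D : ℝ) ^ 2 := by
      apply mul_le_mul_of_nonneg_right _ (by positivity)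
      nlinarith
    linarith
  calc 5 * T ^ 4 * (D : ℝ) ^ 2 * A = 5 * 162 ^ 4 * X ^ 24 * ((A : ℝ) * (D : ℝ) ^ 2) := by
        rw [hT]
        ring
    _ ≤ 10 ^ 26 * X ^ 24 * (ε * X ^ 2) := by
        apply mul_le_mul _ h7 (by positivity) (by positivity)
        apply mul_le_mul_of_nonneg_right _ (by positivity)
        norm_num
    _ = ε * ((10 * X) ^ 13) ^ 2 := by ring
    _ ≤ ε * (N : ℝ) ^ 2 := mul_le_mul_of_nonneg_left h6 hε.le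

end Pool.Agent.Helper380.VDCX.J10b
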