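import Mathlib
import Pool.Agent.Helper380.VDC.Defs

set_option autoImplicit false

namespace Pool.Agent.Helper380.VDCX.J10c

open Real Finset







/-- `∑ c_j Re F_{d_j}(x) ≥ -2ε` for every real `x` -/
theorem arcs {α : Type} (J : Finset α) (c : α → ℝ) (d : α → ℕ) (A D N : ℕ)
    (hA : 1 ≤ A) (hD : 1 ≤ D) (hc : ∀ j ∈ J, |c j| ≤ 1) (hd : ∀ j ∈ J, 1 ≤ d j ∧ d j ≤ D)
    (hcard : J.card ≤ A) (ε : ℝ) (hε : 0 < ε) (hε1 : ε ≤ 1)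
    (hNbig : (10 * ((A : ℝ) * D / ε)) ^ 13 ≤ (N : ℝ))
    (hW : ∀ (a : ℤ) (q : ℕ), 1 ≤ q → IsCoprime a (q : ℤ) → ∀ I : ℂ, ‖I‖ ≤ 1 → |I.im| ≤ I.re →
      -ε ≤ ((∑ j ∈ J, (c j : ℂ) * G ((d j : ℤ) ^ 2 * a) 0 q) * I).re)
    (G_le : ∀ (a l : ℤ) (q : ℕ), ‖G a l q‖ ≤ 1)
    (F_expand : ∀ (d N q : ℕ), 1 ≤ d → 1 ≤ N → 1 ≤ q → ∀ (a : ℤ) (β M : ℝ),
      (∀ l, ‖G ((d : ℤ) ^ 2 * a) l q‖ ≤ M) →
      ∃ err : ℂ, ‖err‖ ≤ M * ((q : ℝ) ^ 2 * (d : ℝ) ^ 2 * (1 / (N : ℝ) ^ 2 + 4 * β ^ 2 * (N : ℝ) ^ 2)) ∧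
        F d N ((a : ℝ) / (q : ℝ) + β) = Ar N β * (G ((d : ℤ) ^ 2 * a) 0 q + err))
    (Ar_facts : ∀ (N : ℕ) (β : ℝ), ‖Ar N β‖ ≤ 1 ∧ |(Ar N β).im| ≤ (Ar N β).re ∧
      (∀ B : ℝ, 0 < B → B ≤ |β| * (N : ℝ) ^ 2 → ‖Ar N β‖ ≤ 1 / √(2 * B)))
    (minor : ∀ (q d : ℕ), 1 ≤ q → 1 ≤ d → d ≤ D → ∀ (a : ℤ), IsCoprime a (q : ℤ) → ∀ (β : ℝ),
      q ≤ N → |β| ≤ 1 / (((N : ℝ) + 1) * q) →
      (162 * ((A : ℝ) * D / ε) ^ 6 < q ∨ 162 * ((A : ℝ) * D / ε) ^ 6 ≤ |β| * (N : ℝ) ^ 2) →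
      ‖F d N ((a : ℝ) / (q : ℝ) + β)‖ ≤ ε / A)
    (major_err : ∀ (q d : ℕ), d ≤ D → ∀ β : ℝ, (q : ℝ) ≤ 162 * ((A : ℝ) * D / ε) ^ 6 →
      |β| * (N : ℝ) ^ 2 ≤ 162 * ((A : ℝ) * D / ε) ^ 6 →
      1 * ((q : ℝ) ^ 2 * (d : ℝ) ^ 2 * (1 / (N : ℝ) ^ 2 + 4 * β ^ 2 * (N : ℝ) ^ 2)) ≤ ε / A)
    (x : ℝ) : -(2 * ε) ≤ ∑ j ∈ J, c j * (F (d j) N x).re := by
  have hA0 : (1 : ℝ) ≤ A := by exact_mod_cast hA
  have hD0 : (1 : ℝ) ≤ D := by exact_mod_cast hD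
  have hX : 1 ≤ (A : ℝ) * D / ε := by
    rw [le_div_iff₀ hε]
    nlinarith
  have hN1 : (1 : ℝ) ≤ N := by
    refine le_trans ?_ hNbig
    exact one_le_pow₀ (by linarith)
  have hN : 1 ≤ N := by exact_mod_cast hN1
  obtain ⟨r, hr1, hr2⟩ := Real.exists_rat_abs_sub_le_and_den_le x (n := N) hN
  have hq : 1 ≤ r.den := r.pos
  have hcop : IsCoprime r.num (r.den : ℤ) := by
    rw [Int.isCoprime_iff_gcd_eq_one]
    exact r.reduced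
  obtain ⟨β, hβ⟩ : ∃ β : ℝ, β = x - (r.num : ℝ) / (r.den : ℝ) := ⟨_, rfl⟩
  have hx : x = (r.num : ℝ) / (r.den : ℝ) + β := by rw [hβ]; ring
  have hβ1 : |β| ≤ 1 / (((N : ℝ) + 1) * r.den) := by
    have : (r : ℝ) = (r.num : ℝ) / (r.den : ℝ) := by
      exact_mod_cast (Rat.num_div_den r).symm
    rw [hβ, ← this]
    exact hr1
  have hεA : 0 < ε / A := by positivity
  have hcardr : (J.card : ℝ) ≤ A := by exact_mod_cast hcard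
  have hsum : ∀ v : α → ℝ, (∀ j ∈ J, |v j| ≤ ε / A) → |∑ j ∈ J, v j| ≤ ε := by
    intro v hv
    calc |∑ j ∈ J, v j| ≤ ∑ j ∈ J, |v j| := Finset.abs_sum_le_sum_abs _ _
      _ ≤ ∑ j ∈ J, ε / A := Finset.sum_le_sum hv
      _ = J.card * (ε / A) := by rw [Finset.sum_const, nsmul_eq_mul]
      _ ≤ A * (ε / A) := mul_le_mul_of_nonneg_right hcardr hεA.le
      _ = ε := by field_simp
  by_cases hcase : 162 * ((A : ℝ) * D / ε) ^ 6 < r.den ∨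
      162 * ((A : ℝ) * D / ε) ^ 6 ≤ |β| * (N : ℝ) ^ 2
  · have h1 : ∀ j ∈ J, |c j * (F (d j) N x).re| ≤ ε / A := by
      intro j hj
      have h2 := minor r.den (d j) hq (hd j hj).1 (hd j hj).2 r.num hcop β hr2 hβ1 hcase
      rw [← hx] at h2
      rw [abs_mul]
      calc |c j| * |(F (d j) N x).re| ≤ 1 * ‖F (d j) N x‖ :=
            mul_le_mul (hc j hj) (Complex.abs_re_le_norm _) (abs_nonneg _) one_pos.le
        _ ≤ ε / A := by rw [one_mul]; exact h2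
    have h3 := (abs_le.1 (hsum _ h1)).1
    linarith
  · rw [not_or, not_lt, not_le] at hcase
    obtain ⟨hc1, hc2⟩ := hcase
    have hex : ∀ j, ∃ err : ℂ, j ∈ J → ‖err‖ ≤ ε / A ∧
        F (d j) N x = Ar N β * (G ((d j : ℤ) ^ 2 * r.num) 0 r.den + err) := by
      intro j
      by_cases hj : j ∈ J
      · obtain ⟨err, he1, he2⟩ := F_expand (d j) N r.den (hd j hj).1 hN hq r.num β 1
          (fun l => G_le _ l _)
        refine ⟨err, fun _ => ⟨he1.trans (major_err r.den (d j) (hd j hj).2 β hc1 hc2.le), ?_⟩⟩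
        rw [hx]
        exact he2
      · exact ⟨0, fun h => absurd h hj⟩
    choose err herr using hex
    obtain ⟨hA1, hA2, _⟩ := Ar_facts N β
    have h4 : ∑ j ∈ J, c j * (F (d j) N x).re =
        ((∑ j ∈ J, (c j : ℂ) * G ((d j : ℤ) ^ 2 * r.num) 0 r.den) * Ar N β).re +
        ∑ j ∈ J, ((c j : ℂ) * err j * Ar N β).re := by
      have e1 : ∀ j ∈ J, c j * (F (d j) N x).re =
          ((c j : ℂ) * G ((d j : ℤ) ^ 2 * r.num) 0 r.den * Ar N β).re +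
            ((c j : ℂ) * err j * Ar N β).re := by
        intro j hj
        rw [(herr j hj).2, ← Complex.add_re, ← Complex.re_ofReal_mul]
        congr 1
        ring
      rw [Finset.sum_congr rfl e1, Finset.sum_add_distrib, Finset.sum_mul, Complex.re_sum]
    have h5 : ∀ j ∈ J, |((c j : ℂ) * err j * Ar N β).re| ≤ ε / A := by
      intro j hj
      refine (Complex.abs_re_le_norm _).trans ?_
      rw [norm_mul, norm_mul, Complex.norm_real, Real.norm_eq_abs]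
      calc |c j| * ‖err j‖ * ‖Ar N β‖ ≤ 1 * (ε / A) * 1 :=
            mul_le_mul (mul_le_mul (hc j hj) (herr j hj).1 (norm_nonneg _) one_pos.le) hA1
              (norm_nonneg _) (by positivity)
        _ = ε / A := by ring
    have h6 := (abs_le.1 (hsum _ h5)).1
    have h7 := hW r.num r.den hq hcop (Ar N β) hA1 hA2
    rw [h4]
    linarith

end Pool.Agent.Helper380.VDCX.J10c
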