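import Mathlib
import Pool.Agent.Helper380.VDC.Defs

set_option autoImplicit false

namespace Pool.Agent.Helper380.VDCX.J11

open Real Finset







/-- the real part of `F_d` is a cosine series over squares, up to a small tail -/
theorem F_re (d N : ℕ) (hd : 1 ≤ d) (hN : 1 ≤ N) (x : ℝ) :
    |(F d N x).re - ((d : ℝ) / N + ∑ k ∈ Icc 1 (N ^ 2),
      (if d ∣ k then 2 * (d : ℝ) / N * Real.exp (-π * (k : ℝ) ^ 2 / (N : ℝ) ^ 2) else 0) *
        Real.cos (2 * π * (k : ℝ) ^ 2 * x))| ≤ (d : ℝ) / N := by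
  have hd0 : (0 : ℝ) < d := by exact_mod_cast hd
  have hN0 : (0 : ℝ) < N := by exact_mod_cast hN
  have hdN : (0 : ℝ) < (d : ℝ) / N := div_pos hd0 hN0
  set τ : ℂ := 2 * (d : ℂ) ^ 2 * (x : ℂ) + Complex.I * ((d : ℂ) ^ 2 / (N : ℂ) ^ 2) with hτ
  have hτim : 0 < τ.im := by
    have e : τ = ((2 * (d : ℝ) ^ 2 * x : ℝ) : ℂ) + Complex.I * (((d : ℝ) ^ 2 / (N : ℝ) ^ 2 : ℝ) : ℂ) := by
      rw [hτ]; push_cast; ring
    rw [e]
    simp only [Complex.add_im, Complex.ofReal_im, Complex.mul_im, Complex.I_re, Complex.I_im,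
      Complex.ofReal_re, zero_add, one_mul, zero_mul]
    positivity
  have hF : F d N x = ((d : ℂ) / (N : ℂ)) * jacobiTheta τ := by
    rw [F, jacobiTheta]
    congr 1
    refine tsum_congr fun j => ?_
    congr 1
    rw [hτ]
    linear_combination (-(π : ℂ) * (j : ℂ) ^ 2 * ((d : ℂ) ^ 2 / (N : ℂ) ^ 2)) * Complex.I_sq
  have hs := hasSum_nat_jacobiTheta hτim
  set b : ℕ → ℝ := fun k => Real.exp (-π * (k : ℝ) ^ 2 / (N : ℝ) ^ 2) * Real.cos (2 * π * (k : ℝ) ^ 2 * x) with hb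
  have hsr : HasSum (fun n : ℕ => b (d * (n + 1))) (((jacobiTheta τ - 1) / 2).re) := by
    have h1 := Complex.hasSum_re hs
    have h2 : (fun n : ℕ => b (d * (n + 1))) =
        fun n : ℕ => (Complex.exp (π * Complex.I * ((n : ℂ) + 1) ^ 2 * τ)).re := by
      funext n
      have e : (π : ℂ) * Complex.I * ((n : ℂ) + 1) ^ 2 * τ =
          ((-π * ((d * (n + 1) : ℕ) : ℝ) ^ 2 / (N : ℝ) ^ 2 : ℝ) : ℂ) +
          ((2 * π * ((d * (n + 1) : ℕ) : ℝ) ^ 2 * x : ℝ) : ℂ) * Complex.I := by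
        rw [hτ]; push_cast
        linear_combination ((π : ℂ) * ((n : ℂ) + 1) ^ 2 * ((d : ℂ) ^ 2 / (N : ℂ) ^ 2)) * Complex.I_sq
      rw [e, Complex.exp_add, ← Complex.ofReal_exp, Complex.re_ofReal_mul,
        Complex.exp_ofReal_mul_I_re]
    rw [h2]
    exact h1
  set J : ℕ := N ^ 2 / d with hJ
  have hfin : ∑ k ∈ Icc 1 (N ^ 2),
      (if d ∣ k then 2 * (d : ℝ) / N * Real.exp (-π * (k : ℝ) ^ 2 / (N : ℝ) ^ 2) else 0) *
        Real.cos (2 * π * (k : ℝ) ^ 2 * x) = 2 * (d : ℝ) / N * ∑ n ∈ range J, b (d * (n + 1)) := by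
    rw [mul_sum]
    have e1 : ∀ k ∈ Icc 1 (N ^ 2),
      (if d ∣ k then 2 * (d : ℝ) / N * Real.exp (-π * (k : ℝ) ^ 2 / (N : ℝ) ^ 2) else 0) *
        Real.cos (2 * π * (k : ℝ) ^ 2 * x) = if d ∣ k then 2 * (d : ℝ) / N * b k else 0 := by
      intro k _
      split_ifs
      · rw [hb]; ring
      · ring
    rw [sum_congr rfl e1, ← sum_filter]
    refine sum_nbij' (fun k => k / d - 1) (fun n => d * (n + 1)) ?_ ?_ ?_ ?_ ?_
    · intro k hk
      rw [mem_filter, mem_Icc] at hk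
      obtain ⟨⟨h1, h2⟩, m, rfl⟩ := hk
      rw [mem_range, Nat.mul_div_cancel_left _ hd]
      have hm : 1 ≤ m := by
        rcases Nat.eq_zero_or_pos m with h | h
        · subst h; omega
        · exact h
      have : m ≤ J := by
        rw [hJ, Nat.le_div_iff_mul_le hd, mul_comm]; exact h2
      omega
    · intro n hn
      rw [mem_range] at hn
      rw [mem_filter, mem_Icc]
      have h3 : n + 1 ≤ J := hn
      rw [hJ, Nat.le_div_iff_mul_le hd, mul_comm] at h3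
      exact ⟨⟨Nat.mul_pos hd (by omega), h3⟩, Dvd.intro _ rfl⟩
    · intro k hk
      rw [mem_filter, mem_Icc] at hk
      obtain ⟨⟨h1, h2⟩, m, rfl⟩ := hk
      have hm : 1 ≤ m := by
        rcases Nat.eq_zero_or_pos m with h | h
        · subst h; omega
        · exact h
      simp only [Nat.mul_div_cancel_left _ hd]
      rw [Nat.sub_add_cancel hm]
    · intro n _
      simp only [Nat.mul_div_cancel_left _ hd, Nat.add_sub_cancel]
    · intro k hk
      rw [mem_filter, mem_Icc] at hk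
      obtain ⟨⟨h1, h2⟩, m, rfl⟩ := hk
      have hm : 1 ≤ m := by
        rcases Nat.eq_zero_or_pos m with h | h
        · subst h; omega
        · exact h
      rw [Nat.mul_div_cancel_left _ hd, Nat.sub_add_cancel hm]
  have hsplit := hsr.summable.sum_add_tsum_nat_add J
  rw [hsr.tsum_eq] at hsplit
  set r : ℝ := Real.exp (-π) with hr
  have hr0 : 0 < r := Real.exp_pos _
  have hr3 : r ≤ 1 / 3 := by
    have h1 := Real.add_one_le_exp π
    have h2 := Real.pi_gt_three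
    rw [hr, Real.exp_neg, one_div]
    apply inv_anti₀ (by norm_num)
    linarith
  have hg : HasSum (fun n : ℕ => r * r ^ n) (r * (1 - r)⁻¹) :=
    (hasSum_geometric_of_lt_one hr0.le (by linarith)).mul_left r
  have htail : |∑' n : ℕ, b (d * (n + J + 1))| ≤ r * (1 - r)⁻¹ := by
    have h1 := tsum_of_norm_bounded hg (f := fun n : ℕ => b (d * (n + J + 1))) ?_
    · simpa [Real.norm_eq_abs] using h1
    intro n
    rw [Real.norm_eq_abs, hb]
    simp only
    rw [abs_mul, Real.abs_exp]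
    have h2 : |Real.cos (2 * π * ((d * (n + J + 1) : ℕ) : ℝ) ^ 2 * x)| ≤ 1 := Real.abs_cos_le_one _
    have h3 : Real.exp (-π * ((d * (n + J + 1) : ℕ) : ℝ) ^ 2 / (N : ℝ) ^ 2) ≤ r * r ^ n := by
      rw [hr, ← Real.exp_nat_mul, ← Real.exp_add]
      apply Real.exp_le_exp.2
      have h4 : N ^ 2 ≤ d * (n + J + 1) := by
        have h5 : N ^ 2 < d * (J + 1) := by
          have := Nat.lt_div_mul_add (a := N ^ 2) hd
          rw [← hJ] at this
          nlinarith
        nlinarith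
      have h6 : n + 1 ≤ d * (n + J + 1) := by nlinarith
      have h4' : (N : ℝ) ^ 2 ≤ ((d * (n + J + 1) : ℕ) : ℝ) := by exact_mod_cast h4
      have h6' : (n : ℝ) + 1 ≤ ((d * (n + J + 1) : ℕ) : ℝ) := by exact_mod_cast h6
      set K : ℝ := ((d * (n + J + 1) : ℕ) : ℝ) with hK
      have hN2 : (0 : ℝ) < (N : ℝ) ^ 2 := by positivity
      have h7 : K ≤ K ^ 2 / (N : ℝ) ^ 2 := by
        rw [le_div_iff₀ hN2]
        nlinarith
      have hpi := Real.pi_pos
      have h8 : π * ((n : ℝ) + 1) ≤ π * (K ^ 2 / (N : ℝ) ^ 2) :=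
        mul_le_mul_of_nonneg_left (h6'.trans h7) hpi.le
      have h9 : -π * K ^ 2 / (N : ℝ) ^ 2 = -(π * (K ^ 2 / (N : ℝ) ^ 2)) := by ring
      rw [h9]
      linarith
    calc _ ≤ (r * r ^ n) * 1 := mul_le_mul h3 h2 (abs_nonneg _) (by positivity)
      _ = r * r ^ n := mul_one _
  have hhalf : r * (1 - r)⁻¹ ≤ 1 / 2 := by
    rw [← div_eq_mul_inv, div_le_iff₀ (by linarith)]
    linarith
  have hre : (F d N x).re = (d : ℝ) / N * (jacobiTheta τ).re := by
    rw [hF]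
    have : ((d : ℂ) / (N : ℂ)) = (((d : ℝ) / N : ℝ) : ℂ) := by push_cast; ring
    rw [this, Complex.re_ofReal_mul]
  have hth : (jacobiTheta τ).re = 1 + 2 * ((jacobiTheta τ - 1) / 2).re := by
    have : ((jacobiTheta τ - 1) / 2) = ((1 / 2 : ℝ) : ℂ) * (jacobiTheta τ - 1) := by push_cast; ring
    rw [this, Complex.re_ofReal_mul, Complex.sub_re, Complex.one_re]
    ring
  rw [hre, hth, ← hsplit, hfin]
  have hfinal : (d : ℝ) / N * (1 + 2 * (∑ i ∈ range J, b (d * (i + 1)) + ∑' i : ℕ, b (d * (i + J + 1)))) -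
      ((d : ℝ) / N + 2 * (d : ℝ) / N * ∑ n ∈ range J, b (d * (n + 1))) =
      (d : ℝ) / N * (2 * ∑' i : ℕ, b (d * (i + J + 1))) := by ring
  rw [hfinal, abs_mul, abs_of_pos hdN, abs_mul, abs_two]
  calc (d : ℝ) / N * (2 * |∑' i : ℕ, b (d * (i + J + 1))|) ≤ (d : ℝ) / N * (2 * (1 / 2)) := by
        gcongr
        exact htail.trans hhalf
    _ = (d : ℝ) / N := by ring

end Pool.Agent.Helper380.VDCX.J11
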