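import Mathlib
import Pool.Agent.Helper380.VDC.Defs

set_option autoImplicit false

namespace Pool.Agent.Helper380.VDCX.J12

open Real Finset







lemma Ar_zero (N : ℕ) : Ar N 0 = 1 := by
  unfold Ar
  simp

/-- transfer: from positivity of `∑ c_j Re F_{d_j}` to an admissible polynomial -/
theorem transfer {α : Type} (J : Finset α) (c : α → ℝ) (d : α → ℕ) (A D N : ℕ)
    (hA : 1 ≤ A) (hD : 1 ≤ D) (hc : ∀ j ∈ J, |c j| ≤ 1) (hd : ∀ j ∈ J, 1 ≤ d j ∧ d j ≤ D)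
    (hcard : J.card ≤ A) (hsum : ∑ j ∈ J, c j = 1) (ε : ℝ) (hε : 0 < ε) (hε1 : ε ≤ 1)
    (hNbig : (10 * ((A : ℝ) * D / ε)) ^ 13 ≤ (N : ℝ))
    (G_of_dvd : ∀ (a : ℤ) (q : ℕ), 1 ≤ q → (q : ℤ) ∣ a → G a 0 q = 1)
    (G_le : ∀ (a l : ℤ) (q : ℕ), ‖G a l q‖ ≤ 1)
    (F_expand : ∀ (d N q : ℕ), 1 ≤ d → 1 ≤ N → 1 ≤ q → ∀ (a : ℤ) (β M : ℝ),
      (∀ l, ‖G ((d : ℤ) ^ 2 * a) l q‖ ≤ M) →
      ∃ err : ℂ, ‖err‖ ≤ M * ((q : ℝ) ^ 2 * (d : ℝ) ^ 2 * (1 / (N : ℝ) ^ 2 + 4 * β ^ 2 * (N : ℝ) ^ 2)) ∧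
        F d N ((a : ℝ) / (q : ℝ) + β) = Ar N β * (G ((d : ℤ) ^ 2 * a) 0 q + err))
    (F_re : ∀ (d N : ℕ), 1 ≤ d → 1 ≤ N → ∀ x : ℝ,
      |(F d N x).re - ((d : ℝ) / N + ∑ k ∈ Icc 1 (N ^ 2),
        (if d ∣ k then 2 * (d : ℝ) / N * Real.exp (-π * (k : ℝ) ^ 2 / (N : ℝ) ^ 2) else 0) *
          Real.cos (2 * π * (k : ℝ) ^ 2 * x))| ≤ (d : ℝ) / N)
    (arcs : ∀ x : ℝ, -(2 * ε) ≤ ∑ j ∈ J, c j * (F (d j) N x).re) :
    ∃ (c0 : ℝ) (b : ℕ → ℝ),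
      (∀ x : ℝ, 0 ≤ c0 + ∑ k ∈ Icc 1 (N ^ 2), b k * Real.cos (2 * π * (k : ℝ) ^ 2 * x)) ∧
      c0 + ∑ k ∈ Icc 1 (N ^ 2), b k = 1 ∧ c0 ≤ 4 * ε := by
  classical
  set X : ℝ := (A : ℝ) * D / ε with hX
  have hA' : (1 : ℝ) ≤ A := by exact_mod_cast hA
  have hD' : (1 : ℝ) ≤ D := by exact_mod_cast hD
  have hX1 : 1 ≤ X := by
    rw [hX, le_div_iff₀ hε]
    nlinarith
  have h10 : 10 * X ≤ (10 * X) ^ 13 := by
    have h1 : (1 : ℝ) ≤ 10 * X := by linarith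
    calc 10 * X = (10 * X) ^ 1 := (pow_one _).symm
      _ ≤ (10 * X) ^ 13 := pow_le_pow_right₀ h1 (by norm_num)
  have hN10 : 10 * X ≤ (N : ℝ) := h10.trans hNbig
  have hNpos : (0 : ℝ) < N := by linarith
  have hN1 : 1 ≤ N := by
    have : (0 : ℕ) < N := by exact_mod_cast hNpos
    omega
  have hADN : (A : ℝ) * D / N ≤ ε / 10 := by
    rw [div_le_iff₀ hNpos]
    have h1 : 10 * ((A : ℝ) * D) ≤ ε * N := by
      have h2 : X * ε = (A : ℝ) * D := by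
        rw [hX]; field_simp
      nlinarith
    linarith
  have hdj : ∀ j ∈ J, (d j : ℝ) / N ≤ (D : ℝ) / N := by
    intro j hj
    have h1 : (d j : ℝ) ≤ D := by exact_mod_cast (hd j hj).2
    gcongr
  have hDN0 : (0 : ℝ) ≤ (D : ℝ) / N := by positivity
  have hsumD : ∀ (u : α → ℝ) (t : ℝ), 0 ≤ t → (∀ j ∈ J, |u j| ≤ t) →
      |∑ j ∈ J, c j * u j| ≤ A * t := by
    intro u t ht hu
    calc |∑ j ∈ J, c j * u j| ≤ ∑ j ∈ J, |c j * u j| := Finset.abs_sum_le_sum_abs _ _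
      _ ≤ ∑ j ∈ J, t := by
          apply Finset.sum_le_sum
          intro j hj
          rw [abs_mul]
          calc |c j| * |u j| ≤ 1 * t :=
                mul_le_mul (hc j hj) (hu j hj) (abs_nonneg _) zero_le_one
            _ = t := one_mul t
      _ = J.card * t := by rw [Finset.sum_const, nsmul_eq_mul]
      _ ≤ A * t := by
          have : (J.card : ℝ) ≤ A := by exact_mod_cast hcard
          exact mul_le_mul_of_nonneg_right this ht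
  set B : α → ℕ → ℝ := fun j k =>
    if d j ∣ k then 2 * (d j : ℝ) / N * Real.exp (-π * (k : ℝ) ^ 2 / (N : ℝ) ^ 2) else 0 with hB
  set b' : ℕ → ℝ := fun k => ∑ j ∈ J, c j * B j k with hb'
  set a0 : ℝ := ∑ j ∈ J, c j * ((d j : ℝ) / N) with ha0
  have ha0le : |a0| ≤ ε / 10 := by
    have h1 := hsumD (fun j => (d j : ℝ) / N) ((D : ℝ) / N) hDN0 (by
      intro j hj
      rw [abs_of_nonneg (by positivity)]
      exact hdj j hj)
    calc |a0| ≤ A * ((D : ℝ) / N) := h1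
      _ = (A : ℝ) * D / N := by ring
      _ ≤ ε / 10 := hADN
  have hcos : ∀ x : ℝ, ∑ k ∈ Icc 1 (N ^ 2), b' k * Real.cos (2 * π * (k : ℝ) ^ 2 * x) =
      ∑ j ∈ J, c j * ∑ k ∈ Icc 1 (N ^ 2), B j k * Real.cos (2 * π * (k : ℝ) ^ 2 * x) := by
    intro x
    simp only [hb', Finset.sum_mul, Finset.mul_sum]
    rw [Finset.sum_comm]
    apply Finset.sum_congr rfl
    intro j _
    apply Finset.sum_congr rfl
    intro k _
    ring
  have hdiff : ∀ x : ℝ, |(∑ j ∈ J, c j * (F (d j) N x).re) - a0 -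
      ∑ k ∈ Icc 1 (N ^ 2), b' k * Real.cos (2 * π * (k : ℝ) ^ 2 * x)| ≤ ε / 10 := by
    intro x
    have h1 := hsumD (fun j => (F (d j) N x).re - ((d j : ℝ) / N + ∑ k ∈ Icc 1 (N ^ 2),
        B j k * Real.cos (2 * π * (k : ℝ) ^ 2 * x))) ((D : ℝ) / N) hDN0 (by
      intro j hj
      exact (F_re (d j) N (hd j hj).1 hN1 x).trans (hdj j hj))
    have h2 : (∑ j ∈ J, c j * (F (d j) N x).re) - a0 -
      ∑ k ∈ Icc 1 (N ^ 2), b' k * Real.cos (2 * π * (k : ℝ) ^ 2 * x) =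
      ∑ j ∈ J, c j * ((F (d j) N x).re - ((d j : ℝ) / N + ∑ k ∈ Icc 1 (N ^ 2),
        B j k * Real.cos (2 * π * (k : ℝ) ^ 2 * x))) := by
      rw [hcos x, ha0, ← Finset.sum_sub_distrib, ← Finset.sum_sub_distrib]
      apply Finset.sum_congr rfl
      intro j _
      ring
    rw [h2]
    calc _ ≤ A * ((D : ℝ) / N) := h1
      _ = (A : ℝ) * D / N := by ring
      _ ≤ ε / 10 := hADN
  have hlow : ∀ x : ℝ, -(3 * ε) ≤
      ∑ k ∈ Icc 1 (N ^ 2), b' k * Real.cos (2 * π * (k : ℝ) ^ 2 * x) := by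
    intro x
    have h1 := abs_le.1 (hdiff x)
    have h2 := abs_le.1 ha0le
    have h3 := arcs x
    linarith [h1.2, h2.2]
  have hDN1 : (D : ℝ) / N ≤ 1 := by
    have h1 : (D : ℝ) / N ≤ (A : ℝ) * D / N := by
      gcongr
      nlinarith
    linarith
  have hF0 : ∀ j ∈ J, |(F (d j) N 0).re - 1| ≤ (D : ℝ) / N := by
    intro j hj
    obtain ⟨err, he1, he2⟩ := F_expand (d j) N 1 (hd j hj).1 hN1 le_rfl 0 0 1
      (fun l => G_le _ _ _)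
    have h1 : ((0 : ℤ) : ℝ) / ((1 : ℕ) : ℝ) + 0 = 0 := by simp
    rw [h1, Ar_zero, G_of_dvd _ 1 le_rfl (by simp), one_mul] at he2
    rw [he2]
    have h2 : (1 + err).re - 1 = err.re := by simp
    rw [h2]
    have h3 : |err.re| ≤ ‖err‖ := Complex.abs_re_le_norm err
    have h4 : ‖err‖ ≤ ((d j : ℝ) / N) ^ 2 := by
      refine he1.trans (le_of_eq ?_)
      push_cast
      field_simp
      ring
    have h5 : ((d j : ℝ) / N) ^ 2 ≤ ((D : ℝ) / N) ^ 2 := by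
      have h6 := hdj j hj
      have h7 : 0 ≤ (d j : ℝ) / N := by positivity
      gcongr
    have h6 : ((D : ℝ) / N) ^ 2 ≤ (D : ℝ) / N := by
      nlinarith
    linarith
  have hT0 : 1 - ε / 10 ≤ ∑ j ∈ J, c j * (F (d j) N 0).re := by
    have h1 := hsumD (fun j => (F (d j) N 0).re - 1) ((D : ℝ) / N) hDN0 hF0
    have h2 : ∑ j ∈ J, c j * ((F (d j) N 0).re - 1) = ∑ j ∈ J, c j * (F (d j) N 0).re - 1 := by
      simp only [mul_sub, mul_one, Finset.sum_sub_distrib, hsum]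
    have h3 : (A : ℝ) * ((D : ℝ) / N) = (A : ℝ) * D / N := by ring
    rw [h2, h3] at h1
    have h4 := (abs_le.1 h1).1
    linarith
  have hb0 : 1 - 3 * ε / 10 ≤ ∑ k ∈ Icc 1 (N ^ 2), b' k := by
    have h1 := abs_le.1 (hdiff 0)
    have h2 := abs_le.1 ha0le
    have h3 : ∑ k ∈ Icc 1 (N ^ 2), b' k * Real.cos (2 * π * (k : ℝ) ^ 2 * 0) =
        ∑ k ∈ Icc 1 (N ^ 2), b' k := by
      apply Finset.sum_congr rfl
      intro k _
      simp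
    rw [h3] at h1
    linarith [h1.2, h2.2]
  set S : ℝ := 3 * ε + ∑ k ∈ Icc 1 (N ^ 2), b' k with hS
  have hS1 : 1 ≤ S := by rw [hS]; linarith
  have hS0 : 0 < S := by linarith
  refine ⟨3 * ε / S, fun k => b' k / S, ?_, ?_, ?_⟩
  · intro x
    have h1 : 3 * ε / S + ∑ k ∈ Icc 1 (N ^ 2), b' k / S * Real.cos (2 * π * (k : ℝ) ^ 2 * x) =
        (3 * ε + ∑ k ∈ Icc 1 (N ^ 2), b' k * Real.cos (2 * π * (k : ℝ) ^ 2 * x)) / S := by
      rw [add_div, Finset.sum_div]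
      congr 1
      apply Finset.sum_congr rfl
      intro k _
      ring
    rw [h1]
    apply div_nonneg _ hS0.le
    linarith [hlow x]
  · rw [← Finset.sum_div, ← add_div]
    exact div_self hS0.ne'
  · rw [div_le_iff₀ hS0]
    nlinarith

end Pool.Agent.Helper380.VDCX.J12
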