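import Mathlib
import Pool.Agent.Helper380.VDC.Defs

set_option autoImplicit false

namespace Pool.Agent.Helper380.VDCX.J13

open Real Finset







theorem gcd_le_aux (w : ℕ) (hw : 1 ≤ w) (u : ℤ) (Q : ℕ) (h : IsCoprime u (Q : ℤ)) :
    (Int.gcd (2 * ((w : ℤ) * u)) (Q : ℤ) : ℝ) ≤ 2 * (w : ℝ) := by
  have h1 : ((Int.gcd (2 * ((w : ℤ) * u)) (Q : ℤ) : ℕ) : ℤ) ∣ 2 * ((w : ℤ) * u) :=
    Int.gcd_dvd_left _ _
  have h2 : ((Int.gcd (2 * ((w : ℤ) * u)) (Q : ℤ) : ℕ) : ℤ) ∣ (Q : ℤ) := Int.gcd_dvd_right _ _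
  have h3 : IsCoprime ((Int.gcd (2 * ((w : ℤ) * u)) (Q : ℤ) : ℕ) : ℤ) u :=
    (h.of_isCoprime_of_dvd_right h2).symm
  have h4 : ((Int.gcd (2 * ((w : ℤ) * u)) (Q : ℤ) : ℕ) : ℤ) ∣ 2 * (w : ℤ) := by
    apply h3.dvd_of_dvd_mul_right
    rw [mul_assoc]; exact h1
  have h5 := Int.le_of_dvd (by positivity) h4
  have h6 : ((Int.gcd (2 * ((w : ℤ) * u)) (Q : ℤ) : ℕ) : ℤ) ≤ ((2 * w : ℕ) : ℤ) := by
    push_cast; exact h5
  have h7 : Int.gcd (2 * ((w : ℤ) * u)) (Q : ℤ) ≤ 2 * w := by exact_mod_cast h6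
  exact_mod_cast h7

theorem le_of_sq_le_sq {x y : ℝ} (h : x ^ 2 ≤ y ^ 2) (hy : 0 ≤ y) : x ≤ y :=
  abs_le_of_sq_le_sq' h hy |>.2

/-- decomposition of a rational point into its `p`-primary components -/
theorem decomp
    (G_le : ∀ (a l : ℤ) (q : ℕ), ‖G a l q‖ ≤ 1)
    (G_of_dvd : ∀ (a : ℤ) (q : ℕ), 1 ≤ q → (q : ℤ) ∣ a → G a 0 q = 1)
    (G_mul : ∀ (a b : ℤ) (q m : ℕ), 1 ≤ q → 1 ≤ m → Nat.Coprime q m →
      G (a * m + b * q) 0 (q * m) = G a 0 q * G b 0 m)
    (G_sq_unit : ∀ (a u : ℤ) (q : ℕ), 1 ≤ q → IsCoprime u (q : ℤ) → G (u ^ 2 * a) 0 q = G a 0 q)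
    (G_norm_sq_le : ∀ (a l : ℤ) (q : ℕ), 1 ≤ q →
      ‖G a l q‖ ^ 2 ≤ (Int.gcd (2 * a) (q : ℤ) : ℝ) / (q : ℝ))
    {ι : Type} [DecidableEq ι] (S : Finset ι) (p : ι → ℕ) (hinj : Function.Injective p)
    (hp : ∀ i, (p i).Prime) (a : ℤ) (q : ℕ) (hq : 1 ≤ q) (hcop : IsCoprime a (q : ℤ)) :
    ∃ (h : ι → ℕ → ℂ) (n : ι → ℕ) (m : ℕ) (R : ℂ),
      (∀ i ∈ S, ∀ k, n i ≤ k → h i k = 1) ∧
      (∀ i ∈ S, ∀ k, k < n i → ‖h i k‖ ≤ √2 * √(p i : ℝ) / (p i : ℝ) ^ (n i - k)) ∧
      (∀ i ∈ S, ∀ k, ‖h i k‖ ≤ 1) ∧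
      1 ≤ m ∧ (∀ i ∈ S, Nat.Coprime (p i) m) ∧ (m = 1 → R = 1) ∧ ‖R‖ ^ 2 ≤ 2 / (m : ℝ) ∧
      ∀ f : ι → ℕ, G (((∏ i ∈ S, p i ^ f i : ℕ) : ℤ) ^ 2 * a) 0 q = R * ∏ i ∈ S, h i (f i) := by
  have H : ∀ (S : Finset ι) (a : ℤ) (q : ℕ), 1 ≤ q → IsCoprime a (q : ℤ) →
    ∃ (h : ι → ℕ → ℂ) (n : ι → ℕ) (m : ℕ) (R : ℂ),
      (∀ i ∈ S, ∀ k, n i ≤ k → h i k = 1) ∧
      (∀ i ∈ S, ∀ k, k < n i → ‖h i k‖ ≤ √2 * √(p i : ℝ) / (p i : ℝ) ^ (n i - k)) ∧
      (∀ i ∈ S, ∀ k, ‖h i k‖ ≤ 1) ∧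
      1 ≤ m ∧ (∀ i ∈ S, Nat.Coprime (p i) m) ∧ (m = 1 → R = 1) ∧ ‖R‖ ^ 2 ≤ 2 / (m : ℝ) ∧
      m ∣ q ∧
      ∀ f : ι → ℕ, G (((∏ i ∈ S, p i ^ f i : ℕ) : ℤ) ^ 2 * a) 0 q = R * ∏ i ∈ S, h i (f i) := by
    intro S
    induction S using Finset.induction_on with
    | empty =>
      intro a q hq hcop
      refine ⟨fun _ _ => 1, fun _ => 0, q, G a 0 q, by simp, by simp, by simp, hq, by simp,
        ?_, ?_, dvd_refl _, ?_⟩
      · intro h1
        exact G_of_dvd a q hq (by rw [h1]; simp)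
      · refine (G_norm_sq_le a 0 q hq).trans ?_
        have hb := gcd_le_aux 1 le_rfl a q hcop
        have e : (2 * (((1 : ℕ) : ℤ) * a)) = 2 * a := by push_cast; ring
        rw [e] at hb
        have hq0 : (0 : ℝ) < q := by exact_mod_cast hq
        gcongr
        simpa using hb
      · intro f
        simp
    | insert i S hi IH =>
      intro a q hq hcop
      have hP : (p i).Prime := hp i
      obtain ⟨j, m', hm', hqe⟩ := Nat.exists_eq_pow_mul_and_not_dvd (n := q) (by omega) (p i)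
        hP.ne_one
      have hm'0 : 1 ≤ m' := by
        rcases Nat.eq_zero_or_pos m' with h | h
        · exact absurd (by rw [h]; exact dvd_zero _) hm'
        · exact h
      have hPm : Nat.Coprime (p i) m' := (Nat.Prime.coprime_iff_not_dvd hP).2 hm'
      have hPjm : Nat.Coprime (p i ^ j) m' := Nat.Coprime.pow_left j hPm
      have hPjmZ : IsCoprime ((m' : ℤ)) (((p i ^ j : ℕ) : ℤ)) :=
        (Nat.isCoprime_iff_coprime.2 hPjm).symm
      obtain ⟨x, y, hxy⟩ := hPjmZ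
      have hPj1 : 1 ≤ p i ^ j := Nat.one_le_pow _ _ hP.pos
      set u : ℤ := a * x with hu
      set v : ℤ := a * y with hv
      have hauv : a = u * m' + v * ((p i ^ j : ℕ) : ℤ) := by
        rw [hu, hv]
        calc a = a * (x * m' + y * ((p i ^ j : ℕ) : ℤ)) := by rw [hxy, mul_one]
          _ = _ := by ring
      have hqZ : (q : ℤ) = ((p i ^ j : ℕ) : ℤ) * (m' : ℤ) := by
        rw [hqe]; push_cast; ring
      have ham : IsCoprime a (m' : ℤ) :=
        hcop.of_isCoprime_of_dvd_right ⟨_, by rw [hqZ]; ring⟩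
      have haPj : IsCoprime a ((p i ^ j : ℕ) : ℤ) :=
        hcop.of_isCoprime_of_dvd_right ⟨_, hqZ⟩
      have hvm : IsCoprime v (m' : ℤ) := by
        rw [hauv] at ham
        have h1 : IsCoprime (v * ((p i ^ j : ℕ) : ℤ)) (m' : ℤ) := by
          have := ham.add_mul_right_left (-u)
          have e : u * m' + v * ((p i ^ j : ℕ) : ℤ) + -u * m' = v * ((p i ^ j : ℕ) : ℤ) := by ring
          rwa [e] at this
        exact h1.of_mul_left_left
      have huP : IsCoprime u ((p i ^ j : ℕ) : ℤ) := by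
        rw [hauv] at haPj
        have h1 : IsCoprime (u * (m' : ℤ)) ((p i ^ j : ℕ) : ℤ) := by
          have := haPj.add_mul_right_left (-v)
          have e : u * m' + v * ((p i ^ j : ℕ) : ℤ) + -v * ((p i ^ j : ℕ) : ℤ) = u * m' := by ring
          rwa [e] at this
        exact h1.of_mul_left_left
      obtain ⟨h', n', m, R, c1, c2, c3, c4, c5, c6, c7, c8, c9⟩ := IH v m' hm'0 hvm
      refine ⟨Function.update h' i (fun k => G ((((p i ^ k : ℕ) : ℤ)) ^ 2 * u) 0 (p i ^ j)),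
        Function.update n' i ((j + 1) / 2), m, R, ?_, ?_, ?_, c4, ?_, c6, c7, ?_, ?_⟩
      · intro l hl k hk
        by_cases hli : l = i
        · subst hli
          simp only [Function.update_self] at hk ⊢
          apply G_of_dvd _ _ hPj1
          have h1 : p l ^ j ∣ (p l ^ k) ^ 2 := by
            rw [← pow_mul]
            exact pow_dvd_pow _ (by omega)
          have h2 : ((p l ^ j : ℕ) : ℤ) ∣ (((p l ^ k : ℕ) : ℤ)) ^ 2 := by exact_mod_cast h1
          exact h2.mul_right u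
        · simp only [Function.update_of_ne hli] at hk ⊢
          exact c1 l (Finset.mem_of_mem_insert_of_ne hl hli) k hk
      · intro l hl k hk
        by_cases hli : l = i
        · subst hli
          simp only [Function.update_self] at hk ⊢
          have hb := G_norm_sq_le ((((p l ^ k : ℕ) : ℤ)) ^ 2 * u) 0 (p l ^ j) hPj1
          have hg := gcd_le_aux ((p l ^ k) ^ 2) (Nat.one_le_pow _ _ (pow_pos hP.pos k)) u
            (p l ^ j) huP
          have e1 : (((((p l ^ k) ^ 2 : ℕ) : ℕ) : ℤ)) = (((p l ^ k : ℕ) : ℤ)) ^ 2 := by push_cast; ring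
          rw [e1] at hg
          have hPr : (1 : ℝ) ≤ (p l : ℝ) := by exact_mod_cast hP.one_lt.le
          have hP0 : (0 : ℝ) < (p l : ℝ) := by linarith
          set n := (j + 1) / 2 with hn
          have hsq : ‖G ((((p l ^ k : ℕ) : ℤ)) ^ 2 * u) 0 (p l ^ j)‖ ^ 2 ≤
              (√2 * √(p l : ℝ) / (p l : ℝ) ^ (n - k)) ^ 2 := by
            refine hb.trans ?_
            rw [div_pow, mul_pow, Real.sq_sqrt (by norm_num), Real.sq_sqrt hP0.le]
            have hpj : (((p l ^ j : ℕ) : ℕ) : ℝ) = (p l : ℝ) ^ j := by push_cast; ring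
            rw [hpj]
            rw [div_le_div_iff₀ (by positivity) (by positivity)]
            calc (Int.gcd (2 * ((((p l ^ k : ℕ) : ℤ)) ^ 2 * u)) ((p l ^ j : ℕ) : ℤ) : ℝ) *
                  ((p l : ℝ) ^ (n - k)) ^ 2
                ≤ (2 * (((p l ^ k) ^ 2 : ℕ) : ℝ)) * ((p l : ℝ) ^ (n - k)) ^ 2 := by gcongr
              _ = 2 * (p l : ℝ) ^ (2 * n) := by
                  push_cast
                  rw [mul_assoc, ← mul_pow, ← pow_add, ← pow_mul]
                  congr 2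
                  omega
              _ ≤ 2 * (p l : ℝ) ^ (j + 1) := by
                  have : (p l : ℝ) ^ (2 * n) ≤ (p l : ℝ) ^ (j + 1) :=
                    pow_le_pow_right₀ hPr (by omega)
                  linarith
              _ = 2 * (p l : ℝ) * (p l : ℝ) ^ j := by ring
          exact le_of_sq_le_sq hsq (by positivity)
        · simp only [Function.update_of_ne hli] at hk ⊢
          exact c2 l (Finset.mem_of_mem_insert_of_ne hl hli) k hk
      · intro l hl k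
        by_cases hli : l = i
        · subst hli
          simp only [Function.update_self]
          exact G_le _ _ _
        · simp only [Function.update_of_ne hli]
          exact c3 l (Finset.mem_of_mem_insert_of_ne hl hli) k
      · intro l hl
        by_cases hli : l = i
        · subst hli
          exact Nat.Coprime.coprime_dvd_right c8 hPm
        · exact c5 l (Finset.mem_of_mem_insert_of_ne hl hli)
      · exact c8.trans ⟨p i ^ j, by rw [hqe]; ring⟩
      · intro f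
        rw [Finset.prod_insert hi, Finset.prod_insert hi]
        simp only [Function.update_self]
        have e2 : ∏ l ∈ S, Function.update h' i
            (fun k => G ((((p i ^ k : ℕ) : ℤ)) ^ 2 * u) 0 (p i ^ j)) l (f l) =
            ∏ l ∈ S, h' l (f l) := by
          apply Finset.prod_congr rfl
          intro l hl
          have hli : l ≠ i := fun h => hi (h ▸ hl)
          rw [Function.update_of_ne hli]
        rw [e2]
        set D' : ℕ := ∏ l ∈ S, p l ^ f l with hD'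
        have hD'P : Nat.Coprime D' (p i ^ j) := by
          rw [hD']
          apply Nat.Coprime.prod_left
          intro l hl
          have hli : l ≠ i := fun h => hi (h ▸ hl)
          apply Nat.Coprime.pow
          exact (Nat.coprime_primes (hp l) hP).2 (fun h => hli (hinj h))
        have key1 : G (((p i ^ f i * D' : ℕ) : ℤ) ^ 2 * a) 0 q =
            G (((p i ^ f i * D' : ℕ) : ℤ) ^ 2 * u) 0 (p i ^ j) *
            G (((p i ^ f i * D' : ℕ) : ℤ) ^ 2 * v) 0 m' := by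
          rw [← G_mul _ _ _ _ hPj1 hm'0 hPjm, ← hqe]
          congr 1
          rw [hauv]; ring
        have key2 : G (((p i ^ f i * D' : ℕ) : ℤ) ^ 2 * u) 0 (p i ^ j) =
            G ((((p i ^ f i : ℕ) : ℤ)) ^ 2 * u) 0 (p i ^ j) := by
          rw [← G_sq_unit ((((p i ^ f i : ℕ) : ℤ)) ^ 2 * u) (D' : ℤ) (p i ^ j) hPj1
            (Nat.isCoprime_iff_coprime.2 hD'P)]
          congr 1
          push_cast; ring
        have key3 : G (((p i ^ f i * D' : ℕ) : ℤ) ^ 2 * v) 0 m' =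
            G (((D' : ℕ) : ℤ) ^ 2 * v) 0 m' := by
          rw [← G_sq_unit (((D' : ℕ) : ℤ) ^ 2 * v) (((p i ^ f i : ℕ) : ℤ)) m' hm'0
            (Nat.isCoprime_iff_coprime.2 (Nat.Coprime.pow_left _ hPm))]
          congr 1
          push_cast; ring
        rw [key1, key2, key3, c9 f]
        ring
  obtain ⟨h, n, m, R, c1, c2, c3, c4, c5, c6, c7, _, c9⟩ := H S a q hq hcop
  exact ⟨h, n, m, R, c1, c2, c3, c4, c5, c6, c7, c9⟩

end Pool.Agent.Helper380.VDCX.J13
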