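import Mathlib
import Pool.Agent.Helper380.VDC.Defs

set_option autoImplicit false

namespace Pool.Agent.Helper380.VDCX.Jb1

open Real Finset



theorem tc_ind (p : ℕ) [Fact p.Prime] (s : ℤ) (hs : s = 1 ∨ s = -1) (x : ZMod p) :
    2 * (if quadraticChar (ZMod p) x = s then (1:ℤ) else 0) =
      (if x = 0 then 0 else 1) + s * quadraticChar (ZMod p) x := by
  by_cases hx : x = 0
  · subst hx
    rcases hs with rfl | rfl <;> simp
  · have hsq : quadraticChar (ZMod p) x = 1 ∨ quadraticChar (ZMod p) x = -1 :=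
      quadraticChar_dichotomy hx
    rcases hs with rfl | rfl <;> rcases hsq with h | h <;> simp [hx, h]

theorem tc_sumF (p : ℕ) [Fact p.Prime] (s : ℤ) (hs : s = 1 ∨ s = -1) (F : ZMod p → ℂ) :
    2 * ∑ x ∈ Finset.univ.filter (fun x : ZMod p => quadraticChar (ZMod p) x = s), F x =
      (∑ x : ZMod p, F x) - F 0 + s * ∑ x : ZMod p, ((quadraticChar (ZMod p) x : ℤ) : ℂ) * F x := by
  rw [Finset.sum_filter, Finset.mul_sum]
  have h1 : F 0 = ∑ x : ZMod p, if x = 0 then F x else 0 := by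
    simp
  rw [h1, Finset.mul_sum, ← Finset.sum_sub_distrib, ← Finset.sum_add_distrib]
  apply Finset.sum_congr rfl
  intro x _
  have h := congrArg (fun z : ℤ => (z : ℂ) * F x) (tc_ind p s hs x)
  push_cast at h
  by_cases hx : x = 0
  · subst hx
    simp only [if_true] at h ⊢
    split_ifs at h ⊢ <;> linear_combination h
  · simp only [hx, if_false] at h ⊢
    split_ifs at h ⊢ <;> linear_combination h

theorem tc_ee (p : ℕ) [Fact p.Prime] (k : ℕ) (x : ZMod p) :
    ee ((k : ℝ) ^ 2 * ((x.val : ℕ) / p)) = ZMod.stdAddChar (N := p) (x * (k : ZMod p) ^ 2) := by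
  have h1 : x * (k : ZMod p) ^ 2 = (((x.val : ℤ) * (k : ℤ) ^ 2 : ℤ) : ZMod p) := by
    push_cast
    rw [ZMod.natCast_zmod_val]
  rw [h1, ZMod.stdAddChar_coe]
  unfold ee
  congr 1
  push_cast
  ring

theorem tc_aux (p : ℕ) [Fact p.Prime] (h3 : p % 4 = 3) (s : ℤ) (hs : s = 1 ∨ s = -1)
    (T : Finset ℕ) (hT : T = (Finset.univ.filter (fun x : ZMod p =>
      quadraticChar (ZMod p) x = s)).map ⟨ZMod.val, ZMod.val_injective p⟩) :
    T.card = (p - 1) / 2 ∧ ∀ k : ℕ, (1 / (T.card : ℂ)) * ∑ a ∈ T, ee ((k : ℝ) ^ 2 * (a / p)) =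
        if p ∣ k then 1 else (-1 + s * gaussSum ((quadraticChar (ZMod p)).ringHomComp
          (Int.castRingHom ℂ)) (ZMod.stdAddChar (N := p))) / ((p : ℂ) - 1) := by
  have hp : p.Prime := Fact.out
  have hp3 : 3 ≤ p := by
    have := hp.two_le
    omega
  have hcard2 : 2 * (T.card : ℂ) = (p : ℂ) - 1 := by
    have h := tc_sumF p s hs (fun _ => 1)
    have h0 : ∑ x : ZMod p, ((quadraticChar (ZMod p) x : ℤ) : ℂ) * 1 = 0 := by
      have h00 := quadraticChar_sum_zero (F := ZMod p) (by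
        rw [ZMod.ringChar_zmod_n]
        omega)
      have h01 := congrArg (fun z : ℤ => (z : ℂ)) h00
      push_cast at h01
      simpa using h01
    rw [h0] at h
    rw [hT, Finset.card_map]
    simp at h
    simpa using h
  have hcard : T.card = (p - 1) / 2 := by
    have h : 2 * T.card + 1 = p := by
      have h5 : ((2 * T.card + 1 : ℕ) : ℂ) = (p : ℂ) := by
        push_cast
        rw [hcard2]
        ring
      exact_mod_cast h5
    omega
  refine ⟨hcard, ?_⟩
  intro k
  have hTne : (T.card : ℂ) ≠ 0 := by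
    have : T.card ≠ 0 := by omega
    exact_mod_cast this
  have hp1 : (p : ℂ) - 1 ≠ 0 := by
    rw [← hcard2]
    exact mul_ne_zero two_ne_zero hTne
  have hsum : ∑ a ∈ T, ee ((k : ℝ) ^ 2 * (a / p)) =
      ∑ x ∈ Finset.univ.filter (fun x : ZMod p => quadraticChar (ZMod p) x = s),
        ZMod.stdAddChar (N := p) (x * (k : ZMod p) ^ 2) := by
    rw [hT, Finset.sum_map]
    apply Finset.sum_congr rfl
    intro x _
    exact tc_ee p k x
  by_cases hk : p ∣ k
  · rw [if_pos hk, hsum]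
    have hk0 : (k : ZMod p) = 0 := (ZMod.natCast_eq_zero_iff k p).2 hk
    have : ∀ x : ZMod p, ZMod.stdAddChar (N := p) (x * (k : ZMod p) ^ 2) = (1 : ℂ) := by
      intro x
      rw [hk0]
      simp
    rw [Finset.sum_congr rfl (fun x _ => this x), Finset.sum_const, nsmul_eq_mul, mul_one]
    have hc : (Finset.univ.filter (fun x : ZMod p => quadraticChar (ZMod p) x = s)).card =
        T.card := by rw [hT, Finset.card_map]
    rw [hc]
    field_simp
  · rw [if_neg hk, hsum]
    have hk0 : (k : ZMod p) ≠ 0 := fun h => hk ((ZMod.natCast_eq_zero_iff k p).1 h)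
    have hk2 : (k : ZMod p) ^ 2 ≠ 0 := pow_ne_zero 2 hk0
    have h := tc_sumF p s hs (fun x => ZMod.stdAddChar (N := p) (x * (k : ZMod p) ^ 2))
    have hz : ∑ x : ZMod p, ZMod.stdAddChar (N := p) (x * (k : ZMod p) ^ 2) = (0 : ℂ) := by
      have h6 := AddChar.sum_mulShift (ψ := ZMod.stdAddChar (N := p)) ((k : ZMod p) ^ 2)
        (ZMod.isPrimitive_stdAddChar p)
      rw [if_neg hk2] at h6
      simpa using h6
    have hg : ∑ x : ZMod p, ((quadraticChar (ZMod p) x : ℤ) : ℂ) *
        ZMod.stdAddChar (N := p) (x * (k : ZMod p) ^ 2) =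
        gaussSum ((quadraticChar (ZMod p)).ringHomComp
          (Int.castRingHom ℂ)) (ZMod.stdAddChar (N := p)) := by
      have h7 := gaussSum_mulShift ((quadraticChar (ZMod p)).ringHomComp
          (Int.castRingHom ℂ)) (ZMod.stdAddChar (N := p)) (Units.mk0 _ hk2)
      have h8 : ((quadraticChar (ZMod p)).ringHomComp (Int.castRingHom ℂ))
          ((Units.mk0 _ hk2 : (ZMod p)ˣ) : ZMod p) = 1 := by
        rw [Units.val_mk0, MulChar.ringHomComp_apply, quadraticChar_sq_one' hk0]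
        simp
      rw [h8, one_mul] at h7
      rw [← h7]
      unfold gaussSum
      apply Finset.sum_congr rfl
      intro x _
      rw [MulChar.ringHomComp_apply, AddChar.mulShift_apply, Units.val_mk0, mul_comm x]
      simp
    rw [hz, hg] at h
    simp only [zero_mul, AddChar.map_zero_eq_one] at h
    have h9 : (1 : ℂ) / (T.card : ℂ) = 2 / ((p : ℂ) - 1) := by
      rw [← hcard2]
      field_simp
    rw [h9]
    rw [div_mul_eq_mul_div, h]
    ring

/-- for a prime `p ≡ 3 mod 4`: the averages of `e(a k²/p)` over the two classes of nonzero residues `a`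
(squares / non-squares); the sign of the Gauss sum is not needed -/
theorem two_classes (p : ℕ) (hp : p.Prime) (h3 : p % 4 = 3) :
    ∃ A B : Finset ℕ, A.card = (p - 1) / 2 ∧ B.card = (p - 1) / 2 ∧ 0 < (p - 1) / 2 ∧
      (∀ k : ℕ, (1 / (A.card : ℂ)) * ∑ a ∈ A, ee ((k : ℝ) ^ 2 * (a / p)) =
        if p ∣ k then 1 else (-1 + Complex.I * √(p : ℝ)) / ((p : ℂ) - 1)) ∧
      (∀ k : ℕ, (1 / (B.card : ℂ)) * ∑ a ∈ B, ee ((k : ℝ) ^ 2 * (a / p)) =
        if p ∣ k then 1 else (-1 - Complex.I * √(p : ℝ)) / ((p : ℂ) - 1)) := by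
  haveI : Fact p.Prime := ⟨hp⟩
  have hp3 : 3 ≤ p := by
    have := hp.two_le
    omega
  have hrc : ringChar (ZMod p) ≠ 2 := by
    rw [ZMod.ringChar_zmod_n]
    omega
  set g := gaussSum ((quadraticChar (ZMod p)).ringHomComp
          (Int.castRingHom ℂ)) (ZMod.stdAddChar (N := p)) with hgdef
  have hne : (quadraticChar (ZMod p)).ringHomComp (Int.castRingHom ℂ) ≠ 1 := by
    rw [Ne, MulChar.ringHomComp_eq_one_iff (RingHom.injective_int _)]
    exact quadraticChar_ne_one hrc
  have hq : MulChar.IsQuadratic ((quadraticChar (ZMod p)).ringHomComp (Int.castRingHom ℂ)) :=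
    (quadraticChar_isQuadratic (ZMod p)).comp _
  have hsq : g ^ 2 = -(p : ℂ) := by
    rw [hgdef, gaussSum_sq hne hq (ZMod.isPrimitive_stdAddChar p), MulChar.ringHomComp_apply,
      quadraticChar_neg_one hrc, ZMod.card, ZMod.χ₄_nat_three_mod_four h3]
    simp
  have hsqrt : ((√(p : ℝ) : ℝ) : ℂ) ^ 2 = (p : ℂ) := by
    rw [← Complex.ofReal_pow, Real.sq_sqrt (Nat.cast_nonneg p)]
    simp
  have hfac : (g - Complex.I * √(p : ℝ)) * (g + Complex.I * √(p : ℝ)) = 0 := by
    have : (g - Complex.I * √(p : ℝ)) * (g + Complex.I * √(p : ℝ)) =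
        g ^ 2 - Complex.I ^ 2 * ((√(p : ℝ) : ℝ) : ℂ) ^ 2 := by ring
    rw [this, hsq, hsqrt, Complex.I_sq]
    ring
  obtain ⟨c1, h1⟩ := tc_aux p h3 1 (Or.inl rfl) _ rfl
  obtain ⟨c2, h2⟩ := tc_aux p h3 (-1) (Or.inr rfl) _ rfl
  rcases mul_eq_zero.1 hfac with h | h
  · have hg : g = Complex.I * √(p : ℝ) := by linear_combination h
    refine ⟨_, _, c1, c2, by omega, ?_, ?_⟩
    · intro k
      rw [h1 k, ← hgdef, hg]
      simp
    · intro k
      rw [h2 k, ← hgdef, hg]
      simp [sub_eq_add_neg]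
  · have hg : g = -(Complex.I * √(p : ℝ)) := by linear_combination h
    refine ⟨_, _, c2, c1, by omega, ?_, ?_⟩
    · intro k
      rw [h2 k, ← hgdef, hg]
      simp
    · intro k
      rw [h1 k, ← hgdef, hg]
      simp [sub_eq_add_neg]

end Pool.Agent.Helper380.VDCX.Jb1
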