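import Mathlib
import Pool.Agent.Helper380.VDC.Defs

set_option autoImplicit false

namespace Pool.Agent.Helper380.VDCX.Jb2

open Real Finset



theorem smooth_step_ee (a b : ℝ) : ee (a + b) = ee a * ee b := by
  unfold ee
  rw [← Complex.exp_add]
  congr 1
  push_cast
  ring

theorem smooth_step_avg (p H : ℕ) (u0 : ℝ) (u : ℕ → ℂ)
    (hpos : ∀ x : ℝ, 0 ≤ u0 + (∑ k ∈ Icc 1 H, u k * ee ((k : ℝ) ^ 2 * x)).re) (x : ℝ)
    (A : Finset ℕ) (hA : 0 < A.card) (α : ℕ → ℂ)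
    (h : ∀ k : ℕ, (1 / (A.card : ℂ)) * ∑ a ∈ A, ee ((k : ℝ) ^ 2 * (a / p)) = α k) :
    0 ≤ u0 + (∑ k ∈ Icc 1 H, u k * ee ((k : ℝ) ^ 2 * x) * α k).re := by
  have hc : (0 : ℝ) < (A.card : ℝ) := by exact_mod_cast hA
  have hc' : (A.card : ℂ) ≠ 0 := by exact_mod_cast hA.ne'
  have e1 : ∑ k ∈ Icc 1 H, u k * ee ((k : ℝ) ^ 2 * x) * α k =
      ((1 / (A.card : ℝ) : ℝ) : ℂ) *
        ∑ a ∈ A, ∑ k ∈ Icc 1 H, u k * ee ((k : ℝ) ^ 2 * (x + a / p)) := by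
    rw [Finset.sum_comm, Finset.mul_sum]
    refine Finset.sum_congr rfl fun k _ => ?_
    rw [← h k]
    push_cast
    rw [Finset.mul_sum, Finset.mul_sum, Finset.mul_sum]
    refine Finset.sum_congr rfl fun a _ => ?_
    rw [mul_add, smooth_step_ee]
    ring
  rw [e1, Complex.re_ofReal_mul, Complex.re_sum]
  have h2 : 0 ≤ ∑ a ∈ A, (u0 + (∑ k ∈ Icc 1 H, u k * ee ((k : ℝ) ^ 2 * (x + a / p))).re) :=
    Finset.sum_nonneg fun a _ => hpos _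
  rw [Finset.sum_add_distrib, Finset.sum_const, nsmul_eq_mul] at h2
  have h3 : 0 ≤ (1 / (A.card : ℝ)) * ((A.card : ℝ) * u0 +
      ∑ a ∈ A, (∑ k ∈ Icc 1 H, u k * ee ((k : ℝ) ^ 2 * (x + a / p))).re) :=
    mul_nonneg (by positivity) h2
  have h4 : (1 / (A.card : ℝ)) * ((A.card : ℝ) * u0) = u0 := by
    field_simp
  rw [mul_add, h4] at h3
  exact h3

/-- one smoothing step with a prime `p ≡ 3 mod 4` -/
theorem smooth_step
    (two_classes : ∀ (p : ℕ), p.Prime → p % 4 = 3 →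
      ∃ A B : Finset ℕ, A.card = (p - 1) / 2 ∧ B.card = (p - 1) / 2 ∧ 0 < (p - 1) / 2 ∧
        (∀ k : ℕ, (1 / (A.card : ℂ)) * ∑ a ∈ A, ee ((k : ℝ) ^ 2 * (a / p)) =
          if p ∣ k then 1 else (-1 + Complex.I * √(p : ℝ)) / ((p : ℂ) - 1)) ∧
        (∀ k : ℕ, (1 / (B.card : ℂ)) * ∑ a ∈ B, ee ((k : ℝ) ^ 2 * (a / p)) =
          if p ∣ k then 1 else (-1 - Complex.I * √(p : ℝ)) / ((p : ℂ) - 1)))
    (p : ℕ) (hp : p.Prime) (h3 : p % 4 = 3) (τ η : ℝ) (hτ0 : 0 ≤ τ) (hτ1 : τ ≤ 1) (hη : 0 ≤ η)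
    (hηp : η ^ 2 * p ≤ 1) (H : ℕ) (u0 : ℝ) (u : ℕ → ℂ)
    (hpos : ∀ x : ℝ, 0 ≤ u0 + (∑ k ∈ Icc 1 H, u k * ee ((k : ℝ) ^ 2 * x)).re) (x : ℝ) :
    (1 - τ) * (u0 + (∑ k ∈ Icc 1 H, u k * ee ((k : ℝ) ^ 2 * x)).re) ≤
      u0 + (∑ k ∈ Icc 1 H, u k * (if p ∣ k then 1 else 1 - (τ : ℂ) * (1 - Complex.I * η)) *
        ee ((k : ℝ) ^ 2 * x)).re := by
  obtain ⟨A, B, hA, hB, h0, hα, hβ⟩ := two_classes p hp h3
  have hp1 : (1 : ℝ) < p := by exact_mod_cast hp.one_lt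
  have hp0 : (0 : ℝ) < p := by linarith
  set s : ℝ := √(p : ℝ) with hs
  have hs0 : 0 < s := Real.sqrt_pos.2 hp0
  have hss : s * s = p := Real.mul_self_sqrt hp0.le
  have hηs : η * s ≤ 1 := by
    have h1 : (η * s) ^ 2 ≤ 1 := by
      calc (η * s) ^ 2 = η ^ 2 * (s * s) := by ring
        _ ≤ 1 := by rw [hss]; exact hηp
    have h2 : 0 ≤ η * s := by positivity
    nlinarith
  set t : ℝ := τ * (p - 1) / p with ht
  set δ : ℝ := τ * η * (p - 1) / s with hδ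
  have hpm : 0 < (p : ℝ) - 1 := by linarith
  have hδ0 : 0 ≤ δ := by
    rw [hδ]; positivity
  have ht0 : 0 ≤ t := by rw [ht]; positivity
  have hδt : δ ≤ t := by
    have h1 : t = τ * (p - 1) / s * (1 / s) := by
      rw [ht, ← hss]; field_simp
    have h2 : δ = τ * (p - 1) / s * η := by rw [hδ]; ring
    rw [h1, h2]
    refine mul_le_mul_of_nonneg_left ?_ (by positivity)
    rw [le_div_iff₀ hs0]
    exact hηs
  have htτ : t ≤ τ := by
    rw [ht, div_le_iff₀ hp0]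
    nlinarith
  have hGA := smooth_step_avg p H u0 u hpos x A (by omega) _ hα
  have hGB := smooth_step_avg p H u0 u hpos x B (by omega) _ hβ
  set GA := ∑ k ∈ Icc 1 H, u k * ee ((k : ℝ) ^ 2 * x) *
    (if p ∣ k then 1 else (-1 + Complex.I * (s : ℂ)) / ((p : ℂ) - 1)) with hGAd
  set GB := ∑ k ∈ Icc 1 H, u k * ee ((k : ℝ) ^ 2 * x) *
    (if p ∣ k then 1 else (-1 - Complex.I * (s : ℂ)) / ((p : ℂ) - 1)) with hGBd
  have hF := hpos x
  set F := ∑ k ∈ Icc 1 H, u k * ee ((k : ℝ) ^ 2 * x) with hFd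
  have hcp : (p : ℂ) ≠ 0 := by exact_mod_cast hp.pos.ne'
  have hcp1 : (p : ℂ) - 1 ≠ 0 := by
    have : ((p : ℝ) - 1 : ℂ) ≠ 0 := by exact_mod_cast hpm.ne'
    exact_mod_cast this
  have hcs : (s : ℂ) ≠ 0 := by exact_mod_cast hs0.ne'
  have hcss : (s : ℂ) * (s : ℂ) = (p : ℂ) := by exact_mod_cast hss
  have hT : ∑ k ∈ Icc 1 H, u k * (if p ∣ k then 1 else 1 - (τ : ℂ) * (1 - Complex.I * η)) *
        ee ((k : ℝ) ^ 2 * x) =
      ((1 - t : ℝ) : ℂ) * F + (((t + δ) / 2 : ℝ) : ℂ) * GA + (((t - δ) / 2 : ℝ) : ℂ) * GB := by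
    rw [hFd, hGAd, hGBd, Finset.mul_sum, Finset.mul_sum, Finset.mul_sum,
      ← Finset.sum_add_distrib, ← Finset.sum_add_distrib]
    refine Finset.sum_congr rfl fun k _ => ?_
    split_ifs with hk
    · push_cast
      ring
    · have e1 : (t : ℂ) = τ * ((p : ℂ) - 1) / p := by rw [ht]; push_cast; ring
      have e2 : (δ : ℂ) = τ * η * ((p : ℂ) - 1) * s / p := by
        rw [hδ]; push_cast; rw [← hcss]; field_simp
      have e3 : (1 : ℂ) - (τ : ℂ) * (1 - Complex.I * η) = (1 - t) +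
          (t + δ) / 2 * ((-1 + Complex.I * (s : ℂ)) / ((p : ℂ) - 1)) +
          (t - δ) / 2 * ((-1 - Complex.I * (s : ℂ)) / ((p : ℂ) - 1)) := by
        have e4 : (1 - t) +
          (t + δ) / 2 * ((-1 + Complex.I * (s : ℂ)) / ((p : ℂ) - 1)) +
          (t - δ) / 2 * ((-1 - Complex.I * (s : ℂ)) / ((p : ℂ) - 1)) =
          1 - t - t / ((p : ℂ) - 1) + δ * s * Complex.I / ((p : ℂ) - 1) := by ring
        rw [e4, e1, e2]
        have e5 : (τ : ℂ) * η * ((p : ℂ) - 1) * s / p * s * Complex.I / ((p : ℂ) - 1) =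
            τ * η * Complex.I := by
          have e6 : (τ : ℂ) * η * ((p : ℂ) - 1) * s / p * s * Complex.I / ((p : ℂ) - 1) =
            τ * η * Complex.I * ((s : ℂ) * s / p) * (((p : ℂ) - 1) / ((p : ℂ) - 1)) := by ring
          rw [e6, hcss, div_self hcp, div_self hcp1, mul_one, mul_one]
        rw [e5]
        field_simp
        ring
      rw [e3]
      push_cast
      ring
  rw [hT]
  have hre : (((1 - t : ℝ) : ℂ) * F + (((t + δ) / 2 : ℝ) : ℂ) * GA +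
      (((t - δ) / 2 : ℝ) : ℂ) * GB).re = (1 - t) * F.re + (t + δ) / 2 * GA.re +
      (t - δ) / 2 * GB.re := by
    rw [Complex.add_re, Complex.add_re, Complex.re_ofReal_mul, Complex.re_ofReal_mul,
      Complex.re_ofReal_mul]
  rw [hre]
  have k1 : 0 ≤ (t + δ) / 2 * (u0 + GA.re) := mul_nonneg (by linarith) hGA
  have k2 : 0 ≤ (t - δ) / 2 * (u0 + GB.re) := mul_nonneg (by linarith) hGB
  have k3 : 0 ≤ (τ - t) * (u0 + F.re) := mul_nonneg (by linarith) hF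
  nlinarith

end Pool.Agent.Helper380.VDCX.Jb2
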