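import Mathlib
import Pool.Agent.Helper380.VDC.Defs

set_option autoImplicit false

namespace Pool.Agent.Helper380.VDCX.Jb3

open Real Finset



theorem smooth_all_ee_zero (k : ℕ) : ee ((k : ℝ) ^ 2 * 0) = 1 := by
  simp [ee]

theorem smooth_all_ee_re (t : ℝ) : (ee t).re = Real.cos (2 * π * t) := by
  unfold ee
  rw [Complex.exp_ofReal_mul_I_re]

theorem smooth_all_card (p : ℕ) (P : Finset ℕ) (hp : p ∉ P) (k : ℕ) :
    ((insert p P).filter (fun p => ¬ p ∣ k)).card =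
      (P.filter (fun p => ¬ p ∣ k)).card + (if p ∣ k then 0 else 1) := by
  rw [Finset.filter_insert]
  by_cases h : p ∣ k
  · simp [h]
  · rw [if_pos h, if_neg h, Finset.card_insert_of_notMem]
    intro hm
    exact hp (Finset.mem_filter.1 hm).1

theorem smooth_all_ind
    (smooth_step : ∀ (p : ℕ), p.Prime → p % 4 = 3 → ∀ (τ η : ℝ), 0 ≤ τ → τ ≤ 1 → 0 ≤ η →
      η ^ 2 * p ≤ 1 → ∀ (H : ℕ) (u0 : ℝ) (u : ℕ → ℂ),
      (∀ x : ℝ, 0 ≤ u0 + (∑ k ∈ Icc 1 H, u k * ee ((k : ℝ) ^ 2 * x)).re) → ∀ (x : ℝ),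
      (1 - τ) * (u0 + (∑ k ∈ Icc 1 H, u k * ee ((k : ℝ) ^ 2 * x)).re) ≤
        u0 + (∑ k ∈ Icc 1 H, u k * (if p ∣ k then 1 else 1 - (τ : ℂ) * (1 - Complex.I * η)) *
          ee ((k : ℝ) ^ 2 * x)).re)
    (τ η : ℝ) (hτ0 : 0 ≤ τ) (hτ1 : τ ≤ 1)
    (hη : 0 ≤ η) (H : ℕ) (c0 : ℝ) (c : ℕ → ℝ)
    (hpos : ∀ x : ℝ, 0 ≤ c0 + ∑ k ∈ Icc 1 H, c k * Real.cos (2 * π * (k : ℝ) ^ 2 * x))
    (P : Finset ℕ) : (∀ p ∈ P, p.Prime ∧ p % 4 = 3) → (∀ p ∈ P, η ^ 2 * p ≤ 1) →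
    ∀ x : ℝ, 0 ≤ c0 + (∑ k ∈ Icc 1 H, (c k : ℂ) *
        (1 - (τ : ℂ) * (1 - Complex.I * η)) ^ (P.filter (fun p => ¬ p ∣ k)).card *
          ee ((k : ℝ) ^ 2 * x)).re ∧
      (1 - τ) ^ P.card * (c0 + ∑ k ∈ Icc 1 H, c k * Real.cos (2 * π * (k : ℝ) ^ 2 * x)) ≤
      c0 + (∑ k ∈ Icc 1 H, (c k : ℂ) *
        (1 - (τ : ℂ) * (1 - Complex.I * η)) ^ (P.filter (fun p => ¬ p ∣ k)).card *
          ee ((k : ℝ) ^ 2 * x)).re := by
  induction P using Finset.induction_on with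
  | empty =>
    intro _ _ x
    have e : (∑ k ∈ Icc 1 H, (c k : ℂ) *
        (1 - (τ : ℂ) * (1 - Complex.I * η)) ^ ((∅ : Finset ℕ).filter (fun p => ¬ p ∣ k)).card *
          ee ((k : ℝ) ^ 2 * x)).re = ∑ k ∈ Icc 1 H, c k * Real.cos (2 * π * (k : ℝ) ^ 2 * x) := by
      rw [Complex.re_sum]
      apply Finset.sum_congr rfl
      intro k _
      rw [Finset.filter_empty, Finset.card_empty, pow_zero, mul_one, Complex.re_ofReal_mul,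
        smooth_all_ee_re, mul_assoc (2 * π)]
    rw [e, Finset.card_empty, pow_zero, one_mul]
    exact ⟨hpos x, le_rfl⟩
  | insert p P hp ih =>
    intro h1 h2 x
    have ih' := ih (fun q hq => h1 q (Finset.mem_insert_of_mem hq))
      (fun q hq => h2 q (Finset.mem_insert_of_mem hq))
    obtain ⟨hpp, hp4⟩ := h1 p (Finset.mem_insert_self _ _)
    have hst := smooth_step p hpp hp4 τ η hτ0 hτ1 hη (h2 p (Finset.mem_insert_self _ _)) H c0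
      (fun k => (c k : ℂ) *
        (1 - (τ : ℂ) * (1 - Complex.I * η)) ^ (P.filter (fun p => ¬ p ∣ k)).card)
      (fun x => (ih' x).1) x
    have e : (∑ k ∈ Icc 1 H, (c k : ℂ) *
        (1 - (τ : ℂ) * (1 - Complex.I * η)) ^ (P.filter (fun p => ¬ p ∣ k)).card *
        (if p ∣ k then 1 else 1 - (τ : ℂ) * (1 - Complex.I * η)) *
          ee ((k : ℝ) ^ 2 * x)) = ∑ k ∈ Icc 1 H, (c k : ℂ) *
        (1 - (τ : ℂ) * (1 - Complex.I * η)) ^ ((insert p P).filter (fun p => ¬ p ∣ k)).card *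
          ee ((k : ℝ) ^ 2 * x) := by
      apply Finset.sum_congr rfl
      intro k _
      rw [smooth_all_card p P hp k]
      by_cases h : p ∣ k
      · rw [if_pos h, if_pos h, add_zero, mul_one]
      · rw [if_neg h, if_neg h, pow_add, pow_one]; ring
    rw [e] at hst
    have h10 : 0 ≤ 1 - τ := by linarith
    refine ⟨le_trans (mul_nonneg h10 (ih' x).1) hst, le_trans ?_ hst⟩
    rw [Finset.card_insert_of_notMem hp, pow_succ, mul_comm _ (1 - τ), mul_assoc]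
    exact mul_le_mul_of_nonneg_left (ih' x).2 h10

/-- all primes of a finite set -/
theorem smooth_all
    (smooth_step : ∀ (p : ℕ), p.Prime → p % 4 = 3 → ∀ (τ η : ℝ), 0 ≤ τ → τ ≤ 1 → 0 ≤ η →
      η ^ 2 * p ≤ 1 → ∀ (H : ℕ) (u0 : ℝ) (u : ℕ → ℂ),
      (∀ x : ℝ, 0 ≤ u0 + (∑ k ∈ Icc 1 H, u k * ee ((k : ℝ) ^ 2 * x)).re) → ∀ (x : ℝ),
      (1 - τ) * (u0 + (∑ k ∈ Icc 1 H, u k * ee ((k : ℝ) ^ 2 * x)).re) ≤
        u0 + (∑ k ∈ Icc 1 H, u k * (if p ∣ k then 1 else 1 - (τ : ℂ) * (1 - Complex.I * η)) *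
          ee ((k : ℝ) ^ 2 * x)).re)
    (P : Finset ℕ) (hP : ∀ p ∈ P, p.Prime ∧ p % 4 = 3) (τ η : ℝ) (hτ0 : 0 ≤ τ) (hτ1 : τ ≤ 1)
    (hη : 0 ≤ η) (hηp : ∀ p ∈ P, η ^ 2 * p ≤ 1) (H : ℕ) (c0 : ℝ) (c : ℕ → ℝ)
    (hpos : ∀ x : ℝ, 0 ≤ c0 + ∑ k ∈ Icc 1 H, c k * Real.cos (2 * π * (k : ℝ) ^ 2 * x)) :
    (1 - τ) ^ P.card * (c0 + ∑ k ∈ Icc 1 H, c k) ≤
      c0 + ∑ k ∈ Icc 1 H, c k *
        ((1 - (τ : ℂ) * (1 - Complex.I * η)) ^ (P.filter (fun p => ¬ p ∣ k)).card).re := by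
  have h := (smooth_all_ind smooth_step τ η hτ0 hτ1 hη H c0 c hpos P hP hηp 0).2
  have e1 : ∑ k ∈ Icc 1 H, c k * Real.cos (2 * π * (k : ℝ) ^ 2 * 0) = ∑ k ∈ Icc 1 H, c k := by
    apply Finset.sum_congr rfl
    intro k _
    rw [mul_zero, Real.cos_zero, mul_one]
  rw [e1, Complex.re_sum] at h
  refine h.trans (le_of_eq ?_)
  congr 1
  apply Finset.sum_congr rfl
  intro k _
  rw [smooth_all_ee_zero, mul_one, Complex.re_ofReal_mul]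

end Pool.Agent.Helper380.VDCX.Jb3
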