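import Mathlib
import Pool.Agent.Helper380.VDC.Defs

set_option autoImplicit false

namespace Pool.Agent.Helper380.VDCX.Jb4

open Real Finset

/-- the moments are purely imaginary up to a tiny error: `η = tan(π/(2N))` -/
theorem moment (N m : ℕ) (hN : 2 ≤ N) (η : ℝ) (hη : η = Real.tan (π / (2 * N))) :
    |∫ τ in (0 : ℝ)..1, τ ^ (N - 1) * ((1 - (τ : ℂ) * (1 - Complex.I * η)) ^ m).re| ≤ η ^ (m + 1) := by
  have hN0 : (N : ℝ) ≠ 0 := by positivity
  have hN2 : (2 : ℝ) ≤ N := by exact_mod_cast hN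
  have hpi := Real.pi_pos
  set θ : ℝ := π / (2 * N) with hθ
  have hθ0 : 0 < θ := by positivity
  have hθ1 : θ < π / 2 := by
    rw [hθ, div_lt_div_iff₀ (by positivity) (by norm_num)]
    nlinarith
  set c : ℝ := Real.cos θ with hc
  have hc0 : 0 < c := Real.cos_pos_of_mem_Ioo ⟨by linarith, hθ1⟩
  have hc1 : c ≤ 1 := Real.cos_le_one θ
  have hη0 : 0 ≤ η := by
    rw [hη]; exact (Real.tan_pos_of_pos_of_lt_pi_div_two hθ0 hθ1).le
  have hηc : η * c = Real.sin θ := by
    rw [hη, Real.tan_eq_sin_div_cos, div_mul_cancel₀ _ hc0.ne']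
  have hcη : 1 + η ^ 2 = (c⁻¹) ^ 2 := by
    have h1 : c ^ 2 * (1 + η ^ 2) = 1 := by
      have := Real.sin_sq_add_cos_sq θ
      rw [← hηc] at this
      nlinarith
    field_simp
    linarith
  set w : ℂ := 1 - Complex.I * η with hw
  -- the N-th power
  have hwN : w ^ N * (c : ℂ) ^ N = -Complex.I := by
    rw [← mul_pow]
    have h1 : w * (c : ℂ) = Complex.cos ((-θ : ℝ) : ℂ) + Complex.sin ((-θ : ℝ) : ℂ) * Complex.I := by
      rw [← Complex.ofReal_cos, ← Complex.ofReal_sin, Real.cos_neg, Real.sin_neg, ← hηc, ← hc, hw,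
        Complex.ofReal_neg, Complex.ofReal_mul]
      ring
    rw [h1, Complex.cos_add_sin_mul_I_pow]
    have h2 : (N : ℂ) * ((-θ : ℝ) : ℂ) = ((-(π / 2) : ℝ) : ℂ) := by
      have : (N : ℝ) * (-θ) = -(π / 2) := by
        rw [hθ]; field_simp
      rw [← this]
      push_cast
      ring
    rw [h2, ← Complex.ofReal_cos, ← Complex.ofReal_sin, Real.cos_neg, Real.sin_neg,
      Real.cos_pi_div_two, Real.sin_pi_div_two]
    push_cast
    ring
  -- the primitive
  let P : ℂ → ℂ := fun v => ∑ j ∈ Finset.range (m + 1),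
    ((m.choose j : ℂ) * (-1) ^ j / ((N + j : ℕ) : ℂ)) * v ^ (N + j)
  have hP : ∀ v : ℂ, HasDerivAt P (v ^ (N - 1) * (1 - v) ^ m) v := by
    intro v
    have h1 : HasDerivAt P (∑ j ∈ Finset.range (m + 1),
        ((m.choose j : ℂ) * (-1) ^ j / ((N + j : ℕ) : ℂ)) * (((N + j : ℕ) : ℂ) * v ^ (N + j - 1))) v := by
      apply HasDerivAt.fun_sum
      intro j _
      exact (hasDerivAt_pow (N + j) v).const_mul _
    convert h1 using 1
    rw [sub_eq_neg_add, add_pow, Finset.mul_sum]
    apply Finset.sum_congr rfl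
    intro j _
    have h2 : ((N + j : ℕ) : ℂ) ≠ 0 := by
      have : N + j ≠ 0 := by omega
      exact_mod_cast this
    have h3 : N + j - 1 = (N - 1) + j := by omega
    rw [h3, pow_add, neg_pow, one_pow]
    field_simp
  have hP0 : P 0 = 0 := by
    apply Finset.sum_eq_zero
    intro j _
    rw [zero_pow (by omega), mul_zero]
  have hP1 : (P 1).im = 0 := by
    have : P 1 = ((∑ j ∈ Finset.range (m + 1),
      ((m.choose j : ℝ) * (-1) ^ j / ((N + j : ℕ) : ℝ)) : ℝ) : ℂ) := by
      simp only [P, one_pow, mul_one]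
      push_cast
      rfl
    rw [this, Complex.ofReal_im]
  -- the integral
  set J : ℂ := ∫ τ in (0 : ℝ)..1, (τ : ℂ) ^ (N - 1) * (1 - (τ : ℂ) * w) ^ m with hJ
  have hcont : Continuous fun τ : ℝ => (τ : ℂ) ^ (N - 1) * (1 - (τ : ℂ) * w) ^ m := by
    fun_prop
  have hJP : w ^ N * J = P w := by
    have h1 : ∀ τ ∈ Set.uIcc (0 : ℝ) 1, HasDerivAt (fun τ : ℝ => P ((τ : ℂ) * w))
        (w ^ N * ((τ : ℂ) ^ (N - 1) * (1 - (τ : ℂ) * w) ^ m)) τ := by
      intro τ _
      have h2 : HasDerivAt (fun z : ℂ => P (z * w))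
          (((τ : ℂ) * w) ^ (N - 1) * (1 - (τ : ℂ) * w) ^ m * w) (τ : ℂ) := by
        have h3 : HasDerivAt (fun z : ℂ => z * w) w (τ : ℂ) := by
          simpa using (hasDerivAt_id (τ : ℂ)).mul_const w
        exact (hP ((τ : ℂ) * w)).comp (τ : ℂ) h3
      have h4 := h2.comp_ofReal
      convert h4 using 1
      rw [mul_pow]
      have h5 : w ^ N = w ^ (N - 1) * w := by
        rw [← pow_succ]; congr 1; omega
      rw [h5]
      ring
    have h2 := intervalIntegral.integral_eq_sub_of_hasDerivAt h1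
      ((continuous_const.mul hcont).intervalIntegrable _ _)
    rw [intervalIntegral.integral_const_mul] at h2
    rw [hJ, h2]
    simp only [Complex.ofReal_one, one_mul, Complex.ofReal_zero, zero_mul, hP0, sub_zero]
  have hJ2 : J = Complex.I * (c : ℂ) ^ N * P w := by
    rw [← hJP]
    have : Complex.I * (c : ℂ) ^ N * (w ^ N * J) = Complex.I * (w ^ N * (c : ℂ) ^ N) * J := by ring
    rw [this, hwN]
    have h : Complex.I * -Complex.I = 1 := by
      rw [mul_neg, Complex.I_mul_I, neg_neg]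
    rw [h, one_mul]
  -- the segment from `1` to `w`
  have hseg : ‖P w - P 1‖ ≤ (c⁻¹) ^ (N - 1) * η ^ m * η := by
    have h1 : ∀ s ∈ Set.Icc (0 : ℝ) 1, HasDerivWithinAt (fun s : ℝ => P (1 - (s : ℂ) * (Complex.I * η)))
        ((1 - (s : ℂ) * (Complex.I * η)) ^ (N - 1) * (1 - (1 - (s : ℂ) * (Complex.I * η))) ^ m *
          (-(Complex.I * η))) (Set.Icc 0 1) s := by
      intro s _
      have h3 : HasDerivAt (fun z : ℂ => 1 - z * (Complex.I * η)) (-(Complex.I * η)) (s : ℂ) := by
        simpa using ((hasDerivAt_id (s : ℂ)).mul_const (Complex.I * (η : ℂ))).const_sub 1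
      have h2 := (hP (1 - (s : ℂ) * (Complex.I * η))).comp (s : ℂ) h3
      exact h2.comp_ofReal.hasDerivWithinAt
    have h2 : ∀ s ∈ Set.Ico (0 : ℝ) 1,
        ‖(1 - (s : ℂ) * (Complex.I * η)) ^ (N - 1) * (1 - (1 - (s : ℂ) * (Complex.I * η))) ^ m *
          (-(Complex.I * η))‖ ≤ (c⁻¹) ^ (N - 1) * η ^ m * η := by
      intro s hs
      have hs0 : 0 ≤ s := hs.1
      have hs1 : s ≤ 1 := hs.2.le
      have e1 : ‖(1 - (s : ℂ) * (Complex.I * η))‖ ≤ c⁻¹ := by
        refine (sq_le_sq₀ (norm_nonneg _) (by positivity)).1 ?_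
        rw [← hcη, Complex.sq_norm, Complex.normSq_apply]
        simp
        have : (s * η) ^ 2 ≤ η ^ 2 := by
          apply pow_le_pow_left₀ (by positivity)
          nlinarith
        nlinarith
      have e2 : ‖(1 - (1 - (s : ℂ) * (Complex.I * η)))‖ ≤ η := by
        have : (1 - (1 - (s : ℂ) * (Complex.I * η))) = ((s * η : ℝ) : ℂ) * Complex.I := by
          push_cast; ring
        rw [this, norm_mul, Complex.norm_I, mul_one, Complex.norm_real, Real.norm_eq_abs,
          abs_of_nonneg (by positivity)]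
        nlinarith
      have e3 : ‖(-(Complex.I * η : ℂ))‖ = η := by
        rw [norm_neg, norm_mul, Complex.norm_I, one_mul, Complex.norm_real, Real.norm_eq_abs,
          abs_of_nonneg hη0]
      rw [norm_mul, norm_mul, norm_pow, norm_pow, e3]
      gcongr
    have h3 := norm_image_sub_le_of_norm_deriv_le_segment_01' h1 h2
    simpa [hw] using h3
  -- conclusion
  have hre : (∫ τ in (0 : ℝ)..1, τ ^ (N - 1) * ((1 - (τ : ℂ) * w) ^ m).re) = J.re := by
    rw [hJ]
    have h1 := Complex.reCLM.intervalIntegral_comp_comm (hcont.intervalIntegrable (μ := MeasureTheory.volume) 0 1)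
    simp only [Complex.reCLM_apply] at h1
    rw [← h1]
    apply intervalIntegral.integral_congr
    intro τ _
    simp only
    rw [← Complex.ofReal_pow, Complex.re_ofReal_mul]
  rw [hre, hJ2]
  have hre2 : (Complex.I * (c : ℂ) ^ N * P w).re = -(c ^ N * (P w - P 1).im) := by
    rw [Complex.sub_im, hP1, sub_zero, mul_assoc, Complex.I_mul_re, ← Complex.ofReal_pow,
      Complex.im_ofReal_mul]
  rw [hre2, abs_neg, abs_mul, abs_of_nonneg (by positivity)]
  calc c ^ N * |(P w - P 1).im| ≤ c ^ N * ((c⁻¹) ^ (N - 1) * η ^ m * η) := by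
        gcongr
        exact (Complex.abs_im_le_norm _).trans hseg
    _ = c * η ^ (m + 1) := by
        have h5 : c ^ N = c ^ (N - 1) * c := by
          rw [← pow_succ]; congr 1; omega
        rw [h5, pow_succ, inv_pow]
        field_simp
    _ ≤ 1 * η ^ (m + 1) := by gcongr
    _ = η ^ (m + 1) := one_mul _

end Pool.Agent.Helper380.VDCX.Jb4
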