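import Mathlib
import Pool.Agent.Helper380.VDC.Defs

set_option autoImplicit false

namespace Pool.Agent.Helper380.VDCX.Jb5

open Real Finset


theorem cl_int (n : ℤ) : ∫ x in (0:ℝ)..1, Real.cos (2 * π * (n : ℝ) * x) = if n = 0 then 1 else 0 := by
  by_cases hn : n = 0
  · subst hn; simp
  · rw [if_neg hn]
    have hc : 2 * π * (n : ℝ) ≠ 0 := by
      have : (n : ℝ) ≠ 0 := by exact_mod_cast hn
      have := Real.pi_ne_zero
      positivity
    rw [intervalIntegral.integral_comp_mul_left (fun y => Real.cos y) hc, integral_cos]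
    have h1 : Real.sin (2 * π * (n : ℝ) * 1) = 0 := by
      have : 2 * π * (n : ℝ) * 1 = ((2 * n : ℤ) : ℝ) * π := by push_cast; ring
      rw [this]
      exact Real.sin_int_mul_pi _
    rw [h1]
    simp

theorem cl_cont (n : ℤ) : Continuous (fun x : ℝ => Real.cos (2 * π * (n : ℝ) * x)) := by
  fun_prop

theorem cl_ii (n : ℤ) (a b : ℝ) : IntervalIntegrable (fun x : ℝ => Real.cos (2 * π * (n : ℝ) * x))
    MeasureTheory.volume a b := (cl_cont n).intervalIntegrable _ _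

theorem cl_main (H : ℕ) (c0 : ℝ) (c : ℕ → ℝ)
    (hpos : ∀ x : ℝ, 0 ≤ c0 + ∑ k ∈ Icc 1 H, c k * Real.cos (2 * π * (k : ℝ) ^ 2 * x))
    (k : ℕ) (hk : k ∈ Icc 1 H) (σ : ℝ) (hσ : |σ| ≤ 1) : 0 ≤ c0 + σ / 2 * c k := by
  have hk1 : 1 ≤ k := (Finset.mem_Icc.mp hk).1
  have hkZ : (0 : ℤ) < (k : ℤ) ^ 2 := by positivity
  have hpt : ∀ x : ℝ, (c0 + ∑ j ∈ Icc 1 H, c j * Real.cos (2 * π * (j : ℝ) ^ 2 * x))
      * (1 + σ * Real.cos (2 * π * (k : ℝ) ^ 2 * x))
      = c0 * (1 + σ * Real.cos (2 * π * (((k : ℤ) ^ 2 : ℤ) : ℝ) * x))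
        + ∑ j ∈ Icc 1 H, c j * (Real.cos (2 * π * (((j : ℤ) ^ 2 : ℤ) : ℝ) * x)
          + σ / 2 * (Real.cos (2 * π * (((j : ℤ) ^ 2 - (k : ℤ) ^ 2 : ℤ) : ℝ) * x)
            + Real.cos (2 * π * (((j : ℤ) ^ 2 + (k : ℤ) ^ 2 : ℤ) : ℝ) * x))) := by
    intro x
    rw [add_mul, Finset.sum_mul]
    congr 1
    · push_cast; ring
    · apply Finset.sum_congr rfl
      intro j _
      push_cast
      have e1 : 2 * π * ((j : ℝ) ^ 2 - (k : ℝ) ^ 2) * x
          = 2 * π * (j : ℝ) ^ 2 * x - 2 * π * (k : ℝ) ^ 2 * x := by ring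
      have e2 : 2 * π * ((j : ℝ) ^ 2 + (k : ℝ) ^ 2) * x
          = 2 * π * (j : ℝ) ^ 2 * x + 2 * π * (k : ℝ) ^ 2 * x := by ring
      rw [e1, e2, Real.cos_sub, Real.cos_add]
      ring
  have hint : ∫ x in (0:ℝ)..1, (c0 + ∑ j ∈ Icc 1 H, c j * Real.cos (2 * π * (j : ℝ) ^ 2 * x))
      * (1 + σ * Real.cos (2 * π * (k : ℝ) ^ 2 * x)) = c0 + σ / 2 * c k := by
    simp only [hpt]
    have i0 : IntervalIntegrable (fun x : ℝ => c0 * (1 + σ *
        Real.cos (2 * π * (((k : ℤ) ^ 2 : ℤ) : ℝ) * x))) MeasureTheory.volume 0 1 :=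
      Continuous.intervalIntegrable (by fun_prop) _ _
    have ij : ∀ j ∈ Icc 1 H, IntervalIntegrable (fun x : ℝ => c j *
        (Real.cos (2 * π * (((j : ℤ) ^ 2 : ℤ) : ℝ) * x)
          + σ / 2 * (Real.cos (2 * π * (((j : ℤ) ^ 2 - (k : ℤ) ^ 2 : ℤ) : ℝ) * x)
            + Real.cos (2 * π * (((j : ℤ) ^ 2 + (k : ℤ) ^ 2 : ℤ) : ℝ) * x))))
        MeasureTheory.volume 0 1 := fun j _ => Continuous.intervalIntegrable (by fun_prop) _ _
    have is : IntervalIntegrable (fun x : ℝ => ∑ j ∈ Icc 1 H, c j *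
        (Real.cos (2 * π * (((j : ℤ) ^ 2 : ℤ) : ℝ) * x)
          + σ / 2 * (Real.cos (2 * π * (((j : ℤ) ^ 2 - (k : ℤ) ^ 2 : ℤ) : ℝ) * x)
            + Real.cos (2 * π * (((j : ℤ) ^ 2 + (k : ℤ) ^ 2 : ℤ) : ℝ) * x))))
        MeasureTheory.volume 0 1 := Continuous.intervalIntegrable (by fun_prop) _ _
    rw [intervalIntegral.integral_add i0 is, intervalIntegral.integral_finset_sum ij]
    have h1 : ∫ x in (0:ℝ)..1, c0 * (1 + σ * Real.cos (2 * π * (((k : ℤ) ^ 2 : ℤ) : ℝ) * x))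
        = c0 := by
      rw [intervalIntegral.integral_const_mul,
        intervalIntegral.integral_add (Continuous.intervalIntegrable (by fun_prop) _ _)
          ((cl_ii _ _ _).const_mul σ), intervalIntegral.integral_const_mul, cl_int, if_neg hkZ.ne']
      simp
    have h2 : ∀ j ∈ Icc 1 H, ∫ x in (0:ℝ)..1, c j *
        (Real.cos (2 * π * (((j : ℤ) ^ 2 : ℤ) : ℝ) * x)
          + σ / 2 * (Real.cos (2 * π * (((j : ℤ) ^ 2 - (k : ℤ) ^ 2 : ℤ) : ℝ) * x)
            + Real.cos (2 * π * (((j : ℤ) ^ 2 + (k : ℤ) ^ 2 : ℤ) : ℝ) * x)))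
        = if j = k then σ / 2 * c k else 0 := by
      intro j hj
      have hj1 : 1 ≤ j := (Finset.mem_Icc.mp hj).1
      have hjZ : (0 : ℤ) < (j : ℤ) ^ 2 := by positivity
      rw [intervalIntegral.integral_const_mul,
        intervalIntegral.integral_add (cl_ii _ _ _)
          (((cl_ii _ _ _).add (cl_ii _ _ _)).const_mul (σ / 2)),
        intervalIntegral.integral_const_mul,
        intervalIntegral.integral_add (cl_ii _ _ _) (cl_ii _ _ _), cl_int, cl_int, cl_int,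
        if_neg hjZ.ne', if_neg (show (j : ℤ) ^ 2 + (k : ℤ) ^ 2 ≠ 0 by positivity)]
      by_cases hjk : j = k
      · subst hjk
        rw [if_pos (sub_self _), if_pos rfl]
        ring
      · rw [if_neg hjk, if_neg]
        · ring
        · intro h0
          apply hjk
          have h3 : (j : ℤ) ^ 2 = (k : ℤ) ^ 2 := by linarith
          have h4 : j ^ 2 = k ^ 2 := by exact_mod_cast h3
          exact Nat.pow_left_injective (n := 2) (by norm_num) h4
    rw [h1, Finset.sum_congr rfl h2, Finset.sum_ite_eq' (Icc 1 H) k, if_pos hk]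
  rw [← hint]
  apply intervalIntegral.integral_nonneg (by norm_num)
  intro x _
  apply mul_nonneg (hpos x)
  have h3 : |σ * Real.cos (2 * π * (k : ℝ) ^ 2 * x)| ≤ 1 := by
    rw [abs_mul]
    have := Real.abs_cos_le_one (2 * π * (k : ℝ) ^ 2 * x)
    calc |σ| * |Real.cos (2 * π * (k : ℝ) ^ 2 * x)| ≤ 1 * 1 :=
          mul_le_mul hσ this (abs_nonneg _) zero_le_one
      _ = 1 := by norm_num
  linarith [(abs_le.mp h3).1]

/-- Fourier coefficients of a nonnegative cosine polynomial -/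
theorem coeff_le (H : ℕ) (c0 : ℝ) (c : ℕ → ℝ)
    (hpos : ∀ x : ℝ, 0 ≤ c0 + ∑ k ∈ Icc 1 H, c k * Real.cos (2 * π * (k : ℝ) ^ 2 * x)) :
    ∀ k ∈ Icc 1 H, |c k| ≤ 2 * c0 := by
  intro k hk
  have h1 := cl_main H c0 c hpos k hk 1 (by norm_num)
  have h2 := cl_main H c0 c hpos k hk (-1) (by norm_num)
  rw [abs_le]
  constructor <;> linarith

end Pool.Agent.Helper380.VDCX.Jb5
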