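import Mathlib
import Pool.Agent.Helper380.VDC.Defs

set_option autoImplicit false

namespace Pool.Agent.Helper380.VDCX.Jb6

open Real Finset

theorem beta_nat (n : ℕ) : ∀ a : ℕ, ∫ τ in (0 : ℝ)..1, τ ^ a * (1 - τ) ^ n =
    1 / ((a + 1 : ℝ) * ((a + 1 + n).choose (a + 1) : ℝ)) := by
  induction n with
  | zero =>
    intro a
    simp
  | succ n ih =>
    intro a
    have hcont1 : Continuous fun τ : ℝ => ((a : ℝ) + 1) * (τ ^ a * (1 - τ) ^ (n + 1)) := by
      fun_prop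
    have hcont2 : Continuous fun τ : ℝ => ((n : ℝ) + 1) * (τ ^ (a + 1) * (1 - τ) ^ n) := by
      fun_prop
    have hd : ∀ τ ∈ Set.uIcc (0 : ℝ) 1, HasDerivAt (fun τ : ℝ => τ ^ (a + 1) * (1 - τ) ^ (n + 1))
        (((a : ℝ) + 1) * (τ ^ a * (1 - τ) ^ (n + 1)) -
          ((n : ℝ) + 1) * (τ ^ (a + 1) * (1 - τ) ^ n)) τ := by
      intro τ _
      have h1 : HasDerivAt (fun τ : ℝ => τ ^ (a + 1)) (((a + 1 : ℕ) : ℝ) * τ ^ a) τ := by
        simpa using hasDerivAt_pow (a + 1) τ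
      have h2 : HasDerivAt (fun τ : ℝ => (1 - τ) ^ (n + 1))
          (((n + 1 : ℕ) : ℝ) * (1 - τ) ^ n * (-1)) τ := by
        have h3 : HasDerivAt (fun τ : ℝ => 1 - τ) (-1) τ := by
          simpa using (hasDerivAt_id τ).const_sub 1
        have h5 := h3.fun_pow (n + 1)
        refine h5.congr_deriv ?_
        simp
      have h4 := h1.mul h2
      refine h4.congr_deriv ?_
      push_cast
      ring
    have hint := intervalIntegral.integral_eq_sub_of_hasDerivAt hd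
      ((hcont1.sub hcont2).intervalIntegrable 0 1)
    rw [intervalIntegral.integral_sub (hcont1.intervalIntegrable 0 1)
      (hcont2.intervalIntegrable 0 1), intervalIntegral.integral_const_mul,
      intervalIntegral.integral_const_mul, ih (a + 1)] at hint
    simp only [sub_self, zero_pow (Nat.succ_ne_zero n), mul_zero, zero_pow (Nat.succ_ne_zero a),
      zero_mul] at hint
    have hch : ((a + 1 + (n + 1)).choose (a + 1) : ℝ) * ((n : ℝ) + 1) =
        ((a + 1 + 1 + n).choose (a + 1 + 1) : ℝ) * ((a : ℝ) + 1 + 1) := by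
      have h5 := Nat.choose_succ_right_eq (a + 1 + (n + 1)) (a + 1)
      have h6 : a + 1 + (n + 1) - (a + 1) = n + 1 := by omega
      have h7 : a + 1 + (n + 1) = a + 1 + 1 + n := by omega
      rw [h6] at h5
      have h8 : (((a + 1 + (n + 1)).choose (a + 1 + 1) * (a + 1 + 1) : ℕ) : ℝ) =
          (((a + 1 + (n + 1)).choose (a + 1) * (n + 1) : ℕ) : ℝ) := by exact_mod_cast h5
      push_cast at h8
      rw [← h7]
      linarith
    have hp1 : (0 : ℝ) < ((a + 1 + (n + 1)).choose (a + 1) : ℝ) := by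
      exact_mod_cast Nat.choose_pos (by omega)
    have hp2 : (0 : ℝ) < ((a + 1 + 1 + n).choose (a + 1 + 1) : ℝ) := by
      exact_mod_cast Nat.choose_pos (by omega)
    have ha : (0 : ℝ) < (a : ℝ) + 1 := by positivity
    push_cast at hint
    have h9 : ∫ τ in (0 : ℝ)..1, τ ^ a * (1 - τ) ^ (n + 1) =
        ((n : ℝ) + 1) * (1 / (((a : ℝ) + 1 + 1) * ((a + 1 + 1 + n).choose (a + 1 + 1) : ℝ))) /
          ((a : ℝ) + 1) := by
      rw [eq_div_iff ha.ne']
      linarith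
    rw [h9, div_eq_div_iff (by positivity) (by positivity)]
    field_simp
    linarith

/-- the key lower bound for one polynomial -/
theorem key
    (moment : ∀ (N m : ℕ), 2 ≤ N → ∀ (η : ℝ), η = Real.tan (π / (2 * N)) →
      |∫ τ in (0 : ℝ)..1, τ ^ (N - 1) * ((1 - (τ : ℂ) * (1 - Complex.I * η)) ^ m).re| ≤ η ^ (m + 1))
    (H : ℕ) (c0 : ℝ) (c : ℕ → ℝ) (hc : ∀ k ∈ Icc 1 H, |c k| ≤ 2 * c0)
    (hsum : c0 + ∑ k ∈ Icc 1 H, c k = 1) (N n m0 : ℕ) (hN : 2 ≤ N) (η : ℝ)
    (hη : η = Real.tan (π / (2 * N))) (hη1 : η ≤ 1) (m : ℕ → ℕ) (hm : ∀ k ∈ Icc 1 H, m0 ≤ m k)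
    (hI : ∀ τ : ℝ, 0 ≤ τ → τ ≤ 1 → (1 - τ) ^ n * (c0 + ∑ k ∈ Icc 1 H, c k) ≤
      c0 + ∑ k ∈ Icc 1 H, c k * ((1 - (τ : ℂ) * (1 - Complex.I * η)) ^ (m k)).re)
    (hsmall : 2 * (N : ℝ) * H * η ^ (m0 + 1) ≤ 1) :
    1 / (2 * ((N + n).choose N : ℝ)) ≤ c0 := by
  have hN0 : (0 : ℝ) < (N : ℝ) := by
    have : 0 < N := by omega
    exact_mod_cast this
  have hη0 : 0 ≤ η := by
    rw [hη]
    apply Real.tan_nonneg_of_nonneg_of_le_pi_div_two
    · positivity
    · rw [div_le_div_iff₀ (by positivity) (by norm_num)]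
      have h1 : (1 : ℝ) ≤ N := by
        have : 1 ≤ N := by omega
        exact_mod_cast this
      nlinarith [Real.pi_pos]
  have hc0 : 0 ≤ c0 := by
    rcases Nat.eq_zero_or_pos H with h | h
    · rw [h] at hsum
      simp at hsum
      rw [hsum]
      norm_num
    · have h1 := hc 1 (Finset.mem_Icc.2 ⟨le_rfl, h⟩)
      have h2 := abs_nonneg (c 1)
      linarith
  let g : ℕ → ℝ → ℝ := fun k τ => ((1 - (τ : ℂ) * (1 - Complex.I * η)) ^ (m k)).re
  have hg : ∀ k, Continuous (g k) := by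
    intro k
    exact Complex.continuous_re.comp (by fun_prop)
  let J : ℕ → ℝ := fun k => ∫ τ in (0 : ℝ)..1, τ ^ (N - 1) * g k τ
  have hJ : ∀ k ∈ Icc 1 H, |J k| ≤ η ^ (m0 + 1) := by
    intro k hk
    refine (moment N (m k) hN η hη).trans ?_
    exact pow_le_pow_of_le_one hη0 hη1 (by have := hm k hk; omega)
  have hterm : ∀ k ∈ Icc 1 H, c k * J k ≤ 2 * c0 * η ^ (m0 + 1) := by
    intro k hk
    calc c k * J k ≤ |c k * J k| := le_abs_self _
      _ = |c k| * |J k| := abs_mul _ _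
      _ ≤ 2 * c0 * η ^ (m0 + 1) :=
        mul_le_mul (hc k hk) (hJ k hk) (abs_nonneg _) (by positivity)
  have hci : ∀ k, Continuous fun τ : ℝ => c k * (τ ^ (N - 1) * g k τ) := by
    intro k
    have := hg k
    fun_prop
  have hcs : Continuous fun τ : ℝ => ∑ k ∈ Icc 1 H, c k * (τ ^ (N - 1) * g k τ) :=
    continuous_finsetSum _ fun k _ => hci k
  have hc1 : Continuous fun τ : ℝ => c0 * τ ^ (N - 1) := by fun_prop
  have hle : ∫ τ in (0 : ℝ)..1, τ ^ (N - 1) * (1 - τ) ^ n ≤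
      ∫ τ in (0 : ℝ)..1, (c0 * τ ^ (N - 1) + ∑ k ∈ Icc 1 H, c k * (τ ^ (N - 1) * g k τ)) := by
    refine intervalIntegral.integral_mono_on (by norm_num) ?_ ?_ ?_
    · exact Continuous.intervalIntegrable (by fun_prop) _ _
    · exact (hc1.add hcs).intervalIntegrable _ _
    · intro τ hτ
      have h1 := hI τ hτ.1 hτ.2
      rw [hsum, mul_one] at h1
      have h2 : 0 ≤ τ ^ (N - 1) := pow_nonneg hτ.1 _
      have h3 := mul_le_mul_of_nonneg_left h1 h2
      refine h3.trans (le_of_eq ?_)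
      rw [mul_add, Finset.mul_sum]
      congr 1
      · ring
      · exact Finset.sum_congr rfl fun k _ => by
          show τ ^ (N - 1) * (c k * g k τ) = c k * (τ ^ (N - 1) * g k τ)
          ring
  have hright : ∫ τ in (0 : ℝ)..1, (c0 * τ ^ (N - 1) + ∑ k ∈ Icc 1 H, c k * (τ ^ (N - 1) * g k τ)) =
      c0 * (1 / N) + ∑ k ∈ Icc 1 H, c k * J k := by
    rw [intervalIntegral.integral_add (hc1.intervalIntegrable _ _) (hcs.intervalIntegrable _ _),
      intervalIntegral.integral_const_mul, integral_pow,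
      intervalIntegral.integral_finsetSum fun k _ => (hci k).intervalIntegrable _ _]
    congr 1
    · have h1 : N - 1 + 1 = N := by omega
      have h2 : ((N - 1 : ℕ) : ℝ) + 1 = N := by
        have : ((N - 1 + 1 : ℕ) : ℝ) = N := by rw [h1]
        push_cast at this
        exact this
      rw [h1, h2, one_pow, zero_pow (by omega), sub_zero]
    · exact Finset.sum_congr rfl fun k _ => intervalIntegral.integral_const_mul _ _
  have hleft : ∫ τ in (0 : ℝ)..1, τ ^ (N - 1) * (1 - τ) ^ n =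
      1 / ((N : ℝ) * ((N + n).choose N : ℝ)) := by
    rw [beta_nat n (N - 1)]
    have h1 : N - 1 + 1 = N := by omega
    have h2 : ((N - 1 : ℕ) : ℝ) + 1 = N := by
      have : ((N - 1 + 1 : ℕ) : ℝ) = N := by rw [h1]
      push_cast at this
      exact this
    rw [h1, h2]
  rw [hleft, hright] at hle
  have hsumle : ∑ k ∈ Icc 1 H, c k * J k ≤ H * (2 * c0 * η ^ (m0 + 1)) := by
    refine (Finset.sum_le_card_nsmul _ _ _ hterm).trans (le_of_eq ?_)
    rw [Nat.card_Icc, nsmul_eq_mul]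
    simp
  set C : ℝ := ((N + n).choose N : ℝ) with hC
  have hC0 : 0 < C := by
    rw [hC]
    exact_mod_cast Nat.choose_pos (by omega)
  have h1 : 1 / ((N : ℝ) * C) ≤ c0 * (1 / N) + H * (2 * c0 * η ^ (m0 + 1)) := by linarith
  have h2 : (N : ℝ) * (1 / ((N : ℝ) * C)) ≤
      N * (c0 * (1 / N) + H * (2 * c0 * η ^ (m0 + 1))) := mul_le_mul_of_nonneg_left h1 hN0.le
  have h3 : (N : ℝ) * (1 / ((N : ℝ) * C)) = 1 / C := by field_simp
  have h4 : (N : ℝ) * (c0 * (1 / N) + H * (2 * c0 * η ^ (m0 + 1))) =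
      c0 + c0 * (2 * (N : ℝ) * H * η ^ (m0 + 1)) := by
    field_simp
  rw [h3, h4] at h2
  have h5 : c0 * (2 * (N : ℝ) * H * η ^ (m0 + 1)) ≤ c0 * 1 := mul_le_mul_of_nonneg_left hsmall hc0
  have h6 : 1 / C ≤ 2 * c0 := by linarith
  have h7 : 1 / (2 * C) = 1 / C / 2 := by field_simp
  rw [h7]
  linarith

end Pool.Agent.Helper380.VDCX.Jb6
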