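import Mathlib
import Pool.Agent.Helper380.VDC.Defs

set_option autoImplicit false

namespace Pool.Agent.Helper380.VDCX.Jb7

open Real Finset

noncomputable def X4 (n : ℕ) : ℝ := ((ZMod.χ₄ (n : ZMod 4) : ℤ) : ℝ)

theorem X4_mul (a b : ℕ) : X4 (a * b) = X4 a * X4 b := by
  unfold X4
  rw [Nat.cast_mul, map_mul]
  push_cast
  ring

theorem X4_one {n : ℕ} (h : n % 4 = 1) : X4 n = 1 := by
  unfold X4
  rw [ZMod.χ₄_nat_one_mod_four h]
  norm_num

theorem X4_three {n : ℕ} (h : n % 4 = 3) : X4 n = -1 := by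
  unfold X4
  rw [ZMod.χ₄_nat_three_mod_four h]
  norm_num

theorem X4_even {n : ℕ} (h : n % 2 = 0) : X4 n = 0 := by
  unfold X4
  rw [ZMod.χ₄_nat_eq_if_mod_four, if_pos h]
  norm_num

theorem H4_eq (m : ℕ) : ∑ e ∈ Ioc 0 m, X4 e = if m % 4 = 1 ∨ m % 4 = 2 then 1 else 0 := by
  induction m with
  | zero => simp
  | succ m ih =>
    rw [Finset.sum_Ioc_succ_top (Nat.zero_le m), ih]
    have h4 : m % 4 = 0 ∨ m % 4 = 1 ∨ m % 4 = 2 ∨ m % 4 = 3 := by omega
    rcases h4 with h | h | h | h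
    · have h1 : (m + 1) % 4 = 1 := by omega
      rw [X4_one h1]; simp [h, h1]
    · have h1 : (m + 1) % 4 = 2 := by omega
      rw [X4_even (by omega)]; simp [h, h1]
    · have h1 : (m + 1) % 4 = 3 := by omega
      rw [X4_three h1]; simp [h, h1]
    · have h1 : (m + 1) % 4 = 0 := by omega
      rw [X4_even (by omega)]; simp [h, h1]

theorem B4 (k : ℕ) : ∑ n ∈ Ioc 0 (4 * k), X4 n * Real.log n ≤ 0 := by
  induction k with
  | zero => simp
  | succ k ih =>
    have e : 4 * (k + 1) = 4 * k + 1 + 1 + 1 + 1 := by ring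
    rw [e, Finset.sum_Ioc_succ_top (by omega), Finset.sum_Ioc_succ_top (by omega),
      Finset.sum_Ioc_succ_top (by omega), Finset.sum_Ioc_succ_top (by omega),
      X4_one (show (4 * k + 1) % 4 = 1 by omega), X4_even (show (4 * k + 1 + 1) % 2 = 0 by omega),
      X4_three (show (4 * k + 1 + 1 + 1) % 4 = 3 by omega),
      X4_even (show (4 * k + 1 + 1 + 1 + 1) % 2 = 0 by omega)]
    have h1 : Real.log ((4 * k + 1 : ℕ) : ℝ) ≤ Real.log ((4 * k + 1 + 1 + 1 : ℕ) : ℝ) := by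
      apply Real.log_le_log
      · positivity
      · push_cast; linarith
    linarith

theorem B_le (N : ℕ) (hN : 1 ≤ N) : ∑ n ∈ Ioc 0 N, X4 n * Real.log n ≤ Real.log N := by
  obtain ⟨k, r, hr, rfl⟩ : ∃ k r, r < 4 ∧ N = 4 * k + r :=
    ⟨N / 4, N % 4, Nat.mod_lt _ (by norm_num), by omega⟩
  have h0 := B4 k
  have hlog : ∀ m : ℕ, 0 ≤ Real.log (m : ℝ) := fun m => Real.log_natCast_nonneg m
  interval_cases r
  · rw [add_zero]
    exact h0.trans (hlog _)
  · rw [Finset.sum_Ioc_succ_top (by omega), X4_one (show (4 * k + 1) % 4 = 1 by omega)]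
    linarith
  · rw [show 4 * k + 2 = 4 * k + 1 + 1 from rfl, Finset.sum_Ioc_succ_top (by omega),
      Finset.sum_Ioc_succ_top (by omega), X4_one (show (4 * k + 1) % 4 = 1 by omega),
      X4_even (show (4 * k + 1 + 1) % 2 = 0 by omega)]
    have h1 : Real.log ((4 * k + 1 : ℕ) : ℝ) ≤ Real.log ((4 * k + 1 + 1 : ℕ) : ℝ) := by
      apply Real.log_le_log
      · positivity
      · push_cast; linarith
    linarith
  · rw [show 4 * k + 3 = 4 * k + 1 + 1 + 1 from rfl, Finset.sum_Ioc_succ_top (by omega),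
      Finset.sum_Ioc_succ_top (by omega), Finset.sum_Ioc_succ_top (by omega),
      X4_one (show (4 * k + 1) % 4 = 1 by omega),
      X4_even (show (4 * k + 1 + 1) % 2 = 0 by omega),
      X4_three (show (4 * k + 1 + 1 + 1) % 4 = 3 by omega)]
    have h1 : Real.log ((4 * k + 1 : ℕ) : ℝ) ≤ Real.log ((4 * k + 1 + 1 + 1 : ℕ) : ℝ) := by
      apply Real.log_le_log
      · positivity
      · push_cast; linarith
    have h2 := hlog (4 * k + 1 + 1 + 1)
    linarith

noncomputable def fA4 : ArithmeticFunction ℝ :=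
  ⟨fun n => X4 n * ArithmeticFunction.vonMangoldt n, by simp⟩

noncomputable def gA4 : ArithmeticFunction ℝ := ⟨X4, by simp [X4]⟩

theorem fg4 (n : ℕ) : (fA4 * gA4) n = X4 n * Real.log n := by
  rw [ArithmeticFunction.mul_apply]
  have h1 : ∀ x ∈ n.divisorsAntidiagonal, fA4 x.1 * gA4 x.2 =
      X4 n * ArithmeticFunction.vonMangoldt x.1 := by
    intro x hx
    rw [Nat.mem_divisorsAntidiagonal] at hx
    show X4 x.1 * _ * X4 x.2 = _
    rw [← hx.1, X4_mul]; ring
  have h2 : ∑ x ∈ n.divisorsAntidiagonal, ArithmeticFunction.vonMangoldt x.1 =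
      ∑ i ∈ n.divisors, ArithmeticFunction.vonMangoldt i :=
    Nat.sum_divisorsAntidiagonal (fun a _ => ArithmeticFunction.vonMangoldt a)
  rw [Finset.sum_congr rfl h1, ← Finset.mul_sum, h2, ArithmeticFunction.vonMangoldt_sum]

theorem ident4 (N : ℕ) : ∑ n ∈ Ioc 0 N, X4 n * Real.log n =
    ∑ d ∈ Ioc 0 N, X4 d * ArithmeticFunction.vonMangoldt d *
      (if (N / d) % 4 = 1 ∨ (N / d) % 4 = 2 then 1 else 0) := by
  have h1 := ArithmeticFunction.sum_Ioc_mul_eq_sum_sum fA4 gA4 N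
  simp only [fg4] at h1
  rw [h1]
  refine Finset.sum_congr rfl fun d _ => ?_
  have h2 : ∑ m ∈ Ioc 0 (N / d), gA4 m = ∑ m ∈ Ioc 0 (N / d), X4 m := rfl
  rw [h2, H4_eq]
  rfl

theorem low4 (N : ℕ) (hN : 1 ≤ N) :
    ∑ d ∈ Ioc 0 N, (if (d.Prime ∧ d % 2 = 1 ∧ N / 3 < d) then Real.log d else 0) ≤
      2 * ∑ d ∈ Ioc 0 N, (if d % 4 = 3 then ArithmeticFunction.vonMangoldt d else 0)
        + Real.log N := by
  refine le_trans ?_ (add_le_add_right (B_le N hN) _)
  rw [ident4, Finset.mul_sum, ← Finset.sum_add_distrib]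
  refine Finset.sum_le_sum fun d hd => ?_
  rw [Finset.mem_Ioc] at hd
  have hΛ : 0 ≤ ArithmeticFunction.vonMangoldt d := ArithmeticFunction.vonMangoldt_nonneg
  have hpr : d.Prime → ArithmeticFunction.vonMangoldt d = Real.log d :=
    fun h => ArithmeticFunction.vonMangoldt_apply_prime h
  have h4 : d % 4 = 0 ∨ d % 4 = 1 ∨ d % 4 = 2 ∨ d % 4 = 3 := by omega
  rcases h4 with h | h | h | h
  · rw [if_neg (by omega), X4_even (by omega), if_neg (by omega)]
    simp
  · rw [X4_one h, if_neg (show ¬ d % 4 = 3 by omega)]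
    split_ifs with h1 h2 h2
    · rw [hpr h1.1]; simp
    · exfalso
      apply h2
      have h5 : 1 ≤ N / d := Nat.div_pos hd.2 hd.1
      have h6 : N / d < 3 := by
        rw [Nat.div_lt_iff_lt_mul hd.1]
        have := h1.2.2
        omega
      omega
    · simpa using hΛ
    · simp
  · rw [if_neg (by omega), X4_even (by omega), if_neg (by omega)]
    simp
  · rw [X4_three h, if_pos h]
    split_ifs with h1 h2 h2
    · rw [hpr h1.1]; ring_nf; exact le_rfl
    · rw [hpr h1.1]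
      have : 0 ≤ Real.log (d:ℝ) := Real.log_natCast_nonneg d
      linarith
    · linarith
    · linarith

theorem theta_nat4 (N : ℕ) : Chebyshev.theta (N : ℝ) =
    ∑ d ∈ Ioc 0 N, (if d.Prime then Real.log d else 0) := by
  unfold Chebyshev.theta
  rw [Nat.floor_natCast, Finset.sum_filter]

theorem psi_nat4 (N : ℕ) : Chebyshev.psi (N : ℝ) =
    ∑ d ∈ Ioc 0 N, ArithmeticFunction.vonMangoldt d := by
  unfold Chebyshev.psi
  rw [Nat.floor_natCast]

theorem theta_low4 (N : ℕ) : Chebyshev.theta (N : ℝ) ≤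
    ∑ d ∈ Ioc 0 N, (if (d.Prime ∧ d % 2 = 1 ∧ N / 3 < d) then Real.log d else 0) +
      Chebyshev.theta ((N / 3 : ℕ) : ℝ) + Real.log 2 := by
  have e1 : Chebyshev.theta ((N / 3 : ℕ) : ℝ) =
      ∑ d ∈ Ioc 0 N, (if (d.Prime ∧ d ≤ N / 3) then Real.log d else 0) := by
    rw [theta_nat4, ← Finset.sum_filter, ← Finset.sum_filter]
    refine Finset.sum_congr ?_ fun _ _ => rfl
    ext d
    simp only [Finset.mem_filter, Finset.mem_Ioc]
    constructor
    · rintro ⟨⟨h1, h2⟩, h3⟩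
      exact ⟨⟨h1, by omega⟩, h3, h2⟩
    · rintro ⟨⟨h1, h2⟩, h3, h4⟩
      exact ⟨⟨h1, h4⟩, h3⟩
  have e2 : ∑ d ∈ Ioc 0 N, (if d = 2 then Real.log 2 else 0) ≤ Real.log 2 := by
    rw [Finset.sum_ite_eq' (Ioc 0 N) 2 (fun _ => Real.log 2)]
    split_ifs
    · exact le_rfl
    · exact Real.log_nonneg (by norm_num)
  refine le_trans ?_ (add_le_add_right e2 _)
  rw [e1, theta_nat4, ← Finset.sum_add_distrib, ← Finset.sum_add_distrib]
  refine Finset.sum_le_sum fun d hd => ?_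
  have hl : 0 ≤ Real.log (d:ℝ) := Real.log_natCast_nonneg d
  have hl2 : 0 ≤ Real.log (2:ℝ) := Real.log_nonneg (by norm_num)
  by_cases hp : d.Prime
  · by_cases h3 : d ≤ N / 3
    · rw [if_pos hp, if_neg (by omega), if_pos ⟨hp, h3⟩]
      split_ifs <;> linarith
    · by_cases h2 : d = 2
      · rw [if_pos hp, if_neg (by omega), if_neg (by omega), if_pos h2, h2]
        norm_num
      · have hodd : d % 2 = 1 := hp.eq_two_or_odd.resolve_left h2
        rw [if_pos hp, if_pos ⟨hp, hodd, by omega⟩, if_neg (by omega), if_neg h2]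
        linarith
  · rw [if_neg hp, if_neg (fun h => hp h.1), if_neg (fun h => hp h.1)]
    split_ifs <;> linarith

theorem up4 (N : ℕ) (hN : 1 ≤ N) :
    ∑ d ∈ Ioc 0 N, (if d % 4 = 3 then ArithmeticFunction.vonMangoldt d else 0) ≤
      (((range (N + 1)).filter (fun p => p.Prime ∧ p % 4 = 3)).card : ℝ) * Real.log N +
      (Chebyshev.psi (N:ℝ) - Chebyshev.theta (N:ℝ)) := by
  have e1 : (((range (N + 1)).filter (fun p => p.Prime ∧ p % 4 = 3)).card : ℝ) * Real.log N =
      ∑ d ∈ Ioc 0 N, (if (d.Prime ∧ d % 4 = 3) then Real.log N else 0) := by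
    rw [← Finset.sum_filter, Finset.sum_const, nsmul_eq_mul]
    congr 2
    congr 1
    ext d
    simp only [Finset.mem_filter, Finset.mem_Ioc, Finset.mem_range]
    constructor
    · rintro ⟨h1, h2, h3⟩
      exact ⟨⟨h2.pos, by omega⟩, h2, h3⟩
    · rintro ⟨⟨h1, h2⟩, h3⟩
      exact ⟨by omega, h3⟩
  rw [e1, psi_nat4, theta_nat4, ← Finset.sum_sub_distrib, ← Finset.sum_add_distrib]
  refine Finset.sum_le_sum fun d hd => ?_
  rw [Finset.mem_Ioc] at hd
  have hΛ : 0 ≤ ArithmeticFunction.vonMangoldt d := ArithmeticFunction.vonMangoldt_nonneg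
  have hlN : Real.log (d:ℝ) ≤ Real.log N :=
    Real.log_le_log (by exact_mod_cast hd.1) (by exact_mod_cast hd.2)
  by_cases hp : d.Prime
  · rw [ArithmeticFunction.vonMangoldt_apply_prime hp, if_pos hp]
    by_cases h3 : d % 4 = 3
    · rw [if_pos h3, if_pos ⟨hp, h3⟩]; linarith
    · rw [if_neg h3, if_neg (fun h => h3 h.2)]; linarith
  · rw [if_neg hp, if_neg (fun h : d.Prime ∧ d % 4 = 3 => hp h.1)]
    split_ifs <;> linarith

/-- Chebyshev lower bound for primes `≡ 3 mod 4` -/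
theorem cheb3 : ∃ (c : ℝ) (z0 : ℕ), 0 < c ∧ ∀ z : ℕ, z0 ≤ z →
    c * z / Real.log z ≤ (((range (z + 1)).filter (fun p => p.Prime ∧ p % 4 = 3)).card : ℝ) := by
  have hl2 : 0 < Real.log 2 := Real.log_pos (by norm_num)
  have hlo := (isLittleO_log_rpow_atTop (show (0:ℝ) < 1 / 2 by norm_num)).def
    (show (0:ℝ) < Real.log 2 / 100 by positivity)
  rw [Filter.eventually_atTop] at hlo
  obtain ⟨x0, hx0⟩ := hlo
  refine ⟨Real.log 2 / 10, max ⌈x0⌉₊ 100, by positivity, fun z hz => ?_⟩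
  have hz100 : 100 ≤ z := le_trans (le_max_right _ _) hz
  have hzx : x0 ≤ (z:ℝ) := by
    have h1 : ⌈x0⌉₊ ≤ z := le_trans (le_max_left _ _) hz
    exact (Nat.le_ceil x0).trans (by exact_mod_cast h1)
  have hz1 : 1 ≤ z := by omega
  have hzR : (100:ℝ) ≤ z := by exact_mod_cast hz100
  have hlogz : 0 < Real.log z := Real.log_pos (by linarith)
  have h1 := hx0 z hzx
  rw [Real.norm_of_nonneg hlogz.le, Real.norm_of_nonneg (by positivity),
    ← Real.sqrt_eq_rpow] at h1
  have hsq : Real.sqrt (z:ℝ) * Real.sqrt z = z := Real.mul_self_sqrt (by positivity)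
  have hsq1 : 1 ≤ Real.sqrt (z:ℝ) := by
    rw [Real.one_le_sqrt]; linarith
  have hsql : Real.sqrt (z:ℝ) ≤ z := by nlinarith
  have h2 : Real.sqrt z * Real.log z ≤ Real.log 2 / 100 * z := by
    calc Real.sqrt z * Real.log z ≤ Real.sqrt z * (Real.log 2 / 100 * Real.sqrt z) :=
          mul_le_mul_of_nonneg_left h1 (Real.sqrt_nonneg _)
      _ = Real.log 2 / 100 * (Real.sqrt z * Real.sqrt z) := by ring
      _ = Real.log 2 / 100 * z := by rw [hsq]
  have h3 : Real.log z ≤ Real.log 2 / 100 * z := by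
    refine h1.trans ?_
    exact mul_le_mul_of_nonneg_left hsql (by positivity)
  have h4 : Real.log ((z:ℝ) + 1) ≤ Real.log 2 + Real.log z := by
    rw [← Real.log_mul (by norm_num) (by positivity)]
    apply Real.log_le_log (by positivity)
    linarith
  have h5 := Chebyshev.theta_ge z
  have h6 := Chebyshev.psi_sub_theta_le (x := (z:ℝ)) (by linarith)
  have h7 := Chebyshev.theta_le_log4_mul_x (x := ((z / 3 : ℕ) : ℝ)) (by positivity)
  have h8 : ((z / 3 : ℕ) : ℝ) ≤ (z:ℝ) / 3 := by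
    have := @Nat.cast_div_le ℝ _ _ _ z 3
    simpa using this
  have hl4 : Real.log 4 = 2 * Real.log 2 := by
    rw [show (4:ℝ) = 2 ^ 2 by norm_num, Real.log_pow]
    norm_num
  have h9 : Chebyshev.theta ((z / 3 : ℕ) : ℝ) ≤ 2 * Real.log 2 * (z / 3) := by
    rw [hl4] at h7
    refine h7.trans ?_
    exact mul_le_mul_of_nonneg_left h8 (by positivity)
  have h10 := theta_low4 z
  have h11 := low4 z hz1
  have h12 := up4 z hz1
  have h13 : 2 * Real.sqrt z * Real.log z = 2 * (Real.sqrt z * Real.log z) := by ring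
  rw [h13] at h5 h6
  have h14 : 2 * Real.log 2 ≤ Real.log 2 / 50 * z := by nlinarith
  rw [div_le_iff₀ hlogz]
  nlinarith

end Pool.Agent.Helper380.VDCX.Jb7
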