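import Mathlib
import Pool.Agent.Helper380.VDC.Defs

set_option autoImplicit false

namespace Pool.Agent.Helper380.VDCX.Jb8

open Real Finset

/-- lower bound for `c₀` from a set of primes `≡ 3 mod 4` -/
theorem low_one
    (smooth_all : ∀ (P : Finset ℕ), (∀ p ∈ P, p.Prime ∧ p % 4 = 3) → ∀ (τ η : ℝ), 0 ≤ τ → τ ≤ 1 →
      0 ≤ η → (∀ p ∈ P, η ^ 2 * p ≤ 1) → ∀ (H : ℕ) (c0 : ℝ) (c : ℕ → ℝ),
      (∀ x : ℝ, 0 ≤ c0 + ∑ k ∈ Icc 1 H, c k * Real.cos (2 * π * (k : ℝ) ^ 2 * x)) →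
      (1 - τ) ^ P.card * (c0 + ∑ k ∈ Icc 1 H, c k) ≤
        c0 + ∑ k ∈ Icc 1 H, c k *
          ((1 - (τ : ℂ) * (1 - Complex.I * η)) ^ (P.filter (fun p => ¬ p ∣ k)).card).re)
    (coeff_le : ∀ (H : ℕ) (c0 : ℝ) (c : ℕ → ℝ),
      (∀ x : ℝ, 0 ≤ c0 + ∑ k ∈ Icc 1 H, c k * Real.cos (2 * π * (k : ℝ) ^ 2 * x)) →
      ∀ k ∈ Icc 1 H, |c k| ≤ 2 * c0)
    (key : ∀ (H : ℕ) (c0 : ℝ) (c : ℕ → ℝ), (∀ k ∈ Icc 1 H, |c k| ≤ 2 * c0) →
      (c0 + ∑ k ∈ Icc 1 H, c k = 1) → ∀ (N n m0 : ℕ), 2 ≤ N → ∀ (η : ℝ),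
      η = Real.tan (π / (2 * N)) → η ≤ 1 → ∀ (m : ℕ → ℕ), (∀ k ∈ Icc 1 H, m0 ≤ m k) →
      (∀ τ : ℝ, 0 ≤ τ → τ ≤ 1 → (1 - τ) ^ n * (c0 + ∑ k ∈ Icc 1 H, c k) ≤
        c0 + ∑ k ∈ Icc 1 H, c k * ((1 - (τ : ℂ) * (1 - Complex.I * η)) ^ (m k)).re) →
      2 * (N : ℝ) * H * η ^ (m0 + 1) ≤ 1 →
      1 / (2 * ((N + n).choose N : ℝ)) ≤ c0)
    (H : ℕ) (c0 : ℝ) (c : ℕ → ℝ)
    (hpos : ∀ x : ℝ, 0 ≤ c0 + ∑ k ∈ Icc 1 H, c k * Real.cos (2 * π * (k : ℝ) ^ 2 * x))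
    (hsum : c0 + ∑ k ∈ Icc 1 H, c k = 1)
    (P : Finset ℕ) (hP : ∀ p ∈ P, p.Prime ∧ p % 4 = 3) (N m0 : ℕ) (hN : 2 ≤ N)
    (hNP : ∀ p ∈ P, 4 * p ≤ N ^ 2)
    (hm : ∀ k ∈ Icc 1 H, m0 ≤ (P.filter (fun p => ¬ p ∣ k)).card)
    (hsmall : 2 * (N : ℝ) * H * (2 / (N : ℝ)) ^ (m0 + 1) ≤ 1) :
    1 / (2 * ((N + P.card).choose N : ℝ)) ≤ c0 := by
  have hpi := Real.pi_pos
  have hNr : (2:ℝ) ≤ (N:ℝ) := by exact_mod_cast hN
  have hN0 : (0:ℝ) < (N:ℝ) := by linarith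
  have hcos : ∀ x ∈ Set.Icc (0:ℝ) (π / 4), 0 < Real.cos x := by
    intro x hx
    apply Real.cos_pos_of_mem_Ioo
    constructor
    · linarith [hx.1]
    · linarith [hx.2]
  have hconv : ConvexOn ℝ (Set.Icc 0 (π / 4)) Real.tan := by
    apply MonotoneOn.convexOn_of_deriv (convex_Icc _ _)
    · intro x hx
      exact (Real.continuousAt_tan.2 (hcos x hx).ne').continuousWithinAt
    · intro x hx
      rw [interior_Icc] at hx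
      exact (Real.differentiableAt_tan.2 (hcos x ⟨hx.1.le, hx.2.le⟩).ne').differentiableWithinAt
    · intro x hx y hy hxy
      rw [interior_Icc] at hx hy
      rw [Real.deriv_tan, Real.deriv_tan]
      have h1 := hcos y ⟨hy.1.le, hy.2.le⟩
      apply one_div_le_one_div_of_le (by positivity)
      apply pow_le_pow_left₀ h1.le
      exact Real.cos_le_cos_of_nonneg_of_le_pi hx.1.le (by linarith [hy.2]) hxy
  set η := Real.tan (π / (2 * N)) with hη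
  have hη0 : 0 ≤ η := by
    apply Real.tan_nonneg_of_nonneg_of_le_pi_div_two (by positivity)
    rw [div_le_div_iff₀ (by positivity) (by norm_num)]
    nlinarith
  have hη2 : η ≤ 2 / N := by
    have h2N : (2:ℝ) / N ≤ 1 := by
      rw [div_le_one hN0]
      exact hNr
    have h1 := hconv.2 (show (0:ℝ) ∈ Set.Icc (0:ℝ) (π / 4) from ⟨le_refl _, by positivity⟩)
      (show (π / 4) ∈ Set.Icc (0:ℝ) (π / 4) from ⟨by positivity, le_refl _⟩)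
      (show (0:ℝ) ≤ 1 - 2 / N by linarith) (show (0:ℝ) ≤ 2 / N by positivity) (by ring)
    rw [Real.tan_zero, Real.tan_pi_div_four] at h1
    simp only [smul_eq_mul, mul_zero, zero_add, mul_one] at h1
    have h2 : (2:ℝ) / N * (π / 4) = π / (2 * N) := by
      field_simp
      ring
    rw [h2] at h1
    exact h1
  have hη1 : η ≤ 1 := hη2.trans (by
    rw [div_le_one hN0]
    exact hNr)
  refine key H c0 c (coeff_le H c0 c hpos) hsum N P.card m0 hN η rfl hη1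
    (fun k => (P.filter (fun p => ¬ p ∣ k)).card) hm
    (fun τ h0 h1 => smooth_all P hP τ η h0 h1 hη0 ?_ H c0 c hpos) ?_
  · intro p hp
    have h1 : (4:ℝ) * p ≤ (N:ℝ) ^ 2 := by exact_mod_cast hNP p hp
    have h2 : η ^ 2 ≤ (2 / N) ^ 2 := pow_le_pow_left₀ hη0 hη2 2
    have hp0 : (0:ℝ) ≤ (p:ℝ) := Nat.cast_nonneg p
    calc η ^ 2 * p ≤ (2 / N) ^ 2 * p := mul_le_mul_of_nonneg_right h2 hp0
      _ = (4 * p) / (N:ℝ) ^ 2 := by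
        field_simp
        ring
      _ ≤ 1 := by
        rw [div_le_one (by positivity)]
        exact h1
  · refine le_trans ?_ hsmall
    have h2 : η ^ (m0 + 1) ≤ (2 / N) ^ (m0 + 1) := pow_le_pow_left₀ hη0 hη2 _
    exact mul_le_mul_of_nonneg_left h2 (by positivity)

end Pool.Agent.Helper380.VDCX.Jb8
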