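import Mathlib
import Pool.Agent.Helper380.VDC.Defs

set_option autoImplicit false

namespace Pool.Agent.Helper380.VDCX.Jb9

open Real Finset





/-- auxiliary: number of large primes dividing `k` -/
theorem lfx_div (z H k : ℕ) (hk : k ∈ Icc 1 H) (P : Finset ℕ) (hP : ∀ p ∈ P, p.Prime)
    (hPz : ∀ p ∈ P, Nat.sqrt z < p) (hz : 2 ≤ z) :
    ((P.filter (fun p => p ∣ k)).card : ℝ) * Real.log z ≤ 2 * Real.log H := by
  rw [Finset.mem_Icc] at hk
  set D := P.filter (fun p => p ∣ k) with hD
  have hdvd : ∏ p ∈ D, p ∣ k := by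
    apply Finset.prod_primes_dvd
    · intro p hp
      exact (hP p (Finset.mem_filter.mp hp).1).prime
    · intro p hp
      exact (Finset.mem_filter.mp hp).2
  have hle : ∏ p ∈ D, p ≤ H := (Nat.le_of_dvd (by omega) hdvd).trans hk.2
  have hpos : ∀ p ∈ D, (p : ℝ) ≠ 0 := by
    intro p hp
    have := (hP p (Finset.mem_filter.mp hp).1).pos
    positivity
  have hlog : ∑ p ∈ D, Real.log p ≤ Real.log H := by
    rw [← Real.log_prod hpos]
    apply Real.log_le_log
    · exact Finset.prod_pos fun p hp => by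
        have := (hP p (Finset.mem_filter.mp hp).1).pos
        positivity
    · have h9 : ((∏ p ∈ D, p : ℕ) : ℝ) ≤ (H : ℝ) := by exact_mod_cast hle
      rwa [Nat.cast_prod] at h9
  have heach : ∀ p ∈ D, Real.log z / 2 ≤ Real.log p := by
    intro p hp
    have h1 : z < p * p := Nat.sqrt_lt.mp (hPz p (Finset.mem_filter.mp hp).1)
    have h2 : (z : ℝ) ≤ (p : ℝ) ^ 2 := by
      rw [pow_two]
      exact_mod_cast h1.le
    have h3 : Real.log z ≤ Real.log ((p : ℝ) ^ 2) := Real.log_le_log (by positivity) h2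
    rw [Real.log_pow] at h3
    push_cast at h3
    linarith
  have h4 := Finset.card_nsmul_le_sum D (fun p => Real.log p) (Real.log z / 2) heach
  rw [nsmul_eq_mul] at h4
  linarith

/-- auxiliary: the growth inequality -/
theorem lfx_growth (c : ℝ) (hc : 0 < c) (z : ℝ) (hz1 : 1 ≤ z) (hz : (28 / c) ^ 4 ≤ z) :
    Real.log 8 + (√z + 1) * Real.log z / 2 ≤ c / 4 * z := by
  set y := √(√z) with hy
  have hz0 : 0 ≤ z := by linarith
  have hsz : y ^ 2 = √z := Real.sq_sqrt (Real.sqrt_nonneg _)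
  have hz4 : y ^ 4 = z := by
    rw [show y ^ 4 = (y ^ 2) ^ 2 by ring, hsz, Real.sq_sqrt hz0]
  have hy0 : 0 ≤ y := Real.sqrt_nonneg _
  have hy1 : 1 ≤ y := by
    rw [hy, Real.one_le_sqrt, Real.one_le_sqrt]
    exact hz1
  have hyc : 28 / c ≤ y := by
    rw [← hz4] at hz
    exact le_of_pow_le_pow_left₀ (by norm_num) hy0 hz
  have hlog : Real.log z ≤ 4 * y := by
    rw [← hz4, Real.log_pow]
    have := Real.log_le_sub_one_of_pos (show 0 < y by linarith)
    push_cast
    linarith
  have hlog0 : 0 ≤ Real.log z := Real.log_nonneg hz1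
  have h8 : Real.log 8 ≤ 3 := by
    have : (8 : ℝ) = 2 ^ 3 := by norm_num
    rw [this, Real.log_pow]
    have := Real.log_two_lt_d9
    push_cast
    linarith
  rw [← hsz]
  have h1 : (y ^ 2 + 1) * Real.log z / 2 ≤ 4 * y ^ 3 := by
    have h2 : (y ^ 2 + 1) ≤ 2 * y ^ 2 := by nlinarith
    calc (y ^ 2 + 1) * Real.log z / 2 ≤ (2 * y ^ 2) * (4 * y) / 2 := by
          apply div_le_div_of_nonneg_right _ (by norm_num)
          exact mul_le_mul h2 hlog hlog0 (by positivity)
      _ = 4 * y ^ 3 := by ring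
  have h28 : 28 ≤ c * y := by
    rw [div_le_iff₀ hc] at hyc
    linarith
  have h3 : 7 * y ^ 3 ≤ c / 4 * z := by
    rw [← hz4]
    nlinarith [mul_le_mul_of_nonneg_right h28 (show 0 ≤ y ^ 3 by positivity)]
  have h5 : 1 ≤ y ^ 3 := one_le_pow₀ hy1
  linarith

/-- auxiliary: final comparison of the exponents -/
theorem lfx_exp (A B : ℝ) (hA : 0 < A) (hB : 1 ≤ B) : ∃ K1 K2 : ℝ, 0 < K1 ∧ 0 < K2 ∧
    ∀ l z : ℝ, 0 ≤ l → 1 ≤ z → z ≤ A * l + B →
      4 * √z * Real.log (6 * z) ≤ K1 * (√l * Real.log (2 + l)) + K2 := by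
  set D := Real.log (6 * (A + B)) with hD
  have hD0 : 0 ≤ D := Real.log_nonneg (by linarith)
  have hsA : 0 < √A := Real.sqrt_pos.mpr hA
  have hsB : 0 < √B := Real.sqrt_pos.mpr (by linarith)
  refine ⟨4 * (1 + 2 * D) * (√A + √B), 4 * (1 + 2 * D) * (2 * √B), by positivity, by positivity, ?_⟩
  intro l z hl hz1 hz
  set M := Real.log (2 + l) with hM
  have hM2 : 1 / 2 ≤ M := by
    have h1 : Real.log 2 ≤ M := Real.log_le_log (by norm_num) (by linarith)
    have := Real.log_two_gt_d9
    linarith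
  have hsq : √z ≤ √A * √l + √B := by
    rw [← Real.sqrt_mul hA.le]
    refine (Real.sqrt_le_sqrt hz).trans ?_
    rw [Real.sqrt_le_left (by positivity), add_sq, Real.sq_sqrt (by positivity),
      Real.sq_sqrt (by linarith)]
    have : 0 ≤ 2 * √(A * l) * √B := by positivity
    linarith
  have hlg : Real.log (6 * z) ≤ M + D := by
    rw [hM, hD, ← Real.log_mul (by positivity) (by positivity)]
    apply Real.log_le_log (by positivity)
    nlinarith
  have hlg0 : 0 ≤ Real.log (6 * z) := Real.log_nonneg (by linarith)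
  have hMr : M ≤ √l * M + 2 := by
    by_cases h1 : 1 ≤ l
    · have h2 : 1 ≤ √l := Real.one_le_sqrt.mpr h1
      nlinarith
    · push Not at h1
      have h3 : M ≤ 2 := by
        rw [hM]
        have := Real.log_le_sub_one_of_pos (show 0 < 2 + l by linarith)
        linarith
      have : 0 ≤ √l * M := mul_nonneg (Real.sqrt_nonneg _) (by linarith)
      linarith
  have hl0 : 0 ≤ √l := Real.sqrt_nonneg _
  have hMD : M + D ≤ (1 + 2 * D) * M := by nlinarith
  calc 4 * √z * Real.log (6 * z) ≤ 4 * (√A * √l + √B) * ((1 + 2 * D) * M) := by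
        apply mul_le_mul (by linarith) (hlg.trans hMD) hlg0 (by positivity)
    _ = 4 * (1 + 2 * D) * (√A * (√l * M) + √B * M) := by ring
    _ ≤ 4 * (1 + 2 * D) * (√A * (√l * M) + √B * (√l * M + 2)) := by
        apply mul_le_mul_of_nonneg_left _ (by positivity)
        have := mul_le_mul_of_nonneg_left hMr hsB.le
        linarith
    _ = _ := by ring

/-- choice of the parameters -/
theorem low_final
    (low_one : ∀ (H : ℕ) (c0 : ℝ) (c : ℕ → ℝ), Admissible H c0 c →
      ∀ (P : Finset ℕ), (∀ p ∈ P, p.Prime ∧ p % 4 = 3) → ∀ (N m0 : ℕ), 2 ≤ N →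
      (∀ p ∈ P, 4 * p ≤ N ^ 2) →
      (∀ k ∈ Icc 1 H, m0 ≤ (P.filter (fun p => ¬ p ∣ k)).card) →
      2 * (N : ℝ) * H * (2 / (N : ℝ)) ^ (m0 + 1) ≤ 1 →
      1 / (2 * ((N + P.card).choose N : ℝ)) ≤ c0)
    (lower1 : 1 / √(5 * ((1 : ℕ) : ℝ)) ≤ delta 1)
    (cheb3 : ∃ (c : ℝ) (z0 : ℕ), 0 < c ∧ ∀ z : ℕ, z0 ≤ z →
      c * z / Real.log z ≤ (((range (z + 1)).filter (fun p => p.Prime ∧ p % 4 = 3)).card : ℝ)) :
    ∃ C : ℝ, 0 < C ∧ ∀ H : ℕ, 1 ≤ H →
      1 / C * Real.exp (-C * √(Real.log H) * Real.log (2 + Real.log H)) ≤ delta H := by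
  obtain ⟨c, z0, hc, hcheb⟩ := cheb3
  set z1 : ℕ := z0 + ⌈(28 / c) ^ 4⌉₊ + 3 with hz1
  obtain ⟨K1, K2, hK1, hK2, hK⟩ := lfx_exp (8 / c) ((z1 : ℝ) + 1) (by positivity)
    (by have : (0 : ℝ) ≤ z1 := Nat.cast_nonneg _
        linarith)
  refine ⟨K1 + 2 * Real.exp K2, by positivity, ?_⟩
  intro H hH
  set l := Real.log H with hl
  have hH1 : (1 : ℝ) ≤ H := by exact_mod_cast hH
  have hl0 : 0 ≤ l := Real.log_nonneg hH1
  -- the parameters
  set z : ℕ := ⌈8 * l / c⌉₊ + z1 with hz
  have hzl : 8 * l / c ≤ z := by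
    have h1 := Nat.le_ceil (8 * l / c)
    have h2 : ((⌈8 * l / c⌉₊ : ℕ) : ℝ) ≤ (z : ℝ) := by
      exact_mod_cast (show ⌈8 * l / c⌉₊ ≤ z by omega)
    linarith
  have hzle : (z : ℝ) ≤ 8 / c * l + ((z1 : ℝ) + 1) := by
    have h1 := (Nat.ceil_lt_add_one (show 0 ≤ 8 * l / c by positivity)).le
    have h2 : (z : ℝ) = (⌈8 * l / c⌉₊ : ℝ) + z1 := by rw [hz]; push_cast; ring
    rw [h2]
    have h3 : 8 / c * l = 8 * l / c := by ring
    rw [h3]
    linarith
  have hz3 : 3 ≤ z := by omega
  have hz3' : (3 : ℝ) ≤ z := by exact_mod_cast hz3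
  have hz0' : z0 ≤ z := by omega
  have hz28 : (28 / c) ^ 4 ≤ (z : ℝ) := by
    have h1 := Nat.le_ceil ((28 / c) ^ 4)
    have h2 : ((⌈(28 / c) ^ 4⌉₊ : ℕ) : ℝ) ≤ (z : ℝ) := by
      exact_mod_cast (show ⌈(28 / c) ^ 4⌉₊ ≤ z by omega)
    linarith
  have hlogz : 0 < Real.log z := Real.log_pos (by linarith)
  set S : ℕ := Nat.sqrt z with hS
  have hSle : (S : ℝ) ≤ √z := by
    apply Real.le_sqrt_of_sq_le
    have : S * S ≤ z := Nat.sqrt_le z
    rw [pow_two]
    exact_mod_cast this
  have hSge : √z ≤ (S : ℝ) + 1 := by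
    rw [Real.sqrt_le_left (by positivity)]
    have : z < (S + 1) * (S + 1) := Nat.lt_succ_sqrt z
    have h2 : (z : ℝ) < ((S : ℝ) + 1) * ((S : ℝ) + 1) := by exact_mod_cast this
    nlinarith
  set P0 := (range (z + 1)).filter (fun p => p.Prime ∧ p % 4 = 3) with hP0
  set P := P0.filter (fun p => S < p) with hP
  set N : ℕ := 2 * (S + 1) with hN
  have hPcard : (P0.card : ℝ) ≤ P.card + (√z + 1) := by
    have h1 : P0 ⊆ P ∪ range (S + 1) := by
      intro p hp
      rw [Finset.mem_union, hP, Finset.mem_filter, Finset.mem_range]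
      by_cases h : S < p
      · exact Or.inl ⟨hp, h⟩
      · right; omega
    have h2 := (Finset.card_le_card h1).trans (Finset.card_union_le _ _)
    rw [Finset.card_range] at h2
    have h3 : (P0.card : ℝ) ≤ P.card + ((S : ℝ) + 1) := by exact_mod_cast h2
    linarith
  have hPprime : ∀ p ∈ P, p.Prime := fun p hp => (Finset.mem_filter.mp (Finset.mem_filter.mp hp).1).2.1
  set J : ℕ := ⌊2 * l / Real.log z⌋₊ with hJ
  set m0 : ℕ := P.card - J with hm0
  have hJle : (J : ℝ) ≤ 2 * l / Real.log z := Nat.floor_le (by positivity)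
  have hm0ge : c * z / Real.log z - (√z + 1) - 2 * l / Real.log z ≤ m0 := by
    have h1 : (P.card : ℝ) - J ≤ m0 := by
      rw [sub_le_iff_le_add]
      exact_mod_cast (show P.card ≤ m0 + J by omega)
    have h2 := hcheb z hz0'
    linarith
  have hcond : ∀ k ∈ Icc 1 H, m0 ≤ (P.filter (fun p => ¬ p ∣ k)).card := by
    intro k hk
    have h1 := lfx_div z H k hk P hPprime (fun p hp => (Finset.mem_filter.mp hp).2) (by omega)
    have h2 : (P.filter (fun p => p ∣ k)).card ≤ J := by
      apply Nat.le_floor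
      rw [le_div_iff₀ hlogz]
      exact h1
    have h3 := Finset.card_filter_add_card_filter_not (s := P) (fun p => p ∣ k)
    omega
  have hNr : (N : ℝ) = 2 * ((S : ℝ) + 1) := by rw [hN]; push_cast; ring
  have hsz1 : 1 ≤ √z := Real.one_le_sqrt.mpr (by linarith)
  have hexp : 2 * (N : ℝ) * H * (2 / (N : ℝ)) ^ (m0 + 1) ≤ 1 := by
    have hNpos : (0 : ℝ) < N := by rw [hNr]; positivity
    have hb : 2 / (N : ℝ) ≤ Real.exp (-(Real.log z / 2)) := by
      have h1 : Real.exp (-(Real.log z / 2)) = 1 / √z := by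
        rw [Real.exp_neg, one_div]
        congr 1
        rw [Real.sqrt_eq_rpow, Real.rpow_def_of_pos (by linarith)]
        congr 1
        ring
      rw [h1, div_le_div_iff₀ hNpos (by positivity), hNr]
      linarith
    have hp : (2 / (N : ℝ)) ^ (m0 + 1) ≤ Real.exp (-(((m0 : ℝ) + 1) * (Real.log z / 2))) := by
      calc (2 / (N : ℝ)) ^ (m0 + 1) ≤ (Real.exp (-(Real.log z / 2))) ^ (m0 + 1) :=
            pow_le_pow_left₀ (by positivity) hb _
        _ = Real.exp (-(((m0 : ℝ) + 1) * (Real.log z / 2))) := by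
            rw [← Real.exp_nat_mul]
            congr 1
            push_cast
            ring
    have hN4 : 2 * (N : ℝ) * H ≤ Real.exp (Real.log 8 + Real.log z / 2 + l) := by
      rw [Real.exp_add, Real.exp_add, Real.exp_log (by norm_num), hl, Real.exp_log (by linarith)]
      have h1 : Real.exp (Real.log z / 2) = √z := by
        rw [Real.sqrt_eq_rpow, Real.rpow_def_of_pos (by linarith)]
        congr 1
        ring
      rw [h1]
      apply mul_le_mul_of_nonneg_right _ (by linarith)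
      rw [hNr]
      linarith
    calc 2 * (N : ℝ) * H * (2 / (N : ℝ)) ^ (m0 + 1) ≤
        Real.exp (Real.log 8 + Real.log z / 2 + l) *
          Real.exp (-(((m0 : ℝ) + 1) * (Real.log z / 2))) :=
          mul_le_mul hN4 hp (by positivity) (Real.exp_pos _).le
      _ ≤ 1 := by
          rw [← Real.exp_add, Real.exp_le_one_iff]
          have hg := lfx_growth c hc z (by linarith) hz28
          have h1 : (m0 : ℝ) * (Real.log z / 2) ≥
              (c * z / Real.log z - (√z + 1) - 2 * l / Real.log z) * (Real.log z / 2) :=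
            mul_le_mul_of_nonneg_right hm0ge (by positivity)
          have h2 : (c * z / Real.log z - (√z + 1) - 2 * l / Real.log z) * (Real.log z / 2) =
              c * z / 2 - (√z + 1) * Real.log z / 2 - l := by
            field_simp
          have h3 : 8 * l ≤ c * z := by
            rw [div_le_iff₀ hc] at hzl
            linarith
          rw [h2] at h1
          linarith
  -- the lower bound for every admissible polynomial
  have hmain : ∀ (c0 : ℝ) (cc : ℕ → ℝ), Admissible H c0 cc →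
      1 / (2 * ((N + P.card).choose N : ℝ)) ≤ c0 := by
    intro c0 cc hadm
    refine low_one H c0 cc hadm P (fun p hp => (Finset.mem_filter.mp (Finset.mem_filter.mp hp).1).2)
      N m0 (by omega) ?_ hcond hexp
    intro p hp
    have h1 : p < z + 1 := Finset.mem_range.mp
      (Finset.mem_filter.mp (Finset.mem_filter.mp hp).1).1
    have h2 : z < (S + 1) * (S + 1) := Nat.lt_succ_sqrt z
    rw [hN]
    nlinarith
  have hchoose : ((N + P.card).choose N : ℝ) ≤ Real.exp (4 * √z * Real.log (6 * z)) := by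
    have h1 : ((N + P.card).choose N : ℝ) ≤ ((N + P.card : ℕ) : ℝ) ^ N := by
      exact_mod_cast Nat.choose_le_pow (N + P.card) N
    have h2 : ((N + P.card : ℕ) : ℝ) ≤ 6 * z := by
      have h3 : P.card ≤ z + 1 := by
        have := Finset.card_le_card ((Finset.filter_subset (fun p => S < p) P0).trans
          (Finset.filter_subset _ (range (z + 1))))
        rwa [Finset.card_range] at this
      have h4 : (P.card : ℝ) ≤ z + 1 := by exact_mod_cast h3
      have h5 : √z ≤ z := by
        rw [Real.sqrt_le_left (by linarith)]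
        nlinarith
      push_cast
      rw [hNr]
      linarith
    have h6 : (0 : ℝ) ≤ Real.log (6 * z) := Real.log_nonneg (by linarith)
    calc ((N + P.card).choose N : ℝ) ≤ ((N + P.card : ℕ) : ℝ) ^ N := h1
      _ ≤ (6 * (z : ℝ)) ^ N := pow_le_pow_left₀ (Nat.cast_nonneg _) h2 _
      _ = Real.exp (N * Real.log (6 * z)) := by
          rw [Real.exp_nat_mul, Real.exp_log (by positivity)]
      _ ≤ Real.exp (4 * √z * Real.log (6 * z)) := by
          apply Real.exp_le_exp.mpr
          apply mul_le_mul_of_nonneg_right _ h6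
          rw [hNr]
          linarith
  have hfin : 1 / (K1 + 2 * Real.exp K2) *
      Real.exp (-(K1 + 2 * Real.exp K2) * √l * Real.log (2 + l)) ≤
      1 / (2 * ((N + P.card).choose N : ℝ)) := by
    have hk := hK l z hl0 (by linarith) hzle
    have hM : 0 ≤ Real.log (2 + l) := Real.log_nonneg (by linarith)
    have hX : 0 ≤ √l * Real.log (2 + l) := mul_nonneg (Real.sqrt_nonneg _) hM
    have hcpos : (0 : ℝ) < ((N + P.card).choose N : ℝ) := by
      exact_mod_cast Nat.choose_pos (Nat.le_add_right _ _)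
    have h1 : 1 / (2 * Real.exp (4 * √z * Real.log (6 * z))) ≤
        1 / (2 * ((N + P.card).choose N : ℝ)) :=
      one_div_le_one_div_of_le (by positivity) (by linarith)
    refine le_trans ?_ h1
    have h2 : 1 / (K1 + 2 * Real.exp K2) ≤ 1 / (2 * Real.exp K2) :=
      one_div_le_one_div_of_le (by positivity) (by linarith)
    have h3 : Real.exp (-(K1 + 2 * Real.exp K2) * √l * Real.log (2 + l)) ≤
        Real.exp (-(K1 * (√l * Real.log (2 + l)))) := by
      apply Real.exp_le_exp.mpr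
      have h4 : 0 ≤ 2 * Real.exp K2 * (√l * Real.log (2 + l)) := by positivity
      nlinarith
    calc 1 / (K1 + 2 * Real.exp K2) *
        Real.exp (-(K1 + 2 * Real.exp K2) * √l * Real.log (2 + l))
        ≤ 1 / (2 * Real.exp K2) * Real.exp (-(K1 * (√l * Real.log (2 + l)))) :=
          mul_le_mul h2 h3 (Real.exp_pos _).le (by positivity)
      _ = 1 / (2 * Real.exp (K1 * (√l * Real.log (2 + l)) + K2)) := by
          rw [Real.exp_neg, Real.exp_add]
          field_simp
      _ ≤ 1 / (2 * Real.exp (4 * √z * Real.log (6 * z))) := by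
          apply one_div_le_one_div_of_le (by positivity)
          have := Real.exp_le_exp.mpr hk
          linarith
  refine hfin.trans ?_
  unfold delta
  apply le_csInf
  · refine ⟨1, fun _ => 0, ?_, ?_⟩
    · intro x; simp
    · simp
  · rintro c0 ⟨cc, hadm⟩
    exact hmain c0 cc hadm

end Pool.Agent.Helper380.VDCX.Jb9
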