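import Mathlib
import Pool.Agent.Helper380.VDC.Defs

set_option autoImplicit false

namespace Pool.Agent.Helper380.VDCX.Jk6

open Real Finset





theorem rg_local (s : ℝ) (h : ℕ → ℂ) (m : ℕ) :
    ∑ j ∈ range 2, (if j ≤ m then (-1 : ℂ) ^ j * (s : ℂ) ^ m * h (m - j) else 0) = cc s h m := by
  unfold cc
  rw [sum_range_succ, sum_range_succ, sum_range_zero]
  rcases Nat.eq_zero_or_pos m with h0 | h0
  · subst h0
    simp
  · rw [if_pos (Nat.zero_le m), if_pos (by omega), if_neg (by omega)]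
    simp only [pow_zero, pow_one, Nat.sub_zero]
    ring

theorem regroup {ι : Type} [Fintype ι] [DecidableEq ι] (K : ℕ) (s : ℝ) (h : ι → ℕ → ℂ) :
    ∑ fb ∈ Jset ι K, ∏ i, ((-1 : ℂ) ^ (fb.2 i) * (s : ℂ) ^ (fb.1 i) * h i (fb.1 i - fb.2 i)) =
      ∑ f ∈ (Fintype.piFinset fun _ : ι => range (K + 1)).filter (fun f => ∑ i, f i ≤ K),
        ∏ i, cc s (h i) (f i) := by
  classical
  unfold Jset
  rw [sum_filter, sum_product, sum_filter]
  refine sum_congr rfl fun f _ => ?_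
  by_cases hK : ∑ i, f i ≤ K
  · rw [if_pos hK]
    have h1 : ∀ b : ι → ℕ, (if (∑ i, f i ≤ K ∧ ∀ i, b i ≤ f i) then
        ∏ i, ((-1 : ℂ) ^ (b i) * (s : ℂ) ^ (f i) * h i (f i - b i)) else 0) =
        ∏ i, (if b i ≤ f i then (-1 : ℂ) ^ (b i) * (s : ℂ) ^ (f i) * h i (f i - b i) else 0) := by
      intro b
      rw [Finset.prod_ite_zero]
      simp [hK]
    simp only [h1]
    have h2 := (Finset.prod_univ_sum (fun _ : ι => range 2)
      (fun i j => if j ≤ f i then (-1 : ℂ) ^ j * (s : ℂ) ^ (f i) * h i (f i - j) else 0)).symm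
    refine h2.trans ?_
    exact prod_congr rfl fun i _ => rg_local s (h i) (f i)
  · rw [if_neg hK]
    refine sum_eq_zero fun b _ => ?_
    rw [if_neg (fun hh => hK hh.1)]

end Pool.Agent.Helper380.VDCX.Jk6
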