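import Mathlib
import Pool.Agent.Helper380.VDC.Defs

set_option autoImplicit false

namespace Pool.Agent.Helper380.VDCX.Jk7

open Real Finset





theorem mem_Jset_aux (ι : Type) [Fintype ι] [DecidableEq ι] (K : ℕ) (fb : (ι → ℕ) × (ι → ℕ)) :
    fb ∈ Jset ι K ↔ (∀ i, fb.2 i ≤ 1) ∧ (∑ i, fb.1 i ≤ K) ∧ ∀ i, fb.2 i ≤ fb.1 i := by
  unfold Jset
  simp only [mem_filter, mem_product, Fintype.mem_piFinset, mem_range]
  constructor
  · rintro ⟨⟨_, h2⟩, h3, h4⟩
    exact ⟨fun i => by have := h2 i; omega, h3, h4⟩
  · rintro ⟨h2, h3, h4⟩
    refine ⟨⟨fun i => ?_, fun i => by have := h2 i; omega⟩, h3, h4⟩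
    have : fb.1 i ≤ ∑ j, fb.1 j := Finset.single_le_sum (f := fb.1) (fun _ _ => Nat.zero_le _) (mem_univ i)
    omega

def Phi_aux (ι : Type) [Fintype ι] [DecidableEq ι] :
    ((ι → ℕ) × (ι → ℕ)) × Option (ι × Bool) → (ι → ℕ) × (ι → ℕ)
  | (fb, none) => fb
  | (fb, some (i, false)) => (Function.update fb.1 i (fb.1 i + 1), fb.2)
  | (fb, some (i, true)) => (Function.update fb.1 i (fb.1 i + 1), Function.update fb.2 i 1)

theorem Jset_succ_aux (ι : Type) [Fintype ι] [DecidableEq ι] (K : ℕ) :
    Jset ι (K + 1) ⊆ ((Jset ι K) ×ˢ (univ : Finset (Option (ι × Bool)))).image (Phi_aux ι) := by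
  rintro ⟨f, b⟩ hfb
  rw [mem_Jset_aux] at hfb
  obtain ⟨h1, h2, h3⟩ := hfb
  simp only at h1 h2 h3
  rw [mem_image]
  by_cases h0 : ∀ i, f i = 0
  · refine ⟨((f, b), none), ?_, rfl⟩
    rw [mem_product]
    refine ⟨?_, mem_univ _⟩
    rw [mem_Jset_aux]
    refine ⟨h1, ?_, h3⟩
    simp [h0]
  · push Not at h0
    obtain ⟨i, hi⟩ := h0
    have hsum : ∑ j, Function.update f i (f i - 1) j + 1 = ∑ j, f j := by
      rw [Finset.sum_update_of_mem (mem_univ i)]
      rw [← Finset.add_sum_erase univ f (mem_univ i)]
      rw [← Finset.sdiff_singleton_eq_erase]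
      omega
    have hup : Function.update (Function.update f i (f i - 1)) i
        ((Function.update f i (f i - 1)) i + 1) = f := by
      rw [Function.update_idem, Function.update_self, Nat.sub_add_cancel (Nat.pos_of_ne_zero hi),
        Function.update_eq_self]
    by_cases hb : b i = 0
    · refine ⟨((Function.update f i (f i - 1), b), some (i, false)), ?_, ?_⟩
      · rw [mem_product]
        refine ⟨?_, mem_univ _⟩
        rw [mem_Jset_aux]
        refine ⟨h1, by simp only; omega, ?_⟩
        intro j
        by_cases hj : j = i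
        · subst hj
          simp [hb]
        · simp only [Function.update_of_ne hj]
          exact h3 j
      · simp only [Phi_aux]
        rw [hup]
    · have hb1 : b i = 1 := by
        have := h1 i
        omega
      refine ⟨((Function.update f i (f i - 1), Function.update b i 0), some (i, true)), ?_, ?_⟩
      · rw [mem_product]
        refine ⟨?_, mem_univ _⟩
        rw [mem_Jset_aux]
        refine ⟨?_, by simp only; omega, ?_⟩
        · intro j
          by_cases hj : j = i
          · subst hj
            simp
          · simp only [Function.update_of_ne hj]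
            exact h1 j
        · intro j
          by_cases hj : j = i
          · subst hj
            simp
          · simp only [Function.update_of_ne hj]
            exact h3 j
      · simp only [Phi_aux]
        rw [hup, Function.update_idem, ← hb1, Function.update_eq_self]

theorem card_Jset (ι : Type) [Fintype ι] [DecidableEq ι] (K : ℕ) :
    (Jset ι K).card ≤ (2 * Fintype.card ι + 2) ^ K := by
  induction K with
  | zero =>
    rw [pow_zero, Finset.card_le_one]
    intro x hx y hy
    have key : ∀ z ∈ Jset ι 0, z = ((fun _ => 0), (fun _ => 0)) := by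
      rintro ⟨f, b⟩ hz
      rw [mem_Jset_aux] at hz
      obtain ⟨_, h2, h3⟩ := hz
      simp only at h2 h3
      have hf : ∀ i, f i = 0 := by
        intro i
        have : f i ≤ ∑ j, f j := Finset.single_le_sum (f := f) (fun _ _ => Nat.zero_le _) (mem_univ i)
        omega
      have hb : ∀ i, b i = 0 := by
        intro i
        have := h3 i
        have := hf i
        omega
      exact Prod.ext (funext hf) (funext hb)
    rw [key x hx, key y hy]
  | succ K ih =>
    calc (Jset ι (K + 1)).card
        ≤ (((Jset ι K) ×ˢ (univ : Finset (Option (ι × Bool)))).image (Phi_aux ι)).card :=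
          Finset.card_le_card (Jset_succ_aux ι K)
      _ ≤ ((Jset ι K) ×ˢ (univ : Finset (Option (ι × Bool)))).card := Finset.card_image_le
      _ = (Jset ι K).card * (Fintype.card ι * 2 + 1) := by
          rw [Finset.card_product, Finset.card_univ, Fintype.card_option, Fintype.card_prod,
            Fintype.card_bool]
      _ ≤ (2 * Fintype.card ι + 2) ^ K * (2 * Fintype.card ι + 2) := by
          apply Nat.mul_le_mul ih
          omega
      _ = (2 * Fintype.card ι + 2) ^ (K + 1) := by
          rw [pow_succ]

end Pool.Agent.Helper380.VDCX.Jk7
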