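import Mathlib
import Pool.Agent.Helper380.VDC.Defs

set_option autoImplicit false

namespace Pool.Agent.Helper380.VDCX.Jm2

open Real Finset















/-- small primes -/
theorem tier1 {ι : Type} [Fintype ι] (p n : ι → ℕ) (s S0 : ℝ) (L K : ℕ)
    (hS0 : 1 ≤ S0) (hsum : ∑ i, 1 / √(p i : ℝ) ≤ S0) (hs : s = 1 - 1 / (24 * S0))
    (hK : 24 * S0 * (L + 12 * S0) ≤ (K : ℝ)) (W : ℂ)
    (hcase : (∑ i, n i ≤ K → ‖W‖ ≤ 1 ∧ ∃ z : ι → ℂ, W = (s : ℂ) ^ (∑ i, n i) * ∏ i, (1 + z i) ∧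
      ∀ i, ‖z i‖ ≤ (1 - s) * (if n i = 0 then 0 else 6 / √(p i : ℝ))) ∧
      (K < ∑ i, n i →
        ‖W‖ ≤ ∏ i, (if n i = 0 then (1 : ℝ) else s ^ (n i) * (1 + 12 / √(p i : ℝ))))) :
    ‖W‖ ≤ 1 ∧ (‖W‖ ≤ Real.exp (-(L : ℝ)) ∨ ∃ (r : ℝ) (z : ι → ℂ), 0 ≤ r ∧ r ≤ 1 ∧
      W = (r : ℂ) * ∏ i, (1 + z i) ∧ ∑ i, ‖z i‖ ≤ 1 / 4) := by
  have hS0' : 0 < S0 := by linarith
  have hκ0 : 0 < 1 / (24 * S0) := by positivity
  have hκ1 : 1 / (24 * S0) ≤ 1 := by
    rw [div_le_one (by positivity)]; linarith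
  have hs0 : 0 ≤ s := by rw [hs]; linarith
  have hs1 : s ≤ 1 := by rw [hs]; linarith
  rcases le_or_gt (∑ i, n i) K with hle | hgt
  · obtain ⟨h1, z, hz, hz2⟩ := hcase.1 hle
    refine ⟨h1, Or.inr ⟨s ^ (∑ i, n i), z, pow_nonneg hs0 _, pow_le_one₀ hs0 hs1, ?_, ?_⟩⟩
    · rw [hz]; push_cast; rfl
    · have h2 : ∀ i, ‖z i‖ ≤ 1 / (24 * S0) * (6 * (1 / √(p i : ℝ))) := by
        intro i
        refine (hz2 i).trans ?_
        rw [hs, sub_sub_cancel]
        apply mul_le_mul_of_nonneg_left _ hκ0.le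
        split_ifs
        · positivity
        · apply le_of_eq; ring
      calc ∑ i, ‖z i‖ ≤ ∑ i, 1 / (24 * S0) * (6 * (1 / √(p i : ℝ))) :=
            Finset.sum_le_sum fun i _ => h2 i
        _ = 1 / (24 * S0) * 6 * ∑ i, 1 / √(p i : ℝ) := by
            rw [← Finset.mul_sum, ← Finset.mul_sum, mul_assoc]
        _ ≤ 1 / (24 * S0) * 6 * S0 := mul_le_mul_of_nonneg_left hsum (by positivity)
        _ = 1 / 4 := by field_simp; norm_num
  · have h1 := hcase.2 hgt
    have h2 : ∏ i, (if n i = 0 then (1 : ℝ) else s ^ (n i) * (1 + 12 / √(p i : ℝ))) ≤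
        ∏ i, Real.exp (-(1 / (24 * S0)) * n i + 12 * (1 / √(p i : ℝ))) := by
      apply Finset.prod_le_prod
      · intro i _
        split_ifs
        · norm_num
        · positivity
      · intro i _
        split_ifs with h
        · rw [h]
          apply Real.one_le_exp
          simp only [Nat.cast_zero, mul_zero, zero_add]
          positivity
        · rw [Real.exp_add]
          apply mul_le_mul
          · rw [mul_comm, Real.exp_nat_mul]
            apply pow_le_pow_left₀ hs0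
            rw [hs]
            exact Real.one_sub_le_exp_neg _
          · have := Real.add_one_le_exp (12 * (1 / √(p i : ℝ)))
            refine le_trans (le_of_eq ?_) this
            ring
          · positivity
          · positivity
    have h3 : ∏ i, Real.exp (-(1 / (24 * S0)) * n i + 12 * (1 / √(p i : ℝ))) ≤
        Real.exp (-(L : ℝ)) := by
      rw [← Real.exp_sum]
      apply Real.exp_le_exp.mpr
      rw [Finset.sum_add_distrib, ← Finset.mul_sum, ← Finset.mul_sum]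
      have hν : (K : ℝ) ≤ ∑ i, (n i : ℝ) := by
        have : (K : ℝ) ≤ ((∑ i, n i : ℕ) : ℝ) := by exact_mod_cast hgt.le
        simpa using this
      have h4 : (L : ℝ) + 12 * S0 ≤ 1 / (24 * S0) * ∑ i, (n i : ℝ) := by
        calc (L : ℝ) + 12 * S0 = 1 / (24 * S0) * (24 * S0 * (L + 12 * S0)) := by
              field_simp
          _ ≤ _ := mul_le_mul_of_nonneg_left (hK.trans hν) hκ0.le
      nlinarith
    have h5 := (h1.trans h2).trans h3
    refine ⟨h5.trans ?_, Or.inl h5⟩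
    apply Real.exp_le_one_iff.mpr
    simp

/-- large primes -/
theorem tier2 {ι : Type} [Fintype ι] (p n : ι → ℕ) (L K : ℕ) (hL : 1 ≤ L)
    (hK : K = 4 * L) (hp : ∀ i, (400 * L) ^ 2 < p i) (W : ℂ)
    (hcase : (∑ i, n i ≤ K → ‖W‖ ≤ 1 ∧ ∃ z : ι → ℂ,
      W = (((3 / 4 : ℝ) : ℝ) : ℂ) ^ (∑ i, n i) * ∏ i, (1 + z i) ∧
      ∀ i, ‖z i‖ ≤ (1 - (3 / 4 : ℝ)) * (if n i = 0 then 0 else 6 / √(p i : ℝ))) ∧
      (K < ∑ i, n i →
        ‖W‖ ≤ ∏ i, (if n i = 0 then (1 : ℝ) else (3 / 4 : ℝ) ^ (n i) * (1 + 12 / √(p i : ℝ))))) :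
    ‖W‖ ≤ 1 ∧ (‖W‖ ≤ Real.exp (-(L : ℝ)) ∨ ∃ (r : ℝ) (z : ι → ℂ), 0 ≤ r ∧ r ≤ 1 ∧
      W = (r : ℂ) * ∏ i, (1 + z i) ∧ ∑ i, ‖z i‖ ≤ 1 / 4) := by
  have hLr : (1 : ℝ) ≤ L := by exact_mod_cast hL
  have hsq : ∀ i, 400 * (L : ℝ) ≤ √(p i : ℝ) := by
    intro i
    apply Real.le_sqrt_of_sq_le
    have := (hp i).le
    exact_mod_cast this
  rcases le_or_gt (∑ i, n i) K with hle | hgt
  · obtain ⟨h1, z, hz, hz2⟩ := hcase.1 hle
    refine ⟨h1, Or.inr ⟨(3 / 4) ^ (∑ i, n i), z, by positivity,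
      pow_le_one₀ (by norm_num) (by norm_num), ?_, ?_⟩⟩
    · rw [hz]; push_cast; rfl
    · have h2 : ∀ i, ‖z i‖ ≤ (n i : ℝ) * (3 / (800 * L)) := by
        intro i
        refine (hz2 i).trans ?_
        split_ifs with h
        · rw [h]; simp
        · have hn : (1 : ℝ) ≤ n i := by exact_mod_cast Nat.one_le_iff_ne_zero.mpr h
          have h3 : 6 / √(p i : ℝ) ≤ 6 / (400 * L) :=
            div_le_div_of_nonneg_left (by norm_num) (by positivity) (hsq i)
          calc (1 - 3 / 4 : ℝ) * (6 / √(p i : ℝ)) ≤ (1 - 3 / 4 : ℝ) * (6 / (400 * L)) :=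
                mul_le_mul_of_nonneg_left h3 (by norm_num)
            _ = 1 * (3 / (800 * L)) := by field_simp; norm_num
            _ ≤ n i * (3 / (800 * L)) := mul_le_mul_of_nonneg_right hn (by positivity)
      have hν : ∑ i, (n i : ℝ) ≤ 4 * L := by
        have : ((∑ i, n i : ℕ) : ℝ) ≤ ((K : ℕ) : ℝ) := by exact_mod_cast hle
        rw [hK] at this
        simpa using this
      calc ∑ i, ‖z i‖ ≤ ∑ i, (n i : ℝ) * (3 / (800 * L)) :=
            Finset.sum_le_sum fun i _ => h2 i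
        _ = (∑ i, (n i : ℝ)) * (3 / (800 * L)) := by rw [← Finset.sum_mul]
        _ ≤ (4 * L) * (3 / (800 * L)) := mul_le_mul_of_nonneg_right hν (by positivity)
        _ ≤ 1 / 4 := by
            have : (4 * (L : ℝ)) * (3 / (800 * L)) = 3 / 200 := by field_simp; norm_num
            rw [this]; norm_num
  · have h1 := hcase.2 hgt
    have he : (309 / 400 : ℝ) ≤ Real.exp (-(1 / 4)) := by
      have h4 : (309 / 400 : ℝ) ^ 4 ≤ Real.exp (-(1 / 4)) ^ 4 := by
        rw [← Real.exp_nat_mul]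
        have : ((4 : ℕ) : ℝ) * (-(1 / 4)) = -1 := by norm_num
        rw [this]
        have := Real.exp_neg_one_gt_d9
        refine le_trans ?_ this.le
        norm_num
      exact le_of_pow_le_pow_left₀ (by norm_num) (Real.exp_pos _).le h4
    have h2 : ∏ i, (if n i = 0 then (1 : ℝ) else (3 / 4 : ℝ) ^ (n i) * (1 + 12 / √(p i : ℝ))) ≤
        ∏ i, Real.exp (-(1 / 4) * n i) := by
      apply Finset.prod_le_prod
      · intro i _
        split_ifs
        · norm_num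
        · positivity
      · intro i _
        split_ifs with h
        · rw [h]; simp
        · have hn : n i ≠ 0 := h
          have h3 : 12 / √(p i : ℝ) ≤ 12 / (400 * L) :=
            div_le_div_of_nonneg_left (by norm_num) (by positivity) (hsq i)
          have h4 : 12 / (400 * (L : ℝ)) ≤ 12 / 400 := by
            apply div_le_div_of_nonneg_left (by norm_num) (by norm_num)
            linarith
          have h5 : 1 + 12 / √(p i : ℝ) ≤ (103 / 100 : ℝ) ^ (n i) := by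
            calc 1 + 12 / √(p i : ℝ) ≤ (103 / 100 : ℝ) := by linarith
              _ ≤ (103 / 100 : ℝ) ^ (n i) := le_self_pow₀ (by norm_num) hn
          calc (3 / 4 : ℝ) ^ (n i) * (1 + 12 / √(p i : ℝ))
              ≤ (3 / 4 : ℝ) ^ (n i) * (103 / 100 : ℝ) ^ (n i) :=
                mul_le_mul_of_nonneg_left h5 (by positivity)
            _ = (309 / 400 : ℝ) ^ (n i) := by rw [← mul_pow]; norm_num
            _ ≤ Real.exp (-(1 / 4)) ^ (n i) := pow_le_pow_left₀ (by norm_num) he _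
            _ = Real.exp (-(1 / 4) * n i) := by rw [← Real.exp_nat_mul, mul_comm]
    have h3 : ∏ i, Real.exp (-(1 / 4) * n i) ≤ Real.exp (-(L : ℝ)) := by
      rw [← Real.exp_sum]
      apply Real.exp_le_exp.mpr
      rw [← Finset.mul_sum]
      have hν : (4 * (L : ℝ)) ≤ ∑ i, (n i : ℝ) := by
        have : (K : ℝ) ≤ ((∑ i, n i : ℕ) : ℝ) := by exact_mod_cast hgt.le
        rw [hK] at this
        simpa using this
      linarith
    have h5 := (h1.trans h2).trans h3
    refine ⟨h5.trans ?_, Or.inl h5⟩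
    apply Real.exp_le_one_iff.mpr
    simp

end Pool.Agent.Helper380.VDCX.Jm2
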