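import Mathlib
import Pool.Agent.Helper380.VDC.Defs

set_option autoImplicit false

namespace Pool.Agent.Helper380.VDCX.Jm3

open Real Finset















theorem small899 {A B C D : ℂ} {E : ℝ} (hE : ‖A‖ * ‖B‖ * ‖C‖ * ‖D‖ ≤ E) :
    -E ≤ ((A * (B * C)) * D).re := by
  have h1 : ‖(A * (B * C)) * D‖ ≤ E := by
    rw [norm_mul, norm_mul, norm_mul, ← mul_assoc]
    exact hE
  have h2 := Complex.abs_re_le_norm ((A * (B * C)) * D)
  have h3 := neg_abs_le ((A * (B * C)) * D).re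
  linarith

/-- combining the two tiers and the remaining factor -/
theorem combine {ι₁ ι₂ : Type} [Fintype ι₁] [Fintype ι₂] (W₁ W₂ R I : ℂ) (L : ℕ)
    (h1 : ‖W₁‖ ≤ 1 ∧ (‖W₁‖ ≤ Real.exp (-(L : ℝ)) ∨ ∃ (r : ℝ) (z : ι₁ → ℂ), 0 ≤ r ∧ r ≤ 1 ∧
      W₁ = (r : ℂ) * ∏ i, (1 + z i) ∧ ∑ i, ‖z i‖ ≤ 1 / 4))
    (h2 : ‖W₂‖ ≤ 1 ∧ (‖W₂‖ ≤ Real.exp (-(L : ℝ)) ∨ ∃ (r : ℝ) (z : ι₂ → ℂ), 0 ≤ r ∧ r ≤ 1 ∧
      W₂ = (r : ℂ) * ∏ i, (1 + z i) ∧ ∑ i, ‖z i‖ ≤ 1 / 4))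
    (hR : R = 1 ∨ ‖R‖ ≤ Real.exp (-(L : ℝ))) (hI : ‖I‖ ≤ 1) (hI2 : |I.im| ≤ I.re) :
    -Real.exp (-(L : ℝ)) ≤ ((R * (W₁ * W₂)) * I).re := by
  set E := Real.exp (-(L : ℝ)) with hE
  have hE0 : 0 < E := Real.exp_pos _
  have hE1 : E ≤ 1 := by
    rw [hE]
    exact Real.exp_le_one_iff.2 (by simp)
  have hR1 : ‖R‖ ≤ 1 := by
    rcases hR with rfl | h
    · simp
    · exact h.trans hE1
  have n1 := norm_nonneg W₁
  have n2 := norm_nonneg W₂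
  have nR := norm_nonneg R
  have nI := norm_nonneg I
  rcases h1 with ⟨hW1, hW1' | ⟨r1, z1, hr1, hr1', hz1, hs1⟩⟩
  · have hW2 := h2.1
    apply small899
    calc ‖R‖ * ‖W₁‖ * ‖W₂‖ * ‖I‖ ≤ 1 * E * 1 * 1 := by gcongr <;> assumption
      _ = E := by ring
  rcases h2 with ⟨hW2, hW2' | ⟨r2, z2, hr2, hr2', hz2, hs2⟩⟩
  · apply small899
    calc ‖R‖ * ‖W₁‖ * ‖W₂‖ * ‖I‖ ≤ 1 * 1 * E * 1 := by gcongr <;> assumption
      _ = E := by ring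
  rcases hR with rfl | hR'
  swap
  · apply small899
    calc ‖R‖ * ‖W₁‖ * ‖W₂‖ * ‖I‖ ≤ E * 1 * 1 * 1 := by gcongr <;> assumption
      _ = E := by ring
  set P : ℂ := (∏ i, (1 + z1 i)) * ∏ i, (1 + z2 i) with hP
  have hPn : ‖P - 1‖ ≤ 0.65 := by
    have h3 := Finset.norm_prod_one_add_sub_one_le (Finset.univ : Finset (ι₁ ⊕ ι₂))
      (Sum.elim z1 z2)
    rw [Fintype.prod_sum_type, Fintype.sum_sum_type] at h3
    simp only [Sum.elim_inl, Sum.elim_inr] at h3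
    have h4 : Real.exp (∑ i, ‖z1 i‖ + ∑ i, ‖z2 i‖) ≤ Real.exp (1 / 2) :=
      Real.exp_le_exp.2 (by linarith)
    have h5 : Real.exp (1 / 2) ≤ 1.65 := by
      have h6 : Real.exp (1 / 2) * Real.exp (1 / 2) = Real.exp 1 := by
        rw [← Real.exp_add]
        norm_num
      have h7 := Real.exp_one_lt_d9
      have h8 := Real.exp_pos (1 / 2 : ℝ)
      nlinarith
    refine h3.trans ?_
    linarith
  have hPre : |P.im| ≤ P.re := by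
    have h3 : (P - 1).re = P.re - 1 := by simp
    have h4 : (P - 1).im = P.im := by simp
    have h5 : ‖P - 1‖ ^ 2 = (P.re - 1) ^ 2 + P.im ^ 2 := by
      rw [← Complex.normSq_eq_norm_sq, Complex.normSq_apply, h3, h4]
      ring
    have h6 : (P.re - 1) ^ 2 + P.im ^ 2 ≤ 0.65 ^ 2 := by
      rw [← h5]
      exact pow_le_pow_left₀ (norm_nonneg _) hPn 2
    rw [abs_le]
    constructor
    · nlinarith [sq_nonneg (P.re - 1 - P.im), sq_nonneg (P.re - 1 + P.im)]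
    · nlinarith [sq_nonneg (P.re - 1 - P.im), sq_nonneg (P.re - 1 + P.im)]
  have hPI : 0 ≤ (P * I).re := by
    rw [Complex.mul_re]
    have h3 : P.im * I.im ≤ |P.im| * |I.im| := by
      rw [← abs_mul]
      exact le_abs_self _
    have h4 : |P.im| * |I.im| ≤ P.re * I.re :=
      mul_le_mul hPre hI2 (abs_nonneg _) ((abs_nonneg _).trans hPre)
    linarith
  have heq : (1 * (W₁ * W₂)) * I = ((r1 * r2 : ℝ) : ℂ) * (P * I) := by
    rw [hz1, hz2, hP]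
    push_cast
    ring
  rw [heq, Complex.re_ofReal_mul]
  have h9 : 0 ≤ r1 * r2 * (P * I).re := mul_nonneg (mul_nonneg hr1 hr2) hPI
  linarith

end Pool.Agent.Helper380.VDCX.Jm3
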