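import Mathlib
import Pool.Agent.Helper380.VDC.Defs

set_option autoImplicit false

namespace Pool.Agent.Helper380.VDCX.Jm4

open Real Finset
















/-- sum over 1..N written with shifted index, `a n` weights -/
theorem cheb_theta_sum (n : ℕ) :
    ∑ k ∈ range n, (if (k+1).Prime then Real.log ((k+1 : ℕ) : ℝ) else 0) ≤ Real.log 4 * n := by
  have h := Chebyshev.theta_le_log4_mul_x (x := (n:ℝ)) (by positivity)
  have h2 : Chebyshev.theta (n:ℝ) = ∑ k ∈ range n, (if (k+1).Prime then Real.log ((k+1 : ℕ) : ℝ) else 0) := by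
    rw [Chebyshev.theta_eq_sum_Icc, Nat.floor_natCast, Finset.sum_filter]
    have : Icc 0 n = range (n+1) := by
      ext k; simp [Nat.lt_succ_iff]
    rw [this, Finset.sum_range_succ']
    simp [Nat.not_prime_zero]
  rw [h2] at h
  exact h

theorem cheb_four (x : ℝ) (hx : 0 ≤ x) : √(√x) ^ 4 = x := by
  have h1 : √(√x) ^ 2 = √x := Real.sq_sqrt (Real.sqrt_nonneg _)
  have h2 : √x ^ 2 = x := Real.sq_sqrt hx
  calc √(√x) ^ 4 = (√(√x) ^ 2) ^ 2 := by ring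
    _ = x := by rw [h1, h2]

theorem cheb_abel (c : ℝ) (a : ℕ → ℝ) (ha : ∀ n, ∑ k ∈ range n, a k ≤ c * n) (n : ℕ) :
    (∑ k ∈ range (n+1), (c - a k)) / √((n+1 : ℕ) : ℝ) ≤ ∑ k ∈ range (n+1), (c - a k) / √((k+1 : ℕ) : ℝ) := by
  induction n with
  | zero => simp
  | succ n ih =>
    rw [Finset.sum_range_succ _ (n+1), Finset.sum_range_succ (fun k => (c - a k) / √((k+1 : ℕ) : ℝ)) (n+1), add_div]
    have hA : 0 ≤ ∑ k ∈ range (n+1), (c - a k) := by
      rw [Finset.sum_sub_distrib]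
      have := ha (n+1)
      simp only [Finset.sum_const, Finset.card_range, nsmul_eq_mul]
      nlinarith
    have h1 : (∑ k ∈ range (n+1), (c - a k)) / √((n+1+1 : ℕ) : ℝ) ≤ (∑ k ∈ range (n+1), (c - a k)) / √((n+1 : ℕ) : ℝ) := by
      apply div_le_div_of_nonneg_left hA
      · apply Real.sqrt_pos.2; positivity
      · apply Real.sqrt_le_sqrt; push_cast; linarith
    linarith

theorem cheb_half (n : ℕ) : ∑ k ∈ range n, 1 / √((k+1 : ℕ) : ℝ) ≤ 2 * √(n : ℝ) := by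
  induction n with
  | zero => simp
  | succ n ih =>
    rw [Finset.sum_range_succ]
    have hb : 0 ≤ √(n:ℝ) := Real.sqrt_nonneg _
    have ha : 0 < √((n+1:ℕ):ℝ) := Real.sqrt_pos.2 (by positivity)
    have e1 : √((n+1:ℕ):ℝ) ^ 2 = n + 1 := by rw [Real.sq_sqrt (by positivity)]; push_cast; ring
    have e2 : √(n:ℝ) ^ 2 = n := Real.sq_sqrt (by positivity)
    have : 1 / √((n+1:ℕ):ℝ) ≤ 2 * √((n+1:ℕ):ℝ) - 2 * √(n:ℝ) := by
      rw [div_le_iff₀ ha]
      nlinarith [sq_nonneg (√((n+1:ℕ):ℝ) - √(n:ℝ))]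
    linarith

theorem cheb_three (n : ℕ) : ∑ k ∈ range n, 1 / √(√((k+1 : ℕ) : ℝ)) ^ 3 ≤ 4 * √(√(n : ℝ)) := by
  induction n with
  | zero => simp
  | succ n ih =>
    rw [Finset.sum_range_succ]
    have hb : 0 ≤ √(√(n:ℝ)) := Real.sqrt_nonneg _
    have ha : 0 < √(√((n+1:ℕ):ℝ)) := Real.sqrt_pos.2 (Real.sqrt_pos.2 (by positivity))
    have e1 : √(√((n+1:ℕ):ℝ)) ^ 4 = n + 1 := by rw [cheb_four _ (by positivity)]; push_cast; ring
    have e2 : √(√(n:ℝ)) ^ 4 = n := cheb_four _ (by positivity)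
    have hab : √(√(n:ℝ)) ≤ √(√((n+1:ℕ):ℝ)) := by
      apply Real.sqrt_le_sqrt; apply Real.sqrt_le_sqrt; push_cast; linarith
    set a := √(√((n+1:ℕ):ℝ)) with hadef
    set b := √(√(n:ℝ)) with hbdef
    have : 1 / a ^ 3 ≤ 4 * a - 4 * b := by
      rw [div_le_iff₀ (by positivity)]
      have e3 : a^4 - b^4 = 1 := by rw [e1, e2]; ring
      have h1 : (a - b) * (a^3 + a^2*b + a*b^2 + b^3) = 1 := by rw [← e3]; ring
      have h2 : a^3 + a^2*b + a*b^2 + b^3 ≤ 4 * a^3 := by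
        have i1 : a^2*b ≤ a^3 := by nlinarith [sq_nonneg a]
        have i2 : a*b^2 ≤ a^3 := by
          have : b^2 ≤ a^2 := by nlinarith
          nlinarith
        have i3 : b^3 ≤ a^3 := by gcongr
        linarith
      have h3 : 0 ≤ a - b := by linarith
      nlinarith [mul_le_mul_of_nonneg_left h2 h3]
    linarith

/-- `∑_{p ≤ x} p^{-1/2} ≤ 40 √x / log x` -/
theorem cheb (x : ℕ) (hx : 2 ≤ x) :
    ∑ p ∈ (range (x + 1)).filter Nat.Prime, 1 / √(p : ℝ) ≤ 40 * √(x : ℝ) / Real.log x := by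
  have hlog : 0 < Real.log x := Real.log_pos (by exact_mod_cast (by omega : 1 < x))
  rw [le_div_iff₀ hlog]
  set a : ℕ → ℝ := fun k => if (k+1).Prime then Real.log ((k+1 : ℕ) : ℝ) else 0 with hadef
  have hl4 : Real.log 4 ≤ 3 := by
    have := Real.log_le_sub_one_of_pos (show (0:ℝ) < 4 by norm_num)
    linarith
  have hl40 : 0 ≤ Real.log 4 := Real.log_nonneg (by norm_num)
  -- S(x) bound
  have hS : ∑ k ∈ range x, a k / √((k+1 : ℕ) : ℝ) ≤ 6 * √(x:ℝ) := by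
    obtain ⟨n, rfl⟩ : ∃ n, x = n + 1 := ⟨x - 1, by omega⟩
    have h1 := cheb_abel (Real.log 4) a (fun n => cheb_theta_sum n) n
    have hA : 0 ≤ (∑ k ∈ range (n+1), (Real.log 4 - a k)) / √((n+1 : ℕ) : ℝ) := by
      apply div_nonneg _ (Real.sqrt_nonneg _)
      rw [Finset.sum_sub_distrib]
      have := cheb_theta_sum (n+1)
      simp only [Finset.sum_const, Finset.card_range, nsmul_eq_mul]
      have h3 : ∑ k ∈ range (n+1), a k ≤ Real.log 4 * ((n+1 : ℕ):ℝ) := this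
      nlinarith
    have h2 : ∑ k ∈ range (n+1), (Real.log 4 - a k) / √((k+1 : ℕ) : ℝ)
        = Real.log 4 * ∑ k ∈ range (n+1), 1 / √((k+1 : ℕ) : ℝ) - ∑ k ∈ range (n+1), a k / √((k+1 : ℕ) : ℝ) := by
      rw [Finset.mul_sum, ← Finset.sum_sub_distrib]
      apply Finset.sum_congr rfl
      intro k _
      ring
    have h3 := cheb_half (n+1)
    have h4 : Real.log 4 * ∑ k ∈ range (n+1), 1 / √((k+1 : ℕ) : ℝ) ≤ 3 * (2 * √((n+1:ℕ):ℝ)) := by
      apply mul_le_mul hl4 h3 _ (by norm_num)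
      apply Finset.sum_nonneg; intro k _; positivity
    linarith
  have h3 := cheb_three x
  have hrx : √(√(x:ℝ)) ^ 4 = x := cheb_four _ (by positivity)
  have hrx2 : √(√(x:ℝ)) ^ 2 = √(x:ℝ) := Real.sq_sqrt (Real.sqrt_nonneg _)
  have hrxpos : 0 < √(√(x:ℝ)) := Real.sqrt_pos.2 (Real.sqrt_pos.2 (by exact_mod_cast (by omega : 0 < x)))
  -- rewrite the left side
  have hL : ∑ p ∈ (range (x + 1)).filter Nat.Prime, 1 / √(p : ℝ)
      = ∑ k ∈ range x, (if (k+1).Prime then 1 / √((k+1 : ℕ) : ℝ) else 0) := by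
    rw [Finset.sum_filter, Finset.sum_range_succ']
    simp [Nat.not_prime_zero]
  rw [hL, Finset.sum_mul]
  have key : ∀ k ∈ range x, (if (k+1).Prime then 1 / √((k+1 : ℕ) : ℝ) else 0) * Real.log x
      ≤ a k / √((k+1 : ℕ) : ℝ) + 4 * √(√(x:ℝ)) * (1 / √(√((k+1 : ℕ) : ℝ)) ^ 3) := by
    intro k hk
    have hkpos : (0:ℝ) < ((k+1:ℕ):ℝ) := by positivity
    have hrk : 0 < √(√((k+1 : ℕ) : ℝ)) := Real.sqrt_pos.2 (Real.sqrt_pos.2 hkpos)
    by_cases hp : (k+1).Prime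
    · simp only [hadef, hp, if_true]
      have hrk4 : √(√((k+1 : ℕ) : ℝ)) ^ 4 = ((k+1:ℕ):ℝ) := cheb_four _ hkpos.le
      have hrk2 : √(√((k+1 : ℕ) : ℝ)) ^ 2 = √((k+1:ℕ):ℝ) := Real.sq_sqrt (Real.sqrt_nonneg _)
      set A := √(√((k+1 : ℕ) : ℝ)) with hA
      set B := √(√(x:ℝ)) with hB
      have hlogk : Real.log ((k+1:ℕ):ℝ) = 4 * Real.log A := by
        rw [← hrk4, Real.log_pow]; push_cast; ring
      have hlogx : Real.log (x:ℝ) = 4 * Real.log B := by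
        rw [← hrx, Real.log_pow]; push_cast; ring
      have hAB : Real.log B - Real.log A ≤ B / A := by
        rw [← Real.log_div hrxpos.ne' hrk.ne']
        have := Real.log_le_sub_one_of_pos (show 0 < B / A by positivity)
        linarith
      have hle : Real.log (x:ℝ) ≤ Real.log ((k+1:ℕ):ℝ) + 4 * (B / A) := by
        rw [hlogk, hlogx]; linarith
      rw [← hrk2]
      calc 1 / A ^ 2 * Real.log (x:ℝ) ≤ 1 / A^2 * (Real.log ((k+1:ℕ):ℝ) + 4 * (B / A)) := by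
            apply mul_le_mul_of_nonneg_left hle; positivity
        _ = Real.log ((k+1:ℕ):ℝ) / A ^ 2 + 4 * B * (1 / A^3) := by
            field_simp
    · simp only [hadef, hp, if_false]
      have : 0 ≤ 4 * √(√(x:ℝ)) * (1 / √(√((k+1 : ℕ) : ℝ)) ^ 3) := by positivity
      simpa using this
  calc ∑ k ∈ range x, (if (k+1).Prime then 1 / √((k+1 : ℕ) : ℝ) else 0) * Real.log x
      ≤ ∑ k ∈ range x, (a k / √((k+1 : ℕ) : ℝ) + 4 * √(√(x:ℝ)) * (1 / √(√((k+1 : ℕ) : ℝ)) ^ 3)) :=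
        Finset.sum_le_sum key
    _ = ∑ k ∈ range x, a k / √((k+1 : ℕ) : ℝ) + 4 * √(√(x:ℝ)) * ∑ k ∈ range x, (1 / √(√((k+1 : ℕ) : ℝ)) ^ 3) := by
        rw [Finset.sum_add_distrib, Finset.mul_sum]
    _ ≤ 6 * √(x:ℝ) + 4 * √(√(x:ℝ)) * (4 * √(√(x:ℝ))) := by
        apply add_le_add hS
        apply mul_le_mul_of_nonneg_left h3; positivity
    _ = 6 * √(x:ℝ) + 16 * √(x:ℝ) := by
        have : 4 * √(√(x:ℝ)) * (4 * √(√(x:ℝ))) = 16 * √(x:ℝ) := by
          calc 4 * √(√(x:ℝ)) * (4 * √(√(x:ℝ))) = 16 * √(√(x:ℝ)) ^ 2 := by ring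
            _ = 16 * √(x:ℝ) := by rw [hrx2]
        rw [this]
    _ ≤ 40 * √(x:ℝ) := by
        have := Real.sqrt_nonneg (x:ℝ)
        linarith

end Pool.Agent.Helper380.VDCX.Jm4
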