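import Mathlib
import Pool.Agent.Helper380.VDC.Defs

set_option autoImplicit false

namespace Pool.Agent.Helper380.VDCX.Jm5

open Real Finset















/-- the two-tier weights: `∑ c_j G(d_j² a; q)` is in the sector up to `exp(-L)` -/
theorem hW_final2
    (decomp : ∀ {ι : Type} [DecidableEq ι] (S : Finset ι) (p : ι → ℕ), Function.Injective p →
      (∀ i, (p i).Prime) → ∀ (a : ℤ) (q : ℕ), 1 ≤ q → IsCoprime a (q : ℤ) →
      ∃ (h : ι → ℕ → ℂ) (n : ι → ℕ) (m : ℕ) (R : ℂ),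
        (∀ i ∈ S, ∀ k, n i ≤ k → h i k = 1) ∧
        (∀ i ∈ S, ∀ k, k < n i → ‖h i k‖ ≤ √2 * √(p i : ℝ) / (p i : ℝ) ^ (n i - k)) ∧
        (∀ i ∈ S, ∀ k, ‖h i k‖ ≤ 1) ∧
        1 ≤ m ∧ (∀ i ∈ S, Nat.Coprime (p i) m) ∧ (m = 1 → R = 1) ∧ ‖R‖ ^ 2 ≤ 2 / (m : ℝ) ∧
        ∀ f : ι → ℕ, G (((∏ i ∈ S, p i ^ f i : ℕ) : ℤ) ^ 2 * a) 0 q = R * ∏ i ∈ S, h i (f i))
    (regroup : ∀ {ι : Type} [Fintype ι] [DecidableEq ι] (K : ℕ) (s : ℝ) (h : ι → ℕ → ℂ),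
      ∑ fb ∈ Jset ι K, ∏ i, ((-1 : ℂ) ^ (fb.2 i) * (s : ℂ) ^ (fb.1 i) * h i (fb.1 i - fb.2 i)) =
        ∑ f ∈ (Fintype.piFinset fun _ : ι => range (K + 1)).filter (fun f => ∑ i, f i ≤ K),
          ∏ i, cc s (h i) (f i))
    (L K₁ : ℕ) (hL : 1 ≤ L) (s : ℝ)
    (tierA : ∀ (n : PP ((400 * L) ^ 2) → ℕ) (h : PP ((400 * L) ^ 2) → ℕ → ℂ),
      (∀ i, ∀ k, n i ≤ k → h i k = 1) →
      (∀ i, ∀ k, k < n i → ‖h i k‖ ≤ √2 * √(i.1 : ℝ) / (i.1 : ℝ) ^ (n i - k)) →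
      (∀ i k, ‖h i k‖ ≤ 1) → ∀ (W : ℂ),
      (W = ∑ f ∈ (Fintype.piFinset fun _ : PP ((400 * L) ^ 2) => range (K₁ + 1)).filter
          (fun f => ∑ i, f i ≤ K₁), ∏ i, cc s (h i) (f i)) →
      ‖W‖ ≤ 1 ∧ (‖W‖ ≤ Real.exp (-(L : ℝ)) ∨ ∃ (r : ℝ) (z : PP ((400 * L) ^ 2) → ℂ), 0 ≤ r ∧ r ≤ 1 ∧
        W = (r : ℂ) * ∏ i, (1 + z i) ∧ ∑ i, ‖z i‖ ≤ 1 / 4))
    (tierB : ∀ (n : PQ ((400 * L) ^ 2) (2 * 8 ^ L) → ℕ) (h : PQ ((400 * L) ^ 2) (2 * 8 ^ L) → ℕ → ℂ),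
      (∀ i, ∀ k, n i ≤ k → h i k = 1) →
      (∀ i, ∀ k, k < n i → ‖h i k‖ ≤ √2 * √(i.1 : ℝ) / (i.1 : ℝ) ^ (n i - k)) →
      (∀ i k, ‖h i k‖ ≤ 1) → ∀ (W : ℂ),
      (W = ∑ f ∈ (Fintype.piFinset fun _ : PQ ((400 * L) ^ 2) (2 * 8 ^ L) => range (4 * L + 1)).filter
          (fun f => ∑ i, f i ≤ 4 * L), ∏ i, cc (3 / 4) (h i) (f i)) →
      ‖W‖ ≤ 1 ∧ (‖W‖ ≤ Real.exp (-(L : ℝ)) ∨ ∃ (r : ℝ) (z : PQ ((400 * L) ^ 2) (2 * 8 ^ L) → ℂ),
        0 ≤ r ∧ r ≤ 1 ∧ W = (r : ℂ) * ∏ i, (1 + z i) ∧ ∑ i, ‖z i‖ ≤ 1 / 4))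
    (combine : ∀ {ι₁ ι₂ : Type} [Fintype ι₁] [Fintype ι₂] (W₁ W₂ R I : ℂ) (L : ℕ),
      (‖W₁‖ ≤ 1 ∧ (‖W₁‖ ≤ Real.exp (-(L : ℝ)) ∨ ∃ (r : ℝ) (z : ι₁ → ℂ), 0 ≤ r ∧ r ≤ 1 ∧
        W₁ = (r : ℂ) * ∏ i, (1 + z i) ∧ ∑ i, ‖z i‖ ≤ 1 / 4)) →
      (‖W₂‖ ≤ 1 ∧ (‖W₂‖ ≤ Real.exp (-(L : ℝ)) ∨ ∃ (r : ℝ) (z : ι₂ → ℂ), 0 ≤ r ∧ r ≤ 1 ∧
        W₂ = (r : ℂ) * ∏ i, (1 + z i) ∧ ∑ i, ‖z i‖ ≤ 1 / 4)) →
      (R = 1 ∨ ‖R‖ ≤ Real.exp (-(L : ℝ))) → ‖I‖ ≤ 1 → |I.im| ≤ I.re →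
      -Real.exp (-(L : ℝ)) ≤ ((R * (W₁ * W₂)) * I).re)
    (a : ℤ) (q : ℕ) (hq : 1 ≤ q) (hcop : IsCoprime a (q : ℤ))
    (I : ℂ) (hI : ‖I‖ ≤ 1) (hI2 : |I.im| ≤ I.re) :
    -Real.exp (-(L : ℝ)) ≤
      ((∑ j ∈ (Jset (PP ((400 * L) ^ 2)) K₁) ×ˢ (Jset (PQ ((400 * L) ^ 2) (2 * 8 ^ L)) (4 * L)),
        ((cf s j.1 * cf (3 / 4) j.2 : ℝ) : ℂ) *
          G (((dd (fun i : PP ((400 * L) ^ 2) => i.1) j.1 *
            dd (fun i : PQ ((400 * L) ^ 2) (2 * 8 ^ L) => i.1) j.2 : ℕ) : ℤ) ^ 2 * a) 0 q) * I).re := by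
  classical
  let p : PP ((400 * L) ^ 2) ⊕ PQ ((400 * L) ^ 2) (2 * 8 ^ L) → ℕ :=
    Sum.elim (fun i => i.1) (fun i => i.1)
  have hA1 : ∀ i : PP ((400 * L) ^ 2), i.1 ≤ (400 * L) ^ 2 ∧ i.1.Prime := by
    intro i
    have := i.2
    rw [Finset.mem_filter, Finset.mem_range] at this
    exact ⟨by omega, this.2⟩
  have hB1 : ∀ i : PQ ((400 * L) ^ 2) (2 * 8 ^ L),
      i.1 ≤ 2 * 8 ^ L ∧ i.1.Prime ∧ (400 * L) ^ 2 < i.1 := by
    intro i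
    have := i.2
    rw [Finset.mem_filter, Finset.mem_range] at this
    exact ⟨by omega, this.2.1, this.2.2⟩
  have hinj : Function.Injective p := by
    rintro (i | i) (j | j) hij
    · have : i.1 = j.1 := hij
      rw [Subtype.ext this]
    · exfalso
      have h0 : i.1 = j.1 := hij
      have h1 := (hA1 i).1
      have h2 := (hB1 j).2.2
      omega
    · exfalso
      have h0 : i.1 = j.1 := hij
      have h1 := (hA1 j).1
      have h2 := (hB1 i).2.2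
      omega
    · have : i.1 = j.1 := hij
      rw [Subtype.ext this]
  have hpr : ∀ i, (p i).Prime := by
    rintro (i | i)
    · exact (hA1 i).2
    · exact (hB1 i).2.1
  obtain ⟨h, n, m, R, h1, h2, h3, hm1, hmc, hR1, hR2, hG⟩ :=
    decomp (Finset.univ : Finset (PP ((400 * L) ^ 2) ⊕ PQ ((400 * L) ^ 2) (2 * 8 ^ L))) p hinj hpr a q hq hcop
  set W1 : ℂ := ∑ f ∈ (Fintype.piFinset fun _ : PP ((400 * L) ^ 2) => range (K₁ + 1)).filter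
          (fun f => ∑ i, f i ≤ K₁), ∏ i, cc s (h (Sum.inl i)) (f i) with hW1
  set W2 : ℂ := ∑ f ∈ (Fintype.piFinset fun _ : PQ ((400 * L) ^ 2) (2 * 8 ^ L) => range (4 * L + 1)).filter
          (fun f => ∑ i, f i ≤ 4 * L), ∏ i, cc (3 / 4) (h (Sum.inr i)) (f i) with hW2
  have hTA := tierA (fun i => n (Sum.inl i)) (fun i => h (Sum.inl i))
    (fun i k hk => h1 (Sum.inl i) (Finset.mem_univ _) k hk)
    (fun i k hk => h2 (Sum.inl i) (Finset.mem_univ _) k hk)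
    (fun i k => h3 (Sum.inl i) (Finset.mem_univ _) k) W1 hW1
  have hTB := tierB (fun i => n (Sum.inr i)) (fun i => h (Sum.inr i))
    (fun i k hk => h1 (Sum.inr i) (Finset.mem_univ _) k hk)
    (fun i k hk => h2 (Sum.inr i) (Finset.mem_univ _) k hk)
    (fun i k => h3 (Sum.inr i) (Finset.mem_univ _) k) W2 hW2
  have hRR : R = 1 ∨ ‖R‖ ≤ Real.exp (-(L : ℝ)) := by
    by_cases hm : m = 1
    · exact Or.inl (hR1 hm)
    · right
      have hmp : (Nat.minFac m).Prime := Nat.minFac_prime hm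
      have hmd : Nat.minFac m ∣ m := Nat.minFac_dvd m
      have hbig : 2 * 8 ^ L < Nat.minFac m := by
        by_contra hcon
        push Not at hcon
        by_cases hP : Nat.minFac m ≤ (400 * L) ^ 2
        · have hmem : Nat.minFac m ∈ (range ((400 * L) ^ 2 + 1)).filter Nat.Prime := by
            rw [Finset.mem_filter, Finset.mem_range]
            exact ⟨by omega, hmp⟩
          have hc : Nat.Coprime (Nat.minFac m) m := hmc (Sum.inl ⟨Nat.minFac m, hmem⟩) (Finset.mem_univ _)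
          exact hmp.one_lt.ne' (Nat.eq_one_of_dvd_coprimes hc dvd_rfl hmd)
        · push Not at hP
          have hmem : Nat.minFac m ∈ (range (2 * 8 ^ L + 1)).filter
              (fun p => p.Prime ∧ (400 * L) ^ 2 < p) := by
            rw [Finset.mem_filter, Finset.mem_range]
            exact ⟨by omega, hmp, hP⟩
          have hc : Nat.Coprime (Nat.minFac m) m := hmc (Sum.inr ⟨Nat.minFac m, hmem⟩) (Finset.mem_univ _)
          exact hmp.one_lt.ne' (Nat.eq_one_of_dvd_coprimes hc dvd_rfl hmd)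
      have hle : Nat.minFac m ≤ m := Nat.minFac_le (by omega)
      have hmR : (2 * 8 ^ L : ℝ) ≤ (m : ℝ) := by
        have : 2 * 8 ^ L ≤ m := by omega
        exact_mod_cast this
      have h8 : (0 : ℝ) < 8 ^ L := by positivity
      have hb1 : ‖R‖ ^ 2 ≤ 1 / 8 ^ L := by
        refine hR2.trans ?_
        rw [div_le_div_iff₀ (by linarith) h8]
        linarith
      have he2 : Real.exp 2 ≤ 8 := by
        have h01 := Real.exp_one_lt_d9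
        have h02 : Real.exp 2 = Real.exp 1 * Real.exp 1 := by
          rw [← Real.exp_add]; norm_num
        rw [h02]
        have h03 := Real.exp_pos 1
        nlinarith
      have he3 : Real.exp (2 * L) ≤ 8 ^ L := by
        have h04 : Real.exp (2 * (L : ℝ)) = (Real.exp 2) ^ L := by
          rw [← Real.exp_nat_mul, mul_comm]
        rw [h04]
        exact pow_le_pow_left₀ (Real.exp_pos _).le he2 L
      have hb2 : ‖R‖ ^ 2 ≤ (Real.exp (-(L : ℝ))) ^ 2 := by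
        refine hb1.trans ?_
        have h05 : (Real.exp (-(L : ℝ))) ^ 2 = 1 / Real.exp (2 * L) := by
          rw [← Real.exp_nat_mul, one_div, ← Real.exp_neg]
          congr 1
          push_cast
          ring
        rw [h05]
        exact one_div_le_one_div_of_le (Real.exp_pos _) he3
      exact (pow_le_pow_iff_left₀ (norm_nonneg _) (Real.exp_pos _).le (by norm_num)).1 hb2
  have hsum : (∑ j ∈ (Jset (PP ((400 * L) ^ 2)) K₁) ×ˢ (Jset (PQ ((400 * L) ^ 2) (2 * 8 ^ L)) (4 * L)),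
        ((cf s j.1 * cf (3 / 4) j.2 : ℝ) : ℂ) *
          G (((dd (fun i : PP ((400 * L) ^ 2) => i.1) j.1 *
            dd (fun i : PQ ((400 * L) ^ 2) (2 * 8 ^ L) => i.1) j.2 : ℕ) : ℤ) ^ 2 * a) 0 q) =
      R * (W1 * W2) := by
    rw [hW1, hW2, ← regroup K₁ s (fun i => h (Sum.inl i)),
      ← regroup (4 * L) (3 / 4) (fun i => h (Sum.inr i)), Finset.sum_mul_sum, Finset.sum_product,
      Finset.mul_sum]
    refine Finset.sum_congr rfl fun x _ => ?_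
    rw [Finset.mul_sum]
    refine Finset.sum_congr rfl fun y _ => ?_
    have hg := hG (Sum.elim (fun i => x.1 i - x.2 i) (fun i => y.1 i - y.2 i))
    rw [Fintype.prod_sum_type, Fintype.prod_sum_type] at hg
    simp only [Sum.elim_inl, Sum.elim_inr, p] at hg
    simp only [dd]
    rw [hg]
    simp only [cf, Finset.prod_mul_distrib]
    push_cast
    ring
  rw [hsum]
  exact combine W1 W2 R I L hTA hTB hRR hI hI2

end Pool.Agent.Helper380.VDCX.Jm5
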