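import Mathlib
import Pool.Agent.Helper380.VDC.Defs

set_option autoImplicit false

namespace Pool.Agent.Helper380.VDCX.Jm6

open Real Finset
















theorem cf_le_32168 {ι : Type} [Fintype ι] (s : ℝ) (hs0 : 0 ≤ s) (hs1 : s ≤ 1)
    (fb : (ι → ℕ) × (ι → ℕ)) : |cf s fb| ≤ 1 := by
  unfold cf
  rw [Finset.abs_prod]
  apply Finset.prod_le_one
  · intro i _; exact abs_nonneg _
  · intro i _
    rw [abs_mul, abs_pow, abs_pow, abs_neg, abs_one, one_pow, one_mul, abs_of_nonneg hs0]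
    exact pow_le_one₀ hs0 hs1

theorem dd_le_32168 {ι : Type} [Fintype ι] [DecidableEq ι] (B K : ℕ) (hB : 1 ≤ B) (p : ι → ℕ)
    (hp : ∀ i, 1 ≤ p i ∧ p i ≤ B) (fb : (ι → ℕ) × (ι → ℕ)) (hfb : fb ∈ Jset ι K) :
    1 ≤ dd p fb ∧ dd p fb ≤ B ^ K := by
  unfold dd
  constructor
  · exact Finset.one_le_prod'' (fun i => Nat.one_le_pow _ _ (hp i).1)
  · have h1 : ∑ i, fb.1 i ≤ K := by
      unfold Jset at hfb
      exact (Finset.mem_filter.mp hfb).2.1
    calc ∏ i, p i ^ (fb.1 i - fb.2 i) ≤ ∏ i, B ^ (fb.1 i - fb.2 i) :=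
          Finset.prod_le_prod' (fun i _ => Nat.pow_le_pow_left (hp i).2 _)
      _ = B ^ (∑ i, (fb.1 i - fb.2 i)) := Finset.prod_pow_eq_pow_sum _ _ _
      _ ≤ B ^ K := by
          apply Nat.pow_le_pow_right hB
          refine le_trans ?_ h1
          exact Finset.sum_le_sum (fun i _ => Nat.sub_le _ _)

theorem sum_cf_32168 {ι : Type} [Fintype ι] [DecidableEq ι]
    (K : ℕ) (s : ℝ)
    (regroup : ∀ (h : ι → ℕ → ℂ),
      ∑ fb ∈ Jset ι K, ∏ i, ((-1 : ℂ) ^ (fb.2 i) * (s : ℂ) ^ (fb.1 i) * h i (fb.1 i - fb.2 i)) =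
        ∑ f ∈ (Fintype.piFinset fun _ : ι => range (K + 1)).filter (fun f => ∑ i, f i ≤ K),
          ∏ i, cc s (h i) (f i)) :
    ∑ fb ∈ Jset ι K, cf s fb = 1 := by
  have h1 := regroup (fun _ _ => 1)
  have h2 : ∑ f ∈ (Fintype.piFinset fun _ : ι => range (K + 1)).filter (fun f => ∑ i, f i ≤ K),
          ∏ i, cc s (fun _ => (1:ℂ)) (f i) = 1 := by
    rw [Finset.sum_eq_single (fun _ => 0)]
    · apply Finset.prod_eq_one
      intro i _
      unfold cc
      rw [if_pos rfl]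
    · intro f _ hf
      obtain ⟨i, hi⟩ := Function.ne_iff.mp hf
      apply Finset.prod_eq_zero (Finset.mem_univ i)
      unfold cc
      rw [if_neg hi, sub_self, mul_zero]
    · intro h
      exfalso
      apply h
      rw [Finset.mem_filter, Fintype.mem_piFinset]
      refine ⟨fun i => Finset.mem_range.mpr (Nat.succ_pos K), ?_⟩
      simp
  rw [h2] at h1
  have h3 : ((∑ fb ∈ Jset ι K, cf s fb : ℝ) : ℂ) = 1 := by
    rw [← h1]
    unfold cf
    push_cast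
    apply Finset.sum_congr rfl
    intro fb _
    apply Finset.prod_congr rfl
    intro i _
    rw [mul_one]
  exact_mod_cast h3

theorem cardPP_32168 (P : ℕ) : Fintype.card (PP P) ≤ P := by
  rw [Fintype.card_coe]
  calc ((range (P + 1)).filter Nat.Prime).card ≤ (Finset.Icc 1 P).card := by
        apply Finset.card_le_card
        intro p hp
        rw [Finset.mem_filter, Finset.mem_range] at hp
        rw [Finset.mem_Icc]
        exact ⟨hp.2.one_lt.le, by omega⟩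
    _ = P := by simp

theorem cardPQ_32168 (P Q : ℕ) : Fintype.card (PQ P Q) ≤ Q := by
  rw [Fintype.card_coe]
  calc ((range (Q + 1)).filter (fun p => p.Prime ∧ P < p)).card ≤ (Finset.Icc 1 Q).card := by
        apply Finset.card_le_card
        intro p hp
        rw [Finset.mem_filter, Finset.mem_range] at hp
        rw [Finset.mem_Icc]
        exact ⟨hp.2.1.one_lt.le, by omega⟩
    _ = Q := by simp

/-- bookkeeping for the two-tier weights -/
theorem weights2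
    (regroup : ∀ {ι : Type} [Fintype ι] [DecidableEq ι] (K : ℕ) (s : ℝ) (h : ι → ℕ → ℂ),
      ∑ fb ∈ Jset ι K, ∏ i, ((-1 : ℂ) ^ (fb.2 i) * (s : ℂ) ^ (fb.1 i) * h i (fb.1 i - fb.2 i)) =
        ∑ f ∈ (Fintype.piFinset fun _ : ι => range (K + 1)).filter (fun f => ∑ i, f i ≤ K),
          ∏ i, cc s (h i) (f i))
    (card_Jset : ∀ (ι : Type) [Fintype ι] [DecidableEq ι] (K : ℕ),
      (Jset ι K).card ≤ (2 * Fintype.card ι + 2) ^ K)
    (P Q K₁ K₂ : ℕ) (hP : 1 ≤ P) (hQ : 1 ≤ Q) (s t : ℝ) (hs0 : 0 ≤ s) (hs1 : s ≤ 1)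
    (ht0 : 0 ≤ t) (ht1 : t ≤ 1) :
    (∀ j ∈ (Jset (PP P) K₁) ×ˢ (Jset (PQ P Q) K₂), |cf s j.1 * cf t j.2| ≤ 1) ∧
    (∀ j ∈ (Jset (PP P) K₁) ×ˢ (Jset (PQ P Q) K₂),
      1 ≤ dd (fun i : PP P => i.1) j.1 * dd (fun i : PQ P Q => i.1) j.2 ∧
      dd (fun i : PP P => i.1) j.1 * dd (fun i : PQ P Q => i.1) j.2 ≤ P ^ K₁ * Q ^ K₂) ∧
    ((Jset (PP P) K₁) ×ˢ (Jset (PQ P Q) K₂)).card ≤ (2 * P + 2) ^ K₁ * (2 * Q + 2) ^ K₂ ∧
    ∑ j ∈ (Jset (PP P) K₁) ×ˢ (Jset (PQ P Q) K₂), cf s j.1 * cf t j.2 = 1 := by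
  refine ⟨?_, ?_, ?_, ?_⟩
  · intro j _
    rw [abs_mul]
    exact mul_le_one₀ (cf_le_32168 s hs0 hs1 _) (abs_nonneg _) (cf_le_32168 t ht0 ht1 _)
  · intro j hj
    rw [Finset.mem_product] at hj
    have h1 := dd_le_32168 P K₁ hP (fun i : PP P => i.1) (fun i => by
      have := i.2
      rw [Finset.mem_filter, Finset.mem_range] at this
      exact ⟨this.2.one_lt.le, by omega⟩) j.1 hj.1
    have h2 := dd_le_32168 Q K₂ hQ (fun i : PQ P Q => i.1) (fun i => by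
      have := i.2
      rw [Finset.mem_filter, Finset.mem_range] at this
      exact ⟨this.2.1.one_lt.le, by omega⟩) j.2 hj.2
    exact ⟨Nat.mul_le_mul h1.1 h2.1, Nat.mul_le_mul h1.2 h2.2⟩
  · rw [Finset.card_product]
    apply Nat.mul_le_mul
    · refine (card_Jset (PP P) K₁).trans (Nat.pow_le_pow_left ?_ _)
      have := cardPP_32168 P
      omega
    · refine (card_Jset (PQ P Q) K₂).trans (Nat.pow_le_pow_left ?_ _)
      have := cardPQ_32168 P Q
      omega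
  · rw [Finset.sum_product, ← Finset.sum_mul_sum, sum_cf_32168 K₁ s (fun h => regroup K₁ s h),
      sum_cf_32168 K₂ t (fun h => regroup K₂ t h), one_mul]

end Pool.Agent.Helper380.VDCX.Jm6
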