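import Mathlib
import Pool.Agent.Helper380.VDC.Defs

set_option autoImplicit false

namespace Pool.Agent.Helper380.VDCX.Jm7

open Real Finset















/-- size of the parameters -/
theorem param_size2 (L K₁ : ℕ) (hL : 1 ≤ L) (S0 : ℝ)
    (hS0 : S0 = 16000 * L / Real.log ((400 * (L : ℝ)) ^ 2))
    (hK : K₁ = ⌈24 * S0 * (L + 12 * S0)⌉₊) :
    1 ≤ S0 ∧
    (10 * (((((2 * (400 * L) ^ 2 + 2) ^ K₁ * (2 * (2 * 8 ^ L) + 2) ^ (4 * L) : ℕ) : ℝ) *
      ((((400 * L) ^ 2) ^ K₁ * (2 * 8 ^ L) ^ (4 * L) : ℕ) : ℝ)) / Real.exp (-(L : ℝ)))) ^ 13 ≤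
      Real.exp (2 * 10 ^ 11 * (L : ℝ) ^ 2) := by
  have hLr : (1:ℝ) ≤ L := by exact_mod_cast hL
  have hL0 : (0:ℝ) < L := by linarith
  set l := Real.log ((400 * (L : ℝ)) ^ 2) with hl
  have hP1 : (160000:ℝ) ≤ (400 * (L:ℝ))^2 := by nlinarith
  have hPpos : 0 < (400 * (L:ℝ))^2 := by positivity
  have he : Real.exp l = (400 * (L:ℝ))^2 := Real.exp_log hPpos
  have hl11 : 11 ≤ l := by
    rw [hl, Real.le_log_iff_exp_le hPpos]
    calc Real.exp 11 = (Real.exp 1)^11 := by rw [← Real.exp_nat_mul]; norm_num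
      _ ≤ (2.7182818286:ℝ)^11 := pow_le_pow_left₀ (Real.exp_pos _).le (Real.exp_one_lt_d9.le) 11
      _ ≤ 160000 := by norm_num
      _ ≤ _ := hP1
  have hl0 : 0 < l := by linarith
  have hl800 : l ≤ 800 * L := by
    have h1 := Real.log_le_sub_one_of_pos (show 0 < 400*(L:ℝ) by positivity)
    rw [hl, Real.log_pow]
    push_cast
    linarith
  have hS0l : S0 * l = 16000 * L := by rw [hS0]; field_simp
  have hS1 : 1 ≤ S0 := by
    by_contra hcon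
    push Not at hcon
    have : S0 * l < 1 * l := mul_lt_mul_of_pos_right hcon hl0
    nlinarith
  refine ⟨hS1, ?_⟩
  have hS11 : 11 * S0 ≤ 16000 * L := by nlinarith
  have hKle : (K₁ : ℝ) ≤ 24 * S0 * (L + 12 * S0) + 1 := by
    rw [hK]
    exact (Nat.ceil_lt_add_one (by positivity)).le
  have hK0 : (0:ℝ) ≤ K₁ := Nat.cast_nonneg _
  have hL2 : (L:ℝ) ≤ (L:ℝ)^2 := by nlinarith
  have hL21 : (1:ℝ) ≤ (L:ℝ)^2 := by nlinarith
  -- main estimate on the exponent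
  have hE1 : (K₁:ℝ) * (2 * l + 1) ≤ 14076270000 * (L:ℝ)^2 + 1680 * L := by
    have a1 : (K₁:ℝ) * (2 * l + 1) ≤ (24 * S0 * (L + 12 * S0) + 1) * (2.1 * l) := by
      apply mul_le_mul hKle (by linarith) (by linarith) (by positivity)
    have a2 : (24 * S0 * (L + 12 * S0) + 1) * (2.1 * l)
        = 2.1 * (24 * L * (S0 * l) + 288 * S0 * (S0 * l) + l) := by ring
    rw [a2, hS0l] at a1
    have a3 : 288 * S0 * (16000 * (L:ℝ)) ≤ 288 * (16000 * L / 11) * (16000 * L) := by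
      apply mul_le_mul_of_nonneg_right _ (by positivity)
      apply mul_le_mul_of_nonneg_left _ (by norm_num)
      rw [le_div_iff₀ (by norm_num)]
      linarith
    nlinarith
  have hc : (10 * (((((2 * (400 * L) ^ 2 + 2) ^ K₁ * (2 * (2 * 8 ^ L) + 2) ^ (4 * L) : ℕ) : ℝ) *
      ((((400 * L) ^ 2) ^ K₁ * (2 * 8 ^ L) ^ (4 * L) : ℕ) : ℝ)) / Real.exp (-(L : ℝ)))) ≤
      Real.exp (3 + ((K₁:ℝ) * (l + 1) + 16 * (L:ℝ)^2) + ((K₁:ℝ) * l + 12 * (L:ℝ)^2) + L) := by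
    have e1 : (2.7:ℝ) ≤ Real.exp 1 := by linarith [Real.exp_one_gt_d9]
    have h10 : (10:ℝ) ≤ Real.exp 3 := by
      have : Real.exp 3 = (Real.exp 1)^3 := by rw [← Real.exp_nat_mul]; norm_num
      rw [this]
      calc (10:ℝ) ≤ 2.7^3 := by norm_num
        _ ≤ _ := pow_le_pow_left₀ (by norm_num) e1 3
    have b1 : (2 * (400 * (L:ℝ)) ^ 2 + 2) ≤ Real.exp (l + 1) := by
      rw [Real.exp_add, he]
      nlinarith
    have b1' : (2 * (400 * (L:ℝ)) ^ 2 + 2) ^ K₁ ≤ Real.exp ((K₁:ℝ) * (l + 1)) := by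
      rw [Real.exp_nat_mul]
      exact pow_le_pow_left₀ (by positivity) b1 _
    have b2' : ((400 * (L:ℝ)) ^ 2) ^ K₁ ≤ Real.exp ((K₁:ℝ) * l) := by
      rw [Real.exp_nat_mul, he]
    have p4 : (48:ℝ) ≤ Real.exp 4 := by
      have : Real.exp 4 = (Real.exp 1)^4 := by rw [← Real.exp_nat_mul]; norm_num
      rw [this]
      calc (48:ℝ) ≤ 2.7^4 := by norm_num
        _ ≤ _ := pow_le_pow_left₀ (by norm_num) e1 4
    have p3 : (16:ℝ) ≤ Real.exp 3 := by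
      have : Real.exp 3 = (Real.exp 1)^3 := by rw [← Real.exp_nat_mul]; norm_num
      rw [this]
      calc (16:ℝ) ≤ 2.7^3 := by norm_num
        _ ≤ _ := pow_le_pow_left₀ (by norm_num) e1 3
    have h8 : (1:ℝ) ≤ 8 ^ L := one_le_pow₀ (by norm_num)
    have h6 : (6:ℝ) ≤ 6 ^ L := by
      calc (6:ℝ) = 6 ^ 1 := by norm_num
        _ ≤ 6 ^ L := pow_le_pow_right₀ (by norm_num) hL
    have h2 : (2:ℝ) ≤ 2 ^ L := by
      calc (2:ℝ) = 2 ^ 1 := by norm_num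
        _ ≤ 2 ^ L := pow_le_pow_right₀ (by norm_num) hL
    have b3 : (2 * (2 * (8:ℝ) ^ L) + 2) ≤ Real.exp ((L:ℝ) * 4) := by
      rw [Real.exp_nat_mul]
      calc (2 * (2 * (8:ℝ) ^ L) + 2) ≤ 6 * 8 ^ L := by linarith
        _ ≤ 6 ^ L * 8 ^ L := mul_le_mul_of_nonneg_right h6 (by positivity)
        _ = 48 ^ L := by rw [← mul_pow]; norm_num
        _ ≤ _ := pow_le_pow_left₀ (by norm_num) p4 _
    have b4 : (2 * (8:ℝ) ^ L) ≤ Real.exp ((L:ℝ) * 3) := by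
      rw [Real.exp_nat_mul]
      calc (2 * (8:ℝ) ^ L) ≤ 2 ^ L * 8 ^ L := mul_le_mul_of_nonneg_right h2 (by positivity)
        _ = 16 ^ L := by rw [← mul_pow]; norm_num
        _ ≤ _ := pow_le_pow_left₀ (by norm_num) p3 _
    have b3' : (2 * (2 * (8:ℝ) ^ L) + 2) ^ (4 * L) ≤ Real.exp (16 * (L:ℝ)^2) := by
      calc (2 * (2 * (8:ℝ) ^ L) + 2) ^ (4 * L) ≤ (Real.exp ((L:ℝ) * 4)) ^ (4 * L) :=
            pow_le_pow_left₀ (by positivity) b3 _
        _ = Real.exp (16 * (L:ℝ)^2) := by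
            rw [← Real.exp_nat_mul]; push_cast; ring_nf
    have b4' : (2 * (8:ℝ) ^ L) ^ (4 * L) ≤ Real.exp (12 * (L:ℝ)^2) := by
      calc (2 * (8:ℝ) ^ L) ^ (4 * L) ≤ (Real.exp ((L:ℝ) * 3)) ^ (4 * L) :=
            pow_le_pow_left₀ (by positivity) b4 _
        _ = Real.exp (12 * (L:ℝ)^2) := by
            rw [← Real.exp_nat_mul]; push_cast; ring_nf
    rw [Real.exp_add, Real.exp_add, Real.exp_add, Real.exp_add, Real.exp_add, Real.exp_neg,
      div_inv_eq_mul]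
    push_cast
    rw [← mul_assoc, ← mul_assoc]
    apply mul_le_mul _ le_rfl (Real.exp_pos _).le (by positivity)
    apply mul_le_mul _ _ (by positivity) (by positivity)
    · apply mul_le_mul h10 _ (by positivity) (by positivity)
      exact mul_le_mul b1' b3' (by positivity) (by positivity)
    · exact mul_le_mul b2' b4' (by positivity) (by positivity)
  calc _ ≤ (Real.exp (3 + ((K₁:ℝ) * (l + 1) + 16 * (L:ℝ)^2) + ((K₁:ℝ) * l + 12 * (L:ℝ)^2) + L)) ^ 13 :=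
        pow_le_pow_left₀ (by positivity) hc 13
    _ = Real.exp (13 * (3 + ((K₁:ℝ) * (l + 1) + 16 * (L:ℝ)^2) + ((K₁:ℝ) * l + 12 * (L:ℝ)^2) + L)) := by
        rw [← Real.exp_nat_mul]; norm_num
    _ ≤ _ := by
        apply Real.exp_le_exp.mpr
        nlinarith

end Pool.Agent.Helper380.VDCX.Jm7
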