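import Mathlib
import Pool.Agent.Helper380.VDC.Defs

set_option autoImplicit false

namespace Pool.Agent.Helper380.VDCX.Jm8

open Real Finset



















theorem int_cos_zero (k : ℕ) (hk : 1 ≤ k) :
    ∫ x in (0:ℝ)..1, Real.cos (2 * π * (k : ℝ) ^ 2 * x) = 0 := by
  have hk0 : (0:ℝ) < (k:ℝ) := by exact_mod_cast hk
  have hc : 2 * π * (k : ℝ) ^ 2 ≠ 0 := by positivity
  rw [intervalIntegral.integral_comp_mul_left (fun y => Real.cos y) hc]
  rw [integral_cos]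
  have h1 : Real.sin (2 * π * (k : ℝ) ^ 2 * 1) = 0 := by
    have := Real.sin_nat_mul_pi (2 * k ^ 2)
    rw [← this]
    congr 1
    push_cast
    ring
  rw [h1]
  simp

theorem adm_nonneg {H : ℕ} {c0 : ℝ} {c : ℕ → ℝ} (h : Admissible H c0 c) : 0 ≤ c0 := by
  obtain ⟨h1, -⟩ := h
  have hI : ∀ k ∈ Icc 1 H, IntervalIntegrable
      (fun x : ℝ => c k * Real.cos (2 * π * (k : ℝ) ^ 2 * x)) MeasureTheory.volume 0 1 := by
    intro k _
    exact (by fun_prop : Continuous fun x : ℝ => c k * Real.cos (2 * π * (k : ℝ) ^ 2 * x)).intervalIntegrable _ _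
  have h2 : ∫ x in (0:ℝ)..1, (c0 + ∑ k ∈ Icc 1 H, c k * Real.cos (2 * π * (k : ℝ) ^ 2 * x)) = c0 := by
    rw [intervalIntegral.integral_add (by simp) (IntervalIntegrable.sum _ hI |> fun h => by
      simpa [Finset.sum_fn] using h)]
    rw [intervalIntegral.integral_finsetSum hI]
    have : ∀ k ∈ Icc 1 H, ∫ x in (0:ℝ)..1, c k * Real.cos (2 * π * (k : ℝ) ^ 2 * x) = 0 := by
      intro k hk
      rw [intervalIntegral.integral_const_mul, int_cos_zero k (Finset.mem_Icc.1 hk).1, mul_zero]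
    rw [Finset.sum_eq_zero this]
    simp
  rw [← h2]
  exact intervalIntegral.integral_nonneg (by norm_num) (fun x _ => h1 x)

theorem adm_mono {H' H : ℕ} (hH : H' ≤ H) {c0 : ℝ} {b : ℕ → ℝ} (h : Admissible H' c0 b) :
    ∃ c : ℕ → ℝ, Admissible H c0 c := by
  obtain ⟨h1, h2⟩ := h
  refine ⟨fun k => if k ≤ H' then b k else 0, ?_, ?_⟩
  · intro x
    have : ∑ k ∈ Icc 1 H, (if k ≤ H' then b k else 0) * Real.cos (2 * π * (k : ℝ) ^ 2 * x)
        = ∑ k ∈ Icc 1 H', b k * Real.cos (2 * π * (k : ℝ) ^ 2 * x) := by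
      rw [← Finset.sum_subset (Finset.Icc_subset_Icc_right hH)]
      · refine Finset.sum_congr rfl fun k hk => ?_
        rw [if_pos (Finset.mem_Icc.1 hk).2]
      · intro k hk hk'
        rw [if_neg, zero_mul]
        intro h3
        exact hk' (Finset.mem_Icc.2 ⟨(Finset.mem_Icc.1 hk).1, h3⟩)
    rw [this]
    exact h1 x
  · have : ∑ k ∈ Icc 1 H, (if k ≤ H' then b k else 0)
        = ∑ k ∈ Icc 1 H', b k := by
      rw [← Finset.sum_subset (Finset.Icc_subset_Icc_right hH)]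
      · refine Finset.sum_congr rfl fun k hk => ?_
        rw [if_pos (Finset.mem_Icc.1 hk).2]
      · intro k hk hk'
        rw [if_neg]
        intro h3
        exact hk' (Finset.mem_Icc.2 ⟨(Finset.mem_Icc.1 hk).1, h3⟩)
    rw [this]
    exact h2

theorem delta_le {H : ℕ} {c0 : ℝ} {c : ℕ → ℝ} (h : Admissible H c0 c) : delta H ≤ c0 := by
  refine csInf_le ⟨0, ?_⟩ ⟨c, h⟩
  rintro y ⟨c', hc'⟩
  exact adm_nonneg hc'

theorem delta_le_one (H : ℕ) : delta H ≤ 1 := by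
  refine delta_le (c := fun _ => 0) ⟨?_, ?_⟩
  · intro x; simp
  · simp

/-- from the construction for every `L` to the bound in terms of `H` -/
theorem final_step2
    (main : ∀ L : ℕ, 1 ≤ L → ∀ N : ℕ, Real.exp (2 * 10 ^ 11 * (L : ℝ) ^ 2) ≤ (N : ℝ) →
      ∃ (c0 : ℝ) (b : ℕ → ℝ), Admissible (N ^ 2) c0 b ∧ c0 ≤ 4 * Real.exp (-(L : ℝ)))
    (H : ℕ) (hH : 1 ≤ H) :
    delta H ≤ 11 * Real.exp (-√(Real.log H) / 10 ^ 6) := by
  have hH0 : (1:ℝ) ≤ (H:ℝ) := by exact_mod_cast hH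
  have hlog : 0 ≤ Real.log H := Real.log_nonneg hH0
  obtain ⟨u, hu⟩ : ∃ u : ℝ, u = √(Real.log H) / 10 ^ 6 := ⟨_, rfl⟩
  have hu0 : 0 ≤ u := by rw [hu]; positivity
  have e1 : -√(Real.log H) / 10 ^ 6 = -u := by rw [hu]; ring
  rw [e1]
  have hcube : Real.log H = 10 ^ 12 * u ^ 2 := by
    have h3 : (√(Real.log H)) ^ 2 = Real.log H := Real.sq_sqrt hlog
    have h4 : √(Real.log H) = 10 ^ 6 * u := by rw [hu]; ring
    rw [h4] at h3
    rw [← h3]; ring
  rcases lt_or_ge u 1 with h1 | h1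
  · refine (delta_le_one H).trans ?_
    have h2 : Real.exp (-1) ≤ Real.exp (-u) := Real.exp_le_exp.2 (by linarith)
    have h3 : Real.exp (-1) * Real.exp 1 = 1 := by rw [← Real.exp_add]; simp
    have h4 : Real.exp 1 < 2.7182818286 := Real.exp_one_lt_d9
    have h5 : 0 < Real.exp (-1) := Real.exp_pos _
    nlinarith
  · obtain ⟨L, hL⟩ : ∃ L : ℕ, L = ⌊u⌋₊ := ⟨_, rfl⟩
    have hL1 : 1 ≤ L := by rw [hL]; exact Nat.le_floor (by simpa using h1)
    have hLu : (L:ℝ) ≤ u := by rw [hL]; exact Nat.floor_le hu0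
    have huL : u < L + 1 := by rw [hL]; exact Nat.lt_floor_add_one u
    have hL1' : (1:ℝ) ≤ (L:ℝ) := by exact_mod_cast hL1
    have hL3 : (L:ℝ) ^ 2 ≤ u ^ 2 := by gcongr
    have hL31 : (1:ℝ) ≤ (L:ℝ) ^ 2 := one_le_pow₀ hL1'
    have hHL : 10 ^ 12 * (L:ℝ) ^ 2 ≤ Real.log H := by rw [hcube]; gcongr
    have hN : Real.exp (2 * 10 ^ 11 * (L : ℝ) ^ 2) ≤ ((Nat.sqrt H : ℕ) : ℝ) := by
      have a1 : H < (Nat.sqrt H + 1) * (Nat.sqrt H + 1) := Nat.lt_succ_sqrt H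
      have a2 : (H:ℝ) < ((Nat.sqrt H : ℕ) + 1 : ℝ) ^ 2 := by
        have : (H:ℝ) < (((Nat.sqrt H + 1) * (Nat.sqrt H + 1) : ℕ) : ℝ) := by exact_mod_cast a1
        push_cast at this
        nlinarith
      have a3 : (H:ℝ) = Real.exp (Real.log H / 2) ^ 2 := by
        rw [← Real.exp_nat_mul]
        push_cast
        rw [mul_div_cancel₀ _ (by norm_num : (2:ℝ) ≠ 0), Real.exp_log (by linarith)]
      rw [a3] at a2
      have a4 : Real.exp (Real.log H / 2) < (Nat.sqrt H : ℕ) + 1 :=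
        lt_of_pow_lt_pow_left₀ 2 (by positivity) a2
      have a5 : Real.exp (5 * 10 ^ 11 * (L : ℝ) ^ 2) ≤ Real.exp (Real.log H / 2) := by
        apply Real.exp_le_exp.2; linarith
      have a6 : Real.exp (5 * 10 ^ 11 * (L : ℝ) ^ 2)
          = Real.exp (2 * 10 ^ 11 * (L : ℝ) ^ 2) * Real.exp (3 * 10 ^ 11 * (L : ℝ) ^ 2) := by
        rw [← Real.exp_add]; congr 1; ring
      have a7 : 2 ≤ Real.exp (3 * 10 ^ 11 * (L : ℝ) ^ 2) := by
        have := Real.add_one_le_exp (3 * 10 ^ 11 * (L : ℝ) ^ 2)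
        nlinarith
      have a8 : 1 ≤ Real.exp (2 * 10 ^ 11 * (L : ℝ) ^ 2) := Real.one_le_exp (by positivity)
      have a9 : Real.exp (2 * 10 ^ 11 * (L : ℝ) ^ 2) * 2
          ≤ Real.exp (2 * 10 ^ 11 * (L : ℝ) ^ 2) * Real.exp (3 * 10 ^ 11 * (L : ℝ) ^ 2) :=
        mul_le_mul_of_nonneg_left a7 (by linarith)
      rw [← a6] at a9
      clear a6 a7 a3 a2 a1
      generalize Real.exp (2 * 10 ^ 11 * (L : ℝ) ^ 2) = E at *
      generalize Real.exp (5 * 10 ^ 11 * (L : ℝ) ^ 2) = F at *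
      generalize Real.exp (Real.log H / 2) = M at *
      clear hcube hHL hL31 hL3 e1 hu hlog main
      linarith
    obtain ⟨c0, b, hb, hc0⟩ := main L hL1 _ hN
    have hle : (Nat.sqrt H) ^ 2 ≤ H := by
      rw [pow_two]; exact Nat.sqrt_le H
    obtain ⟨c, hc⟩ := adm_mono hle hb
    have h6 : delta H ≤ c0 := delta_le hc
    have h7 : Real.exp (-(L:ℝ)) ≤ Real.exp 1 * Real.exp (-u) := by
      rw [← Real.exp_add]; apply Real.exp_le_exp.2; linarith
    have h8 : Real.exp 1 < 2.7182818286 := Real.exp_one_lt_d9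
    have h9 : 0 < Real.exp (-u) := Real.exp_pos _
    nlinarith

end Pool.Agent.Helper380.VDCX.Jm8
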