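import Mathlib
import Pool.Agent.Helper380.VDC.Defs

set_option autoImplicit false

namespace Pool.Agent.Helper380.VDCX.Jn1

open Real Finset





theorem cos45 : Real.cos (4 * π / 5) = -((1 + √5) / 4) := by
  have h : (4 * π / 5 : ℝ) = π - π / 5 := by ring
  rw [h, Real.cos_pi_sub, Real.cos_pi_div_five]

theorem cosk (k : ℕ) : Real.cos (4 * π * (k : ℝ) ^ 2 / 5) =
    if 5 ∣ k then 1 else -((1 + √5) / 4) := by
  have hk : ∃ m : ℕ, ((5 ∣ k) ∧ k ^ 2 = 5 * m) ∨ (¬ (5 ∣ k) ∧ k ^ 2 = 5 * m + 1) ∨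
      (¬ (5 ∣ k) ∧ k ^ 2 + 1 = 5 * m) := by
    have h5 : k % 5 = 0 ∨ k % 5 = 1 ∨ k % 5 = 2 ∨ k % 5 = 3 ∨ k % 5 = 4 := by omega
    obtain ⟨q, hq⟩ : ∃ q, q = k / 5 := ⟨_, rfl⟩
    rcases h5 with h | h | h | h | h
    · have : k = 5 * q := by omega
      refine ⟨5 * q ^ 2, Or.inl ⟨⟨q, this⟩, ?_⟩⟩
      rw [this]; ring
    · have : k = 5 * q + 1 := by omega
      refine ⟨5 * q ^ 2 + 2 * q, Or.inr (Or.inl ⟨by omega, ?_⟩)⟩
      rw [this]; ring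
    · have : k = 5 * q + 2 := by omega
      refine ⟨5 * q ^ 2 + 4 * q + 1, Or.inr (Or.inr ⟨by omega, ?_⟩)⟩
      rw [this]; ring
    · have : k = 5 * q + 3 := by omega
      refine ⟨5 * q ^ 2 + 6 * q + 2, Or.inr (Or.inr ⟨by omega, ?_⟩)⟩
      rw [this]; ring
    · have : k = 5 * q + 4 := by omega
      refine ⟨5 * q ^ 2 + 8 * q + 3, Or.inr (Or.inl ⟨by omega, ?_⟩)⟩
      rw [this]; ring
  obtain ⟨m, hm⟩ := hk
  rcases hm with ⟨hd, hm⟩ | ⟨hd, hm⟩ | ⟨hd, hm⟩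
  · have hm' : (k : ℝ) ^ 2 = 5 * (m : ℝ) := by exact_mod_cast hm
    rw [if_pos hd, hm']
    have : (4 * π * (5 * (m : ℝ)) / 5 : ℝ) = 0 + ((2 * m : ℕ) : ℝ) * (2 * π) := by push_cast; ring
    rw [this, Real.cos_add_nat_mul_two_pi, Real.cos_zero]
  · have hm' : (k : ℝ) ^ 2 = 5 * (m : ℝ) + 1 := by exact_mod_cast hm
    rw [if_neg hd, hm', ← cos45]
    have : (4 * π * (5 * (m : ℝ) + 1) / 5 : ℝ) = 4 * π / 5 + ((2 * m : ℕ) : ℝ) * (2 * π) := by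
      push_cast; ring
    rw [this, Real.cos_add_nat_mul_two_pi]
  · have hm' : (k : ℝ) ^ 2 + 1 = 5 * (m : ℝ) := by exact_mod_cast hm
    have hm'' : (k : ℝ) ^ 2 = 5 * (m : ℝ) - 1 := by linarith
    rw [if_neg hd, hm'', ← cos45]
    have : (4 * π * (5 * (m : ℝ) - 1) / 5 : ℝ) = ((2 * m : ℕ) : ℝ) * (2 * π) - 4 * π / 5 := by
      push_cast; ring
    rw [this, Real.cos_nat_mul_two_pi_sub]

theorem coskx (k : ℕ) (x : ℝ) :
    Real.cos (2 * π * (k : ℝ) ^ 2 * (x + 2 / 5)) + Real.cos (2 * π * (k : ℝ) ^ 2 * (x - 2 / 5)) =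
    2 * (Real.cos (2 * π * (k : ℝ) ^ 2 * x) * (if 5 ∣ k then 1 else -((1 + √5) / 4))) := by
  rw [← cosk k]
  have h1 : 2 * π * (k : ℝ) ^ 2 * (x + 2 / 5) = 2 * π * (k : ℝ) ^ 2 * x + 4 * π * (k : ℝ) ^ 2 / 5 := by
    ring
  have h2 : 2 * π * (k : ℝ) ^ 2 * (x - 2 / 5) = 2 * π * (k : ℝ) ^ 2 * x - 4 * π * (k : ℝ) ^ 2 / 5 := by
    ring
  rw [h1, h2, Real.cos_add, Real.cos_sub]
  ring

theorem reindex (H : ℕ) (g : ℕ → ℝ) :
    ∑ k ∈ (Icc 1 H).filter (fun k => 5 ∣ k), g k = ∑ k ∈ Icc 1 (H / 5), g (5 * k) := by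
  symm
  refine Finset.sum_bij (fun k _ => 5 * k) ?_ ?_ ?_ ?_
  · intro k hk
    rw [Finset.mem_Icc] at hk
    rw [Finset.mem_filter, Finset.mem_Icc]
    refine ⟨⟨by omega, ?_⟩, ⟨k, rfl⟩⟩
    have := Nat.mul_div_le H 5
    omega
  · intro a _ b _ h
    simpa using h
  · intro b hb
    rw [Finset.mem_filter, Finset.mem_Icc] at hb
    obtain ⟨⟨h1, h2⟩, j, hj⟩ := hb
    refine ⟨j, ?_, hj.symm⟩
    rw [Finset.mem_Icc]
    constructor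
    · omega
    · omega
  · intro k _
    rfl

/-- the comparison `T x ≤ √5 A x` -/
theorem compare (H : ℕ) (c0 : ℝ) (c : ℕ → ℝ)
    (h : ∀ x : ℝ, 0 ≤ c0 + ∑ k ∈ Icc 1 H, c k * Real.cos (2 * π * (k : ℝ) ^ 2 * x)) (x : ℝ) :
    c0 + ∑ k ∈ Icc 1 H, c k * Real.cos (2 * π * (k : ℝ) ^ 2 * x) ≤
      √5 * (c0 + ∑ k ∈ (Icc 1 H).filter (fun k => 5 ∣ k),
        c k * Real.cos (2 * π * (k : ℝ) ^ 2 * x)) := by
  have h1 := h (x + 2 / 5)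
  have h2 := h (x - 2 / 5)
  have hsum : (∑ k ∈ Icc 1 H, c k * Real.cos (2 * π * (k : ℝ) ^ 2 * (x + 2 / 5))) +
      (∑ k ∈ Icc 1 H, c k * Real.cos (2 * π * (k : ℝ) ^ 2 * (x - 2 / 5))) =
      2 * (∑ k ∈ (Icc 1 H).filter (fun k => 5 ∣ k), c k * Real.cos (2 * π * (k : ℝ) ^ 2 * x)) +
      2 * (-((1 + √5) / 4)) * (∑ k ∈ (Icc 1 H).filter (fun k => ¬ 5 ∣ k),
        c k * Real.cos (2 * π * (k : ℝ) ^ 2 * x)) := by
    rw [← Finset.sum_add_distrib, Finset.sum_filter, Finset.sum_filter, Finset.mul_sum,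
      Finset.mul_sum, ← Finset.sum_add_distrib]
    refine Finset.sum_congr rfl (fun k _ => ?_)
    rw [← mul_add, coskx]
    by_cases hk : 5 ∣ k
    · rw [if_pos hk, if_pos hk, if_neg (not_not.2 hk)]; ring
    · rw [if_neg hk, if_neg hk, if_pos hk]; ring
  have hsplit : ∑ k ∈ Icc 1 H, c k * Real.cos (2 * π * (k : ℝ) ^ 2 * x) =
      (∑ k ∈ (Icc 1 H).filter (fun k => 5 ∣ k), c k * Real.cos (2 * π * (k : ℝ) ^ 2 * x)) +
      (∑ k ∈ (Icc 1 H).filter (fun k => ¬ 5 ∣ k), c k * Real.cos (2 * π * (k : ℝ) ^ 2 * x)) :=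
    (Finset.sum_filter_add_sum_filter_not _ _ _).symm
  obtain ⟨A, hA⟩ : ∃ A, A = ∑ k ∈ (Icc 1 H).filter (fun k => 5 ∣ k),
    c k * Real.cos (2 * π * (k : ℝ) ^ 2 * x) := ⟨_, rfl⟩
  obtain ⟨B, hB⟩ : ∃ B, B = ∑ k ∈ (Icc 1 H).filter (fun k => ¬ 5 ∣ k),
    c k * Real.cos (2 * π * (k : ℝ) ^ 2 * x) := ⟨_, rfl⟩
  rw [← hA, ← hB] at hsum
  rw [hsplit, ← hA, ← hB]
  have h5 : √5 * √5 = (5 : ℝ) := Real.mul_self_sqrt (by norm_num)
  have h5g : (2 : ℝ) < √5 := by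
    rw [Real.lt_sqrt (by norm_num)]; norm_num
  have hkey : 0 ≤ (c0 + A) - ((1 + √5) / 4) * B := by linarith
  have hmul : 0 ≤ (√5 - 1) * ((c0 + A) - ((1 + √5) / 4) * B) :=
    mul_nonneg (by linarith) hkey
  have e2 : (√5 - 1) * (1 + √5) = (4 : ℝ) := by
    have : (√5 - 1) * (1 + √5) = √5 * √5 - 1 := by ring
    rw [this, h5]; norm_num
  have e3 : (√5 - 1) * ((c0 + A) - ((1 + √5) / 4) * B) =
      (√5 - 1) * (c0 + A) - ((√5 - 1) * (1 + √5)) / 4 * B := by ring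
  rw [e3, e2] at hmul
  linarith

/-- one descent step with the prime 5 -/
theorem step5 (H : ℕ) (c0 : ℝ) (c : ℕ → ℝ)
    (h : ∀ x : ℝ, 0 ≤ c0 + ∑ k ∈ Icc 1 H, c k * Real.cos (2 * π * (k : ℝ) ^ 2 * x)) :
    (∀ x : ℝ, 0 ≤ c0 + ∑ k ∈ Icc 1 (H / 5), c (5 * k) * Real.cos (2 * π * (k : ℝ) ^ 2 * x)) ∧
      (c0 + ∑ k ∈ Icc 1 H, c k) / √5 ≤ c0 + ∑ k ∈ Icc 1 (H / 5), c (5 * k) := by
  have h5 : (0 : ℝ) < √5 := Real.sqrt_pos.2 (by norm_num)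
  constructor
  · intro x
    have h1 := compare H c0 c h (x / 25)
    have h2 := h (x / 25)
    rw [reindex H (fun k => c k * Real.cos (2 * π * (k : ℝ) ^ 2 * (x / 25)))] at h1
    have h3 : ∑ k ∈ Icc 1 (H / 5), c (5 * k) * Real.cos (2 * π * ((5 * k : ℕ) : ℝ) ^ 2 * (x / 25)) =
        ∑ k ∈ Icc 1 (H / 5), c (5 * k) * Real.cos (2 * π * (k : ℝ) ^ 2 * x) := by
      refine Finset.sum_congr rfl (fun k _ => ?_)
      have : 2 * π * ((5 * k : ℕ) : ℝ) ^ 2 * (x / 25) = 2 * π * (k : ℝ) ^ 2 * x := by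
        push_cast; ring
      rw [this]
    rw [h3] at h1
    exact nonneg_of_mul_nonneg_right (le_trans h2 h1) h5
  · have h1 := compare H c0 c h 0
    rw [reindex H (fun k => c k * Real.cos (2 * π * (k : ℝ) ^ 2 * 0))] at h1
    simp only [mul_zero, Real.cos_zero, mul_one] at h1
    rw [div_le_iff₀ h5, mul_comm _ (√5)]
    exact h1

theorem lower_aux (r : ℕ) : ∀ (H : ℕ) (c0 : ℝ) (c : ℕ → ℝ), H < 5 ^ r →
    (∀ x : ℝ, 0 ≤ c0 + ∑ k ∈ Icc 1 H, c k * Real.cos (2 * π * (k : ℝ) ^ 2 * x)) →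
    (c0 + ∑ k ∈ Icc 1 H, c k) / (√5) ^ r ≤ c0 := by
  induction r with
  | zero =>
    intro H c0 c hH _
    have hH0 : H = 0 := by
      rw [pow_zero] at hH; omega
    subst hH0
    simp
  | succ r ih =>
    intro H c0 c hH h
    have h5 : (0 : ℝ) < √5 := Real.sqrt_pos.2 (by norm_num)
    obtain ⟨h1, h2⟩ := step5 H c0 c h
    have hH' : H / 5 < 5 ^ r := by
      rw [pow_succ] at hH
      exact Nat.div_lt_of_lt_mul (by omega)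
    have h3 := ih (H / 5) c0 (fun k => c (5 * k)) hH' h1
    have h4 : (c0 + ∑ k ∈ Icc 1 H, c k) / (√5) ^ (r + 1) =
        ((c0 + ∑ k ∈ Icc 1 H, c k) / √5) / (√5) ^ r := by
      rw [div_div, pow_succ, mul_comm]
    rw [h4]
    refine le_trans ?_ h3
    exact div_le_div_of_nonneg_right h2 (pow_pos h5 r).le

/-- lower bound for `δ(H)` -/
theorem lower (H : ℕ) (hH : 1 ≤ H) : 1 / √(5 * (H : ℝ)) ≤ delta H := by
  have h5 : (0 : ℝ) < √5 := Real.sqrt_pos.2 (by norm_num)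
  unfold delta
  refine le_csInf ?_ ?_
  · refine ⟨1, fun _ => 0, ?_, ?_⟩
    · intro x
      simp
    · simp
  · intro c0 hc
    obtain ⟨c, hc1, hc2⟩ := hc
    have h1 := lower_aux (Nat.log 5 H + 1) H c0 c (Nat.lt_pow_succ_log_self (by norm_num) H) hc1
    rw [hc2] at h1
    refine le_trans ?_ h1
    have hpow : (√5) ^ (Nat.log 5 H + 1) ≤ √(5 * (H : ℝ)) := by
      have h6 : (√5) ^ (Nat.log 5 H + 1) = √((5 : ℝ) ^ (Nat.log 5 H + 1)) := by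
        rw [← Real.sqrt_sq (pow_nonneg h5.le (Nat.log 5 H + 1)), ← pow_mul,
          mul_comm (Nat.log 5 H + 1) 2, pow_mul, Real.sq_sqrt (by norm_num)]
      rw [h6]
      apply Real.sqrt_le_sqrt
      have h7 : 5 ^ (Nat.log 5 H) ≤ H := Nat.pow_log_le_self 5 (by omega)
      have h8 : ((5 : ℝ) ^ (Nat.log 5 H)) ≤ (H : ℝ) := by exact_mod_cast h7
      rw [pow_succ]
      linarith
    exact one_div_le_one_div_of_le (pow_pos h5 _) hpow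

end Pool.Agent.Helper380.VDCX.Jn1
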