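import Mathlib
import Pool.Agent.Helper380.VDC.Defs
import Pool.Agent.Helper380.VDC.Defs4

set_option autoImplicit false

namespace Pool.Agent.Helper380.VDCX.Jq1

open Real Finset









theorem lm_add (a b : ℝ) : ee (a + b) = ee a * ee b := by
  unfold ee; rw [← Complex.exp_add]; congr 1; push_cast; ring

theorem lm_int (n : ℤ) : ee (n : ℝ) = 1 := by
  unfold ee; rw [Complex.exp_eq_one_iff]; exact ⟨n, by push_cast; ring⟩

theorem lm_pow (θ : ℝ) (n : ℕ) : ee ((n : ℝ) * θ) = ee θ ^ n := by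
  unfold ee; rw [← Complex.exp_nat_mul]; congr 1; push_cast; ring

theorem lm_geo (N : ℕ) (hN : 0 < N) (m : ℕ) :
    ∑ b : Fin N, ee ((m : ℝ) * ((b : ℕ) : ℝ) / N) = if N ∣ m then (N : ℂ) else 0 := by
  have hNr : (N : ℝ) ≠ 0 := by exact_mod_cast hN.ne'
  have h1 : ∀ b : ℕ, ee ((m : ℝ) * (b : ℝ) / N) = ee ((m : ℝ) / N) ^ b := by
    intro b
    rw [← lm_pow]; congr 1; ring
  rw [Fin.sum_univ_eq_sum_range (fun b : ℕ => ee ((m : ℝ) * (b : ℝ) / N)) N]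
  simp only [h1]
  split_ifs with h
  · obtain ⟨q, rfl⟩ := h
    have : ee (((N * q : ℕ) : ℝ) / N) = 1 := by
      have e : (((N * q : ℕ) : ℝ) / N) = ((q : ℤ) : ℝ) := by
        push_cast; field_simp
      rw [e, lm_int]
    rw [this]; simp
  · have hne : ee ((m : ℝ) / N) ≠ 1 := by
      intro he
      unfold ee at he
      rw [Complex.exp_eq_one_iff] at he
      obtain ⟨q, hq⟩ := he
      apply h
      have hpi : (2 * (π : ℂ) * Complex.I) ≠ 0 := Complex.two_pi_I_ne_zero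
      have h2 : (((m : ℝ) / N : ℝ) : ℂ) = ((q : ℝ) : ℂ) := by
        apply mul_right_cancel₀ hpi
        have : ((2 * π * ((m : ℝ) / N) : ℝ) : ℂ) * Complex.I = (((m : ℝ) / N : ℝ) : ℂ) * (2 * (π : ℂ) * Complex.I) := by
          push_cast; ring
        rw [← this, hq]; push_cast; ring
      have h3 : (m : ℝ) / N = (q : ℝ) := by exact_mod_cast h2
      rw [div_eq_iff hNr] at h3
      have h4 : (m : ℤ) = q * N := by exact_mod_cast h3
      have h5 : (N : ℤ) ∣ (m : ℤ) := ⟨q, by rw [h4]; ring⟩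
      exact_mod_cast h5
    have hN1 : ee ((m : ℝ) / N) ^ N = 1 := by
      rw [← lm_pow]
      have e : (N : ℝ) * ((m : ℝ) / N) = ((m : ℤ) : ℝ) := by
        push_cast; field_simp
      rw [e, lm_int]
    rw [geom_sum_eq hne, hN1, sub_self, zero_div]

/-- the measure at level `r` -/
theorem level_measure
    (two_classes : ∀ (p : ℕ), p.Prime → p % 4 = 3 →
      ∃ A B : Finset ℕ, A.card = (p - 1) / 2 ∧ B.card = (p - 1) / 2 ∧ 0 < (p - 1) / 2 ∧
        (∀ k : ℕ, (1 / (A.card : ℂ)) * ∑ a ∈ A, ee ((k : ℝ) ^ 2 * (a / p)) =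
          if p ∣ k then 1 else (-1 + Complex.I * √(p : ℝ)) / ((p : ℂ) - 1)) ∧
        (∀ k : ℕ, (1 / (B.card : ℂ)) * ∑ a ∈ B, ee ((k : ℝ) ^ 2 * (a / p)) =
          if p ∣ k then 1 else (-1 - Complex.I * √(p : ℝ)) / ((p : ℂ) - 1)))
    (p : ℕ) (hp : p.Prime) (h3 : p % 4 = 3) (r : ℕ) (hr : 1 ≤ r) (κ : ℝ) (hκ : |κ| ≤ 1) :
    ∃ (ι : Type) (_ : Fintype ι) (ρ : ι → ℝ) (y : ι → ℝ), (∀ i, 0 ≤ ρ i) ∧
      ∀ k : ℕ, ∑ i, (ρ i : ℂ) * ee ((k : ℝ) ^ 2 * y i) =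
        if p ^ r ∣ k then 1 else if p ^ (r - 1) ∣ k then Complex.I * κ / √(p : ℝ) else 0 := by
  obtain ⟨A, B, hA, hB, hpos, sA, sB⟩ := two_classes p hp h3
  have hp0 : 0 < p := hp.pos
  have hpr : (p : ℝ) ≠ 0 := by exact_mod_cast hp0.ne'
  have hpc : (p : ℂ) ≠ 0 := by exact_mod_cast hp0.ne'
  set n := (p - 1) / 2 with hn
  have hpn : p = 2 * n + 1 := by omega
  have hnc : (n : ℂ) ≠ 0 := by exact_mod_cast hpos.ne'
  have hpnc : (p : ℂ) = 2 * n + 1 := by rw [hpn]; push_cast; ring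
  obtain ⟨hκ1, hκ2⟩ := abs_le.mp hκ
  have sA' : ∀ k : ℕ, ∑ a ∈ A, ee ((k : ℝ) ^ 2 * (a / p)) =
      n * (if p ∣ k then 1 else (-1 + Complex.I * √(p : ℝ)) / ((p : ℂ) - 1)) := by
    intro k
    rw [← sA k, hA]; field_simp
  have sB' : ∀ k : ℕ, ∑ a ∈ B, ee ((k : ℝ) ^ 2 * (a / p)) =
      n * (if p ∣ k then 1 else (-1 - Complex.I * √(p : ℝ)) / ((p : ℂ) - 1)) := by
    intro k
    rw [← sB k, hB]; field_simp
  let J : Type := Unit ⊕ (A ⊕ B)
  let w : J → ℝ := Sum.elim (fun _ => 1 / p) (Sum.elim (fun _ => (1 + κ) / p) (fun _ => (1 - κ) / p))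
  let a : J → ℕ := Sum.elim (fun _ => 0) (Sum.elim (fun x => x.1) (fun x => x.1))
  have hw : ∀ j, 0 ≤ w j := by
    have hpp : (0 : ℝ) < p := by exact_mod_cast hp0
    rintro (x | x | x)
    · show 0 ≤ 1 / (p : ℝ); positivity
    · show 0 ≤ (1 + κ) / (p : ℝ); exact div_nonneg (by linarith) hpp.le
    · show 0 ≤ (1 - κ) / (p : ℝ); exact div_nonneg (by linarith) hpp.le
  have hT : ∀ k : ℕ, ∑ j : J, (w j : ℂ) * ee ((k : ℝ) ^ 2 * ((a j : ℝ) / p)) =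
      if p ∣ k then 1 else Complex.I * κ / √(p : ℝ) := by
    intro k
    have e1 : ∑ x : A, ee ((k : ℝ) ^ 2 * ((x.1 : ℝ) / p)) = ∑ a ∈ A, ee ((k : ℝ) ^ 2 * (a / p)) :=
      Finset.sum_coe_sort A (fun a : ℕ => ee ((k : ℝ) ^ 2 * ((a : ℝ) / p)))
    have e2 : ∑ x : B, ee ((k : ℝ) ^ 2 * ((x.1 : ℝ) / p)) = ∑ a ∈ B, ee ((k : ℝ) ^ 2 * (a / p)) :=
      Finset.sum_coe_sort B (fun a : ℕ => ee ((k : ℝ) ^ 2 * ((a : ℝ) / p)))
    have e0 : ee ((k : ℝ) ^ 2 * (((0 : ℕ) : ℝ) / p)) = 1 := by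
      have := lm_int 0
      simpa using this
    rw [Fintype.sum_sum_type, Fintype.sum_sum_type]
    simp only [w, a, Sum.elim_inl, Sum.elim_inr, Finset.univ_unique, Finset.sum_singleton]
    rw [← Finset.mul_sum, ← Finset.mul_sum, e0, e1, e2, sA', sB']
    split_ifs with h
    · push_cast
      rw [hpnc]
      have : (2 * (n : ℂ) + 1) ≠ 0 := by rw [← hpnc]; exact hpc
      field_simp
      ring
    · have hs : ((√(p : ℝ) : ℝ) : ℂ) ^ 2 = (p : ℂ) := by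
        rw [← Complex.ofReal_pow, Real.sq_sqrt (by positivity)]; simp
      have hs0 : ((√(p : ℝ) : ℝ) : ℂ) ≠ 0 := by
        intro h0
        rw [h0] at hs
        exact hpc (by rw [← hs]; ring)
      have e5 : (p : ℂ) - 1 = 2 * n := by rw [hpnc]; ring
      rw [e5]
      push_cast
      rw [← hs]
      field_simp
      ring
  set N := p ^ (2 * r - 2) with hN
  have hN0 : 0 < N := by positivity
  have hNc : (N : ℂ) ≠ 0 := by exact_mod_cast hN0.ne'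
  have hNr : (N : ℝ) ≠ 0 := by exact_mod_cast hN0.ne'
  have hNp : (p : ℝ) ^ (2 * r - 1) = N * p := by
    rw [hN]; push_cast
    rw [← pow_succ]; congr 1; omega
  have hN2 : N = (p ^ (r - 1)) ^ 2 := by
    rw [hN, ← pow_mul]; congr 1; omega
  refine ⟨J × Fin N, inferInstance, fun x => w x.1 / N,
    fun x => ((a x.1 : ℝ) + p * ((x.2 : ℕ) : ℝ)) / p ^ (2 * r - 1), fun x => ?_, fun k => ?_⟩
  · exact div_nonneg (hw _) (by positivity)
  rw [Fintype.sum_prod_type]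
  have hinner : ∀ j : J, ∑ b : Fin N, ((w j / N : ℝ) : ℂ) *
      ee ((k : ℝ) ^ 2 * (((a j : ℝ) + p * ((b : ℕ) : ℝ)) / p ^ (2 * r - 1))) =
      (w j : ℂ) * ee ((k : ℝ) ^ 2 * ((a j : ℝ) / (N * p))) *
        ((if N ∣ k ^ 2 then (N : ℂ) else 0) / N) := by
    intro j
    rw [← lm_geo N hN0 (k ^ 2), Finset.sum_div, Finset.mul_sum]
    refine Finset.sum_congr rfl fun b _ => ?_
    have e : (k : ℝ) ^ 2 * (((a j : ℝ) + p * ((b : ℕ) : ℝ)) / p ^ (2 * r - 1)) =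
        (k : ℝ) ^ 2 * ((a j : ℝ) / (N * p)) + ((k ^ 2 : ℕ) : ℝ) * ((b : ℕ) : ℝ) / N := by
      rw [hNp]; push_cast; field_simp
    rw [e, lm_add]; push_cast; ring
  simp only [hinner]
  have hdvd : N ∣ k ^ 2 ↔ p ^ (r - 1) ∣ k := by
    rw [hN2]; exact Nat.pow_dvd_pow_iff two_ne_zero
  have hprr : p ^ r = p ^ (r - 1) * p := by
    rw [← pow_succ]; congr 1; omega
  by_cases hk : p ^ (r - 1) ∣ k
  · obtain ⟨q, rfl⟩ := hk
    rw [if_pos (hdvd.mpr (dvd_mul_right _ _)), div_self hNc]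
    simp only [mul_one]
    have e : ∀ j : J, ee ((((p ^ (r - 1) * q : ℕ) : ℝ)) ^ 2 * ((a j : ℝ) / (N * p))) =
        ee ((q : ℝ) ^ 2 * ((a j : ℝ) / p)) := by
      intro j
      congr 1
      have hNr2 : (N : ℝ) = ((p : ℝ) ^ (r - 1)) ^ 2 := by rw [hN2]; push_cast; ring
      have hz : (p : ℝ) ^ (r - 1) ≠ 0 := pow_ne_zero _ hpr
      rw [hNr2]; push_cast; field_simp
    simp only [e]
    rw [hT q]
    have hiff : p ^ r ∣ p ^ (r - 1) * q ↔ p ∣ q := by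
      rw [hprr]; exact Nat.mul_dvd_mul_iff_left (by positivity)
    simp only [hiff, dvd_mul_right, if_true]
  · have hk2 : ¬ p ^ r ∣ k := fun h => hk (dvd_trans (by rw [hprr]; exact dvd_mul_right _ _) h)
    rw [if_neg hk2, if_neg hk, if_neg (fun h => hk (hdvd.mp h))]
    simp

end Pool.Agent.Helper380.VDCX.Jq1
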