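import Mathlib
import Pool.Agent.Helper380.VDC.Defs
import Pool.Agent.Helper380.VDC.Defs4

set_option autoImplicit false

namespace Pool.Agent.Helper380.VDCX.Jq10

open Real Finset










theorem vp_sum (P : Finset ℕ) (hP : ∀ p ∈ P, p.Prime) (N : ℕ) (hN : ∀ p ∈ P, N ≤ p) (k : ℕ)
    (hk : 1 ≤ k) : N ^ (∑ p ∈ P, padicValNat p k) ≤ k := by
  rw [← Finset.prod_pow_eq_pow_sum]
  calc ∏ p ∈ P, N ^ padicValNat p k ≤ ∏ p ∈ P, p ^ padicValNat p k :=
        Finset.prod_le_prod (fun _ _ => Nat.zero_le _) fun p hp => Nat.pow_le_pow_left (hN p hp) _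
    _ = ∏ p ∈ P.filter (fun p => p ∈ k.primeFactors), p ^ padicValNat p k := by
        symm
        apply Finset.prod_filter_of_ne
        intro p hp hne
        by_contra hnot
        apply hne
        have : padicValNat p k = 0 := by
          apply padicValNat.eq_zero_of_not_dvd
          intro hd
          exact hnot (Nat.mem_primeFactors.2 ⟨hP p hp, hd, by omega⟩)
        rw [this, pow_zero]
    _ = ∏ p ∈ P.filter (fun p => p ∈ k.primeFactors), p ^ k.factorization p := by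
        refine Finset.prod_congr rfl fun p hp => ?_
        rw [Nat.factorization_def k (hP p (Finset.mem_filter.1 hp).1)]
    _ ≤ ∏ p ∈ k.primeFactors, p ^ k.factorization p := by
        apply Nat.le_of_dvd (Finset.prod_pos fun p hp => pow_pos (Nat.pos_of_mem_primeFactors hp) _)
        exact Finset.prod_dvd_prod_of_subset _ _ _ fun p hp => (Finset.mem_filter.1 hp).2
    _ = k := Nat.prod_factorization_pow_eq_self (by omega)

theorem prime_part
    (cheb3 : ∃ (c : ℝ) (z0 : ℕ), 0 < c ∧ ∀ z : ℕ, z0 ≤ z →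
      c * z / Real.log z ≤ (((range (z + 1)).filter (fun p => p.Prime ∧ p % 4 = 3)).card : ℝ)) :
    ∃ (c' : ℝ) (N0 : ℕ), 0 < c' ∧ ∀ N : ℕ, N0 ≤ N →
      c' * (N : ℝ) ^ 2 / Real.log N ≤
        (((range (N ^ 2 / 16 + 1)).filter (fun p => (p.Prime ∧ p % 4 = 3) ∧ N < p)).card : ℝ) := by
  obtain ⟨c, z0, hc, h⟩ := cheb3
  have e1 : ∀ᶠ N : ℕ in Filter.atTop, 256 * Real.log N ≤ c * N := by
    have := (Real.isLittleO_log_id_atTop.comp_tendsto
      (tendsto_natCast_atTop_atTop (R := ℝ))).def (show 0 < c / 256 by positivity)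
    filter_upwards [this, Filter.eventually_ge_atTop 1] with N hN hN1
    have h1 : (1 : ℝ) ≤ N := by exact_mod_cast hN1
    simp only [Function.comp_apply, id_eq] at hN
    rw [Real.norm_of_nonneg (Real.log_nonneg h1), Real.norm_of_nonneg (by linarith)] at hN
    linarith
  obtain ⟨N1, hN1⟩ := Filter.eventually_atTop.1 e1
  refine ⟨c / 128, max N1 (max 6 (16 * z0 + 16)), by positivity, fun N hN => ?_⟩
  have a1 : N1 ≤ N := le_trans (le_max_left _ _) hN
  have a2 : 6 ≤ N := le_trans (le_trans (le_max_left _ _) (le_max_right _ _)) hN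
  have a3 : 16 * z0 + 16 ≤ N := le_trans (le_trans (le_max_right _ _) (le_max_right _ _)) hN
  have hNr : (6 : ℝ) ≤ N := by exact_mod_cast a2
  obtain ⟨z, hz⟩ : ∃ z, z = N ^ 2 / 16 := ⟨_, rfl⟩
  rw [← hz]
  have hzl : N ^ 2 < 16 * (z + 1) := by
    rw [hz]; have := Nat.lt_mul_div_succ (N ^ 2) (show 0 < 16 by norm_num); omega
  have hzu : 16 * z ≤ N ^ 2 := by rw [hz]; exact Nat.mul_div_le _ _
  have hz0 : z0 ≤ z := by nlinarith
  have hz2 : 2 ≤ z := by nlinarith
  have hzr : (2 : ℝ) ≤ z := by exact_mod_cast hz2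
  have hzl' : (N : ℝ) ^ 2 ≤ 32 * z := by
    have : N ^ 2 ≤ 32 * z := by omega
    exact_mod_cast this
  have hzu' : (z : ℝ) ≤ (N : ℝ) ^ 2 := by
    have : z ≤ N ^ 2 := by omega
    exact_mod_cast this
  have hlz : Real.log z ≤ 2 * Real.log N := by
    have := Real.log_le_log (by linarith) hzu'
    rwa [Real.log_pow] at this
  have hlz0 : 0 < Real.log z := Real.log_pos (by linarith)
  have hlN0 : 0 < Real.log N := Real.log_pos (by linarith)
  have h1 := h z hz0
  have hcard : ((range (z + 1)).filter (fun p => p.Prime ∧ p % 4 = 3)).card ≤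
      ((range (z + 1)).filter (fun p => (p.Prime ∧ p % 4 = 3) ∧ N < p)).card + (N + 1) := by
    have hsub : (range (z + 1)).filter (fun p => p.Prime ∧ p % 4 = 3) ⊆
        (range (z + 1)).filter (fun p => (p.Prime ∧ p % 4 = 3) ∧ N < p) ∪ range (N + 1) := by
      intro p hp
      rw [Finset.mem_filter] at hp
      rw [Finset.mem_union, Finset.mem_filter]
      by_cases hpN : N < p
      · exact Or.inl ⟨hp.1, hp.2, hpN⟩
      · exact Or.inr (Finset.mem_range.2 (by omega))
    refine (Finset.card_le_card hsub).trans ((Finset.card_union_le _ _).trans ?_)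
    rw [Finset.card_range]
  have hcard' : (((range (z + 1)).filter (fun p => p.Prime ∧ p % 4 = 3)).card : ℝ) ≤
      (((range (z + 1)).filter (fun p => (p.Prime ∧ p % 4 = 3) ∧ N < p)).card : ℝ) + (N + 1) := by
    exact_mod_cast hcard
  have h2 : c * (N : ℝ) ^ 2 / (64 * Real.log N) ≤ c * z / Real.log z := by
    rw [div_le_div_iff₀ (by positivity) hlz0]
    have e1 : c * (N : ℝ) ^ 2 * Real.log z ≤ c * (32 * z) * (2 * Real.log N) := by
      apply mul_le_mul _ hlz hlz0.le (by positivity)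
      exact mul_le_mul_of_nonneg_left hzl' hc.le
    linarith
  have h3 : (N : ℝ) + 1 ≤ c * (N : ℝ) ^ 2 / (128 * Real.log N) := by
    rw [le_div_iff₀ (by positivity)]
    have e1 := hN1 N a1
    have e2 : ((N : ℝ) + 1) ≤ 2 * N := by linarith
    calc ((N : ℝ) + 1) * (128 * Real.log N) ≤ (2 * N) * (128 * Real.log N) :=
          mul_le_mul_of_nonneg_right e2 (by positivity)
      _ = N * (256 * Real.log N) := by ring
      _ ≤ N * (c * N) := mul_le_mul_of_nonneg_left e1 (by positivity)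
      _ = c * (N : ℝ) ^ 2 := by ring
  have h4 : c * (N : ℝ) ^ 2 / (64 * Real.log N) = c / 128 * (N : ℝ) ^ 2 / Real.log N +
      c * (N : ℝ) ^ 2 / (128 * Real.log N) := by
    field_simp
    ring
  linarith

theorem key_step
    (low_two : ∀ (H : ℕ) (c0 : ℝ) (c : ℕ → ℝ), Admissible H c0 c →
      ∀ (P : Finset ℕ), (∀ p ∈ P, p.Prime ∧ p % 4 = 3) → 1 ≤ P.card → ∀ (N R m0 : ℕ), 1 ≤ R →
      100 * R ≤ N → (∀ p ∈ P, 16 * p ≤ N ^ 2) →
      (∀ k ∈ Icc 1 H, m0 ≤ ∑ p ∈ P, (R - padicValNat p k)) →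
      8 * (N : ℝ) * H * (40 * (R : ℝ) / N) ^ m0 ≤ 1 →
      Real.exp (-(N : ℝ) * (20 * ((R : ℝ) + Real.log P.card) + 22)) / 8 ≤ c0)
    (c' B : ℝ) (hc' : 0 < c') (hB : 0 < B) (hcB : c' * B = 6) (H : ℕ) (h L s : ℝ)
    (hh : h = Real.log H) (hL : L = Real.log h) (hs : s = √(B * h / L)) (hH3 : 3 ≤ H) (hL1 : 1 ≤ L)
    (hb : 6400 * L ^ 2 ≤ s) (hd : 2 * s ≤ h) (hf : 8 * h ≤ H)
    (hpr : c' * ((⌈s⌉₊ : ℕ) : ℝ) ^ 2 / Real.log (⌈s⌉₊ : ℕ) ≤
        (((range (⌈s⌉₊ ^ 2 / 16 + 1)).filter
          (fun p => (p.Prime ∧ p % 4 = 3) ∧ ⌈s⌉₊ < p)).card : ℝ))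
    (c0 : ℝ) (c : ℕ → ℝ) (hA : Admissible H c0 c) :
    Real.exp (-(204 * √B) * √(h * L)) / 8 ≤ c0 := by
  obtain ⟨N, hN⟩ : ∃ N, N = ⌈s⌉₊ := ⟨_, rfl⟩
  obtain ⟨R, hR⟩ : ∃ R, R = ⌈L⌉₊ := ⟨_, rfl⟩
  obtain ⟨P, hP⟩ : ∃ P, P = (range (N ^ 2 / 16 + 1)).filter
    (fun p => (p.Prime ∧ p % 4 = 3) ∧ N < p) := ⟨_, rfl⟩
  rw [← hN, ← hP] at hpr
  have hL2 : L ≤ L ^ 2 := by nlinarith
  have hs1 : 6400 ≤ s := by nlinarith
  have hsN : s ≤ N := by rw [hN]; exact Nat.le_ceil s
  have hNs : (N : ℝ) ≤ 2 * s := by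
    have := Nat.ceil_lt_add_one (show 0 ≤ s by linarith)
    rw [← hN] at this
    linarith
  have hNh : (N : ℝ) ≤ h := hNs.trans hd
  have hLR : L ≤ R := by rw [hR]; exact Nat.le_ceil L
  have hRL : (R : ℝ) ≤ 2 * L := by
    have := Nat.ceil_lt_add_one (show 0 ≤ L by linarith)
    rw [← hR] at this
    linarith
  have hN0 : (6400 : ℝ) ≤ N := by linarith
  have hlN : 0 < Real.log N := Real.log_pos (by linarith)
  have hhpos : 0 < h := by linarith
  have hHpos : (0 : ℝ) < H := by linarith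
  have hexph : Real.exp h = H := by rw [hh, Real.exp_log hHpos]
  have hlNL : Real.log N ≤ L := by
    rw [hL]; exact Real.log_le_log (by linarith) hNh
  have hLh : L ≤ h := by
    rw [hL]; exact (Real.log_le_sub_one_of_pos hhpos).trans (by linarith)
  -- card
  have hn1 : 1 ≤ P.card := by
    have : (0 : ℝ) < (P.card : ℝ) := lt_of_lt_of_le (by positivity) hpr
    exact_mod_cast this
  have hnN : (P.card : ℝ) ≤ (N : ℝ) ^ 2 := by
    have h1 : P.card ≤ N ^ 2 / 16 + 1 := by
      rw [hP]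
      exact (Finset.card_filter_le _ _).trans (by rw [Finset.card_range])
    have h2 : 6400 ≤ N := by exact_mod_cast hN0
    have h3 : N ^ 2 / 16 * 16 ≤ N ^ 2 := Nat.div_mul_le_self _ _
    have h4 : 16 ≤ N ^ 2 := by nlinarith
    have h5 : P.card ≤ N ^ 2 := by omega
    exact_mod_cast h5
  have hlogn : Real.log P.card ≤ 2 * L := by
    have h1 : Real.log P.card ≤ Real.log ((N : ℝ) ^ 2) :=
      Real.log_le_log (by exact_mod_cast hn1) hnN
    rw [Real.log_pow] at h1
    push_cast at h1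
    linarith
  have hPm : ∀ p ∈ P, (p.Prime ∧ p % 4 = 3) ∧ N < p ∧ p ≤ N ^ 2 / 16 := by
    intro p hp
    rw [hP, Finset.mem_filter, Finset.mem_range] at hp
    exact ⟨hp.2.1, hp.2.2, by omega⟩
  obtain ⟨m0, hm0⟩ : ∃ m0, m0 = ⌈4 * h / Real.log N⌉₊ := ⟨_, rfl⟩
  have hm1 : 4 * h / Real.log N ≤ m0 := by rw [hm0]; exact Nat.le_ceil _
  have hm2 : (m0 : ℝ) ≤ 4 * h / Real.log N + 1 := by
    have := Nat.ceil_lt_add_one (show 0 ≤ 4 * h / Real.log N by positivity)
    rw [← hm0] at this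
    linarith
  have hmain := low_two H c0 c hA P (fun p hp => (hPm p hp).1) hn1 N R m0 ?_ ?_ ?_ ?_ ?_
  · refine le_trans ?_ hmain
    have hsL : s * L = √B * √(h * L) := by
      rw [hs, ← Real.sqrt_mul hB.le]
      have : L = √(L ^ 2) := by rw [Real.sqrt_sq (by linarith)]
      nth_rewrite 2 [this]
      rw [← Real.sqrt_mul (by positivity)]
      congr 1
      field_simp
    have hfin : (N : ℝ) * (20 * ((R : ℝ) + Real.log P.card) + 22) ≤
        204 * √B * √(h * L) := by
      have h1 : 20 * ((R : ℝ) + Real.log P.card) + 22 ≤ 102 * L := by linarith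
      calc (N : ℝ) * (20 * ((R : ℝ) + Real.log P.card) + 22) ≤ (2 * s) * (102 * L) := by
            apply mul_le_mul hNs h1 _ (by linarith)
            have : 0 ≤ Real.log P.card := Real.log_nonneg (by exact_mod_cast hn1)
            positivity
        _ = 204 * (s * L) := by ring
        _ = 204 * √B * √(h * L) := by rw [hsL]; ring
    apply div_le_div_of_nonneg_right _ (by norm_num)
    apply Real.exp_le_exp.2
    linarith
  · have : (1 : ℝ) ≤ R := by linarith
    exact_mod_cast this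
  · have : (100 : ℝ) * R ≤ N := by nlinarith
    exact_mod_cast this
  · intro p hp
    have h1 := (hPm p hp).2.2
    calc 16 * p ≤ 16 * (N ^ 2 / 16) := Nat.mul_le_mul_left _ h1
      _ ≤ N ^ 2 := Nat.mul_div_le _ _
  · intro k hk
    rw [Finset.mem_Icc] at hk
    have h1 := vp_sum P (fun p hp => (hPm p hp).1.1) N (fun p hp => (hPm p hp).2.1.le) k hk.1
    have h2 : (N : ℝ) ^ (∑ p ∈ P, padicValNat p k) ≤ H := by
      have : N ^ (∑ p ∈ P, padicValNat p k) ≤ H := h1.trans hk.2
      exact_mod_cast this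
    have h3 : ((∑ p ∈ P, padicValNat p k : ℕ) : ℝ) * Real.log N ≤ h := by
      have := Real.log_le_log (by positivity) h2
      rw [Real.log_pow] at this
      rw [hh]; exact this
    have h4 : P.card * R ≤ (∑ p ∈ P, (R - padicValNat p k)) + ∑ p ∈ P, padicValNat p k := by
      rw [← Finset.sum_add_distrib, ← smul_eq_mul, ← Finset.sum_const]
      exact Finset.sum_le_sum fun p _ => le_tsub_add
    have h5 : (P.card : ℝ) * R ≤ ((∑ p ∈ P, (R - padicValNat p k) : ℕ) : ℝ) +
        ((∑ p ∈ P, padicValNat p k : ℕ) : ℝ) := by exact_mod_cast h4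
    have h6 : ((∑ p ∈ P, padicValNat p k : ℕ) : ℝ) ≤ h / Real.log N := by
      rw [le_div_iff₀ hlN]; exact h3
    have h7 : 6 * h / Real.log N ≤ (P.card : ℝ) * R := by
      have e1 : B * h / L ≤ (N : ℝ) ^ 2 := by
        have : √(B * h / L) ^ 2 = B * h / L := Real.sq_sqrt (by positivity)
        rw [← this, ← hs]
        exact pow_le_pow_left₀ (by linarith) hsN 2
      have e2 : B * h ≤ (N : ℝ) ^ 2 * L := by rwa [div_le_iff₀ (by linarith)] at e1
      calc 6 * h / Real.log N = c' * (B * h) / Real.log N := by rw [← hcB]; ring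
        _ ≤ c' * ((N : ℝ) ^ 2 * L) / Real.log N := by
            apply div_le_div_of_nonneg_right _ hlN.le
            exact mul_le_mul_of_nonneg_left e2 hc'.le
        _ = (c' * (N : ℝ) ^ 2 / Real.log N) * L := by ring
        _ ≤ (P.card : ℝ) * R := mul_le_mul hpr hLR (by linarith) (by positivity)
    have h8 : 1 ≤ h / Real.log N := by
      rw [le_div_iff₀ hlN]; linarith
    have h9 : (m0 : ℝ) ≤ ((∑ p ∈ P, (R - padicValNat p k) : ℕ) : ℝ) := by
      have e1 : 4 * h / Real.log N = 4 * (h / Real.log N) := by ring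
      have e2 : 6 * h / Real.log N = 6 * (h / Real.log N) := by ring
      linarith
    exact_mod_cast h9
  · have h1 : 40 * (R : ℝ) / N ≤ Real.exp (-(Real.log N / 2)) := by
      have e1 : Real.exp (Real.log N / 2) ^ 2 = N := by
        rw [← Real.exp_nat_mul]
        have : ((2 : ℕ) : ℝ) * (Real.log N / 2) = Real.log N := by push_cast; ring
        rw [this, Real.exp_log (by linarith)]
      have e2 : 40 * (R : ℝ) ≤ Real.exp (Real.log N / 2) := by
        apply le_of_sq_le_sq _ (Real.exp_pos _).le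
        rw [e1]
        have : (40 * (R : ℝ)) ^ 2 ≤ (80 * L) ^ 2 := by
          apply pow_le_pow_left₀ (by positivity); linarith
        nlinarith
      rw [Real.exp_neg, div_le_iff₀ (by linarith), ← div_eq_inv_mul, le_div_iff₀ (Real.exp_pos _)]
      calc 40 * (R : ℝ) * Real.exp (Real.log N / 2) ≤
            Real.exp (Real.log N / 2) * Real.exp (Real.log N / 2) :=
            mul_le_mul_of_nonneg_right e2 (Real.exp_pos _).le
        _ = Real.exp (Real.log N / 2) ^ 2 := by ring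
        _ = N := e1
    have h2 : (40 * (R : ℝ) / N) ^ m0 ≤ Real.exp (-(2 * h)) := by
      calc (40 * (R : ℝ) / N) ^ m0 ≤ Real.exp (-(Real.log N / 2)) ^ m0 :=
            pow_le_pow_left₀ (by positivity) h1 _
        _ = Real.exp (m0 * (-(Real.log N / 2))) := by rw [← Real.exp_nat_mul]
        _ ≤ Real.exp (-(2 * h)) := by
            apply Real.exp_le_exp.2
            have : 4 * h ≤ m0 * Real.log N := by rwa [div_le_iff₀ hlN] at hm1
            linarith
    have h3 : 8 * (N : ℝ) ≤ Real.exp h := by rw [hexph]; linarith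
    calc 8 * (N : ℝ) * H * (40 * (R : ℝ) / N) ^ m0 ≤ 8 * (N : ℝ) * H * Real.exp (-(2 * h)) :=
          mul_le_mul_of_nonneg_left h2 (by positivity)
      _ = 8 * (N : ℝ) * (Real.exp h * Real.exp (-(2 * h))) := by rw [hexph]; ring
      _ = 8 * (N : ℝ) * Real.exp (-h) := by rw [← Real.exp_add]; congr 2; ring
      _ ≤ Real.exp h * Real.exp (-h) := mul_le_mul_of_nonneg_right h3 (Real.exp_pos _).le
      _ = 1 := by rw [← Real.exp_add]; simp

/-- choice of the parameters -/
theorem low_final2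
    (low_two : ∀ (H : ℕ) (c0 : ℝ) (c : ℕ → ℝ), Admissible H c0 c →
      ∀ (P : Finset ℕ), (∀ p ∈ P, p.Prime ∧ p % 4 = 3) → 1 ≤ P.card → ∀ (N R m0 : ℕ), 1 ≤ R →
      100 * R ≤ N → (∀ p ∈ P, 16 * p ≤ N ^ 2) →
      (∀ k ∈ Icc 1 H, m0 ≤ ∑ p ∈ P, (R - padicValNat p k)) →
      8 * (N : ℝ) * H * (40 * (R : ℝ) / N) ^ m0 ≤ 1 →
      Real.exp (-(N : ℝ) * (20 * ((R : ℝ) + Real.log P.card) + 22)) / 8 ≤ c0)
    (lower : ∀ (H : ℕ), 1 ≤ H → 1 / √(5 * (H : ℝ)) ≤ delta H)
    (cheb3 : ∃ (c : ℝ) (z0 : ℕ), 0 < c ∧ ∀ z : ℕ, z0 ≤ z →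
      c * z / Real.log z ≤ (((range (z + 1)).filter (fun p => p.Prime ∧ p % 4 = 3)).card : ℝ)) :
    ∃ C : ℝ, 0 < C ∧ ∀ H : ℕ, 3 ≤ H →
      1 / C * Real.exp (-C * √(Real.log H * Real.log (Real.log H))) ≤ delta H := by
  obtain ⟨c', N0, hc', hpr⟩ := prime_part cheb3
  obtain ⟨B, hB⟩ : ∃ B, B = 6 / c' := ⟨_, rfl⟩
  have hBpos : 0 < B := by rw [hB]; positivity
  have hcB : c' * B = 6 := by rw [hB]; field_simp
  -- eventual conditions
  have tL : Filter.Tendsto (fun H : ℕ => Real.log (Real.log H)) Filter.atTop Filter.atTop :=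
    Real.tendsto_log_atTop.comp (Real.tendsto_log_atTop.comp tendsto_natCast_atTop_atTop)
  have th : Filter.Tendsto (fun H : ℕ => Real.log H) Filter.atTop Filter.atTop :=
    Real.tendsto_log_atTop.comp tendsto_natCast_atTop_atTop
  have ev1 : ∀ᶠ x : ℝ in Filter.atTop, 6400 ^ 2 * x ^ 5 ≤ B * Real.exp x := by
    have := (isLittleO_pow_exp_atTop (n := 5)).def (show 0 < B / 6400 ^ 2 by positivity)
    filter_upwards [this, Filter.eventually_ge_atTop 0] with x hx hx0
    rw [Real.norm_of_nonneg (by positivity), Real.norm_of_nonneg (Real.exp_pos _).le] at hx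
    rw [div_mul_eq_mul_div, le_div_iff₀ (by norm_num)] at hx
    linarith
  have ev2 : ∀ᶠ x : ℝ in Filter.atTop, 8 * Real.log x ≤ x := by
    have := Real.isLittleO_log_id_atTop.def (show (0 : ℝ) < 1 / 8 by norm_num)
    filter_upwards [this, Filter.eventually_ge_atTop 1] with x hx hx0
    simp only [id_eq] at hx
    rw [Real.norm_of_nonneg (Real.log_nonneg hx0), Real.norm_of_nonneg (by linarith)] at hx
    linarith
  have ev : ∀ᶠ H : ℕ in Filter.atTop, ∀ c0 : ℝ, ∀ c : ℕ → ℝ, Admissible H c0 c →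
      Real.exp (-(204 * √B) * √(Real.log H * Real.log (Real.log H))) / 8 ≤ c0 := by
    filter_upwards [tL.eventually ev1, tL.eventually (Filter.eventually_ge_atTop 1),
      tL.eventually (Filter.eventually_ge_atTop (N0 : ℝ)), th.eventually (Filter.eventually_ge_atTop (4 * B)),
      th.eventually (Filter.eventually_ge_atTop 1),
      (tendsto_natCast_atTop_atTop (R := ℝ)).eventually ev2, Filter.eventually_ge_atTop 3]
      with H h1 h2 h3 h4 h5 h6 h7 c0 c hA
    have hh0 : 0 < Real.log H := by linarith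
    rw [Real.exp_log hh0] at h1
    have hb : 6400 * Real.log (Real.log H) ^ 2 ≤ √(B * Real.log H / Real.log (Real.log H)) := by
      apply Real.le_sqrt_of_sq_le
      rw [le_div_iff₀ (by linarith)]
      calc (6400 * Real.log (Real.log H) ^ 2) ^ 2 * Real.log (Real.log H) =
            6400 ^ 2 * Real.log (Real.log H) ^ 5 := by ring
        _ ≤ _ := h1
    refine key_step low_two c' B hc' hBpos hcB H _ _ _ rfl rfl rfl h7 h2 hb ?_ h6 ?_ c0 c hA
    · have : √(B * Real.log H / Real.log (Real.log H)) ≤ Real.log H / 2 := by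
        apply Real.sqrt_le_iff.2
        refine ⟨by positivity, ?_⟩
        rw [div_le_iff₀ (by linarith)]
        have e1 : B * Real.log H ≤ (Real.log H / 2) ^ 2 := by nlinarith
        have e2 : (Real.log H / 2) ^ 2 * 1 ≤ (Real.log H / 2) ^ 2 * Real.log (Real.log H) :=
          mul_le_mul_of_nonneg_left h2 (by positivity)
        linarith
      linarith
    · apply hpr
      have e1 : (N0 : ℝ) ≤ √(B * Real.log H / Real.log (Real.log H)) := by
        have : Real.log (Real.log H) ≤ 6400 * Real.log (Real.log H) ^ 2 := by nlinarith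
        linarith
      have e2 := e1.trans (Nat.le_ceil _)
      exact_mod_cast e2
  obtain ⟨H0, hH0⟩ := Filter.eventually_atTop.1 ev
  obtain ⟨C, hC⟩ : ∃ C, C = max 8 (max (204 * √B) (√(5 * ((H0 + 1 : ℕ) : ℝ)))) := ⟨_, rfl⟩
  have hC8 : 8 ≤ C := by rw [hC]; exact le_max_left _ _
  have hC1 : 204 * √B ≤ C := by
    rw [hC]; exact le_trans (le_max_left _ _) (le_max_right _ _)
  have hC2 : √(5 * ((H0 + 1 : ℕ) : ℝ)) ≤ C := by
    rw [hC]; exact le_trans (le_max_right _ _) (le_max_right _ _)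
  refine ⟨C, by linarith, fun H hH => ?_⟩
  have hs0 : 0 ≤ √(Real.log H * Real.log (Real.log H)) := Real.sqrt_nonneg _
  have hCi : 0 < 1 / C := by positivity
  rcases le_total H0 H with hle | hle
  · have hne : {c0 : ℝ | ∃ c : ℕ → ℝ, Admissible H c0 c}.Nonempty := by
      refine ⟨1, fun _ => 0, ?_, ?_⟩
      · intro x; simp
      · simp
    apply le_csInf hne
    rintro c0 ⟨c, hA⟩
    refine le_trans ?_ (hH0 H hle c0 c hA)
    rw [div_eq_mul_one_div (Real.exp _), mul_comm (Real.exp _) (1 / 8)]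
    apply mul_le_mul _ _ (Real.exp_pos _).le (by norm_num)
    · exact one_div_le_one_div_of_le (by norm_num) hC8
    · apply Real.exp_le_exp.2
      nlinarith
  · refine le_trans ?_ (lower H (by omega))
    have hHpos : (0 : ℝ) < H := by
      have : 0 < H := by omega
      exact_mod_cast this
    calc 1 / C * Real.exp (-C * √(Real.log H * Real.log (Real.log H))) ≤ 1 / C * 1 := by
          apply mul_le_mul_of_nonneg_left _ hCi.le
          apply Real.exp_le_one_iff.2
          nlinarith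
      _ = 1 / C := mul_one _
      _ ≤ 1 / √(5 * (H : ℝ)) := by
          apply one_div_le_one_div_of_le (by positivity)
          refine le_trans ?_ hC2
          apply Real.sqrt_le_sqrt
          have : (H : ℝ) ≤ ((H0 + 1 : ℕ) : ℝ) := by exact_mod_cast (by omega)
          linarith

end Pool.Agent.Helper380.VDCX.Jq10
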