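import Mathlib
import Pool.Agent.Helper380.VDC.Defs
import Pool.Agent.Helper380.VDC.Defs4

set_option autoImplicit false

namespace Pool.Agent.Helper380.VDCX.Jq2

open Real Finset










theorem ee_add (a b : ℝ) : ee (a + b) = ee a * ee b := by
  unfold ee
  rw [← Complex.exp_add]
  congr 1
  push_cast
  ring

theorem ee_zero : ee 0 = 1 := by
  unfold ee
  simp

/-- one smoothing step with a prime and `R` levels -/
theorem multi_step
    (level_measure : ∀ (p : ℕ), p.Prime → p % 4 = 3 → ∀ (r : ℕ), 1 ≤ r → ∀ (κ : ℝ), |κ| ≤ 1 →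
      ∃ (ι : Type) (_ : Fintype ι) (ρ : ι → ℝ) (y : ι → ℝ), (∀ i, 0 ≤ ρ i) ∧
        ∀ k : ℕ, ∑ i, (ρ i : ℂ) * ee ((k : ℝ) ^ 2 * y i) =
          if p ^ r ∣ k then 1 else if p ^ (r - 1) ∣ k then Complex.I * κ / √(p : ℝ) else 0)
    (p : ℕ) (hp : p.Prime) (h3 : p % 4 = 3) (R : ℕ) (w κ : ℕ → ℝ)
    (hw : ∀ r ∈ range (R + 1), 0 ≤ w r) (hsum : ∑ r ∈ range (R + 1), w r = 1)
    (hκ : ∀ r, |κ r| ≤ 1) (F : ℕ → ℂ)
    (hF : ∀ k, 1 ≤ k → F k = ∑ r ∈ range (R + 1), (w r : ℂ) *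
      (if p ^ r ∣ k then 1 else if p ^ (r - 1) ∣ k then Complex.I * κ r / √(p : ℝ) else 0))
    (H : ℕ) (u0 : ℝ) (u : ℕ → ℂ)
    (hpos : ∀ x : ℝ, 0 ≤ u0 + (∑ k ∈ Icc 1 H, u k * ee ((k : ℝ) ^ 2 * x)).re) (x : ℝ) :
    w 0 * (u0 + (∑ k ∈ Icc 1 H, u k * ee ((k : ℝ) ^ 2 * x)).re) ≤
      u0 + (∑ k ∈ Icc 1 H, u k * F k * ee ((k : ℝ) ^ 2 * x)).re := by
  classical
  set m : ℕ → ℕ → ℂ := fun r k =>
    if p ^ r ∣ k then 1 else if p ^ (r - 1) ∣ k then Complex.I * κ r / √(p : ℝ) else 0 with hm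
  have hV : ∀ r, 1 ≤ r → 0 ≤ u0 + (∑ k ∈ Icc 1 H, u k * m r k * ee ((k : ℝ) ^ 2 * x)).re := by
    intro r hr
    obtain ⟨ι, _, ρ, y, hρ, hk⟩ := level_measure p hp h3 r hr (κ r) (hκ r)
    have h1 : ∑ i, ρ i = 1 := by
      have h := hk 0
      have h' : ∑ i, (ρ i : ℂ) = 1 := by
        simpa [ee_zero] using h
      exact_mod_cast h'
    have h2 : 0 ≤ ∑ i, ρ i * (u0 + (∑ k ∈ Icc 1 H, u k * ee ((k : ℝ) ^ 2 * (x + y i))).re) :=
      Finset.sum_nonneg fun i _ => mul_nonneg (hρ i) (hpos _)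
    have h3 : ∑ i, ρ i * (u0 + (∑ k ∈ Icc 1 H, u k * ee ((k : ℝ) ^ 2 * (x + y i))).re) =
        u0 + (∑ k ∈ Icc 1 H, u k * m r k * ee ((k : ℝ) ^ 2 * x)).re := by
      have h4 : ∀ i, ρ i * (u0 + (∑ k ∈ Icc 1 H, u k * ee ((k : ℝ) ^ 2 * (x + y i))).re) =
          ρ i * u0 + ((ρ i : ℂ) * ∑ k ∈ Icc 1 H, u k * ee ((k : ℝ) ^ 2 * (x + y i))).re := by
        intro i
        rw [Complex.re_ofReal_mul]
        ring
      rw [Finset.sum_congr rfl (fun i _ => h4 i), Finset.sum_add_distrib, ← Finset.sum_mul, h1,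
        one_mul, ← Complex.re_sum]
      congr 2
      simp_rw [Finset.mul_sum]
      rw [Finset.sum_comm]
      refine Finset.sum_congr rfl fun k _ => ?_
      have h5 : m r k = ∑ i, (ρ i : ℂ) * ee ((k : ℝ) ^ 2 * y i) := (hk k).symm
      rw [h5, Finset.mul_sum, Finset.sum_mul]
      refine Finset.sum_congr rfl fun i _ => ?_
      rw [mul_add, ee_add]
      ring
    rw [← h3]
    exact h2
  have hkey : u0 + (∑ k ∈ Icc 1 H, u k * F k * ee ((k : ℝ) ^ 2 * x)).re =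
      ∑ r ∈ range (R + 1), w r * (u0 + (∑ k ∈ Icc 1 H, u k * m r k * ee ((k : ℝ) ^ 2 * x)).re) := by
    have h4 : ∀ r, w r * (u0 + (∑ k ∈ Icc 1 H, u k * m r k * ee ((k : ℝ) ^ 2 * x)).re) =
        w r * u0 + ((w r : ℂ) * ∑ k ∈ Icc 1 H, u k * m r k * ee ((k : ℝ) ^ 2 * x)).re := by
      intro r
      rw [Complex.re_ofReal_mul]
      ring
    rw [Finset.sum_congr rfl (fun r _ => h4 r), Finset.sum_add_distrib, ← Finset.sum_mul, hsum,
      one_mul, ← Complex.re_sum]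
    congr 2
    simp_rw [Finset.mul_sum]
    rw [Finset.sum_comm]
    refine Finset.sum_congr rfl fun k hk => ?_
    rw [hF k (Finset.mem_Icc.1 hk).1, Finset.mul_sum, Finset.sum_mul]
    refine Finset.sum_congr rfl fun r _ => ?_
    simp only [hm]
    ring
  rw [hkey, Finset.sum_range_succ']
  have h0 : ∀ k, m 0 k = 1 := by
    intro k
    simp [hm]
  have h00 : (∑ k ∈ Icc 1 H, u k * m 0 k * ee ((k : ℝ) ^ 2 * x)) =
      ∑ k ∈ Icc 1 H, u k * ee ((k : ℝ) ^ 2 * x) := by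
    refine Finset.sum_congr rfl fun k _ => ?_
    rw [h0, mul_one]
  rw [h00]
  have hnn : 0 ≤ ∑ r ∈ range R, w (r + 1) *
      (u0 + (∑ k ∈ Icc 1 H, u k * m (r + 1) k * ee ((k : ℝ) ^ 2 * x)).re) := by
    refine Finset.sum_nonneg fun r hr => ?_
    refine mul_nonneg (hw _ ?_) (hV _ (by omega))
    rw [Finset.mem_range] at hr ⊢
    omega
  linarith

end Pool.Agent.Helper380.VDCX.Jq2
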