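import Mathlib
import Pool.Agent.Helper380.VDC.Defs
import Pool.Agent.Helper380.VDC.Defs4

set_option autoImplicit false

namespace Pool.Agent.Helper380.VDCX.Jq3

open Real Finset









theorem re_pos_pow (u : ℂ) (hu : ‖u‖ ≤ 1) (j : ℕ) : ‖u ^ j - 1‖ ≤ j * ‖u - 1‖ := by
  induction j with
  | zero => simp
  | succ j ih =>
    have e : u ^ (j + 1) - 1 = u ^ j * (u - 1) + (u ^ j - 1) := by ring
    rw [e]
    refine (norm_add_le _ _).trans ?_
    rw [norm_mul, norm_pow]
    have h1 : ‖u‖ ^ j ≤ 1 := pow_le_one₀ (norm_nonneg _) hu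
    have h2 : ‖u‖ ^ j * ‖u - 1‖ ≤ 1 * ‖u - 1‖ := mul_le_mul_of_nonneg_right h1 (norm_nonneg _)
    push_cast
    linarith

/-- real part of `e^{-z} z^j` for `z` close to the real axis -/
theorem re_pos (N R j : ℕ) (hR : 1 ≤ R) (hN : 100 * R ≤ N) (hj : j < R) (t : ℝ)
    (ht : 10 * (R : ℝ) / N ≤ t) (y : ℝ) (hy0 : 0 ≤ y) (hy : y ≤ π / (2 * N)) :
    Real.exp (-t) * ‖(t : ℂ) + Complex.I * y‖ ^ j / 2 ≤
      (Complex.exp (-((t : ℂ) + Complex.I * y)) * ((t : ℂ) + Complex.I * y) ^ j).re := by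
  have hR' : (1:ℝ) ≤ R := by exact_mod_cast hR
  have hN' : 100 * (R:ℝ) ≤ N := by exact_mod_cast hN
  have hNpos : (0:ℝ) < N := by linarith
  have htpos : 0 < t := lt_of_lt_of_le (by positivity) ht
  set w : ℂ := (t : ℂ) + Complex.I * y with hw
  set ρ : ℝ := ‖w‖ with hρ
  have hre : w.re = t := by simp [hw]
  have him : w.im = y := by simp [hw]
  have htρ : t ≤ ρ := by
    rw [← hre]; exact (le_abs_self _).trans (Complex.abs_re_le_norm w)
  have hρpos : 0 < ρ := lt_of_lt_of_le htpos htρ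
  have hρty : ρ ≤ t + y := by
    rw [hρ, hw]
    refine (norm_add_le _ _).trans ?_
    rw [norm_mul, Complex.norm_I, one_mul, Complex.norm_real, Complex.norm_real,
      Real.norm_of_nonneg htpos.le, Real.norm_of_nonneg hy0]
  set u : ℂ := w / (ρ : ℂ) with hu
  have hρne : (ρ : ℂ) ≠ 0 := by exact_mod_cast hρpos.ne'
  have hwu : w = (ρ : ℂ) * u := by rw [hu]; field_simp
  have hunorm : ‖u‖ ≤ 1 := by
    rw [hu, norm_div, Complex.norm_real, Real.norm_of_nonneg hρpos.le, ← hρ, div_self hρpos.ne']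
  have hu1 : ‖u - 1‖ ≤ 2 * y / t := by
    have e : u - 1 = (((t - ρ : ℝ) : ℂ) + Complex.I * y) / (ρ : ℂ) := by
      rw [hu, hw]; push_cast; field_simp; ring
    rw [e, norm_div, Complex.norm_real, Real.norm_of_nonneg hρpos.le]
    have h1 : ‖((t - ρ : ℝ) : ℂ) + Complex.I * y‖ ≤ 2 * y := by
      refine (norm_add_le _ _).trans ?_
      rw [norm_mul, Complex.norm_I, one_mul, Complex.norm_real, Complex.norm_real,
        Real.norm_of_nonneg hy0, Real.norm_eq_abs, abs_of_nonpos (by linarith)]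
      linarith
    calc ‖((t - ρ : ℝ) : ℂ) + Complex.I * y‖ / ρ ≤ (2 * y) / ρ :=
          div_le_div_of_nonneg_right h1 hρpos.le
      _ ≤ 2 * y / t := div_le_div_of_nonneg_left (by positivity) htpos htρ
  set v : ℂ := Complex.exp (Complex.I * ((-y : ℝ) : ℂ)) * u ^ j with hv
  have hv1 : ‖v - 1‖ ≤ 1 / 2 := by
    have e : v - 1 = Complex.exp (Complex.I * ((-y : ℝ) : ℂ)) * (u ^ j - 1) +
        (Complex.exp (Complex.I * ((-y : ℝ) : ℂ)) - 1) := by rw [hv]; ring
    have hn : ‖Complex.exp (Complex.I * ((-y : ℝ) : ℂ))‖ = 1 := by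
      rw [mul_comm]; exact Complex.norm_exp_ofReal_mul_I _
    have h3 : ‖Complex.exp (Complex.I * ((-y : ℝ) : ℂ)) - 1‖ ≤ y := by
      have := Real.norm_exp_I_mul_ofReal_sub_one_le (x := -y)
      rwa [norm_neg, Real.norm_of_nonneg hy0] at this
    have h4 : ‖v - 1‖ ≤ j * (2 * y / t) + y := by
      rw [e]
      refine (norm_add_le _ _).trans ?_
      rw [norm_mul, hn, one_mul]
      have h5 := re_pos_pow u hunorm j
      have h6 : (j:ℝ) * ‖u - 1‖ ≤ j * (2 * y / t) :=
        mul_le_mul_of_nonneg_left hu1 (Nat.cast_nonneg _)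
      linarith
    have hjR : (j:ℝ) ≤ R := by exact_mod_cast hj.le
    have h7 : 2 * y / t ≤ π / (10 * R) := by
      rw [div_le_div_iff₀ htpos (by positivity)]
      have h8 : 10 * (R:ℝ) ≤ t * N := by
        rwa [div_le_iff₀ hNpos] at ht
      have h9 : y * (2 * N) ≤ π := by
        rwa [le_div_iff₀ (by positivity)] at hy
      calc 2 * y * (10 * (R:ℝ)) ≤ 2 * y * (t * N) :=
            mul_le_mul_of_nonneg_left h8 (by positivity)
        _ = (y * (2 * N)) * t := by ring
        _ ≤ π * t := mul_le_mul_of_nonneg_right h9 htpos.le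
    have h10 : (j:ℝ) * (2 * y / t) ≤ π / 10 := by
      calc (j:ℝ) * (2 * y / t) ≤ R * (π / (10 * R)) :=
            mul_le_mul hjR h7 (by positivity) (by positivity)
        _ = π / 10 := by field_simp
    have h11 : y ≤ π / 200 := by
      refine hy.trans (div_le_div_of_nonneg_left Real.pi_pos.le (by norm_num) (by linarith))
    have hpi : π < 3.15 := Real.pi_lt_d2
    have : π / 10 + π / 200 ≤ 1 / 2 := by linarith
    linarith
  have hvre : 1 / 2 ≤ v.re := by
    have h1 : |(v - 1).re| ≤ 1 / 2 := (Complex.abs_re_le_norm _).trans hv1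
    rw [Complex.sub_re, Complex.one_re] at h1
    have := (abs_le.1 h1).1
    linarith
  have hmain : Complex.exp (-w) * w ^ j = ((Real.exp (-t) * ρ ^ j : ℝ) : ℂ) * v := by
    have e1 : Complex.exp (-w) = ((Real.exp (-t) : ℝ) : ℂ) * Complex.exp (Complex.I * ((-y : ℝ) : ℂ)) := by
      rw [Complex.ofReal_exp, ← Complex.exp_add]
      congr 1
      rw [hw]; push_cast; ring
    have e2 : w ^ j = ((ρ ^ j : ℝ) : ℂ) * u ^ j := by
      nth_rewrite 1 [hwu]
      rw [mul_pow]; push_cast; rfl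
    rw [e1, e2, hv]; push_cast; ring
  rw [hmain, Complex.re_ofReal_mul]
  have hpos : 0 ≤ Real.exp (-t) * ρ ^ j := by positivity
  have := mul_le_mul_of_nonneg_left hvre hpos
  linarith

theorem QQ_deriv_aux (j : ℕ) (z : ℂ) :
    HasDerivAt (fun z : ℂ => ∑ i ∈ range (j + 1), z ^ i / (i.factorial : ℂ))
      (∑ i ∈ range j, z ^ i / (i.factorial : ℂ)) z := by
  induction j with
  | zero => simpa using hasDerivAt_const z (1 : ℂ)
  | succ j ih =>
    have h1 : HasDerivAt (fun z : ℂ => z ^ (j + 1) / ((j + 1).factorial : ℂ))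
        (z ^ j / (j.factorial : ℂ)) z := by
      have h2 := (hasDerivAt_pow (j + 1) z).div_const ((j + 1).factorial : ℂ)
      have h3 : (j.factorial : ℂ) ≠ 0 := by exact_mod_cast j.factorial_ne_zero
      have h4 : ((j : ℂ) + 1) ≠ 0 := by exact_mod_cast j.succ_ne_zero
      have h6 : z ^ j / (j.factorial : ℂ) =
          ((j + 1 : ℕ) : ℂ) * z ^ (j + 1 - 1) / ((j + 1).factorial : ℂ) := by
        rw [Nat.factorial_succ]
        push_cast
        field_simp
      rw [h6]
      exact h2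
    have h5 := ih.add h1
    rw [sum_range_succ (fun i => z ^ i / (i.factorial : ℂ)) j]
    refine h5.congr_of_eventuallyEq ?_
    refine Filter.Eventually.of_forall fun x => ?_
    simp only [Pi.add_apply]
    rw [sum_range_succ (fun i => x ^ i / (i.factorial : ℂ)) (j + 1)]

/-- derivative of `Q_{j+1}` -/
theorem QQ_deriv (j : ℕ) (z : ℂ) :
    HasDerivAt (QQ (j + 1)) (Complex.exp (-z) * z ^ j / (j.factorial : ℂ)) z := by
  have h1 : HasDerivAt (fun z : ℂ => Complex.exp (-z)) (-Complex.exp (-z)) z := by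
    have := (hasDerivAt_neg z).cexp
    simpa using this
  have h2 := (h1.mul (QQ_deriv_aux j z)).const_sub 1
  have h3 : Complex.exp (-z) * z ^ j / (j.factorial : ℂ) =
      -(-Complex.exp (-z) * ∑ i ∈ range (j + 1), z ^ i / (i.factorial : ℂ) +
        Complex.exp (-z) * ∑ i ∈ range j, z ^ i / (i.factorial : ℂ)) := by
    rw [sum_range_succ]; ring
  rw [h3]
  exact h2

/-- imaginary part of `Q_{j+1}` -/
theorem im_le (j : ℕ) (t y : ℝ) (ht : 0 ≤ t) (hy : 0 ≤ y) :
    |(QQ (j + 1) ((t : ℂ) + Complex.I * y)).im| ≤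
      y * (Real.exp (-t) * ‖(t : ℂ) + Complex.I * y‖ ^ j / (j.factorial : ℝ)) := by
  have hline : ∀ s : ℝ, HasDerivAt (fun s : ℝ => (t : ℂ) + Complex.I * s) Complex.I s := by
    intro s
    have h1 : HasDerivAt (fun s : ℝ => (s : ℂ)) 1 s := Complex.ofRealCLM.hasDerivAt
    have := (h1.const_mul Complex.I).const_add (t : ℂ)
    simpa using this
  have hd : ∀ s : ℝ, HasDerivAt (fun s : ℝ => QQ (j + 1) ((t : ℂ) + Complex.I * s))
      (Complex.exp (-((t : ℂ) + Complex.I * s)) * ((t : ℂ) + Complex.I * s) ^ j /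
        (j.factorial : ℂ) * Complex.I) s := fun s =>
    (QQ_deriv j _).comp s (hline s)
  have hb : ∀ s ∈ Set.Ico (0:ℝ) y, ‖Complex.exp (-((t : ℂ) + Complex.I * s)) *
      ((t : ℂ) + Complex.I * s) ^ j / (j.factorial : ℂ) * Complex.I‖ ≤
      Real.exp (-t) * ‖(t : ℂ) + Complex.I * y‖ ^ j / (j.factorial : ℝ) := by
    intro s hs
    rw [norm_mul, Complex.norm_I, mul_one, norm_div, norm_mul, norm_pow, Complex.norm_exp,
      Complex.norm_natCast]
    have e1 : (-((t : ℂ) + Complex.I * s)).re = -t := by simp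
    rw [e1]
    have e2 : ‖(t : ℂ) + Complex.I * s‖ ≤ ‖(t : ℂ) + Complex.I * y‖ := by
      rw [Complex.norm_def, Complex.norm_def]
      apply Real.sqrt_le_sqrt
      simp only [Complex.normSq_apply, Complex.add_re, Complex.ofReal_re, Complex.mul_re,
        Complex.I_re, Complex.I_im, Complex.ofReal_im, Complex.add_im, Complex.mul_im]
      nlinarith [hs.1, hs.2]
    gcongr
  have h := norm_image_sub_le_of_norm_deriv_le_segment' (a := 0) (b := y)
    (fun s _ => (hd s).hasDerivWithinAt) hb y ⟨hy, le_rfl⟩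
  have h0 : (QQ (j + 1) ((t : ℂ) + Complex.I * ((0 : ℝ) : ℂ))).im = 0 := by
    have : QQ (j + 1) ((t : ℂ) + Complex.I * ((0 : ℝ) : ℂ)) =
        ((1 - Real.exp (-t) * ∑ i ∈ range (j + 1), t ^ i / (i.factorial : ℝ) : ℝ) : ℂ) := by
      unfold QQ
      push_cast
      simp
    rw [this, Complex.ofReal_im]
  have h1 : |(QQ (j + 1) ((t : ℂ) + Complex.I * y) -
      QQ (j + 1) ((t : ℂ) + Complex.I * ((0 : ℝ) : ℂ))).im| ≤ _ :=
    (Complex.abs_im_le_norm _).trans h
  rw [Complex.sub_im, h0, sub_zero, sub_zero] at h1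
  rw [mul_comm y]
  exact h1

end Pool.Agent.Helper380.VDCX.Jq3
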