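import Mathlib
import Pool.Agent.Helper380.VDC.Defs
import Pool.Agent.Helper380.VDC.Defs4

set_option autoImplicit false

namespace Pool.Agent.Helper380.VDCX.Jq4

open Real Finset










theorem w0n_re (R : ℕ) (hR : 1 ≤ R) (t θ s : ℝ) (ht : 0 < t) (hθ : 0 ≤ θ)
    (h1 : θ / t ≤ π / (20 * R)) (h2 : θ ≤ π / 4) (hs0 : 0 ≤ s) (hs1 : s ≤ 1) :
    0 ≤ (Complex.exp (-((s : ℂ) * ((t : ℂ) + Complex.I * (θ : ℝ)))) *
      ((t : ℂ) + Complex.I * (θ : ℝ)) ^ R).re := by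
  set z : ℂ := (t : ℂ) + Complex.I * (θ : ℝ) with hz
  have hre : z.re = t := by simp [hz]
  have him : z.im = θ := by simp [hz]
  set a := Complex.arg z with ha
  have ha0 : 0 ≤ a := Complex.arg_nonneg_iff.2 (by rw [him]; exact hθ)
  have ha1 : a < π / 2 := by
    have := Complex.abs_arg_lt_pi_div_two_iff.2 (Or.inl (show 0 < z.re by rw [hre]; exact ht))
    exact (abs_lt.1 this).2
  have ha2 : a ≤ θ / t := by
    have h3 := Real.le_tan ha0 ha1
    rwa [Complex.tan_arg, hre, him] at h3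
  have hRp : (1:ℝ) ≤ (R : ℝ) := by exact_mod_cast hR
  have ha3 : (R : ℝ) * a ≤ π / 20 := by
    calc (R : ℝ) * a ≤ R * (π / (20 * R)) := mul_le_mul_of_nonneg_left (ha2.trans h1) (by linarith)
      _ = π / 20 := by field_simp
  have hRa0 : 0 ≤ (R : ℝ) * a := mul_nonneg (by linarith) ha0
  have hpi := Real.pi_pos
  have hzz : z = (‖z‖ : ℂ) * Complex.exp (a * Complex.I) := (Complex.norm_mul_exp_arg_mul_I z).symm
  have hprod : Complex.exp (-((s : ℂ) * z)) * z ^ R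
      = ((Real.exp (-(s * t)) * ‖z‖ ^ R : ℝ) : ℂ) * Complex.exp (((R * a - s * θ : ℝ) : ℂ) * Complex.I) := by
    have hzR : z ^ R = (‖z‖ : ℂ) ^ R * Complex.exp ((R : ℂ) * (a * Complex.I)) := by
      conv_lhs => rw [hzz]
      rw [mul_pow, ← Complex.exp_nat_mul]
    have he : Complex.exp (-((s : ℂ) * z)) = Complex.exp ((-(s * t) : ℝ) : ℂ) *
        Complex.exp (-((s : ℂ) * θ) * Complex.I) := by
      rw [← Complex.exp_add]
      congr 1
      rw [hz]
      push_cast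
      ring
    rw [hzR, he]
    push_cast
    have h3 : Complex.exp (((R : ℂ) * a - s * θ) * Complex.I)
        = Complex.exp (-((s : ℂ) * θ) * Complex.I) * Complex.exp ((R : ℂ) * (a * Complex.I)) := by
      rw [← Complex.exp_add]
      congr 1
      ring
    rw [h3]
    ring
  rw [hprod, Complex.re_ofReal_mul, Complex.exp_ofReal_mul_I_re]
  apply mul_nonneg
  · positivity
  · have hsθ : s * θ ≤ θ := by nlinarith
    have hsθ0 : 0 ≤ s * θ := mul_nonneg hs0 hθ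
    apply Real.cos_nonneg_of_neg_pi_div_two_le_of_le
    · linarith
    · linarith

/-- `Re Q_R ≥ 0` -/
theorem w0_nonneg
    (re_pos : ∀ (N R j : ℕ), 1 ≤ R → 100 * R ≤ N → j < R → ∀ (t : ℝ), 10 * (R : ℝ) / N ≤ t →
      ∀ (y : ℝ), 0 ≤ y → y ≤ π / (2 * N) →
      Real.exp (-t) * ‖(t : ℂ) + Complex.I * y‖ ^ j / 2 ≤
        (Complex.exp (-((t : ℂ) + Complex.I * y)) * ((t : ℂ) + Complex.I * y) ^ j).re)
    (QQ_deriv : ∀ (j : ℕ) (z : ℂ),
      HasDerivAt (QQ (j + 1)) (Complex.exp (-z) * z ^ j / (j.factorial : ℂ)) z)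
    (N R : ℕ) (hR : 1 ≤ R) (hN : 100 * R ≤ N) (t : ℝ) (ht : 10 * (R : ℝ) / N ≤ t) :
    0 ≤ (QQ R ((t : ℂ) + Complex.I * (π / (2 * N) : ℝ))).re := by
  obtain ⟨j, rfl⟩ : ∃ j, R = j + 1 := ⟨R - 1, by omega⟩
  have hNR : (100:ℝ) * ((j + 1 : ℕ) : ℝ) ≤ (N : ℝ) := by exact_mod_cast hN
  have hRp : (1:ℝ) ≤ ((j + 1 : ℕ) : ℝ) := by exact_mod_cast hR
  have hNp : (100:ℝ) ≤ (N : ℝ) := by linarith
  have hpi := Real.pi_pos
  have ht0 : 0 < t := lt_of_lt_of_le (by positivity) ht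
  set θ : ℝ := π / (2 * N) with hθ
  have hθ0 : 0 ≤ θ := by rw [hθ]; positivity
  have h1 : θ / t ≤ π / (20 * ((j + 1 : ℕ) : ℝ)) := by
    rw [div_le_iff₀ ht0]
    calc θ = π / (20 * ((j + 1 : ℕ) : ℝ)) * (10 * ((j + 1 : ℕ) : ℝ) / N) := by
          rw [hθ]; field_simp; ring
      _ ≤ π / (20 * ((j + 1 : ℕ) : ℝ)) * t := mul_le_mul_of_nonneg_left ht (by positivity)
  have h2 : θ ≤ π / 4 := by
    rw [hθ]
    apply div_le_div_of_nonneg_left hpi.le (by norm_num)
    linarith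
  set z : ℂ := (t : ℂ) + Complex.I * (θ : ℝ) with hz
  have hder : ∀ s : ℝ, HasDerivAt (fun s : ℝ => (QQ (j + 1) ((s : ℂ) * z)).re)
      ((Complex.exp (-((s : ℂ) * z)) * ((s : ℂ) * z) ^ j / (j.factorial : ℂ) * z).re) s := by
    intro s
    have h3 : HasDerivAt (fun w : ℂ => QQ (j + 1) (w * z))
        (Complex.exp (-((s : ℂ) * z)) * ((s : ℂ) * z) ^ j / (j.factorial : ℂ) * z) (s : ℂ) := by
      have h4 := QQ_deriv j ((s : ℂ) * z)
      have h5 : HasDerivAt (fun w : ℂ => w * z) z (s : ℂ) := by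
        simpa using (hasDerivAt_id (s : ℂ)).mul_const z
      exact HasDerivAt.comp (h₂ := QQ (j + 1)) (h := fun w : ℂ => w * z) (s : ℂ) h4 h5
    exact h3.real_of_complex
  have hmono : MonotoneOn (fun s : ℝ => (QQ (j + 1) ((s : ℂ) * z)).re) (Set.Icc 0 1) := by
    apply monotoneOn_of_deriv_nonneg (convex_Icc 0 1)
    · exact fun s _ => (hder s).continuousAt.continuousWithinAt
    · exact fun s _ => (hder s).differentiableAt.differentiableWithinAt
    · intro s hs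
      rw [interior_Icc] at hs
      rw [(hder s).deriv]
      have h6 := w0n_re (j + 1) hR t θ s ht0 hθ0 h1 h2 hs.1.le hs.2.le
      have h7 : Complex.exp (-((s : ℂ) * z)) * ((s : ℂ) * z) ^ j / (j.factorial : ℂ) * z
          = ((s ^ j / (j.factorial : ℝ) : ℝ) : ℂ) * (Complex.exp (-((s : ℂ) * z)) * z ^ (j + 1)) := by
        push_cast
        ring
      rw [h7, Complex.re_ofReal_mul]
      apply mul_nonneg _ h6
      have := hs.1.le
      positivity
  have h8 := hmono (Set.left_mem_Icc.2 zero_le_one) (Set.right_mem_Icc.2 zero_le_one) zero_le_one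
  have h9 : QQ (j + 1) (((0 : ℝ) : ℂ) * z) = 0 := by
    unfold QQ
    rw [Complex.ofReal_zero, zero_mul, neg_zero, Complex.exp_zero, one_mul, Finset.sum_range_succ']
    simp
  have h10 : ((1 : ℝ) : ℂ) * z = z := by rw [Complex.ofReal_one, one_mul]
  simp only [h9, h10, Complex.zero_re] at h8
  exact h8

end Pool.Agent.Helper380.VDCX.Jq4
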