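import Mathlib
import Pool.Agent.Helper380.VDC.Defs
import Pool.Agent.Helper380.VDC.Defs4

set_option autoImplicit false

namespace Pool.Agent.Helper380.VDCX.Jq5

open Real Finset









/-- the local weights -/
theorem local_params
    (re_pos : ∀ (N R j : ℕ), 1 ≤ R → 100 * R ≤ N → j < R → ∀ (t : ℝ), 10 * (R : ℝ) / N ≤ t →
      ∀ (y : ℝ), 0 ≤ y → y ≤ π / (2 * N) →
      Real.exp (-t) * ‖(t : ℂ) + Complex.I * y‖ ^ j / 2 ≤
        (Complex.exp (-((t : ℂ) + Complex.I * y)) * ((t : ℂ) + Complex.I * y) ^ j).re)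
    (im_le : ∀ (j : ℕ) (t y : ℝ), 0 ≤ t → 0 ≤ y →
      |(QQ (j + 1) ((t : ℂ) + Complex.I * y)).im| ≤
        y * (Real.exp (-t) * ‖(t : ℂ) + Complex.I * y‖ ^ j / (j.factorial : ℝ)))
    (w0_nonneg : ∀ (N R : ℕ), 1 ≤ R → 100 * R ≤ N → ∀ (t : ℝ), 10 * (R : ℝ) / N ≤ t →
      0 ≤ (QQ R ((t : ℂ) + Complex.I * (π / (2 * N) : ℝ))).re)
    (p : ℕ) (hp : p.Prime) (N R : ℕ) (hR : 1 ≤ R) (hN : 100 * R ≤ N) (hpN : 16 * p ≤ N ^ 2)
    (t : ℝ) (ht : 10 * (R : ℝ) / N ≤ t) (z : ℂ)
    (hz : z = (t : ℂ) + Complex.I * (π / (2 * N) : ℝ)) :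
    ∃ (w κ : ℕ → ℝ), (∀ r ∈ range (R + 1), 0 ≤ w r) ∧ ∑ r ∈ range (R + 1), w r = 1 ∧
      (∀ r, |κ r| ≤ 1) ∧ w 0 = (QQ R z).re ∧
      ∀ k, 1 ≤ k → QQ (R - padicValNat p k) z = ∑ r ∈ range (R + 1), (w r : ℂ) *
        (if p ^ r ∣ k then 1 else if p ^ (r - 1) ∣ k then Complex.I * κ r / √(p : ℝ) else 0) := by
  have hN1 : 0 < N := by omega
  have hNr : (0:ℝ) < N := by exact_mod_cast hN1
  have hRr : (1:ℝ) ≤ R := by exact_mod_cast hR
  have hy0 : 0 < π / (2 * (N : ℝ)) := by positivity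
  have ht0 : 0 < t := lt_of_lt_of_le (by positivity) ht
  have hznorm : 0 < ‖z‖ := by
    rw [norm_pos_iff]
    intro h0
    have h1 : z.re = t := by
      rw [hz, Complex.add_re, Complex.ofReal_re, Complex.I_mul_re, Complex.ofReal_im]
      simp
    rw [h0] at h1
    simp at h1
    linarith
  obtain ⟨c, hc⟩ : ∃ c : ℕ → ℝ, c = fun i =>
      (Complex.exp (-z) * (z ^ i / (i.factorial : ℂ))).re := ⟨_, rfl⟩
  have hcre : ∀ i, c i = (Complex.exp (-z) * z ^ i).re / (i.factorial : ℝ) := by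
    intro i
    rw [hc]
    show (Complex.exp (-z) * (z ^ i / (i.factorial : ℂ))).re = _
    rw [← mul_div_assoc]
    rw [show ((i.factorial : ℕ) : ℂ) = (((i.factorial : ℕ) : ℝ) : ℂ) by push_cast; rfl]
    rw [Complex.div_ofReal_re]
  have hclow : ∀ i < R, (Real.exp (-t) * ‖z‖ ^ i / (i.factorial : ℝ)) / 2 ≤ c i := by
    intro i hi
    have h1 := re_pos N R i hR hN hi t ht (π / (2 * (N : ℝ))) hy0.le le_rfl
    rw [← hz] at h1
    rw [hcre i, div_right_comm]
    exact div_le_div_of_nonneg_right h1 (by positivity)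
  have hM : ∀ i, 0 < Real.exp (-t) * ‖z‖ ^ i / (i.factorial : ℝ) := by
    intro i
    have : (0:ℝ) < (i.factorial : ℝ) := by exact_mod_cast Nat.factorial_pos i
    positivity
  have hcpos : ∀ i < R, 0 < c i := by
    intro i hi
    have h1 := hclow i hi
    have h2 := hM i
    linarith
  have hQ : ∀ j, (QQ (j + 1) z).re = (QQ j z).re - c j := by
    intro j
    rw [hc]
    unfold QQ
    rw [Finset.sum_range_succ, mul_add]
    simp only [Complex.sub_re, Complex.add_re]
    ring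
  have hQ0 : (QQ 0 z) = 1 := by
    unfold QQ
    simp
  have hsp : Real.sqrt (p : ℝ) ≤ N / 4 := by
    rw [Real.sqrt_le_left (by positivity)]
    have h1 : (16 * (p : ℝ)) ≤ (N : ℝ) ^ 2 := by exact_mod_cast hpN
    nlinarith
  have hpr : (0:ℝ) < p := by exact_mod_cast hp.pos
  have hsp0 : 0 < Real.sqrt (p : ℝ) := Real.sqrt_pos.mpr hpr
  have hsy : Real.sqrt (p : ℝ) * (π / (2 * (N : ℝ))) ≤ 1 / 2 := by
    have h1 : Real.sqrt (p : ℝ) * (π / (2 * (N : ℝ))) ≤ (N / 4) * (π / (2 * (N : ℝ))) :=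
      mul_le_mul_of_nonneg_right hsp hy0.le
    have h2 : ((N : ℝ) / 4) * (π / (2 * (N : ℝ))) = π / 8 := by
      field_simp
      norm_num
    have h3 : π ≤ 4 := Real.pi_le_four
    linarith
  obtain ⟨w, hw⟩ : ∃ w : ℕ → ℝ, w = fun r => if r = 0 then (QQ R z).re else c (R - r) := ⟨_, rfl⟩
  obtain ⟨κ, hκ⟩ : ∃ κ : ℕ → ℝ, κ = fun r => if 1 ≤ r ∧ r ≤ R then
    Real.sqrt (p : ℝ) * (QQ (R - r + 1) z).im / c (R - r) else 0 := ⟨_, rfl⟩
  have hw0 : w 0 = (QQ R z).re := by
    rw [hw]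
    simp
  have hws : ∀ r, w (r + 1) = c (R - (r + 1)) := by
    intro r
    rw [hw]
    simp
  have hsum : ∀ v, v ≤ R → ∑ r ∈ range (v + 1), w r = (QQ (R - v) z).re := by
    intro v
    induction v with
    | zero =>
      intro _
      simp [hw0]
    | succ v ih =>
      intro hv
      rw [Finset.sum_range_succ, ih (by omega), hws]
      have h1 := hQ (R - (v + 1))
      rw [show R - (v + 1) + 1 = R - v by omega] at h1
      rw [h1]
      ring
  have hsumR : ∑ r ∈ range (R + 1), w r = 1 := by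
    rw [hsum R le_rfl, Nat.sub_self, hQ0]
    simp
  refine ⟨w, κ, ?_, hsumR, ?_, hw0, ?_⟩
  · intro r hr
    rcases Nat.eq_zero_or_pos r with h | h
    · rw [h, hw0, hz]
      exact w0_nonneg N R hR hN t ht
    · obtain ⟨s, rfl⟩ : ∃ s, r = s + 1 := ⟨r - 1, by omega⟩
      rw [hws]
      exact (hcpos _ (by omega)).le
  · intro r
    rw [hκ]
    show |if 1 ≤ r ∧ r ≤ R then
      Real.sqrt (p : ℝ) * (QQ (R - r + 1) z).im / c (R - r) else 0| ≤ 1
    split_ifs with h
    · have hj : R - r < R := by omega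
      have h1 := im_le (R - r) t (π / (2 * (N : ℝ))) ht0.le hy0.le
      rw [← hz] at h1
      have h2 := hclow (R - r) hj
      have h3 := hM (R - r)
      have h4 := hcpos (R - r) hj
      rw [abs_div, abs_mul, abs_of_pos hsp0, abs_of_pos h4, div_le_one h4]
      calc Real.sqrt (p : ℝ) * |(QQ (R - r + 1) z).im|
          ≤ Real.sqrt (p : ℝ) * (π / (2 * (N : ℝ)) *
            (Real.exp (-t) * ‖z‖ ^ (R - r) / ((R - r).factorial : ℝ))) :=
            mul_le_mul_of_nonneg_left h1 hsp0.le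
        _ = (Real.sqrt (p : ℝ) * (π / (2 * (N : ℝ)))) *
            (Real.exp (-t) * ‖z‖ ^ (R - r) / ((R - r).factorial : ℝ)) := by ring
        _ ≤ (1 / 2) * (Real.exp (-t) * ‖z‖ ^ (R - r) / ((R - r).factorial : ℝ)) :=
            mul_le_mul_of_nonneg_right hsy h3.le
        _ ≤ c (R - r) := by linarith
    · simp
  · intro k hk
    have : Fact p.Prime := ⟨hp⟩
    have hdiv : ∀ r, p ^ r ∣ k ↔ r ≤ padicValNat p k := fun r =>
      padicValNat_dvd_iff_le (by omega)
    obtain ⟨v, hv⟩ : ∃ v, v = padicValNat p k := ⟨_, rfl⟩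
    simp only [hdiv, ← hv]
    by_cases hvR : R ≤ v
    · rw [Nat.sub_eq_zero_of_le hvR, hQ0]
      have h1 : ∑ r ∈ range (R + 1), (w r : ℂ) *
          (if r ≤ v then 1 else if r - 1 ≤ v then Complex.I * κ r / √(p : ℝ) else 0) =
          ∑ r ∈ range (R + 1), (w r : ℂ) := by
        refine Finset.sum_congr rfl fun r hr => ?_
        have hr' := Finset.mem_range.mp hr
        rw [if_pos (by omega), mul_one]
      rw [h1, ← Complex.ofReal_sum, hsumR]
      simp
    · have hvR' : v < R := not_le.mp hvR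
      have h1 : ∑ r ∈ range (R + 1), (w r : ℂ) *
          (if r ≤ v then 1 else if r - 1 ≤ v then Complex.I * κ r / √(p : ℝ) else 0) =
          ∑ r ∈ range (v + 2), (w r : ℂ) *
          (if r ≤ v then 1 else if r - 1 ≤ v then Complex.I * κ r / √(p : ℝ) else 0) := by
        symm
        apply Finset.sum_subset
        · intro r hr
          rw [Finset.mem_range] at hr ⊢
          omega
        · intro r hr hr'
          rw [Finset.mem_range] at hr hr'
          rw [if_neg (by omega), if_neg (by omega), mul_zero]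
      have h2 : ∑ r ∈ range (v + 1), (w r : ℂ) *
          (if r ≤ v then 1 else if r - 1 ≤ v then Complex.I * κ r / √(p : ℝ) else 0) =
          ∑ r ∈ range (v + 1), (w r : ℂ) := by
        refine Finset.sum_congr rfl fun r hr => ?_
        have hr' := Finset.mem_range.mp hr
        rw [if_pos (by omega), mul_one]
      rw [h1, Finset.sum_range_succ, h2, ← Complex.ofReal_sum, hsum v hvR'.le, hws,
        if_neg (by omega), if_pos (by omega)]
      have h3 : κ (v + 1) = Real.sqrt (p : ℝ) * (QQ (R - v) z).im / c (R - (v + 1)) := by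
        rw [hκ]
        show (if 1 ≤ v + 1 ∧ v + 1 ≤ R then
          Real.sqrt (p : ℝ) * (QQ (R - (v + 1) + 1) z).im / c (R - (v + 1)) else 0) = _
        rw [if_pos ⟨by omega, by omega⟩, show R - (v + 1) + 1 = R - v by omega]
      have h4 : (c (R - (v + 1)) : ℂ) ≠ 0 := by
        have := hcpos (R - (v + 1)) (by omega)
        exact_mod_cast this.ne'
      have h5 : ((Real.sqrt (p : ℝ) : ℝ) : ℂ) ≠ 0 := by
        exact_mod_cast hsp0.ne'
      rw [h3]
      conv_lhs => rw [← Complex.re_add_im (QQ (R - v) z)]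
      push_cast
      field_simp

end Pool.Agent.Helper380.VDCX.Jq5
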