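import Mathlib
import Pool.Agent.Helper380.VDC.Defs
import Pool.Agent.Helper380.VDC.Defs4

set_option autoImplicit false

namespace Pool.Agent.Helper380.VDCX.Jq6

open Real Finset









theorem ee_re (θ : ℝ) : (ee θ).re = Real.cos (2 * π * θ) := by
  unfold ee
  rw [Complex.exp_ofReal_mul_I_re]

/-- all primes of a finite set, `R` levels -/
theorem multi_all
    (multi_step : ∀ (p : ℕ), p.Prime → p % 4 = 3 → ∀ (R : ℕ) (w κ : ℕ → ℝ),
      (∀ r ∈ range (R + 1), 0 ≤ w r) → (∑ r ∈ range (R + 1), w r = 1) → (∀ r, |κ r| ≤ 1) →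
      ∀ (F : ℕ → ℂ),
      (∀ k, 1 ≤ k → F k = ∑ r ∈ range (R + 1), (w r : ℂ) *
        (if p ^ r ∣ k then 1 else if p ^ (r - 1) ∣ k then Complex.I * κ r / √(p : ℝ) else 0)) →
      ∀ (H : ℕ) (u0 : ℝ) (u : ℕ → ℂ),
      (∀ x : ℝ, 0 ≤ u0 + (∑ k ∈ Icc 1 H, u k * ee ((k : ℝ) ^ 2 * x)).re) → ∀ (x : ℝ),
      w 0 * (u0 + (∑ k ∈ Icc 1 H, u k * ee ((k : ℝ) ^ 2 * x)).re) ≤
        u0 + (∑ k ∈ Icc 1 H, u k * F k * ee ((k : ℝ) ^ 2 * x)).re)
    (local_params : ∀ (p : ℕ), p.Prime → ∀ (N R : ℕ), 1 ≤ R → 100 * R ≤ N → 16 * p ≤ N ^ 2 →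
      ∀ (t : ℝ), 10 * (R : ℝ) / N ≤ t → ∀ (z : ℂ),
      (z = (t : ℂ) + Complex.I * (π / (2 * N) : ℝ)) →
      ∃ (w κ : ℕ → ℝ), (∀ r ∈ range (R + 1), 0 ≤ w r) ∧ ∑ r ∈ range (R + 1), w r = 1 ∧
        (∀ r, |κ r| ≤ 1) ∧ w 0 = (QQ R z).re ∧
        ∀ k, 1 ≤ k → QQ (R - padicValNat p k) z = ∑ r ∈ range (R + 1), (w r : ℂ) *
          (if p ^ r ∣ k then 1 else if p ^ (r - 1) ∣ k then Complex.I * κ r / √(p : ℝ) else 0))
    (P : Finset ℕ) (hP : ∀ p ∈ P, p.Prime ∧ p % 4 = 3) (N R : ℕ) (hR : 1 ≤ R) (hN : 100 * R ≤ N)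
    (hNP : ∀ p ∈ P, 16 * p ≤ N ^ 2) (t : ℝ) (ht : 10 * (R : ℝ) / N ≤ t) (z : ℂ)
    (hz : z = (t : ℂ) + Complex.I * (π / (2 * N) : ℝ)) (H : ℕ) (c0 : ℝ) (c : ℕ → ℝ)
    (hpos : ∀ x : ℝ, 0 ≤ c0 + ∑ k ∈ Icc 1 H, c k * Real.cos (2 * π * (k : ℝ) ^ 2 * x)) :
    (QQ R z).re ^ P.card * (c0 + ∑ k ∈ Icc 1 H, c k) ≤
      c0 + ∑ k ∈ Icc 1 H, c k * (∏ p ∈ P, QQ (R - padicValNat p k) z).re := by
  classical
  have main : ∀ P : Finset ℕ, (∀ p ∈ P, p.Prime ∧ p % 4 = 3) → (∀ p ∈ P, 16 * p ≤ N ^ 2) →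
      ∀ x : ℝ, (QQ R z).re ^ P.card * (c0 + ∑ k ∈ Icc 1 H, c k * Real.cos (2 * π * (k : ℝ) ^ 2 * x)) ≤
        c0 + (∑ k ∈ Icc 1 H, ((c k : ℂ) * ∏ p ∈ P, QQ (R - padicValNat p k) z) *
          ee ((k : ℝ) ^ 2 * x)).re := by
    intro P
    induction P using Finset.induction_on with
    | empty =>
      intro _ _ x
      apply le_of_eq
      simp only [Finset.card_empty, pow_zero, one_mul, Finset.prod_empty, mul_one, Complex.re_sum]
      congr 1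
      refine Finset.sum_congr rfl (fun k _ => ?_)
      rw [Complex.re_ofReal_mul, ee_re]
      congr 2
      ring
    | insert p P hp ih =>
      intro h1 h2 x
      obtain ⟨hpp, hp4⟩ := h1 p (Finset.mem_insert_self p P)
      obtain ⟨w, κ, hw, hsum, hκ, hw0, hF⟩ := local_params p hpp N R hR hN
        (h2 p (Finset.mem_insert_self p P)) t ht z hz
      have ha : 0 ≤ (QQ R z).re := by
        rw [← hw0]
        exact hw 0 (by simp)
      have ih' := ih (fun q hq => h1 q (Finset.mem_insert_of_mem hq))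
        (fun q hq => h2 q (Finset.mem_insert_of_mem hq))
      have hnn : ∀ x : ℝ, 0 ≤ c0 + (∑ k ∈ Icc 1 H, ((c k : ℂ) * ∏ p ∈ P, QQ (R - padicValNat p k) z) *
          ee ((k : ℝ) ^ 2 * x)).re := fun x =>
        le_trans (mul_nonneg (pow_nonneg ha _) (hpos x)) (ih' x)
      have hst := multi_step p hpp hp4 R w κ hw hsum hκ (fun k => QQ (R - padicValNat p k) z) hF
        H c0 (fun k => (c k : ℂ) * ∏ p ∈ P, QQ (R - padicValNat p k) z) hnn x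
      rw [hw0] at hst
      have e1 : ∑ k ∈ Icc 1 H, ((c k : ℂ) * ∏ q ∈ insert p P, QQ (R - padicValNat q k) z) *
          ee ((k : ℝ) ^ 2 * x) = ∑ k ∈ Icc 1 H, ((c k : ℂ) * ∏ q ∈ P, QQ (R - padicValNat q k) z) *
          QQ (R - padicValNat p k) z * ee ((k : ℝ) ^ 2 * x) := by
        refine Finset.sum_congr rfl (fun k _ => ?_)
        rw [Finset.prod_insert hp]
        ring
      rw [e1, Finset.card_insert_of_notMem hp, pow_succ]
      refine le_trans ?_ hst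
      have h3 := mul_le_mul_of_nonneg_left (ih' x) ha
      calc (QQ R z).re ^ P.card * (QQ R z).re *
            (c0 + ∑ k ∈ Icc 1 H, c k * Real.cos (2 * π * (k : ℝ) ^ 2 * x))
          = (QQ R z).re * ((QQ R z).re ^ P.card *
            (c0 + ∑ k ∈ Icc 1 H, c k * Real.cos (2 * π * (k : ℝ) ^ 2 * x))) := by ring
        _ ≤ _ := h3
  have h0 := main P hP hNP 0
  have e1 : ∀ k : ℕ, Real.cos (2 * π * (k : ℝ) ^ 2 * 0) = 1 := fun k => by
    rw [mul_zero, Real.cos_zero]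
  have e2 : ∀ k : ℕ, ee ((k : ℝ) ^ 2 * 0) = 1 := fun k => by
    unfold ee; simp
  simp only [e1, e2, mul_one, Complex.re_sum, Complex.re_ofReal_mul] at h0
  exact h0

end Pool.Agent.Helper380.VDCX.Jq6
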