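import Mathlib
import Pool.Agent.Helper380.VDC.Defs
import Pool.Agent.Helper380.VDC.Defs4

set_option autoImplicit false

namespace Pool.Agent.Helper380.VDCX.Jq7

open Real Finset










/-- contour shift -/
theorem moment2 (N : ℕ) (hN : 1 ≤ N) (Φ : ℂ → ℂ) (hΦ : Differentiable ℂ Φ)
    (hreal : ∀ x : ℝ, (Φ x).im = 0) (t0 T B0 B1 : ℝ) (ht0 : 0 ≤ t0) (hT : t0 ≤ T)
    (h0 : ∀ y : ℝ, 0 ≤ y → y ≤ π / (2 * N) → ‖Φ ((t0 : ℂ) + Complex.I * y)‖ ≤ B0)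
    (h1 : ∀ y : ℝ, 0 ≤ y → y ≤ π / (2 * N) → ‖Φ ((T : ℂ) + Complex.I * y)‖ ≤ B1) :
    |∫ t in t0..T, Real.exp (-(N : ℝ) * t) *
        (Φ ((t : ℂ) + Complex.I * (π / (2 * N) : ℝ))).re| ≤
      π / (2 * N) * (B0 + Real.exp (-(N : ℝ) * T) * B1) := by
  have hNpos : (0:ℝ) < N := by exact_mod_cast hN
  obtain ⟨θ, hθ⟩ : ∃ θ : ℝ, θ = π / (2 * (N:ℝ)) := ⟨_, rfl⟩
  rw [← hθ] at h0 h1 ⊢
  have hθ0 : 0 ≤ θ := by rw [hθ]; positivity
  have hNθ : (N:ℝ) * θ = π / 2 := by rw [hθ]; field_simp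
  obtain ⟨f, hfdef⟩ : ∃ f : ℂ → ℂ, ∀ z, f z = Complex.exp (-(N:ℂ) * z) * Φ z := ⟨_, fun _ => rfl⟩
  have hf : Differentiable ℂ f := by
    have : f = fun z => Complex.exp (-(N:ℂ) * z) * Φ z := funext hfdef
    rw [this]
    exact ((differentiable_id.const_mul (-(N:ℂ))).cexp).mul hΦ
  have hfc : Continuous f := hf.continuous
  have hrect := Complex.integral_boundary_rect_eq_zero_of_differentiableOn f (t0 : ℂ)
    ((T:ℂ) + θ * Complex.I) hf.differentiableOn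
  simp only [Complex.ofReal_re, Complex.ofReal_im, Complex.add_re, Complex.mul_re, Complex.I_re,
    Complex.I_im, Complex.add_im, Complex.mul_im, mul_zero, mul_one, sub_zero, zero_mul, add_zero,
    zero_add, Complex.ofReal_zero, smul_eq_mul] at hrect
  have hexp : ∀ x : ℝ, Complex.exp (-(N:ℂ) * x) = ((Real.exp (-(N:ℝ) * x) : ℝ) : ℂ) := by
    intro x
    push_cast
    rfl
  have hA : (∫ x in t0..T, f (x:ℂ)).im = 0 := by
    have h := Complex.imCLM.intervalIntegral_comp_comm (μ := MeasureTheory.volume)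
      (((hfc.comp Complex.continuous_ofReal)).intervalIntegrable t0 T)
    have h2 : ∀ x : ℝ, Complex.imCLM ((f ∘ fun y : ℝ => (y:ℂ)) x) = 0 := by
      intro x
      show (f (x:ℂ)).im = 0
      rw [hfdef, hexp, Complex.im_ofReal_mul, hreal, mul_zero]
    simp only [h2] at h
    rw [intervalIntegral.integral_zero] at h
    exact h.symm
  have hmain : ∀ t : ℝ, Real.exp (-(N:ℝ)*t) * (Φ ((t:ℂ) + Complex.I * (θ:ℝ))).re
      = Complex.reCLM (Complex.I * f ((t:ℂ) + θ * Complex.I)) := by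
    intro t
    have e1 : Complex.exp (-(N:ℂ) * ((t:ℂ) + θ * Complex.I))
        = ((Real.exp (-(N:ℝ)*t) : ℝ):ℂ) * (-Complex.I) := by
      have e2 : (N:ℂ) * (θ:ℂ) = (π:ℂ) / 2 := by exact_mod_cast congrArg (fun r : ℝ => (r:ℂ)) hNθ
      have e3 : -(N:ℂ) * ((t:ℂ) + θ*Complex.I) = -(N:ℂ)*t + (-(π:ℂ)/2 * Complex.I) := by
        linear_combination (-Complex.I) * e2
      rw [e3, Complex.exp_add, hexp, Complex.exp_neg_pi_div_two_mul_I]
    show _ = (Complex.I * f ((t:ℂ) + θ * Complex.I)).re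
    rw [hfdef, e1, mul_comm (θ:ℂ) Complex.I]
    have e4 : Complex.I * (((Real.exp (-(N:ℝ)*t) : ℝ):ℂ) * (-Complex.I) * Φ ((t:ℂ) + Complex.I * θ))
        = ((Real.exp (-(N:ℝ)*t) : ℝ):ℂ) * Φ ((t:ℂ) + Complex.I * θ) := by
      linear_combination (-((Real.exp (-(N:ℝ)*t) : ℝ):ℂ) * Φ ((t:ℂ) + Complex.I * θ)) * Complex.I_mul_I
    rw [e4, Complex.re_ofReal_mul]
  have hc2 : Continuous (fun t : ℝ => Complex.I * f ((t:ℂ) + θ * Complex.I)) :=
    continuous_const.mul (hfc.comp (Complex.continuous_ofReal.add continuous_const))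
  have h3 : (∫ t in t0..T, Real.exp (-(N:ℝ)*t) * (Φ ((t:ℂ) + Complex.I * (θ:ℝ))).re)
      = (Complex.I * ∫ t in t0..T, f ((t:ℂ) + θ * Complex.I)).re := by
    simp_rw [hmain]
    rw [Complex.reCLM.intervalIntegral_comp_comm (hc2.intervalIntegrable t0 T),
      intervalIntegral.integral_const_mul]
    rfl
  rw [h3]
  obtain ⟨A, hAd⟩ : ∃ A : ℂ, A = ∫ x in t0..T, f (x:ℂ) := ⟨_, rfl⟩
  obtain ⟨B, hBd⟩ : ∃ B : ℂ, B = ∫ t in t0..T, f ((t:ℂ) + θ * Complex.I) := ⟨_, rfl⟩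
  obtain ⟨R, hRd⟩ : ∃ R : ℂ, R = ∫ y in (0:ℝ)..θ, f ((T:ℂ) + y * Complex.I) := ⟨_, rfl⟩
  obtain ⟨L, hLd⟩ : ∃ L : ℂ, L = ∫ y in (0:ℝ)..θ, f ((t0:ℂ) + y * Complex.I) := ⟨_, rfl⟩
  have hR : ‖R‖ ≤ (Real.exp (-(N:ℝ) * T) * B1) * |θ - 0| := by
    rw [hRd]
    refine intervalIntegral.norm_integral_le_of_norm_le_const ?_
    intro y hy
    rw [Set.uIoc_of_le hθ0] at hy
    rw [hfdef, norm_mul, Complex.norm_exp]
    have e5 : (-(N:ℂ) * ((T:ℂ) + y * Complex.I)).re = -(N:ℝ) * T := by simp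
    rw [e5, mul_comm (y:ℂ) Complex.I]
    exact mul_le_mul_of_nonneg_left (h1 y hy.1.le hy.2) (Real.exp_pos _).le
  have hL : ‖L‖ ≤ B0 * |θ - 0| := by
    rw [hLd]
    refine intervalIntegral.norm_integral_le_of_norm_le_const ?_
    intro y hy
    rw [Set.uIoc_of_le hθ0] at hy
    rw [hfdef, norm_mul, Complex.norm_exp]
    have e5 : (-(N:ℂ) * ((t0:ℂ) + y * Complex.I)).re = -(N:ℝ) * t0 := by simp
    rw [e5, mul_comm (y:ℂ) Complex.I]
    have e6 : Real.exp (-(N:ℝ) * t0) ≤ 1 := by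
      rw [Real.exp_le_one_iff]
      have := mul_nonneg hNpos.le ht0
      linarith
    calc Real.exp (-(N:ℝ) * t0) * ‖Φ ((t0:ℂ) + Complex.I * y)‖
        ≤ 1 * ‖Φ ((t0:ℂ) + Complex.I * y)‖ := mul_le_mul_of_nonneg_right e6 (norm_nonneg _)
      _ = ‖Φ ((t0:ℂ) + Complex.I * y)‖ := one_mul _
      _ ≤ B0 := h0 y hy.1.le hy.2
  rw [← hAd, ← hBd, ← hRd, ← hLd] at hrect
  rw [← hBd]
  rw [← hAd] at hA
  have hB : Complex.I * B = Complex.I * A - R + L := by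
    linear_combination (-Complex.I) * hrect + (R - L) * Complex.I_mul_I
  have hre : (Complex.I * B).re = L.re - R.re := by
    rw [hB]
    simp [hA]
    ring
  rw [hre, sub_zero, abs_of_nonneg hθ0] at *
  have a1 : |L.re| ≤ ‖L‖ := Complex.abs_re_le_norm L
  have a2 : |R.re| ≤ ‖R‖ := Complex.abs_re_le_norm R
  have a3 : |L.re - R.re| ≤ |L.re| + |R.re| := abs_sub _ _
  calc |L.re - R.re| ≤ |L.re| + |R.re| := a3
    _ ≤ B0 * θ + (Real.exp (-(N:ℝ) * T) * B1) * θ := add_le_add (a1.trans hL) (a2.trans hR)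
    _ = θ * (B0 + Real.exp (-(N:ℝ) * T) * B1) := by ring

end Pool.Agent.Helper380.VDCX.Jq7
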