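import Mathlib
import Pool.Agent.Helper380.VDC.Defs
import Pool.Agent.Helper380.VDC.Defs4

set_option autoImplicit false

namespace Pool.Agent.Helper380.VDCX.Jq8

open Real Finset









theorem QQ_diff (j : ℕ) : Differentiable ℂ (QQ j) := by
  have h : QQ j = fun z : ℂ => 1 - Complex.exp (-z) * ∑ i ∈ range j, z ^ i / (i.factorial : ℂ) := rfl
  rw [h]
  fun_prop

theorem QQ_real (j : ℕ) (x : ℝ) : (QQ j (x : ℂ)).im = 0 := by
  have h : QQ j (x : ℂ) = ((1 - Real.exp (-x) * ∑ i ∈ range j, x ^ i / (i.factorial : ℝ) : ℝ) : ℂ) := by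
    unfold QQ
    push_cast
    rfl
  rw [h, Complex.ofReal_im]

theorem QQ_small (j : ℕ) (z : ℂ) (hz : ‖z‖ ≤ 1 / 4) : ‖QQ j z‖ ≤ (2 * ‖z‖) ^ j := by
  rcases Nat.eq_zero_or_pos j with h | h
  · subst h
    simp [QQ]
  · have e : QQ j z = Complex.exp (-z) * (Complex.exp z - ∑ i ∈ range j, z ^ i / (i.factorial : ℂ)) := by
      unfold QQ
      rw [mul_sub, ← Complex.exp_add, neg_add_cancel, Complex.exp_zero]
    rw [e, norm_mul]
    have h1 : ‖Complex.exp (-z)‖ ≤ Real.exp ‖z‖ := by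
      rw [Complex.norm_exp]
      apply Real.exp_le_exp.mpr
      have := Complex.abs_re_le_norm z
      have h2 := neg_abs_le z.re
      rw [Complex.neg_re]
      linarith
    have h2 := Complex.norm_exp_sub_sum_le_norm_mul_exp z j
    have h3 : Real.exp ‖z‖ * Real.exp ‖z‖ ≤ 2 := by
      rw [← Real.exp_add]
      have h4 : Real.exp (‖z‖ + ‖z‖) ≤ Real.exp (1/2) := Real.exp_le_exp.mpr (by linarith)
      have h5 : Real.exp (1/2) ≤ 2 := by
        have h6 : Real.exp (1/2) * Real.exp (1/2) = Real.exp 1 := by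
          rw [← Real.exp_add]; norm_num
        have h7 := Real.exp_one_lt_d9
        have h8 := Real.exp_pos (1/2 : ℝ)
        nlinarith
      linarith
    have hj : (2:ℝ) ≤ 2 ^ j := by
      calc (2:ℝ) = 2 ^ 1 := by norm_num
        _ ≤ 2 ^ j := pow_le_pow_right₀ (by norm_num) h
    calc ‖Complex.exp (-z)‖ * ‖Complex.exp z - ∑ i ∈ range j, z ^ i / (i.factorial : ℂ)‖
        ≤ Real.exp ‖z‖ * (‖z‖ ^ j * Real.exp ‖z‖) :=
          mul_le_mul h1 h2 (norm_nonneg _) (Real.exp_pos _).le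
      _ = ‖z‖ ^ j * (Real.exp ‖z‖ * Real.exp ‖z‖) := by ring
      _ ≤ ‖z‖ ^ j * 2 := mul_le_mul_of_nonneg_left h3 (by positivity)
      _ ≤ ‖z‖ ^ j * 2 ^ j := mul_le_mul_of_nonneg_left hj (by positivity)
      _ = (2 * ‖z‖) ^ j := by rw [mul_pow]; ring

theorem nz705 (t y : ℝ) (ht : 0 ≤ t) (hy0 : 0 ≤ y) (hy : y ≤ 1) :
    ‖(t : ℂ) + Complex.I * y‖ ≤ t + 1 := by
  refine (norm_add_le _ _).trans ?_
  rw [norm_mul, Complex.norm_I, one_mul, Complex.norm_real, Complex.norm_real,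
    Real.norm_of_nonneg ht, Real.norm_of_nonneg hy0]
  linarith

theorem ne705 (t y : ℝ) : ‖Complex.exp (-((t : ℂ) + Complex.I * y))‖ = Real.exp (-t) := by
  rw [Complex.norm_exp]
  congr 1
  simp

theorem ns705 (j : ℕ) (z : ℂ) : ‖∑ i ∈ range j, z ^ i / (i.factorial : ℂ)‖ ≤
    ∑ i ∈ range j, ‖z‖ ^ i / (i.factorial : ℝ) := by
  refine (norm_sum_le _ _).trans (le_of_eq ?_)
  apply Finset.sum_congr rfl
  intro i _
  rw [norm_div, norm_pow, Complex.norm_natCast]

theorem QQ_bdd (j : ℕ) (t y : ℝ) (ht : 0 ≤ t) (hy0 : 0 ≤ y) (hy : y ≤ 1) :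
    ‖QQ j ((t : ℂ) + Complex.I * y)‖ ≤ 4 := by
  unfold QQ
  have h1 := norm_sub_le (1 : ℂ) (Complex.exp (-((t : ℂ) + Complex.I * y)) *
    ∑ i ∈ range j, ((t : ℂ) + Complex.I * y) ^ i / (i.factorial : ℂ))
  rw [norm_one, norm_mul, ne705] at h1
  have h2 := ns705 j ((t : ℂ) + Complex.I * y)
  have h3 := Real.sum_le_exp_of_nonneg (norm_nonneg ((t : ℂ) + Complex.I * y)) j
  have h4 := nz705 t y ht hy0 hy
  have h5 : Real.exp ‖(t : ℂ) + Complex.I * y‖ ≤ Real.exp (t + 1) := Real.exp_le_exp.mpr h4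
  have h6 : Real.exp (-t) * ‖∑ i ∈ range j, ((t : ℂ) + Complex.I * y) ^ i / (i.factorial : ℂ)‖ ≤
      Real.exp (-t) * Real.exp (t + 1) :=
    mul_le_mul_of_nonneg_left (h2.trans (h3.trans h5)) (Real.exp_pos _).le
  have h7 : Real.exp (-t) * Real.exp (t + 1) = Real.exp 1 := by
    rw [← Real.exp_add]; congr 1; ring
  have h8 := Real.exp_one_lt_d9
  linarith

theorem mass (N R n : ℕ) (hR : 1 ≤ R) (hn : 1 ≤ n) (hN : 100 * R ≤ N) (t : ℝ)
    (ht : 20 * ((R : ℝ) + Real.log n) + 20 ≤ t) :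
    1 / 2 ≤ (QQ R ((t : ℂ) + Complex.I * (π / (2 * N) : ℝ))).re ^ n := by
  obtain ⟨y, hy⟩ : ∃ y : ℝ, y = π / (2 * N) := ⟨_, rfl⟩
  rw [← hy]
  have hR' : (1:ℝ) ≤ R := by exact_mod_cast hR
  have hn' : (1:ℝ) ≤ n := by exact_mod_cast hn
  have hN' : (100:ℝ) ≤ N := by exact_mod_cast (by omega : 100 ≤ N)
  have hlogn : 0 ≤ Real.log n := Real.log_nonneg hn'
  have ht0 : 0 ≤ t := by linarith
  have hy0 : 0 ≤ y := by rw [hy]; positivity
  have hy1 : y ≤ 1 := by
    rw [hy, div_le_one (by linarith)]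
    have := Real.pi_le_four
    linarith
  have h4 := nz705 t y ht0 hy0 hy1
  have hE : ‖Complex.exp (-((t : ℂ) + Complex.I * y)) *
      ∑ i ∈ range R, ((t : ℂ) + Complex.I * y) ^ i / (i.factorial : ℂ)‖ ≤ 1 / (2 * n) := by
    rw [norm_mul, ne705]
    have h2 := ns705 R ((t : ℂ) + Complex.I * y)
    obtain ⟨Z, hZ⟩ : ∃ Z : ℝ, Z = ‖(t : ℂ) + Complex.I * y‖ := ⟨_, rfl⟩
    rw [← hZ] at h2 h4
    have hZ0 : 0 ≤ Z := by rw [hZ]; exact norm_nonneg _
    have h3 : ∑ i ∈ range R, Z ^ i / (i.factorial : ℝ) ≤ 4 ^ R * Real.exp (Z / 4) := by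
      calc ∑ i ∈ range R, Z ^ i / (i.factorial : ℝ)
          ≤ ∑ i ∈ range R, 4 ^ R * ((Z / 4) ^ i / (i.factorial : ℝ)) := by
            apply Finset.sum_le_sum
            intro i hi
            have e : Z ^ i = 4 ^ i * (Z / 4) ^ i := by
              rw [← mul_pow]; congr 1; ring
            rw [e, mul_div_assoc]
            apply mul_le_mul_of_nonneg_right _ (by positivity)
            exact pow_le_pow_right₀ (by norm_num) (Finset.mem_range.mp hi).le
        _ = 4 ^ R * ∑ i ∈ range R, (Z / 4) ^ i / (i.factorial : ℝ) := by rw [Finset.mul_sum]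
        _ ≤ 4 ^ R * Real.exp (Z / 4) :=
            mul_le_mul_of_nonneg_left (Real.sum_le_exp_of_nonneg (by positivity) R) (by positivity)
    have h5 : (4:ℝ) ^ R ≤ Real.exp (2 * R) := by
      have h6 : (4:ℝ) ≤ Real.exp 2 := by
        have h7 := Real.exp_one_gt_d9
        have h8 : Real.exp 2 = Real.exp 1 * Real.exp 1 := by
          rw [← Real.exp_add]; norm_num
        nlinarith
      have h9 : Real.exp (2 * R) = (Real.exp 2) ^ R := by
        rw [← Real.exp_nat_mul]; congr 1; ring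
      rw [h9]
      exact pow_le_pow_left₀ (by norm_num) h6 R
    have h10 : (1:ℝ) / (2 * n) = Real.exp (-(Real.log 2 + Real.log n)) := by
      rw [Real.exp_neg, Real.exp_add, Real.exp_log (by norm_num), Real.exp_log (by linarith), one_div]
    have hlog2 : Real.log 2 ≤ 1 := by
      have := Real.log_two_lt_d9
      linarith
    rw [h10]
    calc Real.exp (-t) * ‖∑ i ∈ range R, ((t : ℂ) + Complex.I * y) ^ i / (i.factorial : ℂ)‖
        ≤ Real.exp (-t) * (4 ^ R * Real.exp (Z / 4)) :=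
          mul_le_mul_of_nonneg_left (h2.trans h3) (Real.exp_pos _).le
      _ ≤ Real.exp (-t) * (Real.exp (2 * R) * Real.exp ((t + 1) / 4)) := by
          apply mul_le_mul_of_nonneg_left _ (Real.exp_pos _).le
          apply mul_le_mul h5 _ (Real.exp_pos _).le (Real.exp_pos _).le
          exact Real.exp_le_exp.mpr (by linarith)
      _ = Real.exp (-t + (2 * R + (t + 1) / 4)) := by
          rw [Real.exp_add (-t), Real.exp_add (2 * (R:ℝ))]
      _ ≤ Real.exp (-(Real.log 2 + Real.log n)) := Real.exp_le_exp.mpr (by linarith)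
  have hre : 1 - 1 / (2 * (n:ℝ)) ≤ (QQ R ((t : ℂ) + Complex.I * y)).re := by
    unfold QQ
    rw [Complex.sub_re, Complex.one_re]
    have := Complex.re_le_norm (Complex.exp (-((t : ℂ) + Complex.I * y)) *
      ∑ i ∈ range R, ((t : ℂ) + Complex.I * y) ^ i / (i.factorial : ℂ))
    linarith
  have hpos : 0 ≤ 1 - 1 / (2 * (n:ℝ)) := by
    rw [sub_nonneg, div_le_one (by linarith)]
    linarith
  have hb := one_add_mul_le_pow (a := -(1 / (2 * (n:ℝ)))) (by linarith) n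
  have hc : (n:ℝ) * -(1 / (2 * (n:ℝ))) = -(1/2) := by
    field_simp
  rw [hc] at hb
  have hd : (1 + -(1 / (2 * (n:ℝ)))) ^ n ≤ (QQ R ((t : ℂ) + Complex.I * y)).re ^ n :=
    pow_le_pow_left₀ (by linarith) (by linarith) n
  linarith

end Pool.Agent.Helper380.VDCX.Jq8
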