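import Mathlib
import Pool.Agent.Helper380.VDC.Defs
import Pool.Agent.Helper380.VDC.Defs4

set_option autoImplicit false

namespace Pool.Agent.Helper380.VDCX.Jq9

open Real Finset









set_option maxHeartbeats 4000000

theorem prod_im_zero {ι : Type} (s : Finset ι) (f : ι → ℂ) (h : ∀ i ∈ s, (f i).im = 0) :
    (∏ i ∈ s, f i).im = 0 := by
  classical
  induction s using Finset.induction_on with
  | empty => simp
  | insert a s ha ih =>
    rw [Finset.prod_insert ha, Complex.mul_im, h a (Finset.mem_insert_self _ _),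
      ih (fun i hi => h i (Finset.mem_insert_of_mem hi))]
    ring

theorem prod_diff {ι : Type} (s : Finset ι) (f : ι → ℂ → ℂ) (h : ∀ i ∈ s, Differentiable ℂ (f i)) :
    Differentiable ℂ (fun z => ∏ i ∈ s, f i z) := by
  classical
  induction s using Finset.induction_on with
  | empty => simp
  | insert a s ha ih =>
    have e : (fun z => ∏ i ∈ insert a s, f i z) = fun z => f a z * ∏ i ∈ s, f i z := by
      funext z
      rw [Finset.prod_insert ha]
    rw [e]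
    exact (h a (Finset.mem_insert_self _ _)).mul (ih (fun i hi => h i (Finset.mem_insert_of_mem hi)))

/-- the key lower bound for one polynomial, `R` levels -/
theorem key2
    (moment2 : ∀ (N : ℕ), 1 ≤ N → ∀ (Φ : ℂ → ℂ), Differentiable ℂ Φ → (∀ x : ℝ, (Φ x).im = 0) →
      ∀ (t0 T B0 B1 : ℝ), 0 ≤ t0 → t0 ≤ T →
      (∀ y : ℝ, 0 ≤ y → y ≤ π / (2 * N) → ‖Φ ((t0 : ℂ) + Complex.I * y)‖ ≤ B0) →
      (∀ y : ℝ, 0 ≤ y → y ≤ π / (2 * N) → ‖Φ ((T : ℂ) + Complex.I * y)‖ ≤ B1) →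
      |∫ t in t0..T, Real.exp (-(N : ℝ) * t) *
          (Φ ((t : ℂ) + Complex.I * (π / (2 * N) : ℝ))).re| ≤
        π / (2 * N) * (B0 + Real.exp (-(N : ℝ) * T) * B1))
    (QQ_diff : ∀ (j : ℕ), Differentiable ℂ (QQ j))
    (QQ_real : ∀ (j : ℕ) (x : ℝ), (QQ j (x : ℂ)).im = 0)
    (QQ_small : ∀ (j : ℕ) (z : ℂ), ‖z‖ ≤ 1 / 4 → ‖QQ j z‖ ≤ (2 * ‖z‖) ^ j)
    (QQ_bdd : ∀ (j : ℕ) (t y : ℝ), 0 ≤ t → 0 ≤ y → y ≤ 1 →
      ‖QQ j ((t : ℂ) + Complex.I * y)‖ ≤ 4)
    (mass : ∀ (N R n : ℕ), 1 ≤ R → 1 ≤ n → 100 * R ≤ N → ∀ (t : ℝ),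
      20 * ((R : ℝ) + Real.log n) + 20 ≤ t →
      1 / 2 ≤ (QQ R ((t : ℂ) + Complex.I * (π / (2 * N) : ℝ))).re ^ n)
    (w0_nonneg : ∀ (N R : ℕ), 1 ≤ R → 100 * R ≤ N → ∀ (t : ℝ), 10 * (R : ℝ) / N ≤ t →
      0 ≤ (QQ R ((t : ℂ) + Complex.I * (π / (2 * N) : ℝ))).re)
    (H : ℕ) (c0 : ℝ) (c : ℕ → ℝ) (hc : ∀ k ∈ Icc 1 H, |c k| ≤ 2 * c0)
    (hsum : c0 + ∑ k ∈ Icc 1 H, c k = 1) (P : Finset ℕ) (hP1 : 1 ≤ P.card) (N R m0 : ℕ)
    (hR : 1 ≤ R) (hN : 100 * R ≤ N)
    (hI : ∀ t : ℝ, 10 * (R : ℝ) / N ≤ t →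
      (QQ R ((t : ℂ) + Complex.I * (π / (2 * N) : ℝ))).re ^ P.card *
          (c0 + ∑ k ∈ Icc 1 H, c k) ≤
        c0 + ∑ k ∈ Icc 1 H, c k *
          (∏ p ∈ P, QQ (R - padicValNat p k) ((t : ℂ) + Complex.I * (π / (2 * N) : ℝ))).re)
    (hm : ∀ k ∈ Icc 1 H, m0 ≤ ∑ p ∈ P, (R - padicValNat p k))
    (hsmall : 8 * (N : ℝ) * H * (40 * (R : ℝ) / N) ^ m0 ≤ 1) :
    Real.exp (-(N : ℝ) * (20 * ((R : ℝ) + Real.log P.card) + 22)) / 8 ≤ c0 := by
  classical
  obtain ⟨n, hn⟩ : ∃ n : ℕ, n = P.card := ⟨_, rfl⟩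
  rw [← hn] at hP1 hI ⊢
  have hR' : (1:ℝ) ≤ R := by exact_mod_cast hR
  have hN' : 100 * (R:ℝ) ≤ N := by exact_mod_cast hN
  have hN1 : (100:ℝ) ≤ N := by linarith
  have hN0 : (0:ℝ) < N := by linarith
  have hNn : 1 ≤ N := by omega
  have hn1 : (1:ℝ) ≤ (n:ℝ) := by exact_mod_cast hP1
  have hlog : 0 ≤ Real.log n := Real.log_nonneg hn1
  have hc0 : 0 ≤ c0 := by
    rcases Nat.eq_zero_or_pos H with h | h
    · subst h
      simp at hsum
      linarith
    · have := hc 1 (Finset.mem_Icc.2 ⟨le_rfl, h⟩)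
      linarith [abs_nonneg (c 1)]
  obtain ⟨θ, hθ⟩ : ∃ θ : ℝ, θ = π / (2 * (N:ℝ)) := ⟨_, rfl⟩
  have hθ0 : 0 ≤ θ := by rw [hθ]; positivity
  have hθN : θ * N ≤ 2 := by
    have : θ * N = π / 2 := by rw [hθ]; field_simp
    rw [this]
    linarith [Real.pi_le_four]
  have hθ1 : θ ≤ 1 := by
    by_contra hcon
    push Not at hcon
    nlinarith
  have mom := moment2 N hNn
  have mas := mass N R n hR hP1 hN
  have w0 := w0_nonneg N R hR hN
  simp only [← hθ] at mom mas w0 hI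
  simp only [hsum, mul_one] at hI
  obtain ⟨t0, ht0⟩ : ∃ t0 : ℝ, t0 = 10 * (R:ℝ) / N := ⟨_, rfl⟩
  have ht0N : t0 * N = 10 * R := by rw [ht0]; field_simp
  have ht00 : 0 ≤ t0 := by rw [ht0]; positivity
  have ht01 : t0 ≤ 1 := by
    by_contra hcon
    push Not at hcon
    nlinarith
  simp only [← ht0] at hI w0
  obtain ⟨t1, ht1⟩ : ∃ t1 : ℝ, t1 = 20 * ((R : ℝ) + Real.log n) + 20 := ⟨_, rfl⟩
  have ht10 : 40 ≤ t1 := by rw [ht1]; linarith
  simp only [← ht1] at mas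
  have hX0 : (0:ℝ) ≤ (H:ℝ) * 4 ^ n := by positivity
  obtain ⟨L, hL⟩ : ∃ L : ℝ, L = Real.log (8 * ((H:ℝ) * 4 ^ n) + 1) := ⟨_, rfl⟩
  have hL0 : 0 ≤ L := by rw [hL]; exact Real.log_nonneg (by linarith)
  obtain ⟨T, hTd⟩ : ∃ T : ℝ, T = t1 + 1 + L := ⟨_, rfl⟩
  have hT1 : t1 + 1 ≤ T := by rw [hTd]; linarith
  have hT0 : t0 ≤ T := by linarith
  have hTexp : (H:ℝ) * 4 ^ n * Real.exp (-(N : ℝ) * T) ≤ 1 / 8 := by
    have e1 : Real.exp (-(N : ℝ) * T) ≤ Real.exp (-L) := by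
      apply Real.exp_le_exp.2
      have hTL : L ≤ T := by rw [hTd]; linarith
      have hT00 : 0 ≤ T := by linarith
      nlinarith
    have e2 : Real.exp (-L) = (8 * ((H:ℝ) * 4 ^ n) + 1)⁻¹ := by
      rw [Real.exp_neg, hL, Real.exp_log (by linarith)]
    rw [e2] at e1
    calc (H:ℝ) * 4 ^ n * Real.exp (-(N : ℝ) * T) ≤ (H:ℝ) * 4 ^ n * (8 * ((H:ℝ) * 4 ^ n) + 1)⁻¹ :=
          mul_le_mul_of_nonneg_left e1 hX0
      _ ≤ 1 / 8 := by
          rw [← div_eq_mul_inv, div_le_iff₀ (by linarith)]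
          linarith
  -- continuity
  have hz : Continuous (fun t : ℝ => (t : ℂ) + Complex.I * (θ : ℝ)) := by fun_prop
  have hQc : ∀ j, Continuous (fun t : ℝ => QQ j ((t : ℂ) + Complex.I * (θ : ℝ))) :=
    fun j => (QQ_diff j).continuous.comp hz
  have hEc : Continuous (fun t : ℝ => Real.exp (-(N : ℝ) * t)) := by fun_prop
  obtain ⟨Φ, hΦ⟩ : ∃ Φ : ℕ → ℂ → ℂ, ∀ k z, Φ k z = ∏ p ∈ P, QQ (R - padicValNat p k) z :=
    ⟨_, fun _ _ => rfl⟩
  have hΦd : ∀ k, Differentiable ℂ (Φ k) := by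
    intro k
    have e : Φ k = fun z => ∏ p ∈ P, QQ (R - padicValNat p k) z := funext fun z => hΦ k z
    rw [e]
    exact prod_diff P _ (fun p _ => QQ_diff _)
  have hΦr : ∀ k (x : ℝ), (Φ k x).im = 0 := by
    intro k x
    rw [hΦ]
    exact prod_im_zero P _ (fun p _ => QQ_real _ x)
  have hΦc : ∀ k, Continuous (fun t : ℝ => (Φ k ((t : ℂ) + Complex.I * (θ : ℝ))).re) :=
    fun k => Complex.continuous_re.comp ((hΦd k).continuous.comp hz)
  simp only [← hΦ] at hI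
  -- the function on the left
  obtain ⟨f, hf⟩ : ∃ f : ℝ → ℝ, ∀ t, f t = Real.exp (-(N : ℝ) * t) *
      (QQ R ((t : ℂ) + Complex.I * (θ : ℝ))).re ^ n := ⟨_, fun _ => rfl⟩
  have hfc : Continuous f := by
    have e : f = fun t => Real.exp (-(N : ℝ) * t) *
      (QQ R ((t : ℂ) + Complex.I * (θ : ℝ))).re ^ n := funext hf
    rw [e]
    exact hEc.mul ((Complex.continuous_re.comp (hQc R)).pow n)
  have hf0 : ∀ t, t0 ≤ t → 0 ≤ f t := by
    intro t ht
    rw [hf]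
    have := w0 t ht
    positivity
  have I1 : ∫ t in t1..(t1+1), f t ≤ ∫ t in t0..T, f t := by
    apply intervalIntegral.integral_mono_interval (by linarith) (by linarith) hT1 _
      (hfc.intervalIntegrable _ _)
    rw [Filter.EventuallyLE, MeasureTheory.ae_restrict_iff' measurableSet_Ioc]
    exact Filter.Eventually.of_forall fun t ht => hf0 t ht.1.le
  have I2 : Real.exp (-(N:ℝ) * (t1 + 1)) / 2 ≤ ∫ t in t1..(t1+1), f t := by
    have hci : IntervalIntegrable (fun _ : ℝ => Real.exp (-(N:ℝ) * (t1 + 1)) / 2)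
      MeasureTheory.volume t1 (t1 + 1) := continuous_const.intervalIntegrable _ _
    have hfi : IntervalIntegrable f MeasureTheory.volume t1 (t1 + 1) := hfc.intervalIntegrable _ _
    have h := intervalIntegral.integral_mono_on (a := t1) (b := t1 + 1) (by linarith)
      (f := fun _ => Real.exp (-(N:ℝ) * (t1 + 1)) / 2) (g := f) hci hfi (by
        intro t ht
        rw [hf]
        have h1 := mas t ht.1
        have h2 : Real.exp (-(N:ℝ) * (t1 + 1)) ≤ Real.exp (-(N:ℝ) * t) := by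
          apply Real.exp_le_exp.2
          have := ht.2
          nlinarith
        have h3 := Real.exp_pos (-(N:ℝ) * (t1 + 1))
        nlinarith [Real.exp_pos (-(N:ℝ) * t)])
    rw [intervalIntegral.integral_const] at h
    simpa using h
  have I3 : ∫ t in t0..T, f t ≤ c0 * (∫ t in t0..T, Real.exp (-(N : ℝ) * t)) +
      ∑ k ∈ Icc 1 H, c k * (∫ t in t0..T, Real.exp (-(N : ℝ) * t) *
        (Φ k ((t : ℂ) + Complex.I * (θ : ℝ))).re) := by
    have hGc : ∀ k, Continuous (fun t : ℝ => Real.exp (-(N : ℝ) * t) *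
        (Φ k ((t : ℂ) + Complex.I * (θ : ℝ))).re) := fun k => hEc.mul (hΦc k)
    have e : c0 * (∫ t in t0..T, Real.exp (-(N : ℝ) * t)) +
      ∑ k ∈ Icc 1 H, c k * (∫ t in t0..T, Real.exp (-(N : ℝ) * t) *
        (Φ k ((t : ℂ) + Complex.I * (θ : ℝ))).re) =
        ∫ t in t0..T, (c0 * Real.exp (-(N : ℝ) * t) + ∑ k ∈ Icc 1 H, c k *
          (Real.exp (-(N : ℝ) * t) * (Φ k ((t : ℂ) + Complex.I * (θ : ℝ))).re)) := by
      rw [intervalIntegral.integral_add, intervalIntegral.integral_const_mul,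
        intervalIntegral.integral_finsetSum]
      · congr 1
        apply Finset.sum_congr rfl
        intro k _
        rw [intervalIntegral.integral_const_mul]
      · intro k _
        exact (continuous_const.mul (hGc k)).intervalIntegrable _ _
      · exact (continuous_const.mul hEc).intervalIntegrable _ _
      · exact (continuous_finsetSum _ (fun k _ => continuous_const.mul (hGc k))).intervalIntegrable _ _
    rw [e]
    apply intervalIntegral.integral_mono_on hT0 (hfc.intervalIntegrable _ _)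
    · exact ((continuous_const.mul hEc).add
        (continuous_finsetSum _ (fun k _ => continuous_const.mul (hGc k)))).intervalIntegrable _ _
    · intro t ht
      rw [hf]
      have h1 := hI t ht.1
      have h2 := mul_le_mul_of_nonneg_left h1 (Real.exp_pos (-(N:ℝ) * t)).le
      refine h2.trans (le_of_eq ?_)
      rw [mul_add, Finset.mul_sum]
      congr 1
      · ring
      · apply Finset.sum_congr rfl
        intro k _
        ring
  have I4 : ∫ t in t0..T, Real.exp (-(N : ℝ) * t) ≤ 1 / N := by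
    have hd : ∀ t ∈ Set.uIcc t0 T, HasDerivAt (fun t : ℝ => -(Real.exp (-(N:ℝ) * t) / N))
        (Real.exp (-(N:ℝ) * t)) t := by
      intro t _
      have h1 : HasDerivAt (fun t : ℝ => Real.exp (-(N:ℝ) * t)) (Real.exp (-(N:ℝ) * t) * (-(N:ℝ))) t := by
        have := ((hasDerivAt_id t).const_mul (-(N:ℝ))).exp
        simpa using this
      have h2 : HasDerivAt (fun t : ℝ => -(Real.exp (-(N:ℝ) * t) / N))
        (-(Real.exp (-(N:ℝ) * t) * (-(N:ℝ)) / N)) t := (h1.div_const (N:ℝ)).neg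
      have h3 : -(Real.exp (-(N:ℝ) * t) * (-(N:ℝ)) / N) = Real.exp (-(N:ℝ) * t) := by
        rw [mul_neg, neg_div, neg_neg, mul_div_assoc, div_self hN0.ne', mul_one]
      rw [h3] at h2
      exact h2
    rw [intervalIntegral.integral_eq_sub_of_hasDerivAt hd (hEc.intervalIntegrable _ _)]
    have h1 : Real.exp (-(N:ℝ) * t0) ≤ 1 := by
      rw [Real.exp_le_one_iff]
      nlinarith
    have h2 : 0 ≤ Real.exp (-(N:ℝ) * T) / N := by positivity
    have h3 : Real.exp (-(N:ℝ) * t0) / N ≤ 1 / N := by gcongr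
    linarith
  obtain ⟨B0, hB0⟩ : ∃ B0 : ℝ, B0 = (40 * (R : ℝ) / N) ^ m0 := ⟨_, rfl⟩
  rw [← hB0] at hsmall
  have hB00 : 0 ≤ B0 := by rw [hB0]; positivity
  have I5 : ∀ k ∈ Icc 1 H, |∫ t in t0..T, Real.exp (-(N : ℝ) * t) *
        (Φ k ((t : ℂ) + Complex.I * (θ : ℝ))).re| ≤ θ * (B0 + Real.exp (-(N : ℝ) * T) * 4 ^ n) := by
    intro k hk
    apply mom (Φ k) (hΦd k) (hΦr k) t0 T B0 (4 ^ n) ht00 hT0
    · intro y hy0 hy1
      have hzn : ‖(t0 : ℂ) + Complex.I * y‖ ≤ t0 + θ := by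
        refine (norm_add_le _ _).trans ?_
        rw [norm_mul, Complex.norm_I, one_mul, Complex.norm_real, Complex.norm_real,
          Real.norm_of_nonneg ht00, Real.norm_of_nonneg hy0]
        linarith
      have h12 : t0 + θ ≤ 12 * R / N := by
        rw [le_div_iff₀ hN0, add_mul, ht0N]
        linarith
      have h14 : 12 * (R:ℝ) / N ≤ 1 / 4 := by
        rw [div_le_iff₀ hN0]
        linarith
      have hz4 : ‖(t0 : ℂ) + Complex.I * y‖ ≤ 1 / 4 := by linarith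
      rw [hΦ, norm_prod]
      have hr0 : (0:ℝ) ≤ 40 * (R:ℝ) / N := by positivity
      have hr1 : 40 * (R:ℝ) / N ≤ 1 := by
        rw [div_le_one hN0]; linarith
      calc ∏ p ∈ P, ‖QQ (R - padicValNat p k) ((t0 : ℂ) + Complex.I * y)‖
          ≤ ∏ p ∈ P, (40 * (R:ℝ) / N) ^ (R - padicValNat p k) := by
            apply Finset.prod_le_prod
            · intro p _
              exact norm_nonneg _
            · intro p _
              refine (QQ_small _ _ hz4).trans ?_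
              apply pow_le_pow_left₀ (by positivity)
              have : 2 * (12 * (R:ℝ) / N) ≤ 40 * (R:ℝ) / N := by
                rw [← mul_div_assoc]
                apply div_le_div_of_nonneg_right _ hN0.le
                linarith
              linarith
        _ = (40 * (R:ℝ) / N) ^ (∑ p ∈ P, (R - padicValNat p k)) := by
            rw [Finset.prod_pow_eq_pow_sum]
        _ ≤ B0 := by
            rw [hB0]
            exact pow_le_pow_of_le_one hr0 hr1 (hm k hk)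
    · intro y hy0 hy1
      rw [hΦ, norm_prod]
      calc ∏ p ∈ P, ‖QQ (R - padicValNat p k) ((T : ℂ) + Complex.I * y)‖
          ≤ ∏ p ∈ P, (4:ℝ) := by
            apply Finset.prod_le_prod
            · intro p _
              exact norm_nonneg _
            · intro p _
              exact QQ_bdd _ T y (by linarith) hy0 (hy1.trans hθ1)
        _ = 4 ^ n := by rw [Finset.prod_const, hn]
  have I6 : ∑ k ∈ Icc 1 H, c k * (∫ t in t0..T, Real.exp (-(N : ℝ) * t) *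
        (Φ k ((t : ℂ) + Complex.I * (θ : ℝ))).re) ≤
      H * (2 * c0 * (θ * (B0 + Real.exp (-(N : ℝ) * T) * 4 ^ n))) := by
    have h1 : ∀ k ∈ Icc 1 H, c k * (∫ t in t0..T, Real.exp (-(N : ℝ) * t) *
        (Φ k ((t : ℂ) + Complex.I * (θ : ℝ))).re) ≤
        2 * c0 * (θ * (B0 + Real.exp (-(N : ℝ) * T) * 4 ^ n)) := by
      intro k hk
      refine (le_abs_self _).trans ?_
      rw [abs_mul]
      exact mul_le_mul (hc k hk) (I5 k hk) (abs_nonneg _) (by linarith)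
    refine (Finset.sum_le_sum h1).trans (le_of_eq ?_)
    rw [Finset.sum_const, Nat.card_Icc, nsmul_eq_mul]
    simp
  -- final
  have hHB : (H:ℝ) * B0 ≤ 1 / 8 := by
    have : 8 * (N:ℝ) * H * B0 = 8 * N * (H * B0) := by ring
    rw [this] at hsmall
    have h0 : 0 ≤ (H:ℝ) * B0 := mul_nonneg (Nat.cast_nonneg _) hB00
    generalize (H:ℝ) * B0 = X at *
    nlinarith
  have hfin : (H:ℝ) * (2 * c0 * (θ * (B0 + Real.exp (-(N : ℝ) * T) * 4 ^ n))) ≤ c0 := by
    have e : (H:ℝ) * (2 * c0 * (θ * (B0 + Real.exp (-(N : ℝ) * T) * 4 ^ n))) =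
        2 * c0 * θ * ((H:ℝ) * B0 + (H:ℝ) * 4 ^ n * Real.exp (-(N : ℝ) * T)) := by ring
    rw [e]
    have h1 : (H:ℝ) * B0 + (H:ℝ) * 4 ^ n * Real.exp (-(N : ℝ) * T) ≤ 1 / 4 := by linarith
    have h2 : 0 ≤ 2 * c0 * θ := by positivity
    calc 2 * c0 * θ * ((H:ℝ) * B0 + (H:ℝ) * 4 ^ n * Real.exp (-(N : ℝ) * T))
        ≤ 2 * c0 * θ * (1 / 4) := mul_le_mul_of_nonneg_left h1 h2
      _ = c0 * (θ * (1/2)) := by ring
      _ ≤ c0 * 1 := mul_le_mul_of_nonneg_left (by linarith) hc0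
      _ = c0 := mul_one _
  have hN1' : 1 / (N:ℝ) ≤ 1 := by
    rw [div_le_one hN0]; linarith
  have hI4 : c0 * (∫ t in t0..T, Real.exp (-(N : ℝ) * t)) ≤ c0 := by
    calc c0 * (∫ t in t0..T, Real.exp (-(N : ℝ) * t)) ≤ c0 * 1 :=
          mul_le_mul_of_nonneg_left (I4.trans hN1') hc0
      _ = c0 := mul_one _
  have hmain : Real.exp (-(N:ℝ) * (t1 + 1)) / 2 ≤ 2 * c0 := by linarith
  have hlast : Real.exp (-(N : ℝ) * (20 * ((R : ℝ) + Real.log n) + 22)) ≤
      Real.exp (-(N:ℝ) * (t1 + 1)) := by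
    apply Real.exp_le_exp.2
    rw [ht1]
    nlinarith
  have hpos := Real.exp_pos (-(N : ℝ) * (20 * ((R : ℝ) + Real.log n) + 22))
  linarith

end Pool.Agent.Helper380.VDCX.Jq9
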