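import Mathlib
import Pool.Agent.Helper380.VDC.Defs
import Pool.Agent.Helper380.VDC.Defs3

set_option autoImplicit false

namespace Pool.Agent.Helper380.VDCX.Jr1

open Real Finset





















theorem loc0_geom (r : ℝ) (hr0 : 0 ≤ r) (hr1 : r < 1) (n : ℕ) :
    ∑ k ∈ range n, r ^ (n - k) ≤ r / (1 - r) := by
  have h1r : 0 < 1 - r := by linarith
  induction n with
  | zero => simp only [range_zero, sum_empty]; positivity
  | succ n ih =>
    rw [sum_range_succ]
    have h1 : ∑ k ∈ range n, r ^ (n + 1 - k) = r * ∑ k ∈ range n, r ^ (n - k) := by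
      rw [mul_sum]
      apply sum_congr rfl
      intro k hk
      have hk' := mem_range.1 hk
      have h2 : n + 1 - k = (n - k) + 1 := by omega
      rw [h2, pow_succ]; ring
    have h3 : n + 1 - n = 1 := by omega
    rw [h1, h3, pow_one]
    have h4 : r * ∑ k ∈ range n, r ^ (n - k) ≤ r * (r / (1 - r)) :=
      mul_le_mul_of_nonneg_left ih hr0
    have h5 : r * (r / (1 - r)) + r = r / (1 - r) := by
      field_simp
      ring
    linarith

/-- geometric bound -/
theorem loc0g (s : ℝ) (hs0 : 0 < s) (hs1 : s ≤ 1) (p : ℕ) (hp : 2 ≤ p) (hsp : 2 ≤ s * p) (n : ℕ)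
    (h : ℕ → ℂ) (h2 : ∀ k, k < n → ‖h k‖ ≤ √2 * √(p : ℝ) / (p : ℝ) ^ (n - k)) :
    ∑ k ∈ range n, s ^ k * ‖h k‖ ≤ 3 / (s * √(p : ℝ)) * s ^ n := by
  have hp2 : (2 : ℝ) ≤ p := by exact_mod_cast hp
  have hp0 : (0 : ℝ) < p := by linarith
  have hsp' : 2 ≤ s * p := hsp
  have hsp0 : 0 < s * p := by positivity
  obtain ⟨r, hr⟩ : ∃ r : ℝ, r = 1 / (s * p) := ⟨_, rfl⟩
  have hr0 : 0 < r := by rw [hr]; positivity
  have hr1 : r < 1 := by
    rw [hr, div_lt_one hsp0]; linarith
  obtain ⟨W, hW⟩ : ∃ W : ℝ, W = √(p : ℝ) := ⟨_, rfl⟩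
  have hW0 : 0 < W := by rw [hW]; exact Real.sqrt_pos.2 hp0
  have hWW : W * W = p := by rw [hW]; exact Real.mul_self_sqrt hp0.le
  have h22 : √2 ≤ 3 / 2 := by
    rw [Real.sqrt_le_left (by norm_num)]; norm_num
  have h2nn : (0 : ℝ) ≤ √2 := Real.sqrt_nonneg 2
  have hterm : ∀ k ∈ range n, s ^ k * ‖h k‖ ≤ s ^ n * √2 * W * r ^ (n - k) := by
    intro k hk
    have hk' := mem_range.1 hk
    have h3 := mul_le_mul_of_nonneg_left (h2 k hk') (pow_nonneg hs0.le k)
    refine h3.trans (le_of_eq ?_)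
    have h4 : s ^ n = s ^ k * s ^ (n - k) := by
      rw [← pow_add]; congr 1; omega
    rw [h4, hr, div_pow, one_pow, mul_pow, ← hW]
    have h5 : s ^ (n - k) ≠ 0 := pow_ne_zero _ hs0.ne'
    have h6 : (p : ℝ) ^ (n - k) ≠ 0 := pow_ne_zero _ hp0.ne'
    field_simp
  have hsum : ∑ k ∈ range n, s ^ k * ‖h k‖ ≤ s ^ n * √2 * W * (r / (1 - r)) := by
    refine (sum_le_sum hterm).trans ?_
    rw [← mul_sum]
    exact mul_le_mul_of_nonneg_left (loc0_geom r hr0.le hr1 n) (by positivity)
  have hrr : r / (1 - r) ≤ 2 / (s * p) := by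
    have h7 : r / (1 - r) = 1 / (s * p - 1) := by
      rw [hr]
      have : s * p - 1 ≠ 0 := by linarith
      have h8 : (1 : ℝ) - 1 / (s * p) = (s * p - 1) / (s * p) := by
        field_simp
      rw [h8]
      field_simp
    rw [h7, div_le_div_iff₀ (by linarith) hsp0]
    linarith
  have h22' : √2 * 2 ≤ 3 := by linarith
  have hfin : √2 * W * (2 / (s * p)) ≤ 3 / (s * W) := by
    rw [← hWW, le_div_iff₀ (by positivity)]
    have h9 : √2 * W * (2 / (s * (W * W))) * (s * W) = √2 * 2 := by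
      field_simp
    rw [h9]; linarith
  rw [← hW]
  calc ∑ k ∈ range n, s ^ k * ‖h k‖ ≤ s ^ n * √2 * W * (r / (1 - r)) := hsum
    _ ≤ s ^ n * √2 * W * (2 / (s * p)) := mul_le_mul_of_nonneg_left hrr (by positivity)
    _ = (√2 * W * (2 / (s * p))) * s ^ n := by ring
    _ ≤ 3 / (s * W) * s ^ n := mul_le_mul_of_nonneg_right hfin (by positivity)


theorem loc_absg (s : ℝ) (hs0 : 0 < s) (hs1 : s ≤ 1) (p : ℕ) (hp : 2 ≤ p) (hsp : 2 ≤ s * p)
    (n K : ℕ) (h : ℕ → ℂ) (h1 : ∀ k, n ≤ k → h k = 1)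
    (h2 : ∀ k, k < n → ‖h k‖ ≤ √2 * √(p : ℝ) / (p : ℝ) ^ (n - k)) :
    ∑ j ∈ range (K + 1), ‖cc s h j‖ ≤ if n = 0 then 1 else s ^ n * (1 + 6 / (s * √(p : ℝ))) := by
  have loc0 := loc0g s hs0 hs1 p hp hsp n h h2
  replace hs0 : 0 ≤ s := hs0.le
  by_cases hn : n = 0
  · rw [if_pos hn]
    have hall : ∀ k, h k = 1 := fun k => h1 k (by omega)
    rw [Finset.sum_range_succ']
    have e1 : ∀ j, ‖cc s h (j + 1)‖ = 0 := by
      intro j
      unfold cc
      rw [if_neg (Nat.succ_ne_zero j), hall, hall]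
      simp
    simp only [e1, Finset.sum_const_zero, zero_add]
    unfold cc
    rw [if_pos rfl, hall]
    simp
  · rw [if_neg hn]
    obtain ⟨a, ha⟩ : ∃ a : ℕ → ℝ, a = fun k => if k < n then s ^ k * ‖h k‖ else 0 := ⟨_, rfl⟩
    have ha0 : ∀ k, 0 ≤ a k := by
      intro k; rw [ha]; show 0 ≤ (if k < n then s ^ k * ‖h k‖ else 0)
      split_ifs <;> positivity
    have hasum : ∀ m, ∑ j ∈ range m, a j ≤ ∑ k ∈ range n, s ^ k * ‖h k‖ := by
      intro m
      rw [ha]
      rw [← Finset.sum_filter]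
      refine Finset.sum_le_sum_of_subset_of_nonneg ?_ (fun k _ _ => by positivity)
      intro k hk
      exact Finset.mem_range.2 (Finset.mem_filter.1 hk).2
    have hpt : ∀ j, ‖cc s h j‖ ≤ a j + (if j = 0 then 0 else s * a (j - 1)) +
        (if j = n then s ^ n else 0) := by
      intro j
      rcases Nat.eq_zero_or_pos j with hj | hj
      · subst hj
        have e1 : a 0 = ‖h 0‖ := by
          rw [ha]; show (if 0 < n then s ^ 0 * ‖h 0‖ else 0) = _
          rw [if_pos (Nat.pos_of_ne_zero hn)]; simp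
        have e2 : (0 : ℝ) ≤ (if (0:ℕ) = n then s ^ n else 0) := by split_ifs <;> positivity
        unfold cc
        rw [if_pos rfl, if_pos rfl, e1]
        linarith
      · have hj0 : j ≠ 0 := by omega
        unfold cc
        rw [if_neg hj0, if_neg hj0]
        rcases lt_trichotomy j n with hjn | hjn | hjn
        · have e1 : a j = s ^ j * ‖h j‖ := by rw [ha]; exact if_pos hjn
          have e2 : a (j - 1) = s ^ (j - 1) * ‖h (j - 1)‖ := by rw [ha]; exact if_pos (by omega)
          rw [if_neg (by omega : j ≠ n), e1, e2, norm_mul, norm_pow, Complex.norm_real,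
            Real.norm_of_nonneg hs0]
          have e3 : s * (s ^ (j - 1) * ‖h (j - 1)‖) = s ^ j * ‖h (j - 1)‖ := by
            rw [← mul_assoc, ← pow_succ', Nat.sub_add_cancel hj]
          rw [e3]
          have e4 := norm_sub_le (h j) (h (j - 1))
          have e5 : 0 ≤ s ^ j := by positivity
          nlinarith [mul_le_mul_of_nonneg_left e4 e5]
        · subst hjn
          have e1 : a j = 0 := by rw [ha]; exact if_neg (lt_irrefl _)
          have e2 : a (j - 1) = s ^ (j - 1) * ‖h (j - 1)‖ := by rw [ha]; exact if_pos (by omega)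
          rw [if_pos rfl, e1, e2, h1 j le_rfl, norm_mul, norm_pow, Complex.norm_real,
            Real.norm_of_nonneg hs0]
          have e3 : s * (s ^ (j - 1) * ‖h (j - 1)‖) = s ^ j * ‖h (j - 1)‖ := by
            rw [← mul_assoc, ← pow_succ', Nat.sub_add_cancel hj]
          rw [e3]
          have e4 := norm_sub_le (1 : ℂ) (h (j - 1))
          rw [norm_one] at e4
          have e5 : 0 ≤ s ^ j := by positivity
          nlinarith [mul_le_mul_of_nonneg_left e4 e5]
        · rw [h1 j (by omega), h1 (j - 1) (by omega), if_neg (by omega : j ≠ n)]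
          have e1 := ha0 j
          have e2 := mul_nonneg hs0 (ha0 (j - 1))
          simp only [sub_self, mul_zero, norm_zero]
          linarith
    have hsum1 : ∑ j ∈ range (K + 1), (if j = 0 then 0 else s * a (j - 1)) ≤
        ∑ k ∈ range n, s ^ k * ‖h k‖ := by
      rw [Finset.sum_range_succ', if_pos rfl, add_zero]
      have e1 : ∀ j ∈ range K, (if j + 1 = 0 then 0 else s * a (j + 1 - 1)) = s * a j := by
        intro j _
        rw [if_neg (Nat.succ_ne_zero j), Nat.add_sub_cancel]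
      rw [Finset.sum_congr rfl e1, ← Finset.mul_sum]
      have e2 := hasum K
      have e3 : 0 ≤ ∑ j ∈ range K, a j := Finset.sum_nonneg fun j _ => ha0 j
      nlinarith
    have hsum2 : ∑ j ∈ range (K + 1), (if j = n then s ^ n else 0) ≤ s ^ n := by
      rw [Finset.sum_ite_eq']
      split_ifs
      · exact le_rfl
      · positivity
    calc ∑ j ∈ range (K + 1), ‖cc s h j‖ ≤ ∑ j ∈ range (K + 1),
          (a j + (if j = 0 then 0 else s * a (j - 1)) + (if j = n then s ^ n else 0)) :=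
          Finset.sum_le_sum fun j _ => hpt j
      _ = ∑ j ∈ range (K + 1), a j + ∑ j ∈ range (K + 1), (if j = 0 then 0 else s * a (j - 1)) +
          ∑ j ∈ range (K + 1), (if j = n then s ^ n else 0) := by
        rw [Finset.sum_add_distrib, Finset.sum_add_distrib]
      _ ≤ 3 / (s * √(p : ℝ)) * s ^ n + 3 / (s * √(p : ℝ)) * s ^ n + s ^ n := by
        have := hasum (K + 1)
        linarith
      _ = s ^ n * (1 + 6 / (s * √(p : ℝ))) := by ring

end Pool.Agent.Helper380.VDCX.Jr1
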