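import Mathlib
import Pool.Agent.Helper380.VDC.Defs
import Pool.Agent.Helper380.VDC.Defs3

set_option autoImplicit false

namespace Pool.Agent.Helper380.VDCX.Jr10

open Real Finset





theorem cos_sum_zero (M : ℕ) (n : ℤ) (hn : n ≠ 0) (hlt : |n| < (M:ℤ)) :
    ∑ j ∈ range M, Real.cos (2 * π * (n:ℝ) * ((j:ℝ) / (M:ℝ))) = 0 := by
  have hM0 : (0:ℤ) < M := lt_of_le_of_lt (abs_nonneg n) hlt
  have hMn : M ≠ 0 := by
    rintro rfl
    simp at hM0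
  have hM : (M:ℂ) ≠ 0 := by exact_mod_cast hMn
  have hpi : (π:ℂ) ≠ 0 := by exact_mod_cast Real.pi_ne_zero
  have hI := Complex.I_ne_zero
  let z : ℂ := Complex.exp (2 * π * Complex.I * ((n:ℂ) / (M:ℂ)))
  have hzd : z = Complex.exp (2 * π * Complex.I * ((n:ℂ) / (M:ℂ))) := rfl
  have hz : z ≠ 1 := by
    intro h
    rw [hzd, Complex.exp_eq_one_iff] at h
    obtain ⟨m, hm⟩ := h
    have h2 : (2 * π * Complex.I) * ((n:ℂ) / (M:ℂ)) = (2 * π * Complex.I) * (m:ℂ) := by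
      rw [hm]; ring
    have h3 : (n:ℂ) / (M:ℂ) = m := mul_left_cancel₀ Complex.two_pi_I_ne_zero h2
    have h4 : (n:ℂ) = m * M := by
      rw [div_eq_iff hM] at h3; exact h3
    have h5 : n = m * M := by exact_mod_cast h4
    have hm0 : m ≠ 0 := by
      rintro rfl
      apply hn
      simpa using h5
    have h6 : (M:ℤ) ≤ |n| := by
      rw [h5, abs_mul, abs_of_pos hM0]
      have : 1 ≤ |m| := Int.one_le_abs hm0
      nlinarith
    omega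
  have hzM : z ^ M = 1 := by
    rw [hzd, ← Complex.exp_nat_mul, Complex.exp_eq_one_iff]
    refine ⟨n, ?_⟩
    field_simp
  have hg : ∑ j ∈ range M, z ^ j = 0 := by
    rw [geom_sum_eq hz M, hzM]; simp
  have h7 : ∑ j ∈ range M, Real.cos (2 * π * (n:ℝ) * ((j:ℝ) / (M:ℝ)))
      = (∑ j ∈ range M, z ^ j).re := by
    rw [Complex.re_sum]
    apply sum_congr rfl
    intro j _
    rw [hzd, ← Complex.exp_nat_mul]
    have h8 : (j:ℂ) * (2 * π * Complex.I * ((n:ℂ) / (M:ℂ)))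
        = ((2 * π * (n:ℝ) * ((j:ℝ) / (M:ℝ)) : ℝ) : ℂ) * Complex.I := by
      push_cast; ring
    rw [h8, Complex.exp_ofReal_mul_I_re]
  rw [h7, hg]; simp

theorem c0_nonneg (H : ℕ) (c0 : ℝ) (c : ℕ → ℝ) (h : Admissible H c0 c) : 0 ≤ c0 := by
  have hsum : 0 ≤ ∑ j ∈ range (H ^ 2 + 1), (c0 + ∑ k ∈ Icc 1 H,
      c k * Real.cos (2 * π * (k : ℝ) ^ 2 * ((j:ℝ) / ((H ^ 2 + 1 : ℕ) : ℝ)))) :=
    sum_nonneg fun j _ => h.1 _
  rw [sum_add_distrib, sum_const, card_range, nsmul_eq_mul, sum_comm] at hsum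
  have hz : ∑ k ∈ Icc 1 H, ∑ j ∈ range (H ^ 2 + 1),
      c k * Real.cos (2 * π * (k : ℝ) ^ 2 * ((j:ℝ) / ((H ^ 2 + 1 : ℕ) : ℝ))) = 0 := by
    apply sum_eq_zero
    intro k hk
    rw [mem_Icc] at hk
    rw [← mul_sum]
    have hk2 : k ^ 2 ≤ H ^ 2 := Nat.pow_le_pow_left hk.2 2
    have hk1 : 1 ≤ k ^ 2 := Nat.one_le_pow _ _ hk.1
    have := cos_sum_zero (H ^ 2 + 1) ((k ^ 2 : ℕ) : ℤ) (by positivity) (by
      rw [abs_of_nonneg (by positivity)]; exact_mod_cast Nat.lt_succ_of_le hk2)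
    have h2 : ∑ j ∈ range (H ^ 2 + 1),
        Real.cos (2 * π * (k : ℝ) ^ 2 * ((j:ℝ) / ((H ^ 2 + 1 : ℕ) : ℝ))) = 0 := by
      rw [← this]
      apply sum_congr rfl
      intro j _
      push_cast
      rfl
    rw [h2, mul_zero]
  rw [hz, add_zero] at hsum
  have hpos : (0:ℝ) < ((H ^ 2 + 1 : ℕ) : ℝ) := by positivity
  by_contra hneg
  push Not at hneg
  nlinarith

/-- sets without square differences: `|A| ≤ c₀ (N + H²)` -/
theorem set_bound (H N : ℕ) (c0 : ℝ) (c : ℕ → ℝ) (h : Admissible H c0 c) (A : Finset ℕ)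
    (hA : A ⊆ Icc 1 N) (hfree : ∀ a ∈ A, ∀ a' ∈ A, ∀ k : ℕ, 1 ≤ k → a ≠ a' + k ^ 2) :
    (A.card : ℝ) ≤ c0 * ((N : ℝ) + (H : ℝ) ^ 2) := by
  have hc0 := c0_nonneg H c0 c h
  rcases A.eq_empty_or_nonempty with hE | hE
  · subst hE
    simp only [card_empty, Nat.cast_zero]
    positivity
  obtain ⟨a0, ha0⟩ := hE
  have hN : 1 ≤ N := by
    have := mem_Icc.mp (hA ha0); omega
  let M : ℕ := N + H ^ 2
  have hMd : M = N + H ^ 2 := rfl
  have hM1 : 1 ≤ M := by omega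
  let T : ℝ → ℝ := fun x => c0 + ∑ k ∈ Icc 1 H, c k * Real.cos (2 * π * (k : ℝ) ^ 2 * x)
  have hT : ∀ x, 0 ≤ T x := h.1
  have hT0 : T 0 = 1 := by
    have : T 0 = c0 + ∑ k ∈ Icc 1 H, c k := by
      simp only [T, mul_zero, Real.cos_zero, mul_one]
    rw [this]; exact h.2
  let x : ℕ → ℝ := fun j => (j:ℝ) / (M:ℝ)
  let F : ℕ → ℝ := fun j => (∑ a ∈ A, Real.cos (2 * π * (a:ℝ) * x j)) ^ 2
    + (∑ a ∈ A, Real.sin (2 * π * (a:ℝ) * x j)) ^ 2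
  have hF0 : ∀ j, 0 ≤ F j := fun j => by positivity
  have hFj : ∀ j, F j = ∑ a ∈ A, ∑ a' ∈ A, Real.cos (2 * π * (((a:ℤ) - (a':ℤ) : ℤ) : ℝ) * x j) := by
    intro j
    simp only [F]
    rw [sq, sq, sum_mul_sum, sum_mul_sum, ← sum_add_distrib]
    apply sum_congr rfl
    intro a _
    rw [← sum_add_distrib]
    apply sum_congr rfl
    intro a' _
    have : 2 * π * (((a:ℤ) - (a':ℤ) : ℤ) : ℝ) * x j
        = 2 * π * (a:ℝ) * x j - 2 * π * (a':ℝ) * x j := by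
      push_cast; ring
    rw [this, Real.cos_sub]
  have hG : ∀ a ∈ A, ∀ a' ∈ A, ∑ j ∈ range M,
      Real.cos (2 * π * (((a:ℤ) - (a':ℤ) : ℤ) : ℝ) * x j) * T (x j)
      = if a = a' then c0 * (M:ℝ) else 0 := by
    intro a ha a' ha'
    have hra := mem_Icc.mp (hA ha)
    have hra' := mem_Icc.mp (hA ha')
    have hsplit : ∀ j, Real.cos (2 * π * (((a:ℤ) - (a':ℤ) : ℤ) : ℝ) * x j) * T (x j)
        = c0 * Real.cos (2 * π * (((a:ℤ) - (a':ℤ) : ℤ) : ℝ) * x j)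
        + ∑ k ∈ Icc 1 H, (c k / 2) *
          (Real.cos (2 * π * (((a:ℤ) - (a':ℤ) - (k:ℤ) ^ 2 : ℤ) : ℝ) * x j)
          + Real.cos (2 * π * (((a:ℤ) - (a':ℤ) + (k:ℤ) ^ 2 : ℤ) : ℝ) * x j)) := by
      intro j
      simp only [T]
      rw [mul_add, mul_sum, mul_comm _ c0]
      congr 1
      apply sum_congr rfl
      intro k _
      have e1 : 2 * π * (((a:ℤ) - (a':ℤ) - (k:ℤ) ^ 2 : ℤ) : ℝ) * x j
          = 2 * π * (((a:ℤ) - (a':ℤ) : ℤ) : ℝ) * x j - 2 * π * (k:ℝ) ^ 2 * x j := by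
        push_cast; ring
      have e2 : 2 * π * (((a:ℤ) - (a':ℤ) + (k:ℤ) ^ 2 : ℤ) : ℝ) * x j
          = 2 * π * (((a:ℤ) - (a':ℤ) : ℤ) : ℝ) * x j + 2 * π * (k:ℝ) ^ 2 * x j := by
        push_cast; ring
      rw [e1, e2, Real.cos_sub, Real.cos_add]
      ring
    rw [sum_congr rfl (fun j _ => hsplit j), sum_add_distrib, ← mul_sum, sum_comm]
    have hsecond : ∑ k ∈ Icc 1 H, ∑ j ∈ range M, (c k / 2) *
          (Real.cos (2 * π * (((a:ℤ) - (a':ℤ) - (k:ℤ) ^ 2 : ℤ) : ℝ) * x j)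
          + Real.cos (2 * π * (((a:ℤ) - (a':ℤ) + (k:ℤ) ^ 2 : ℤ) : ℝ) * x j)) = 0 := by
      apply sum_eq_zero
      intro k hk
      rw [mem_Icc] at hk
      have hk2 : k ^ 2 ≤ H ^ 2 := Nat.pow_le_pow_left hk.2 2
      have hk1 : 1 ≤ k ^ 2 := Nat.one_le_pow _ _ hk.1
      have hk2' : (k:ℤ) ^ 2 ≤ (H:ℤ) ^ 2 := by exact_mod_cast hk2
      have hk1' : (1:ℤ) ≤ (k:ℤ) ^ 2 := by exact_mod_cast hk1
      have hne1 : (a:ℤ) - (a':ℤ) - (k:ℤ) ^ 2 ≠ 0 := by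
        intro h0
        apply hfree a ha a' ha' k hk.1
        have : (a:ℤ) = (a':ℤ) + (k:ℤ) ^ 2 := by linarith
        exact_mod_cast this
      have hne2 : (a:ℤ) - (a':ℤ) + (k:ℤ) ^ 2 ≠ 0 := by
        intro h0
        apply hfree a' ha' a ha k hk.1
        have : (a':ℤ) = (a:ℤ) + (k:ℤ) ^ 2 := by linarith
        exact_mod_cast this
      have hMz : (M:ℤ) = (N:ℤ) + (H:ℤ) ^ 2 := by rw [hMd]; push_cast; ring
      have hb1 : |(a:ℤ) - (a':ℤ) - (k:ℤ) ^ 2| < (M:ℤ) := by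
        rw [abs_lt, hMz]; constructor <;> linarith [hra.1, hra.2, hra'.1, hra'.2, (by exact_mod_cast hra.1 : (1:ℤ) ≤ a), (by exact_mod_cast hra.2 : (a:ℤ) ≤ N), (by exact_mod_cast hra'.1 : (1:ℤ) ≤ a'), (by exact_mod_cast hra'.2 : (a':ℤ) ≤ N)]
      have hb2 : |(a:ℤ) - (a':ℤ) + (k:ℤ) ^ 2| < (M:ℤ) := by
        rw [abs_lt, hMz]; constructor <;> linarith [hra.1, hra.2, hra'.1, hra'.2, (by exact_mod_cast hra.1 : (1:ℤ) ≤ a), (by exact_mod_cast hra.2 : (a:ℤ) ≤ N), (by exact_mod_cast hra'.1 : (1:ℤ) ≤ a'), (by exact_mod_cast hra'.2 : (a':ℤ) ≤ N)]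
      rw [← mul_sum, sum_add_distrib]
      have z1 := cos_sum_zero M _ hne1 hb1
      have z2 := cos_sum_zero M _ hne2 hb2
      simp only [x]
      rw [z1, z2]; simp
    rw [hsecond, add_zero]
    by_cases haa : a = a'
    · subst haa
      simp
    · rw [if_neg haa]
      have hne : (a:ℤ) - (a':ℤ) ≠ 0 := by
        intro h0
        apply haa
        have : (a:ℤ) = a' := by linarith
        exact_mod_cast this
      have hb : |(a:ℤ) - (a':ℤ)| < (M:ℤ) := by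
        have hMz : (M:ℤ) = (N:ℤ) + (H:ℤ) ^ 2 := by rw [hMd]; push_cast; ring
        have hH2 : (0:ℤ) ≤ (H:ℤ) ^ 2 := by positivity
        rw [abs_lt, hMz]; constructor <;> linarith [(by exact_mod_cast hra.1 : (1:ℤ) ≤ a), (by exact_mod_cast hra.2 : (a:ℤ) ≤ N), (by exact_mod_cast hra'.1 : (1:ℤ) ≤ a'), (by exact_mod_cast hra'.2 : (a':ℤ) ≤ N)]
      have z := cos_sum_zero M _ hne hb
      simp only [x]
      rw [z, mul_zero]
  have hkey : ∑ j ∈ range M, F j * T (x j) = c0 * (M:ℝ) * (A.card:ℝ) := by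
    have e1 : ∀ j ∈ range M, F j * T (x j) = ∑ a ∈ A, ∑ a' ∈ A,
        Real.cos (2 * π * (((a:ℤ) - (a':ℤ) : ℤ) : ℝ) * x j) * T (x j) := by
      intro j _
      rw [hFj j, sum_mul]
      apply sum_congr rfl
      intro a _
      rw [sum_mul]
    rw [sum_congr rfl e1, sum_comm]
    have e2 : ∀ a ∈ A, ∑ j ∈ range M, ∑ a' ∈ A,
        Real.cos (2 * π * (((a:ℤ) - (a':ℤ) : ℤ) : ℝ) * x j) * T (x j) = c0 * (M:ℝ) := by
      intro a ha
      rw [sum_comm, sum_congr rfl (fun a' ha' => hG a ha a' ha')]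
      rw [sum_ite_eq, if_pos ha]
    rw [sum_congr rfl e2, sum_const, nsmul_eq_mul]
    ring
  have h0 : F 0 * T (x 0) ≤ ∑ j ∈ range M, F j * T (x j) :=
    single_le_sum (f := fun j => F j * T (x j)) (fun j _ => mul_nonneg (hF0 j) (hT _))
      (mem_range.mpr (by omega))
  have hx0 : x 0 = 0 := by simp [x]
  have hF00 : F 0 = (A.card:ℝ) ^ 2 := by
    simp only [F, hx0, mul_zero, Real.cos_zero, Real.sin_zero, sum_const, nsmul_eq_mul, mul_one]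
    ring
  rw [hkey, hx0, hT0, hF00, mul_one] at h0
  have hcard : (0:ℝ) < (A.card:ℝ) := by
    exact_mod_cast card_pos.mpr ⟨a0, ha0⟩
  have hMr : (M:ℝ) = (N:ℝ) + (H:ℝ) ^ 2 := by rw [hMd]; push_cast; ring
  rw [← hMr]
  have : (A.card:ℝ) * (A.card:ℝ) ≤ c0 * (M:ℝ) * (A.card:ℝ) := by nlinarith
  exact le_of_mul_le_mul_right this hcard

end Pool.Agent.Helper380.VDCX.Jr10
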