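import Mathlib
import Pool.Agent.Helper380.VDC.Defs
import Pool.Agent.Helper380.VDC.Defs3

set_option autoImplicit false

namespace Pool.Agent.Helper380.VDCX.Jr11

open Real Finset





theorem int_cos_zero (k : ℕ) (hk : 1 ≤ k) :
    ∫ x in (0:ℝ)..1, Real.cos (2 * π * (k : ℝ) ^ 2 * x) = 0 := by
  have hk0 : (0:ℝ) < (k:ℝ) := by exact_mod_cast hk
  have hc : 2 * π * (k : ℝ) ^ 2 ≠ 0 := by positivity
  rw [intervalIntegral.integral_comp_mul_left (fun y => Real.cos y) hc]
  rw [integral_cos]
  have h1 : Real.sin (2 * π * (k : ℝ) ^ 2 * 1) = 0 := by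
    have := Real.sin_nat_mul_pi (2 * k ^ 2)
    rw [← this]
    congr 1
    push_cast
    ring
  rw [h1]
  simp

theorem adm_nonneg {H : ℕ} {c0 : ℝ} {c : ℕ → ℝ} (h : Admissible H c0 c) : 0 ≤ c0 := by
  obtain ⟨h1, -⟩ := h
  have hI : ∀ k ∈ Icc 1 H, IntervalIntegrable
      (fun x : ℝ => c k * Real.cos (2 * π * (k : ℝ) ^ 2 * x)) MeasureTheory.volume 0 1 := by
    intro k _
    exact (by fun_prop : Continuous fun x : ℝ => c k * Real.cos (2 * π * (k : ℝ) ^ 2 * x)).intervalIntegrable _ _
  have h2 : ∫ x in (0:ℝ)..1, (c0 + ∑ k ∈ Icc 1 H, c k * Real.cos (2 * π * (k : ℝ) ^ 2 * x)) = c0 := by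
    rw [intervalIntegral.integral_add (by simp) (IntervalIntegrable.sum _ hI |> fun h => by
      simpa [Finset.sum_fn] using h)]
    rw [intervalIntegral.integral_finsetSum hI]
    have : ∀ k ∈ Icc 1 H, ∫ x in (0:ℝ)..1, c k * Real.cos (2 * π * (k : ℝ) ^ 2 * x) = 0 := by
      intro k hk
      rw [intervalIntegral.integral_const_mul, int_cos_zero k (Finset.mem_Icc.1 hk).1, mul_zero]
    rw [Finset.sum_eq_zero this]
    simp
  rw [← h2]
  exact intervalIntegral.integral_nonneg (by norm_num) (fun x _ => h1 x)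

theorem adm_mono {H' H : ℕ} (hH : H' ≤ H) {c0 : ℝ} {b : ℕ → ℝ} (h : Admissible H' c0 b) :
    ∃ c : ℕ → ℝ, Admissible H c0 c := by
  obtain ⟨h1, h2⟩ := h
  refine ⟨fun k => if k ≤ H' then b k else 0, ?_, ?_⟩
  · intro x
    have : ∑ k ∈ Icc 1 H, (if k ≤ H' then b k else 0) * Real.cos (2 * π * (k : ℝ) ^ 2 * x)
        = ∑ k ∈ Icc 1 H', b k * Real.cos (2 * π * (k : ℝ) ^ 2 * x) := by
      rw [← Finset.sum_subset (Finset.Icc_subset_Icc_right hH)]
      · refine Finset.sum_congr rfl fun k hk => ?_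
        rw [if_pos (Finset.mem_Icc.1 hk).2]
      · intro k hk hk'
        rw [if_neg, zero_mul]
        intro h3
        exact hk' (Finset.mem_Icc.2 ⟨(Finset.mem_Icc.1 hk).1, h3⟩)
    rw [this]
    exact h1 x
  · have : ∑ k ∈ Icc 1 H, (if k ≤ H' then b k else 0)
        = ∑ k ∈ Icc 1 H', b k := by
      rw [← Finset.sum_subset (Finset.Icc_subset_Icc_right hH)]
      · refine Finset.sum_congr rfl fun k hk => ?_
        rw [if_pos (Finset.mem_Icc.1 hk).2]
      · intro k hk hk'
        rw [if_neg]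
        intro h3
        exact hk' (Finset.mem_Icc.2 ⟨(Finset.mem_Icc.1 hk).1, h3⟩)
    rw [this]
    exact h2

theorem delta_le {H : ℕ} {c0 : ℝ} {c : ℕ → ℝ} (h : Admissible H c0 c) : delta H ≤ c0 := by
  refine csInf_le ⟨0, ?_⟩ ⟨c, h⟩
  rintro y ⟨c', hc'⟩
  exact adm_nonneg hc'

theorem delta_le_one (H : ℕ) : delta H ≤ 1 := by
  refine delta_le (c := fun _ => 0) ⟨?_, ?_⟩
  · intro x; simp
  · simp

/-- final form for sets without square differences -/
theorem set_final
    (hdelta : ∃ c C : ℝ, 0 < c ∧ 0 < C ∧ ∀ H : ℕ, 3 ≤ H →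
      delta H ≤ C * Real.exp (-c * √(Real.log H * Real.log (Real.log H))))
    (set_bound : ∀ (H N : ℕ) (c0 : ℝ) (c : ℕ → ℝ), Admissible H c0 c → ∀ (A : Finset ℕ),
      A ⊆ Icc 1 N → (∀ a ∈ A, ∀ a' ∈ A, ∀ k : ℕ, 1 ≤ k → a ≠ a' + k ^ 2) →
      (A.card : ℝ) ≤ c0 * ((N : ℝ) + (H : ℝ) ^ 2)) :
    ∃ c C : ℝ, 0 < c ∧ 0 < C ∧ ∀ N : ℕ, 3 ≤ N → ∀ A : Finset ℕ, A ⊆ Icc 1 N →
      (∀ a ∈ A, ∀ a' ∈ A, ∀ k : ℕ, 1 ≤ k → a ≠ a' + k ^ 2) →
      (A.card : ℝ) ≤ C * N * Real.exp (-c * √(Real.log N * Real.log (Real.log N))) := by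
  obtain ⟨c, C, hc, hC, hd⟩ := hdelta
  refine ⟨c / 5, 2 * C + Real.exp (3 * (c / 5)), by positivity, by positivity, ?_⟩
  intro N hN A hA hsq
  have hN0 : (0:ℝ) < N := by exact_mod_cast (by omega : 0 < N)
  rcases lt_or_ge N 16 with hN16 | hN16
  · -- small N
    have hcard : (A.card : ℝ) ≤ N := by
      have h1 := Finset.card_le_card hA
      rw [Nat.card_Icc] at h1
      have h2 : A.card ≤ N := by omega
      exact_mod_cast h2
    have hlog0 : 0 ≤ Real.log N := Real.log_nonneg (by exact_mod_cast (by omega : 1 ≤ N))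
    have hlog3 : Real.log N ≤ 3 := by
      have h1 : Real.log N ≤ Real.log 16 :=
        Real.log_le_log hN0 (by exact_mod_cast (by omega : N ≤ 16))
      have h2 : Real.log 16 = 4 * Real.log 2 := by
        rw [show (16:ℝ) = 2 ^ 4 by norm_num, Real.log_pow]; norm_num
      have h3 := Real.log_two_lt_d9
      rw [h2] at h1
      linarith
    have hll : Real.log (Real.log N) ≤ 3 := by
      rcases eq_or_lt_of_le hlog0 with h | h
      · rw [← h]; simp
      · have := Real.log_le_sub_one_of_pos h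
        linarith
    have hprod : Real.log N * Real.log (Real.log N) ≤ 3 ^ 2 := by
      nlinarith [mul_le_mul_of_nonneg_left hll hlog0]
    have hs : √(Real.log N * Real.log (Real.log N)) ≤ 3 := by
      have := Real.sqrt_le_sqrt hprod
      rwa [Real.sqrt_sq (by norm_num : (0:ℝ) ≤ 3)] at this
    have he : 1 ≤ Real.exp (3 * (c / 5)) *
        Real.exp (-(c / 5) * √(Real.log N * Real.log (Real.log N))) := by
      rw [← Real.exp_add, ← Real.exp_zero]
      apply Real.exp_le_exp.mpr
      nlinarith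
    have hexp := Real.exp_pos (-(c / 5) * √(Real.log N * Real.log (Real.log N)))
    calc (A.card : ℝ) ≤ N := hcard
      _ = N * 1 := (mul_one _).symm
      _ ≤ N * (Real.exp (3 * (c / 5)) *
        Real.exp (-(c / 5) * √(Real.log N * Real.log (Real.log N)))) :=
          mul_le_mul_of_nonneg_left he hN0.le
      _ ≤ (2 * C + Real.exp (3 * (c / 5))) * N *
        Real.exp (-(c / 5) * √(Real.log N * Real.log (Real.log N))) := by
          have : 0 ≤ 2 * C * N * Real.exp (-(c / 5) * √(Real.log N * Real.log (Real.log N))) := by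
            positivity
          nlinarith
  · -- large N
    set H := Nat.sqrt N with hHdef
    have hH4 : 4 ≤ H := by
      rw [hHdef, Nat.le_sqrt]; omega
    have hHN : H ^ 2 ≤ N := by
      rw [pow_two]; exact Nat.sqrt_le N
    have hNH : N ≤ H ^ 4 := by
      have h1 : N < (H + 1) * (H + 1) := Nat.lt_succ_sqrt N
      have h2 : H + 1 ≤ H * H := by nlinarith
      have h3 : (H + 1) * (H + 1) ≤ (H * H) * (H * H) := Nat.mul_le_mul h2 h2
      have h4 : (H * H) * (H * H) = H ^ 4 := by ring
      omega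
    have hHr : (4:ℝ) ≤ H := by exact_mod_cast hH4
    have hHpos : (0:ℝ) < H := by linarith
    have hHNr : (H:ℝ) ^ 2 ≤ N := by exact_mod_cast hHN
    have hNHr : (N:ℝ) ≤ (H:ℝ) ^ 4 := by exact_mod_cast hNH
    -- |A| ≤ 2 N delta H
    have hAd : (A.card : ℝ) / (2 * N) ≤ delta H := by
      apply le_csInf
      · refine ⟨1, fun _ => 0, ?_, ?_⟩
        · intro x; simp
        · simp
      · rintro c0 ⟨b, hb⟩
        have h1 := set_bound H N c0 b hb A hA hsq
        have h0 := adm_nonneg hb
        rw [div_le_iff₀ (by positivity)]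
        nlinarith [mul_le_mul_of_nonneg_left hHNr h0]
    have hAd2 : (A.card : ℝ) ≤ 2 * N * delta H := by
      rw [div_le_iff₀ (by positivity)] at hAd
      linarith
    have hdH := hd H (by omega)
    -- logs
    have hl2 := Real.log_two_gt_d9
    have ha : (1.38 : ℝ) ≤ Real.log H := by
      have h1 : Real.log 4 ≤ Real.log H := Real.log_le_log (by norm_num) hHr
      have h2 : Real.log 4 = 2 * Real.log 2 := by
        rw [show (4:ℝ) = 2 ^ 2 by norm_num, Real.log_pow]; norm_num
      rw [h2] at h1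
      linarith
    have hapos : 0 < Real.log H := by linarith
    have hL4 : Real.log N ≤ 4 * Real.log H := by
      have h1 := Real.log_le_log hN0 hNHr
      rw [Real.log_pow] at h1
      exact_mod_cast h1
    have hL1 : 1 ≤ Real.log N := by
      have h1 : Real.log 16 ≤ Real.log N :=
        Real.log_le_log (by norm_num) (by exact_mod_cast hN16)
      have h2 : Real.log 16 = 4 * Real.log 2 := by
        rw [show (16:ℝ) = 2 ^ 4 by norm_num, Real.log_pow]; norm_num
      rw [h2] at h1
      linarith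
    have hLpos : 0 < Real.log N := by linarith
    have h5 : Real.log 4 ≤ 5 * Real.log (Real.log H) := by
      have h1 : (4:ℝ) ≤ (Real.log H) ^ 5 := by
        have h2 : (1.38:ℝ) ^ 5 ≤ (Real.log H) ^ 5 :=
          pow_le_pow_left₀ (by norm_num) ha 5
        have h3 : (4:ℝ) ≤ (1.38:ℝ) ^ 5 := by norm_num
        linarith
      have h2 := Real.log_le_log (by norm_num) h1
      rw [Real.log_pow] at h2
      exact_mod_cast h2
    have hlla : 0 ≤ Real.log (Real.log H) := Real.log_nonneg (by linarith)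
    have hllN : 0 ≤ Real.log (Real.log N) := Real.log_nonneg hL1
    have hLL : Real.log (Real.log N) ≤ 6 * Real.log (Real.log H) := by
      have h1 := Real.log_le_log hLpos hL4
      rw [Real.log_mul (by norm_num) hapos.ne'] at h1
      linarith
    have hprod : Real.log N * Real.log (Real.log N) ≤
        25 * (Real.log H * Real.log (Real.log H)) := by
      have h1 : Real.log N * Real.log (Real.log N) ≤
          (4 * Real.log H) * (6 * Real.log (Real.log H)) :=
        mul_le_mul hL4 hLL hllN (by positivity)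
      have h2 : 0 ≤ Real.log H * Real.log (Real.log H) := mul_nonneg hapos.le hlla
      nlinarith
    have hs : √(Real.log N * Real.log (Real.log N)) ≤
        5 * √(Real.log H * Real.log (Real.log H)) := by
      have h1 := Real.sqrt_le_sqrt hprod
      have h2 : √(25 * (Real.log H * Real.log (Real.log H))) =
          5 * √(Real.log H * Real.log (Real.log H)) := by
        rw [Real.sqrt_mul (by norm_num : (0:ℝ) ≤ 25)]
        congr 1
        rw [show (25:ℝ) = 5 ^ 2 by norm_num, Real.sqrt_sq (by norm_num : (0:ℝ) ≤ 5)]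
      rwa [h2] at h1
    have hE : Real.exp (-c * √(Real.log H * Real.log (Real.log H))) ≤
        Real.exp (-(c / 5) * √(Real.log N * Real.log (Real.log N))) := by
      apply Real.exp_le_exp.mpr
      nlinarith
    have hEpos := Real.exp_pos (-(c / 5) * √(Real.log N * Real.log (Real.log N)))
    calc (A.card : ℝ) ≤ 2 * N * delta H := hAd2
      _ ≤ 2 * N * (C * Real.exp (-c * √(Real.log H * Real.log (Real.log H)))) :=
          mul_le_mul_of_nonneg_left hdH (by positivity)
      _ ≤ 2 * N * (C * Real.exp (-(c / 5) * √(Real.log N * Real.log (Real.log N)))) := by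
          apply mul_le_mul_of_nonneg_left _ (by positivity)
          exact mul_le_mul_of_nonneg_left hE hC.le
      _ ≤ (2 * C + Real.exp (3 * (c / 5))) * N *
        Real.exp (-(c / 5) * √(Real.log N * Real.log (Real.log N))) := by
          have : 0 ≤ Real.exp (3 * (c / 5)) * N *
            Real.exp (-(c / 5) * √(Real.log N * Real.log (Real.log N))) := by
            positivity
          nlinarith

end Pool.Agent.Helper380.VDCX.Jr11
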