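import Mathlib
import Pool.Agent.Helper380.VDC.Defs
import Pool.Agent.Helper380.VDC.Defs3

set_option autoImplicit false

namespace Pool.Agent.Helper380.VDCX.Jr2

open Real Finset





















theorem rg_localw (s : ℝ) (h : ℕ → ℂ) (m : ℕ) :
    ∑ j ∈ range 2, (if j ≤ m then (-1 : ℂ) ^ j * (s : ℂ) ^ m * h (m - j) else 0) = cc s h m := by
  unfold cc
  rw [sum_range_succ, sum_range_succ, sum_range_zero]
  rcases Nat.eq_zero_or_pos m with h0 | h0
  · subst h0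
    simp
  · rw [if_pos (Nat.zero_le m), if_pos (by omega), if_neg (by omega)]
    simp only [pow_zero, pow_one, Nat.sub_zero]
    ring

theorem regroupw {ι : Type} [Fintype ι] [DecidableEq ι] (u : ι → ℕ) (K : ℕ) (s : ι → ℝ)
    (h : ι → ℕ → ℂ) :
    ∑ fb ∈ Jw ι u K, ∏ i, ((-1 : ℂ) ^ (fb.2 i) * (s i : ℂ) ^ (fb.1 i) * h i (fb.1 i - fb.2 i)) =
      ∑ f ∈ (Fintype.piFinset fun _ : ι => range (K + 1)).filter (fun f => ∑ i, f i * u i ≤ K),
        ∏ i, cc (s i) (h i) (f i) := by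
  classical
  unfold Jw
  rw [sum_filter, sum_product, sum_filter]
  refine sum_congr rfl fun f _ => ?_
  by_cases hK : ∑ i, f i * u i ≤ K
  · rw [if_pos hK]
    have h1 : ∀ b : ι → ℕ, (if (∑ i, f i * u i ≤ K ∧ ∀ i, b i ≤ f i) then
        ∏ i, ((-1 : ℂ) ^ (b i) * (s i : ℂ) ^ (f i) * h i (f i - b i)) else 0) =
        ∏ i, (if b i ≤ f i then (-1 : ℂ) ^ (b i) * (s i : ℂ) ^ (f i) * h i (f i - b i) else 0) := by
      intro b
      rw [Finset.prod_ite_zero]
      simp [hK]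
    simp only [h1]
    have h2 := (Finset.prod_univ_sum (fun _ : ι => range 2)
      (fun i j => if j ≤ f i then (-1 : ℂ) ^ j * (s i : ℂ) ^ (f i) * h i (f i - j) else 0)).symm
    refine h2.trans ?_
    exact prod_congr rfl fun i _ => rg_localw (s i) (h i) (f i)
  · rw [if_neg hK]
    refine sum_eq_zero fun b _ => ?_
    rw [if_neg (fun hh => hK hh.1)]

theorem trunc_fullw {ι : Type} [Fintype ι] [DecidableEq ι] (u : ι → ℕ) (hu : ∀ i, 1 ≤ u i) (K : ℕ)
    (c : ι → ℕ → ℂ) (n : ι → ℕ)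
    (hz : ∀ i j, n i < j → c i j = 0) (hK : ∑ i, n i * u i ≤ K) :
    ∑ f ∈ (Fintype.piFinset fun _ : ι => range (K + 1)).filter (fun f => ∑ i, f i * u i ≤ K),
      ∏ i, c i (f i) = ∏ i, ∑ j ∈ range (K + 1), c i j := by
  rw [Finset.prod_univ_sum]
  refine Finset.sum_subset (Finset.filter_subset _ _) ?_
  intro f hf hnf
  rw [Finset.mem_filter, not_and, not_le] at hnf
  have h1 := hnf hf
  obtain ⟨i, hi⟩ : ∃ i, n i < f i := by
    by_contra hcon
    have hcon' : ∀ i, f i ≤ n i := fun i => not_lt.mp (fun h => hcon ⟨i, h⟩)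
    have h2 : ∑ i, f i * u i ≤ ∑ i, n i * u i :=
      Finset.sum_le_sum (fun i _ => Nat.mul_le_mul_right _ (hcon' i))
    omega
  exact Finset.prod_eq_zero (Finset.mem_univ i) (hz i (f i) hi)

theorem trunc_absw {ι : Type} [Fintype ι] [DecidableEq ι] (u : ι → ℕ) (K : ℕ) (c : ι → ℕ → ℂ) :
    ‖∑ f ∈ (Fintype.piFinset fun _ : ι => range (K + 1)).filter (fun f => ∑ i, f i * u i ≤ K),
      ∏ i, c i (f i)‖ ≤ ∏ i, ∑ j ∈ range (K + 1), ‖c i j‖ := by
  refine le_trans (norm_sum_le _ _) ?_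
  rw [Finset.prod_univ_sum]
  have h1 : ∑ f ∈ (Fintype.piFinset fun _ : ι => range (K + 1)).filter (fun f => ∑ i, f i * u i ≤ K),
      ‖∏ i, c i (f i)‖ ≤ ∑ f ∈ (Fintype.piFinset fun _ : ι => range (K + 1)), ‖∏ i, c i (f i)‖ :=
    Finset.sum_le_sum_of_subset_of_nonneg (Finset.filter_subset _ _) (fun _ _ _ => norm_nonneg _)
  refine le_trans h1 (le_of_eq ?_)
  refine Finset.sum_congr rfl (fun f _ => ?_)
  rw [norm_prod]

end Pool.Agent.Helper380.VDCX.Jr2
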