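import Mathlib
import Pool.Agent.Helper380.VDC.Defs
import Pool.Agent.Helper380.VDC.Defs3

set_option autoImplicit false

namespace Pool.Agent.Helper380.VDCX.Jr3

open Real Finset





















/-- very large primes -/
theorem tier4
    (loc0g : ∀ (s : ℝ), 0 < s → s ≤ 1 → ∀ (p : ℕ), 2 ≤ p → 2 ≤ s * p → ∀ (n : ℕ) (h : ℕ → ℂ),
      (∀ k, k < n → ‖h k‖ ≤ √2 * √(p : ℝ) / (p : ℝ) ^ (n - k)) →
      ∑ k ∈ range n, s ^ k * ‖h k‖ ≤ 3 / (s * √(p : ℝ)) * s ^ n)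
    (loc_absg : ∀ (s : ℝ), 0 < s → s ≤ 1 → ∀ (p : ℕ), 2 ≤ p → 2 ≤ s * p → ∀ (n K : ℕ) (h : ℕ → ℂ),
      (∀ k, n ≤ k → h k = 1) → (∀ k, k < n → ‖h k‖ ≤ √2 * √(p : ℝ) / (p : ℝ) ^ (n - k)) →
      ∑ j ∈ range (K + 1), ‖cc s h j‖ ≤ if n = 0 then 1 else s ^ n * (1 + 6 / (s * √(p : ℝ))))
    (loc_sum : ∀ (s : ℝ) (n K : ℕ), n ≤ K → ∀ (h : ℕ → ℂ), (∀ k, n ≤ k → h k = 1) →
      ∑ j ∈ range (K + 1), cc s h j = (s : ℂ) ^ n + (1 - (s : ℂ)) * ∑ k ∈ range n, (s : ℂ) ^ k * h k)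
    {ι : Type} [Fintype ι] [DecidableEq ι]
    (trunc_fullw : ∀ (u : ι → ℕ), (∀ i, 1 ≤ u i) → ∀ (K : ℕ) (c : ι → ℕ → ℂ) (n : ι → ℕ),
      (∀ i j, n i < j → c i j = 0) → ∑ i, n i * u i ≤ K →
      ∑ f ∈ (Fintype.piFinset fun _ : ι => range (K + 1)).filter (fun f => ∑ i, f i * u i ≤ K),
        ∏ i, c i (f i) = ∏ i, ∑ j ∈ range (K + 1), c i j)
    (trunc_absw : ∀ (u : ι → ℕ) (K : ℕ) (c : ι → ℕ → ℂ),
      ‖∑ f ∈ (Fintype.piFinset fun _ : ι => range (K + 1)).filter (fun f => ∑ i, f i * u i ≤ K),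
        ∏ i, c i (f i)‖ ≤ ∏ i, ∑ j ∈ range (K + 1), ‖c i j‖)
    (p n : ι → ℕ) (L K : ℕ) (hL : 1 ≤ L) (hK : K = 16 * L) (hp : ∀ i, (400 * L) ^ 4 < p i)
    (h : ι → ℕ → ℂ)
    (h1 : ∀ i, ∀ k, n i ≤ k → h i k = 1)
    (h2 : ∀ i, ∀ k, k < n i → ‖h i k‖ ≤ √2 * √(p i : ℝ) / (p i : ℝ) ^ (n i - k))
    (h3 : ∀ i k, ‖h i k‖ ≤ 1) (W : ℂ)
    (hW : W = ∑ f ∈ (Fintype.piFinset fun _ : ι => range (K + 1)).filter
        (fun f => ∑ i, f i * Nat.log 2 (p i) ≤ K), ∏ i, cc ((p i : ℝ) ^ (-(1 / 4 : ℝ))) (h i) (f i)) :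
    ‖W‖ ≤ 1 ∧ (‖W‖ ≤ Real.exp (-(L : ℝ)) ∨ ∃ (r : ℝ) (z : ι → ℂ), 0 ≤ r ∧ r ≤ 1 ∧
      W = (r : ℂ) * ∏ i, (1 + z i) ∧ ∑ i, ‖z i‖ ≤ 1 / 8) := by
  set s : ι → ℝ := fun i => (p i : ℝ) ^ (-(1 / 4 : ℝ)) with hs
  have hLr : (1 : ℝ) ≤ (L : ℝ) := by exact_mod_cast hL
  have hpr : ∀ i, (400 * (L : ℝ)) ^ 4 < (p i : ℝ) := fun i => by exact_mod_cast hp i
  have hpbig : ∀ i, (1 : ℝ) ≤ (p i : ℝ) := fun i => by
    have h4 : (1 : ℝ) ≤ (400 * (L : ℝ)) ^ 4 := one_le_pow₀ (by linarith)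
    linarith [hpr i]
  have hppos : ∀ i, (0 : ℝ) < (p i : ℝ) := fun i => by linarith [hpbig i]
  have hq : ∀ i, 400 * (L : ℝ) < (p i : ℝ) ^ (1 / 4 : ℝ) := fun i => by
    have h5 : (((400 * (L : ℝ)) ^ 4) ^ (1 / 4 : ℝ)) < (p i : ℝ) ^ (1 / 4 : ℝ) :=
      Real.rpow_lt_rpow (by positivity) (hpr i) (by norm_num)
    have h6 : ((400 * (L : ℝ)) ^ 4) ^ (1 / 4 : ℝ) = 400 * (L : ℝ) := by
      rw [← Real.rpow_natCast, ← Real.rpow_mul (by positivity)]
      norm_num
    rwa [h6] at h5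
  have hs0 : ∀ i, 0 < s i := fun i => Real.rpow_pos_of_pos (hppos i) _
  have hs1 : ∀ i, s i ≤ 1 := fun i => Real.rpow_le_one_of_one_le_of_nonpos (hpbig i) (by norm_num)
  have hsq : ∀ i, s i * √(p i : ℝ) = (p i : ℝ) ^ (1 / 4 : ℝ) := fun i => by
    simp only [hs]
    rw [Real.sqrt_eq_rpow, ← Real.rpow_add (hppos i)]
    norm_num
  have hsqL : ∀ i, 400 * (L : ℝ) < s i * √(p i : ℝ) := fun i => by
    rw [hsq i]; exact hq i
  have hsp : ∀ i, 2 ≤ s i * (p i : ℝ) := fun i => by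
    have h7 : s i * √(p i : ℝ) ≤ s i * (p i : ℝ) := by
      refine mul_le_mul_of_nonneg_left ?_ (hs0 i).le
      rw [Real.sqrt_le_left (hppos i).le]
      nlinarith [hpbig i]
    linarith [hsqL i]
  have hp2 : ∀ i, 2 ≤ p i := fun i => by
    have h8 : s i * (p i : ℝ) ≤ 1 * (p i : ℝ) := mul_le_mul_of_nonneg_right (hs1 i) (hppos i).le
    have h9 : (2 : ℝ) ≤ (p i : ℝ) := by linarith [hsp i]
    exact_mod_cast h9
  have hu : ∀ i, 1 ≤ Nat.log 2 (p i) := fun i => Nat.log_pos (by norm_num) (hp2 i)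
  by_cases hcase : ∑ i, n i * Nat.log 2 (p i) ≤ K
  · -- small exponents
    have hz : ∀ i j, n i < j → cc (s i) (h i) j = 0 := by
      intro i j hj
      unfold cc
      have hj0 : j ≠ 0 := by omega
      rw [if_neg hj0, h1 i j hj.le, h1 i (j - 1) (by omega)]
      ring
    have hWp : W = ∏ i, ∑ j ∈ range (K + 1), cc (s i) (h i) j := by
      rw [hW]
      exact trunc_fullw (fun i => Nat.log 2 (p i)) hu K (fun i j => cc (s i) (h i) j) n hz hcase
    have hnK : ∀ i, n i ≤ K := fun i => by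
      have h10 : n i * Nat.log 2 (p i) ≤ ∑ i, n i * Nat.log 2 (p i) :=
        Finset.single_le_sum (f := fun i => n i * Nat.log 2 (p i)) (fun _ _ => Nat.zero_le _)
          (Finset.mem_univ i)
      have h11 : n i * 1 ≤ n i * Nat.log 2 (p i) := Nat.mul_le_mul_left _ (hu i)
      omega
    have hlam : ∀ i, ∑ j ∈ range (K + 1), cc (s i) (h i) j =
        ((s i : ℝ) : ℂ) ^ n i + (1 - ((s i : ℝ) : ℂ)) * ∑ k ∈ range (n i), ((s i : ℝ) : ℂ) ^ k * h i k :=
      fun i => loc_sum (s i) (n i) K (hnK i) (h i) (h1 i)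
    have hns : ∀ i, ‖((s i : ℝ) : ℂ)‖ = s i := fun i => by
      rw [Complex.norm_real, Real.norm_of_nonneg (hs0 i).le]
    have hn1s : ∀ i, ‖(1 : ℂ) - ((s i : ℝ) : ℂ)‖ = 1 - s i := fun i => by
      have : (1 : ℂ) - ((s i : ℝ) : ℂ) = ((1 - s i : ℝ) : ℂ) := by push_cast; ring
      rw [this, Complex.norm_real, Real.norm_of_nonneg (by linarith [hs1 i])]
    have hlam1 : ∀ i, ‖∑ j ∈ range (K + 1), cc (s i) (h i) j‖ ≤ 1 := by
      intro i
      rw [hlam i]
      have h12 : ‖∑ k ∈ range (n i), ((s i : ℝ) : ℂ) ^ k * h i k‖ ≤ ∑ k ∈ range (n i), s i ^ k := by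
        refine (norm_sum_le _ _).trans (Finset.sum_le_sum fun k _ => ?_)
        rw [norm_mul, norm_pow, hns i]
        exact mul_le_of_le_one_right (pow_nonneg (hs0 i).le k) (h3 i k)
      have h13 : (1 - s i) * ∑ k ∈ range (n i), s i ^ k = 1 - s i ^ n i :=
        mul_neg_geom_sum (s i) (n i)
      calc ‖((s i : ℝ) : ℂ) ^ n i + (1 - ((s i : ℝ) : ℂ)) * ∑ k ∈ range (n i), ((s i : ℝ) : ℂ) ^ k * h i k‖
          ≤ ‖((s i : ℝ) : ℂ) ^ n i‖ + ‖(1 - ((s i : ℝ) : ℂ)) * ∑ k ∈ range (n i), ((s i : ℝ) : ℂ) ^ k * h i k‖ :=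
            norm_add_le _ _
        _ ≤ s i ^ n i + (1 - s i) * ∑ k ∈ range (n i), s i ^ k := by
            rw [norm_pow, hns i, norm_mul, hn1s i]
            exact add_le_add le_rfl (mul_le_mul_of_nonneg_left h12 (by linarith [hs1 i]))
        _ = 1 := by rw [h13]; ring
    refine ⟨?_, Or.inr ⟨∏ i, s i ^ n i, fun i => (((s i : ℝ) : ℂ) ^ n i)⁻¹ *
      ((1 - ((s i : ℝ) : ℂ)) * ∑ k ∈ range (n i), ((s i : ℝ) : ℂ) ^ k * h i k), ?_, ?_, ?_, ?_⟩⟩
    · rw [hWp, norm_prod]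
      exact Finset.prod_le_one (fun i _ => norm_nonneg _) fun i _ => hlam1 i
    · exact Finset.prod_nonneg fun i _ => pow_nonneg (hs0 i).le _
    · exact Finset.prod_le_one (fun i _ => pow_nonneg (hs0 i).le _)
        fun i _ => pow_le_one₀ (hs0 i).le (hs1 i)
    · rw [hWp]
      push_cast
      rw [← Finset.prod_mul_distrib]
      refine Finset.prod_congr rfl fun i _ => ?_
      rw [hlam i]
      have hne : (((s i : ℝ) : ℂ) ^ n i) ≠ 0 := pow_ne_zero _ (by
        exact_mod_cast (hs0 i).ne')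
      field_simp
    · have hzi : ∀ i, ‖(((s i : ℝ) : ℂ) ^ n i)⁻¹ *
          ((1 - ((s i : ℝ) : ℂ)) * ∑ k ∈ range (n i), ((s i : ℝ) : ℂ) ^ k * h i k)‖ ≤
          (n i * Nat.log 2 (p i) : ℕ) * (3 / (400 * (L : ℝ))) := by
        intro i
        rcases Nat.eq_zero_or_pos (n i) with h0 | h0
        · rw [h0]; simp
        · have h14 := loc0g (s i) (hs0 i) (hs1 i) (p i) (hp2 i) (hsp i) (n i) (h i) (h2 i)
          have h15 : ‖∑ k ∈ range (n i), ((s i : ℝ) : ℂ) ^ k * h i k‖ ≤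
              ∑ k ∈ range (n i), s i ^ k * ‖h i k‖ := by
            refine (norm_sum_le _ _).trans (le_of_eq (Finset.sum_congr rfl fun k _ => ?_))
            rw [norm_mul, norm_pow, hns i]
          have h16 : 0 < s i ^ n i := pow_pos (hs0 i) _
          rw [norm_mul, norm_inv, norm_pow, hns i, norm_mul, hn1s i]
          have h17 : (1 - s i) * ‖∑ k ∈ range (n i), ((s i : ℝ) : ℂ) ^ k * h i k‖ ≤
              3 / (s i * √(p i : ℝ)) * s i ^ n i := by
            have h18 : (1 - s i) * ‖∑ k ∈ range (n i), ((s i : ℝ) : ℂ) ^ k * h i k‖ ≤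
                1 * ‖∑ k ∈ range (n i), ((s i : ℝ) : ℂ) ^ k * h i k‖ :=
              mul_le_mul_of_nonneg_right (by linarith [hs0 i]) (norm_nonneg _)
            linarith
          have h19 : 3 / (s i * √(p i : ℝ)) ≤ 3 / (400 * (L : ℝ)) :=
            div_le_div_of_nonneg_left (by norm_num) (by linarith) (hsqL i).le
          have h20 : (1 : ℝ) ≤ (n i * Nat.log 2 (p i) : ℕ) := by
            have := Nat.mul_le_mul h0 (hu i)
            exact_mod_cast this
          calc (s i ^ n i)⁻¹ * ((1 - s i) * ‖∑ k ∈ range (n i), ((s i : ℝ) : ℂ) ^ k * h i k‖)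
              ≤ (s i ^ n i)⁻¹ * (3 / (s i * √(p i : ℝ)) * s i ^ n i) :=
                mul_le_mul_of_nonneg_left h17 (inv_nonneg.2 h16.le)
            _ = 3 / (s i * √(p i : ℝ)) := by field_simp
            _ ≤ 3 / (400 * (L : ℝ)) := h19
            _ = 1 * (3 / (400 * (L : ℝ))) := (one_mul _).symm
            _ ≤ _ := mul_le_mul_of_nonneg_right h20 (by positivity)
      refine (Finset.sum_le_sum fun i _ => hzi i).trans ?_
      rw [← Finset.sum_mul]
      have h21 : ((∑ i, n i * Nat.log 2 (p i) : ℕ) : ℝ) ≤ 16 * (L : ℝ) := by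
        have : ∑ i, n i * Nat.log 2 (p i) ≤ 16 * L := by omega
        exact_mod_cast this
      have h22 : ∑ i, ((n i * Nat.log 2 (p i) : ℕ) : ℝ) = ((∑ i, n i * Nat.log 2 (p i) : ℕ) : ℝ) := by
        push_cast; rfl
      rw [h22]
      calc ((∑ i, n i * Nat.log 2 (p i) : ℕ) : ℝ) * (3 / (400 * (L : ℝ)))
          ≤ 16 * (L : ℝ) * (3 / (400 * (L : ℝ))) :=
            mul_le_mul_of_nonneg_right h21 (by positivity)
        _ = 48 / 400 := by field_simp; norm_num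
        _ ≤ 1 / 8 := by norm_num
  · -- large exponents
    push Not at hcase
    have hWb : ‖W‖ ≤ Real.exp (-(L : ℝ)) := by
      have h30 : ‖W‖ ≤ ∏ i, ∑ j ∈ range (K + 1), ‖cc (s i) (h i) j‖ := by
        rw [hW]
        exact trunc_absw (fun i => Nat.log 2 (p i)) K (fun i j => cc (s i) (h i) j)
      have h31 : ∀ i, ∑ j ∈ range (K + 1), ‖cc (s i) (h i) j‖ ≤
          Real.exp (-((n i * Nat.log 2 (p i) : ℕ) : ℝ) / 16) := by
        intro i
        refine (loc_absg (s i) (hs0 i) (hs1 i) (p i) (hp2 i) (hsp i) (n i) K (h i) (h1 i)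
          (h2 i)).trans ?_
        split_ifs with h0
        · rw [h0]; simp
        · have hn : (1 : ℝ) ≤ (n i : ℝ) := by exact_mod_cast Nat.one_le_iff_ne_zero.2 h0
          have hur : (1 : ℝ) ≤ (Nat.log 2 (p i) : ℝ) := by exact_mod_cast hu i
          have h32 : (Nat.log 2 (p i) : ℝ) * Real.log 2 ≤ Real.log (p i : ℝ) := by
            have h33 : (2 : ℝ) ^ (Nat.log 2 (p i)) ≤ (p i : ℝ) := by
              exact_mod_cast Nat.pow_log_le_self 2 (by have := hp2 i; omega)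
            have h34 := Real.log_le_log (by positivity) h33
            rwa [Real.log_pow] at h34
          have h35 : s i ^ n i = Real.exp (-(Real.log (p i : ℝ) / 4 * n i)) := by
            simp only [hs]
            rw [Real.rpow_def_of_pos (hppos i), ← Real.exp_nat_mul]
            congr 1
            ring
          have h36 : 1 + 6 / (s i * √(p i : ℝ)) ≤ Real.exp (15 / 1000) := by
            have h37 : 6 / (s i * √(p i : ℝ)) ≤ 6 / 400 :=
              div_le_div_of_nonneg_left (by norm_num) (by norm_num) (by linarith [hsqL i])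
            have h38 := Real.add_one_le_exp (15 / 1000 : ℝ)
            linarith
          rw [h35]
          calc Real.exp (-(Real.log (p i : ℝ) / 4 * n i)) * (1 + 6 / (s i * √(p i : ℝ)))
              ≤ Real.exp (-(Real.log (p i : ℝ) / 4 * n i)) * Real.exp (15 / 1000) :=
                mul_le_mul_of_nonneg_left h36 (Real.exp_pos _).le
            _ = Real.exp (-(Real.log (p i : ℝ) / 4 * n i) + 15 / 1000) := by rw [Real.exp_add]
            _ ≤ _ := by
                refine Real.exp_le_exp.2 ?_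
                push_cast
                have hl2 := Real.log_two_gt_d9
                have h39 : (Nat.log 2 (p i) : ℝ) * 0.69 ≤ Real.log (p i : ℝ) := by
                  refine le_trans ?_ h32
                  exact mul_le_mul_of_nonneg_left (by linarith) (by linarith)
                have h40 : (Nat.log 2 (p i) : ℝ) * 0.69 * n i ≤ Real.log (p i : ℝ) * n i :=
                  mul_le_mul_of_nonneg_right h39 (by linarith)
                have h41 : (1 : ℝ) ≤ (Nat.log 2 (p i) : ℝ) * n i := by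
                  calc (1 : ℝ) = 1 * 1 := (one_mul 1).symm
                    _ ≤ _ := mul_le_mul hur hn zero_le_one (by linarith)
                nlinarith
      refine h30.trans ((Finset.prod_le_prod (fun i _ => Finset.sum_nonneg fun j _ => norm_nonneg _)
        fun i _ => h31 i).trans ?_)
      rw [← Real.exp_sum]
      refine Real.exp_le_exp.2 ?_
      rw [← Finset.sum_div, Finset.sum_neg_distrib]
      have h42 : (16 * (L : ℝ)) ≤ ∑ i, ((n i * Nat.log 2 (p i) : ℕ) : ℝ) := by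
        have : 16 * L ≤ ∑ i, n i * Nat.log 2 (p i) := by omega
        exact_mod_cast this
      linarith
    refine ⟨hWb.trans ?_, Or.inl hWb⟩
    rw [← Real.exp_zero]
    exact Real.exp_le_exp.2 (by linarith)

end Pool.Agent.Helper380.VDCX.Jr3
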