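import Mathlib
import Pool.Agent.Helper380.VDC.Defs
import Pool.Agent.Helper380.VDC.Defs3

set_option autoImplicit false

namespace Pool.Agent.Helper380.VDCX.Jr4

open Real Finset





















theorem geo_aux (m N : ℕ) :
    ∑ j ∈ range N, (if j < m then (1/2:ℝ)^(m-j) else 0) ≤ (1/2:ℝ)^(m-N) := by
  induction N with
  | zero => simp
  | succ N ih =>
    rw [sum_range_succ]
    by_cases h : N < m
    · rw [if_pos h]
      have h1 : m - N = (m - (N+1)) + 1 := by omega
      rw [h1] at ih
      rw [h1]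
      rw [pow_succ] at ih ⊢
      linarith
    · rw [if_neg h]
      have h1 : m - (N+1) = 0 := by omega
      have h2 : m - N = 0 := by omega
      rw [h2] at ih
      rw [h1]
      linarith

theorem wj_nonneg {B : ℝ} (hB : 0 ≤ B) (J j : ℕ) : 0 ≤ wj B J j := by
  unfold wj
  split_ifs
  · positivity
  · have : Real.exp (-B) ≤ 1 := Real.exp_le_one_iff.mpr (by linarith)
    exact mul_nonneg (by positivity) (by linarith)

theorem wj_le {B : ℝ} (J j : ℕ) : wj B J j ≤ Real.exp (-(j:ℝ)*B) := by
  unfold wj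
  split_ifs with h
  · rw [h]
  · have : 0 < Real.exp (-B) := Real.exp_pos _
    have h2 : 0 < Real.exp (-(j:ℝ)*B) := Real.exp_pos _
    nlinarith

theorem wj_ge {B : ℝ} (hB : 1 ≤ B) (J j : ℕ) : Real.exp (-(j:ℝ)*B)/2 ≤ wj B J j := by
  unfold wj
  have h2 : 0 < Real.exp (-(j:ℝ)*B) := Real.exp_pos _
  have h1 : Real.exp (-B) ≤ 1/2 := by
    have h3 : Real.exp (-B) ≤ Real.exp (-1) := Real.exp_le_exp.mpr (by linarith)
    have h4 := Real.exp_neg_one_lt_half
    linarith
  split_ifs with h
  · rw [← h]; linarith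
  · nlinarith

theorem wj_sum (B : ℝ) (J : ℕ) : ∑ j ∈ range (J+1), wj B J j = 1 := by
  rw [sum_range_succ]
  have h1 : ∀ j ∈ range J, wj B J j = Real.exp (-(j:ℝ)*B) - Real.exp (-((j+1:ℕ):ℝ)*B) := by
    intro j hj
    have : j ≠ J := (mem_range.mp hj).ne
    unfold wj
    rw [if_neg this, mul_sub, mul_one, ← Real.exp_add]
    congr 2
    push_cast; ring
  rw [sum_congr rfl h1, sum_range_sub' (fun j => Real.exp (-(j:ℝ)*B))]
  unfold wj
  simp

theorem xpow_le (a : ℝ) (ha : a ≤ 1) (ν : ℕ) : (1 - a)^ν ≤ Real.exp (-(a * ν)) := by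
  have h : Real.exp (-(a * ν)) = Real.exp (-a) ^ ν := by
    rw [← Real.exp_nat_mul]; congr 1; ring
  rw [h]
  apply pow_le_pow_left₀ (by linarith)
  have := Real.add_one_le_exp (-a)
  linarith

theorem xpow_ge (a : ℝ) (ha0 : 0 ≤ a) (ha : a ≤ 1/8) (ν : ℕ) : Real.exp (-(8/7 * a * ν)) ≤ (1 - a)^ν := by
  have h : Real.exp (-(8/7 * a * ν)) = Real.exp (-(8/7 * a)) ^ ν := by
    rw [← Real.exp_nat_mul]; congr 1; ring
  rw [h]
  apply pow_le_pow_left₀ (Real.exp_pos _).le
  have h1 := Real.add_one_le_exp (8/7 * a)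
  rw [Real.exp_neg]
  rw [inv_le_comm₀ (Real.exp_pos _) (by linarith)]
  refine le_trans ?_ h1
  rw [← one_div, div_le_iff₀ (by linarith)]
  nlinarith

set_option maxHeartbeats 2000000 in
/-- middle primes: a mixture of geometric weights -/
theorem tier2m {ι : Type} [Fintype ι] (p n : ι → ℕ) (η B : ℝ) (L K J : ℕ) (hη : 0 < η)
    (hη1 : η ≤ 1 / 10000) (hp : ∀ i, 1 / √(p i : ℝ) ≤ η) (hB : B = 1 / (480 * η))
    (hJ : (L : ℝ) ≤ J * B) (hA : 24 * η * 2 ^ (J + 2) ≤ 1) (hK : 2 * L * 2 ^ (J + 2) ≤ K)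
    (W : ℕ → ℂ)
    (hcase : ∀ j, j ≤ J →
      (∑ i, n i ≤ K → ‖W j‖ ≤ 1 ∧ ∃ z : ι → ℂ,
        W j = (((1 - 1 / 2 ^ (j + 2) : ℝ)) : ℂ) ^ (∑ i, n i) * ∏ i, (1 + z i) ∧
        ∀ i, ‖z i‖ ≤ (1 - (1 - 1 / 2 ^ (j + 2) : ℝ)) * (if n i = 0 then 0 else 6 / √(p i : ℝ))) ∧
      (K < ∑ i, n i → ‖W j‖ ≤ ∏ i, (if n i = 0 then (1 : ℝ) else
        (1 - 1 / 2 ^ (j + 2) : ℝ) ^ (n i) * (1 + 12 / √(p i : ℝ)))))
    (W2 : ℂ) (hW2 : W2 = ∑ j ∈ range (J + 1), (wj B J j : ℂ) * W j) :
    ‖W2‖ ≤ 1 ∧ (‖W2‖ ≤ Real.exp (-(L : ℝ)) ∨ ∃ (r : ℝ) (ζ : ℂ), 0 ≤ r ∧ r ≤ 1 ∧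
      W2 = (r : ℂ) * (1 + ζ) ∧ ‖ζ‖ ≤ 1 / 8) := by
  classical
  obtain ⟨ν, hν⟩ : ∃ ν, ν = ∑ i, n i := ⟨_, rfl⟩
  simp only [← hν] at hcase
  have hBη : B * (480 * η) = 1 := by rw [hB]; field_simp
  have hB20 : 20 ≤ B := by
    rw [hB, le_div_iff₀ (by positivity)]
    linarith
  have ha : ∀ j : ℕ, (0:ℝ) < 1/2^(j+2) := fun j => by positivity
  have ha4 : ∀ j : ℕ, (1:ℝ)/2^(j+2) ≤ 1/4 := by
    intro j
    rw [pow_add]
    rw [div_le_div_iff₀ (by positivity) (by norm_num)]
    have : (1:ℝ) ≤ 2^j := one_le_pow₀ (by norm_num)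
    linarith
  have haJ : ∀ i j : ℕ, i ≤ j → (1:ℝ)/2^(j+2) ≤ 1/2^(i+2) := by
    intro i j hij
    apply one_div_le_one_div_of_le (by positivity)
    exact pow_le_pow_right₀ (by norm_num) (by omega)
  have hwn := fun j => wj_nonneg (B := B) (by linarith) J j
  have hws := wj_sum B J
  have hW2n : ‖W2‖ ≤ ∑ j ∈ range (J+1), wj B J j * ‖W j‖ := by
    rw [hW2]
    refine (norm_sum_le _ _).trans (sum_le_sum fun j hj => ?_)
    rw [norm_mul, Complex.norm_real, Real.norm_of_nonneg (hwn j)]
  have hνs : ∑ i, (n i : ℝ) = (ν:ℝ) := by rw [hν]; push_cast; rfl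
  rcases lt_or_ge K ν with hK1 | hK1
  · -- case A
    have hb : ∀ j ∈ range (J+1), ‖W j‖ ≤ Real.exp (-(L:ℝ)) := by
      intro j hj
      have hjJ : j ≤ J := by have := mem_range.mp hj; omega
      refine ((hcase j hjJ).2 hK1).trans ?_
      have h1 : ∀ i ∈ (univ : Finset ι), (if n i = 0 then (1 : ℝ) else
        (1 - 1 / 2 ^ (j + 2) : ℝ) ^ (n i) * (1 + 12 / √(p i : ℝ))) ≤
          Real.exp ((12*η - 1/2^(j+2)) * n i) := by
        intro i _
        split_ifs with h0
        · rw [h0]; simp
        · have h2 := xpow_le (1/2^(j+2)) (by linarith [ha4 j]) (n i)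
          have h3 : 1 + 12 / √(p i : ℝ) ≤ Real.exp (12 * η * n i) := by
            have h4 : 12 / √(p i : ℝ) ≤ 12 * η := by
              have := hp i
              calc 12 / √(p i : ℝ) = 12 * (1/√(p i:ℝ)) := by ring
                _ ≤ _ := by linarith
            have h5 : (1:ℝ) ≤ n i := by exact_mod_cast Nat.one_le_iff_ne_zero.mpr h0
            have h6 := Real.add_one_le_exp (12 * η * n i)
            nlinarith
          calc _ ≤ Real.exp (-(1/2^(j+2) * n i)) * Real.exp (12 * η * n i) :=
                mul_le_mul h2 h3 (by positivity) (by positivity)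
            _ = _ := by rw [← Real.exp_add]; congr 1; ring
      refine (prod_le_prod (fun i _ => ?_) h1).trans ?_
      · split_ifs
        · norm_num
        · have := ha4 j
          exact mul_nonneg (pow_nonneg (by linarith) _) (by positivity)
      · rw [← Real.exp_sum, ← mul_sum]
        apply Real.exp_le_exp.mpr
        rw [hνs]
        have hKν : (K:ℝ) ≤ ν := by exact_mod_cast hK1.le
        have hAp : (0:ℝ) < 2^(J+2) := by positivity
        have h12 : 12 * η - 1/2^(j+2) ≤ -(1/(2 * 2^(J+2))) := by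
          have h13 : 24 * η ≤ 1/2^(J+2) := by rw [le_div_iff₀ hAp]; exact hA
          have h14 := haJ j J hjJ
          have h15 : (1:ℝ)/(2 * 2^(J+2)) = (1/2^(J+2))/2 := by field_simp
          rw [h15]; linarith
        have hν0 : (0:ℝ) ≤ ν := Nat.cast_nonneg _
        calc (12 * η - 1/2^(j+2)) * ν ≤ -(1/(2 * 2^(J+2))) * ν := mul_le_mul_of_nonneg_right h12 hν0
          _ ≤ -(1/(2 * 2^(J+2))) * (2 * L * 2^(J+2)) := by
            have hK' : (2 * L * 2 ^ (J + 2) : ℝ) ≤ K := by exact_mod_cast hK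
            apply mul_le_mul_of_nonpos_left (hK'.trans hKν)
            have : (0:ℝ) < 1/(2 * 2^(J+2)) := by positivity
            linarith
          _ = -(L:ℝ) := by field_simp
    have hL1 : Real.exp (-(L:ℝ)) ≤ 1 := Real.exp_le_one_iff.mpr (by
      have : (0:ℝ) ≤ L := Nat.cast_nonneg _
      linarith)
    have hfin : ‖W2‖ ≤ Real.exp (-(L:ℝ)) := by
      refine hW2n.trans ?_
      calc ∑ j ∈ range (J+1), wj B J j * ‖W j‖ ≤ ∑ j ∈ range (J+1), wj B J j * Real.exp (-(L:ℝ)) :=
            sum_le_sum fun j hj => mul_le_mul_of_nonneg_left (hb j hj) (hwn j)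
        _ = Real.exp (-(L:ℝ)) := by rw [← sum_mul, hws, one_mul]
    exact ⟨hfin.trans hL1, Or.inl hfin⟩
  · -- case B
    have hW1 : ‖W2‖ ≤ 1 := by
      refine hW2n.trans ?_
      calc ∑ j ∈ range (J+1), wj B J j * ‖W j‖ ≤ ∑ j ∈ range (J+1), wj B J j * 1 := by
            refine sum_le_sum fun j hj => mul_le_mul_of_nonneg_left ?_ (hwn j)
            exact ((hcase j (by have := mem_range.mp hj; omega)).1 hK1).1
        _ = 1 := by rw [← sum_mul, hws, one_mul]
    refine ⟨hW1, ?_⟩
    obtain ⟨y, hy⟩ : ∃ y : ℕ → ℝ, y = fun j => 1/2^(j+2) * (ν:ℝ) := ⟨_, rfl⟩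
    have hν0 : (0:ℝ) ≤ ν := Nat.cast_nonneg _
    have hy0 : ∀ j, 0 ≤ y j := fun j => by rw [hy]; positivity
    have hyr : ∀ j r : ℕ, y j = 2^r * y (j+r) := by
      intro j r
      rw [hy]
      simp only
      rw [show j + r + 2 = (j+2) + r by ring, pow_add _ (j+2) r]
      field_simp
    have hP : ∀ j, ∃ P : ℂ, j ≤ J → (W j = (((1 - 1 / 2 ^ (j + 2) : ℝ)) : ℂ) ^ ν * P ∧
        ‖P - 1‖ ≤ Real.exp (6 * η * y j) - 1) := by
      intro j
      by_cases hj : j ≤ J
      · obtain ⟨z, hz1, hz2⟩ := ((hcase j hj).1 hK1).2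
        refine ⟨∏ i, (1 + z i), fun _ => ⟨hz1, ?_⟩⟩
        refine (Finset.norm_prod_one_add_sub_one_le _ _).trans ?_
        have h1 : ∑ i, ‖z i‖ ≤ 6 * η * y j := by
          calc ∑ i, ‖z i‖ ≤ ∑ i, 6 * η * (1/2^(j+2)) * (n i : ℝ) := by
                refine sum_le_sum fun i _ => (hz2 i).trans ?_
                rw [sub_sub_cancel]
                split_ifs with h0
                · rw [h0]; simp
                · have h5 : (1:ℝ) ≤ n i := by exact_mod_cast Nat.one_le_iff_ne_zero.mpr h0
                  have h4 : 6 / √(p i : ℝ) ≤ 6 * η := by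
                    have := hp i
                    calc 6 / √(p i : ℝ) = 6 * (1/√(p i:ℝ)) := by ring
                      _ ≤ _ := by linarith
                  calc 1/2^(j+2) * (6 / √(p i : ℝ)) ≤ 1/2^(j+2) * (6 * η) :=
                        mul_le_mul_of_nonneg_left h4 (ha j).le
                    _ = 6 * η * (1/2^(j+2)) * 1 := by ring
                    _ ≤ 6 * η * (1/2^(j+2)) * (n i : ℝ) :=
                        mul_le_mul_of_nonneg_left h5 (by positivity)
            _ = 6 * η * y j := by rw [← mul_sum, hνs, hy]; ring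
        have := Real.exp_le_exp.mpr h1
        linarith
      · exact ⟨0, fun h => absurd h hj⟩
    choose P hP using hP
    have hPn : ∀ j, j ≤ J → ‖P j‖ ≤ Real.exp (6 * η * y j) := by
      intro j hj
      have h1 := (hP j hj).2
      have h2 : ‖P j‖ ≤ ‖P j - 1‖ + ‖(1:ℂ)‖ := by
        calc ‖P j‖ = ‖(P j - 1) + 1‖ := by rw [sub_add_cancel]
          _ ≤ _ := norm_add_le _ _
      rw [norm_one] at h2
      linarith
    have hxn : ∀ j, (0:ℝ) ≤ 1 - 1/2^(j+2) := fun j => by linarith [ha4 j]
    have hxν : ∀ j, (1 - 1/2^(j+2) : ℝ)^ν ≤ Real.exp (-(y j)) := by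
      intro j
      rw [hy]
      exact xpow_le _ (by linarith [ha4 j]) ν
    rcases lt_or_ge (5*B) (y J) with hyJ | hyJ
    · -- (i)
      left
      refine hW2n.trans ?_
      have hterm : ∀ j ∈ range (J+1), wj B J j * ‖W j‖ ≤
          Real.exp (-(J:ℝ)*B) * (if j < J+1 then (1/2:ℝ)^(J+1-j) else 0) := by
        intro j hj
        have hjJ1 := mem_range.mp hj
        have hjJ : j ≤ J := by omega
        rw [if_pos hjJ1]
        obtain ⟨r, hr⟩ : ∃ r, J = j + r := ⟨J - j, by omega⟩
        have hr1 : J + 1 - j = r + 1 := by omega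
        rw [hr1]
        have h1 : ‖W j‖ ≤ Real.exp (-(y j)) * Real.exp (6 * η * y j) := by
          rw [(hP j hjJ).1, norm_mul, norm_pow, Complex.norm_real, Real.norm_of_nonneg (hxn j)]
          exact mul_le_mul (hxν j) (hPn j hjJ) (norm_nonneg _) (Real.exp_pos _).le
        have h2 : y j = 2^r * y J := by rw [hr]; exact hyr j r
        have h3 : ((r:ℝ)+1) ≤ 2^r := by
          have := Nat.lt_two_pow_self (n := r)
          exact_mod_cast this
        have hr0 : (0:ℝ) ≤ r := Nat.cast_nonneg _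
        have h4 : ((r:ℝ)+1) * (5*B) ≤ y j := by
          rw [h2]
          exact mul_le_mul h3 hyJ.le (by linarith) (by positivity)
        calc wj B J j * ‖W j‖ ≤ Real.exp (-(j:ℝ)*B) * (Real.exp (-(y j)) * Real.exp (6 * η * y j)) :=
              mul_le_mul (wj_le J j) h1 (norm_nonneg _) (Real.exp_pos _).le
          _ = Real.exp (-(j:ℝ)*B - (1 - 6*η) * y j) := by
              rw [← Real.exp_add, ← Real.exp_add]; congr 1; ring
          _ ≤ Real.exp (-(J:ℝ)*B + ((r:ℝ)+1) * (-1)) := by
              apply Real.exp_le_exp.mpr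
              have hJr : (J:ℝ) = j + r := by rw [hr]; push_cast; ring
              rw [hJr]
              have h5 : (9/10:ℝ) * y j ≤ (1 - 6*η) * y j :=
                mul_le_mul_of_nonneg_right (by linarith) (hy0 j)
              nlinarith
          _ = Real.exp (-(J:ℝ)*B) * Real.exp (-1)^(r+1) := by
              rw [Real.exp_add, ← Real.exp_nat_mul]; push_cast; rfl
          _ ≤ Real.exp (-(J:ℝ)*B) * (1/2:ℝ)^(r+1) := by
              apply mul_le_mul_of_nonneg_left _ (Real.exp_pos _).le
              exact pow_le_pow_left₀ (Real.exp_pos _).le Real.exp_neg_one_lt_half.le _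
      refine (sum_le_sum hterm).trans ?_
      rw [← mul_sum]
      have hg := geo_aux (J+1) (J+1)
      rw [Nat.sub_self, pow_zero] at hg
      calc Real.exp (-(J:ℝ)*B) * _ ≤ Real.exp (-(J:ℝ)*B) * 1 :=
            mul_le_mul_of_nonneg_left hg (Real.exp_pos _).le
        _ ≤ Real.exp (-(L:ℝ)) := by
            rw [mul_one]
            apply Real.exp_le_exp.mpr
            linarith
    · -- (ii)
      right
      have hex : ∃ j, y j ≤ 5*B := ⟨J, hyJ⟩
      obtain ⟨m, hm⟩ : ∃ m, m = Nat.find hex := ⟨_, rfl⟩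
      have hm1 : y m ≤ 5*B := by rw [hm]; exact Nat.find_spec hex
      have hm2 : ∀ j, j < m → 5*B < y j := by
        intro j hj
        rw [hm] at hj
        exact not_le.mp (Nat.find_min hex hj)
      have hmJ : m ≤ J := by rw [hm]; exact Nat.find_min' hex hyJ
      obtain ⟨b, hb⟩ : ∃ b : ℝ, b = ∑ j ∈ range (J+1), wj B J j * (1 - 1/2^(j+2) : ℝ)^ν := ⟨_, rfl⟩
      have hterm0 : ∀ j ∈ range (J+1), 0 ≤ wj B J j * (1 - 1/2^(j+2) : ℝ)^ν :=
        fun j _ => mul_nonneg (hwn j) (pow_nonneg (hxn j) _)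
      have hb1 : b ≤ 1 := by
        rw [hb]
        calc _ ≤ ∑ j ∈ range (J+1), wj B J j * 1 := by
              refine sum_le_sum fun j _ => mul_le_mul_of_nonneg_left ?_ (hwn j)
              exact pow_le_one₀ (hxn j) (by linarith [ha j])
          _ = 1 := by rw [← sum_mul, hws, one_mul]
      have hbm : wj B J m * (1 - 1/2^(m+2) : ℝ)^ν ≤ b := by
        rw [hb]
        exact single_le_sum hterm0 (mem_range.mpr (by omega))
      have hbpos : 0 < b := by
        refine lt_of_lt_of_le ?_ hbm
        apply mul_pos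
        · have := wj_ge (B := B) (by linarith) J m
          have h2 : 0 < Real.exp (-(m:ℝ)*B) := Real.exp_pos _
          linarith
        · apply pow_pos
          linarith [ha4 m]
      have hexpB : Real.exp (-B) ≤ 1/80 := by
        have h1 := Real.quadratic_le_exp_of_nonneg (x := B) (by linarith)
        have h2 : 80 ≤ Real.exp B := by nlinarith
        rw [Real.exp_neg, ← one_div]
        exact one_div_le_one_div_of_le (by norm_num) h2
      have hkey : ∀ j ∈ range (J+1), wj B J j * (1 - 1/2^(j+2) : ℝ)^ν * ‖P j - 1‖ ≤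
          (1/15) * (wj B J j * (1 - 1/2^(j+2) : ℝ)^ν) +
            (1/20) * b * (if j < m then (1/2:ℝ)^(m-j) else 0) := by
        intro j hj
        have hjJ : j ≤ J := by have := mem_range.mp hj; omega
        by_cases hjm : j < m
        · rw [if_pos hjm]
          obtain ⟨r, hr⟩ : ∃ r, m = j + (r+1) := ⟨m - j - 1, by omega⟩
          have hr1 : m - j = r + 1 := by omega
          rw [hr1]
          have hT0 := hterm0 j hj
          have hPj : ‖P j - 1‖ ≤ Real.exp (6 * η * y j) := by
            have := (hP j hjJ).2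
            linarith
          -- y m > 5B/2
          have hym : 5*B < 2 * y m := by
            have h1 := hm2 (m-1) (by omega)
            have h2 := hyr (m-1) 1
            rw [show m - 1 + 1 = m by omega] at h2
            rw [h2, pow_one] at h1
            exact h1
          have hyj : y j = 2^(r+1) * y m := by
            have := hyr j (r+1)
            rw [← hr] at this
            exact this
          have h2r : 2 * ((r:ℝ)+1) ≤ 2^(r+1) := by
            have h3 : ((r:ℝ)+1) ≤ 2^r := by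
              have := Nat.lt_two_pow_self (n := r)
              exact_mod_cast this
            rw [pow_succ]; linarith
          have ham : (1:ℝ)/2^(m+2) ≤ 1/8 := by
            have h5 := haJ 1 m (by omega)
            norm_num at h5
            norm_num
            exact h5
          have hbge : Real.exp (-(m:ℝ)*B)/2 * Real.exp (-(8/7 * y m)) ≤ b := by
            refine le_trans ?_ hbm
            apply mul_le_mul (wj_ge (by linarith) J m) _ (Real.exp_pos _).le (hwn m)
            have h6 := xpow_ge (1/2^(m+2)) (ha m).le ham ν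
            rw [hy]
            simp only
            rw [← mul_assoc]
            exact h6
          have hr0 : (0:ℝ) ≤ r := Nat.cast_nonneg _
          have hexpo : -(j:ℝ)*B - (1 - 6*η) * y j ≤
              (-(m:ℝ)*B - 8/7 * y m) + ((r:ℝ)+1) * (-B) := by
            have hmr : (m:ℝ) = j + (r+1) := by rw [hr]; push_cast; ring
            have h7 : (999/1000:ℝ) * y j ≤ (1 - 6*η) * y j :=
              mul_le_mul_of_nonneg_right (by linarith) (hy0 j)
            have h8 : 2 * ((r:ℝ)+1) * y m ≤ y j := by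
              rw [hyj]
              exact mul_le_mul_of_nonneg_right h2r (hy0 m)
            have h9 : ((r:ℝ)+1) * (5*B) ≤ ((r:ℝ)+1) * (2 * y m) :=
              mul_le_mul_of_nonneg_left hym.le (by linarith)
            have h10 : 0 ≤ (r:ℝ) * y m := mul_nonneg hr0 (hy0 m)
            rw [hmr]
            have h11 := hy0 m
            have h12 : 0 ≤ (r:ℝ) * B := mul_nonneg hr0 (by linarith)
            nlinarith
          have hmain : wj B J j * (1 - 1/2^(j+2) : ℝ)^ν * ‖P j - 1‖ ≤
              2 * b * Real.exp (-B)^(r+1) := by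
            calc wj B J j * (1 - 1/2^(j+2) : ℝ)^ν * ‖P j - 1‖
                ≤ Real.exp (-(j:ℝ)*B) * Real.exp (-(y j)) * Real.exp (6 * η * y j) := by
                  apply mul_le_mul _ hPj (norm_nonneg _) (by positivity)
                  exact mul_le_mul (wj_le J j) (hxν j) (pow_nonneg (hxn j) _) (Real.exp_pos _).le
              _ = Real.exp (-(j:ℝ)*B - (1 - 6*η) * y j) := by
                  rw [← Real.exp_add, ← Real.exp_add]; congr 1; ring
              _ ≤ Real.exp ((-(m:ℝ)*B - 8/7 * y m) + ((r:ℝ)+1) * (-B)) := Real.exp_le_exp.mpr hexpo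
              _ = 2 * (Real.exp (-(m:ℝ)*B)/2 * Real.exp (-(8/7 * y m))) * Real.exp (-B)^(r+1) := by
                  have h14 : Real.exp (-B)^(r+1) = Real.exp (((r:ℝ)+1) * (-B)) := by
                    rw [← Real.exp_nat_mul]; push_cast; rfl
                  rw [h14, Real.exp_add, sub_eq_add_neg, Real.exp_add]; ring
              _ ≤ 2 * b * Real.exp (-B)^(r+1) := by
                  apply mul_le_mul_of_nonneg_right _ (by positivity)
                  linarith
          have hpow : Real.exp (-B)^(r+1) ≤ (1/40) * (1/2:ℝ)^(r+1) := by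
            calc Real.exp (-B)^(r+1) ≤ (1/80:ℝ)^(r+1) := pow_le_pow_left₀ (Real.exp_pos _).le hexpB _
              _ = (1/40:ℝ)^(r+1) * (1/2:ℝ)^(r+1) := by rw [← mul_pow]; norm_num
              _ ≤ (1/40) * (1/2:ℝ)^(r+1) := by
                  apply mul_le_mul_of_nonneg_right _ (by positivity)
                  rw [pow_succ]
                  have : (1/40:ℝ)^r ≤ 1 := pow_le_one₀ (by norm_num) (by norm_num)
                  linarith
          calc wj B J j * (1 - 1/2^(j+2) : ℝ)^ν * ‖P j - 1‖ ≤ 2 * b * Real.exp (-B)^(r+1) := hmain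
            _ ≤ 2 * b * ((1/40) * (1/2:ℝ)^(r+1)) := mul_le_mul_of_nonneg_left hpow (by positivity)
            _ = 1/20 * b * (1/2:ℝ)^(r+1) := by ring
            _ ≤ _ := by linarith
        · rw [if_neg hjm, mul_zero, add_zero]
          have hT0 := hterm0 j hj
          have hyj : y j ≤ 5*B := by
            obtain ⟨r, hr⟩ : ∃ r, j = m + r := ⟨j - m, by omega⟩
            have h1 := hyr m r
            rw [← hr] at h1
            have h2 : (1:ℝ) ≤ 2^r := one_le_pow₀ (by norm_num)
            have h3 := hy0 j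
            nlinarith
          have h4 : 6 * η * y j ≤ 1/16 := by
            calc 6 * η * y j ≤ 6 * η * (5*B) := mul_le_mul_of_nonneg_left hyj (by positivity)
              _ = (B * (480 * η))/16 := by ring
              _ = 1/16 := by rw [hBη]
          have h5 : Real.exp (6 * η * y j) ≤ 16/15 := by
            refine (Real.exp_le_exp.mpr h4).trans ?_
            refine (Real.exp_bound_div_one_sub_of_interval (by norm_num) (by norm_num)).trans ?_
            norm_num
          have h6 := (hP j hjJ).2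
          rw [mul_comm (1/15:ℝ)]
          apply mul_le_mul_of_nonneg_left _ hT0
          linarith
      have hdiff : ‖W2 - (b:ℂ)‖ ≤ b / 8 := by
        have h1 : W2 - (b:ℂ) = ∑ j ∈ range (J+1),
            ((wj B J j * (1 - 1/2^(j+2) : ℝ)^ν : ℝ) : ℂ) * (P j - 1) := by
          rw [hW2, hb, Complex.ofReal_sum, ← sum_sub_distrib]
          refine sum_congr rfl fun j hj => ?_
          have hjJ : j ≤ J := by have := mem_range.mp hj; omega
          rw [(hP j hjJ).1]
          push_cast
          ring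
        rw [h1]
        refine (norm_sum_le _ _).trans ?_
        calc ∑ j ∈ range (J+1), ‖((wj B J j * (1 - 1/2^(j+2) : ℝ)^ν : ℝ) : ℂ) * (P j - 1)‖
            = ∑ j ∈ range (J+1), wj B J j * (1 - 1/2^(j+2) : ℝ)^ν * ‖P j - 1‖ := by
              refine sum_congr rfl fun j hj => ?_
              rw [norm_mul, Complex.norm_real, Real.norm_of_nonneg (hterm0 j hj)]
          _ ≤ ∑ j ∈ range (J+1), ((1/15) * (wj B J j * (1 - 1/2^(j+2) : ℝ)^ν) +
            (1/20) * b * (if j < m then (1/2:ℝ)^(m-j) else 0)) := sum_le_sum hkey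
          _ = (1/15) * b + (1/20) * b * ∑ j ∈ range (J+1), (if j < m then (1/2:ℝ)^(m-j) else 0) := by
              rw [sum_add_distrib, ← mul_sum, ← mul_sum, ← hb]
          _ ≤ (1/15) * b + (1/20) * b * 1 := by
              have hg := geo_aux m (J+1)
              rw [show m - (J+1) = 0 by omega, pow_zero] at hg
              have := mul_le_mul_of_nonneg_left hg (show (0:ℝ) ≤ 1/20 * b by positivity)
              linarith
          _ ≤ b / 8 := by linarith
      refine ⟨b, W2/b - 1, hbpos.le, hb1, ?_, ?_⟩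
      · have : (b:ℂ) ≠ 0 := by exact_mod_cast hbpos.ne'
        field_simp
        ring
      · have hbc : (b:ℂ) ≠ 0 := by exact_mod_cast hbpos.ne'
        have h1 : W2/b - 1 = (W2 - b)/b := by field_simp
        rw [h1, norm_div, Complex.norm_real, Real.norm_of_nonneg hbpos.le, div_le_iff₀ hbpos]
        linarith

end Pool.Agent.Helper380.VDCX.Jr4
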