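import Mathlib
import Pool.Agent.Helper380.VDC.Defs
import Pool.Agent.Helper380.VDC.Defs3

set_option autoImplicit false

namespace Pool.Agent.Helper380.VDCX.Jr5

open Real Finset





















theorem small899b {A B C D : ℂ} {E : ℝ} (hE : ‖A‖ * ‖B‖ * ‖C‖ * ‖D‖ ≤ E) :
    -E ≤ ((A * (B * C)) * D).re := by
  have h1 : ‖(A * (B * C)) * D‖ ≤ E := by
    rw [norm_mul, norm_mul, norm_mul, ← mul_assoc]
    exact hE
  have h2 := Complex.abs_re_le_norm ((A * (B * C)) * D)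
  have h3 := neg_abs_le ((A * (B * C)) * D).re
  linarith

/-- combining the two tiers and the remaining factor -/
theorem combine563 {ι₁ ι₂ : Type} [Fintype ι₁] [Fintype ι₂] (W₁ W₂ R I : ℂ) (L : ℕ)
    (h1 : ‖W₁‖ ≤ 1 ∧ (‖W₁‖ ≤ Real.exp (-(L : ℝ)) ∨ ∃ (r : ℝ) (z : ι₁ → ℂ), 0 ≤ r ∧ r ≤ 1 ∧
      W₁ = (r : ℂ) * ∏ i, (1 + z i) ∧ ∑ i, ‖z i‖ ≤ 1 / 4))
    (h2 : ‖W₂‖ ≤ 1 ∧ (‖W₂‖ ≤ Real.exp (-(L : ℝ)) ∨ ∃ (r : ℝ) (z : ι₂ → ℂ), 0 ≤ r ∧ r ≤ 1 ∧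
      W₂ = (r : ℂ) * ∏ i, (1 + z i) ∧ ∑ i, ‖z i‖ ≤ 1 / 4))
    (hR : R = 1 ∨ ‖R‖ ≤ Real.exp (-(L : ℝ))) (hI : ‖I‖ ≤ 1) (hI2 : |I.im| ≤ I.re) :
    -Real.exp (-(L : ℝ)) ≤ ((R * (W₁ * W₂)) * I).re := by
  set E := Real.exp (-(L : ℝ)) with hE
  have hE0 : 0 < E := Real.exp_pos _
  have hE1 : E ≤ 1 := by
    rw [hE]
    exact Real.exp_le_one_iff.2 (by simp)
  have hR1 : ‖R‖ ≤ 1 := by
    rcases hR with rfl | h
    · simp
    · exact h.trans hE1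
  have n1 := norm_nonneg W₁
  have n2 := norm_nonneg W₂
  have nR := norm_nonneg R
  have nI := norm_nonneg I
  rcases h1 with ⟨hW1, hW1' | ⟨r1, z1, hr1, hr1', hz1, hs1⟩⟩
  · have hW2 := h2.1
    apply small899b
    calc ‖R‖ * ‖W₁‖ * ‖W₂‖ * ‖I‖ ≤ 1 * E * 1 * 1 := by gcongr
      _ = E := by ring
  rcases h2 with ⟨hW2, hW2' | ⟨r2, z2, hr2, hr2', hz2, hs2⟩⟩
  · apply small899b
    calc ‖R‖ * ‖W₁‖ * ‖W₂‖ * ‖I‖ ≤ 1 * 1 * E * 1 := by gcongr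
      _ = E := by ring
  rcases hR with rfl | hR'
  swap
  · apply small899b
    calc ‖R‖ * ‖W₁‖ * ‖W₂‖ * ‖I‖ ≤ E * 1 * 1 * 1 := by gcongr
      _ = E := by ring
  set P : ℂ := (∏ i, (1 + z1 i)) * ∏ i, (1 + z2 i) with hP
  have hPn : ‖P - 1‖ ≤ 0.65 := by
    have h3 := Finset.norm_prod_one_add_sub_one_le (Finset.univ : Finset (ι₁ ⊕ ι₂))
      (Sum.elim z1 z2)
    rw [Fintype.prod_sum_type, Fintype.sum_sum_type] at h3
    simp only [Sum.elim_inl, Sum.elim_inr] at h3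
    have h4 : Real.exp (∑ i, ‖z1 i‖ + ∑ i, ‖z2 i‖) ≤ Real.exp (1 / 2) :=
      Real.exp_le_exp.2 (by linarith)
    have h5 : Real.exp (1 / 2) ≤ 1.65 := by
      have h6 : Real.exp (1 / 2) * Real.exp (1 / 2) = Real.exp 1 := by
        rw [← Real.exp_add]
        norm_num
      have h7 := Real.exp_one_lt_d9
      have h8 := Real.exp_pos (1 / 2 : ℝ)
      nlinarith
    refine h3.trans ?_
    linarith
  have hPre : |P.im| ≤ P.re := by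
    have h3 : (P - 1).re = P.re - 1 := by simp
    have h4 : (P - 1).im = P.im := by simp
    have h5 : ‖P - 1‖ ^ 2 = (P.re - 1) ^ 2 + P.im ^ 2 := by
      rw [← Complex.normSq_eq_norm_sq, Complex.normSq_apply, h3, h4]
      ring
    have h6 : (P.re - 1) ^ 2 + P.im ^ 2 ≤ 0.65 ^ 2 := by
      rw [← h5]
      exact pow_le_pow_left₀ (norm_nonneg _) hPn 2
    rw [abs_le]
    constructor
    · nlinarith [sq_nonneg (P.re - 1 - P.im), sq_nonneg (P.re - 1 + P.im)]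
    · nlinarith [sq_nonneg (P.re - 1 - P.im), sq_nonneg (P.re - 1 + P.im)]
  have hPI : 0 ≤ (P * I).re := by
    rw [Complex.mul_re]
    have h3 : P.im * I.im ≤ |P.im| * |I.im| := by
      rw [← abs_mul]
      exact le_abs_self _
    have h4 : |P.im| * |I.im| ≤ P.re * I.re :=
      mul_le_mul hPre hI2 (abs_nonneg _) ((abs_nonneg _).trans hPre)
    linarith
  have heq : (1 * (W₁ * W₂)) * I = ((r1 * r2 : ℝ) : ℂ) * (P * I) := by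
    rw [hz1, hz2, hP]
    push_cast
    ring
  rw [heq, Complex.re_ofReal_mul]
  have h9 : 0 ≤ r1 * r2 * (P * I).re := mul_nonneg (mul_nonneg hr1 hr2) hPI
  linarith


theorem combine3 {ι₁ ι₂ : Type} [Fintype ι₁] [Fintype ι₂] (W₁ W₂ W₃ R I : ℂ) (L : ℕ)
    (h1 : ‖W₁‖ ≤ 1 ∧ (‖W₁‖ ≤ Real.exp (-(L : ℝ)) ∨ ∃ (r : ℝ) (z : ι₁ → ℂ), 0 ≤ r ∧ r ≤ 1 ∧
      W₁ = (r : ℂ) * ∏ i, (1 + z i) ∧ ∑ i, ‖z i‖ ≤ 1 / 4))
    (h2 : ‖W₂‖ ≤ 1 ∧ (‖W₂‖ ≤ Real.exp (-(L : ℝ)) ∨ ∃ (r : ℝ) (ζ : ℂ), 0 ≤ r ∧ r ≤ 1 ∧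
      W₂ = (r : ℂ) * (1 + ζ) ∧ ‖ζ‖ ≤ 1 / 8))
    (h3 : ‖W₃‖ ≤ 1 ∧ (‖W₃‖ ≤ Real.exp (-(L : ℝ)) ∨ ∃ (r : ℝ) (z : ι₂ → ℂ), 0 ≤ r ∧ r ≤ 1 ∧
      W₃ = (r : ℂ) * ∏ i, (1 + z i) ∧ ∑ i, ‖z i‖ ≤ 1 / 8))
    (hR : R = 1 ∨ ‖R‖ ≤ Real.exp (-(L : ℝ))) (hI : ‖I‖ ≤ 1) (hI2 : |I.im| ≤ I.re) :
    -Real.exp (-(L : ℝ)) ≤ ((R * (W₁ * (W₂ * W₃))) * I).re := by
  have key := combine563 (ι₁ := ι₁) (ι₂ := Unit ⊕ ι₂) W₁ (W₂ * W₃) R I L h1 ?_ hR hI hI2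
  · exact key
  · obtain ⟨hn2, h2⟩ := h2
    obtain ⟨hn3, h3⟩ := h3
    have n2 := norm_nonneg W₂
    have n3 := norm_nonneg W₃
    refine ⟨?_, ?_⟩
    · rw [norm_mul]
      exact mul_le_one₀ hn2 n3 hn3
    · rcases h2 with h2 | ⟨r2, ζ, hr2, hr2', hW2, hζ⟩
      · left
        rw [norm_mul]
        calc ‖W₂‖ * ‖W₃‖ ≤ ‖W₂‖ * 1 := mul_le_mul_of_nonneg_left hn3 n2
          _ ≤ _ := by rw [mul_one]; exact h2
      rcases h3 with h3 | ⟨r3, z, hr3, hr3', hW3, hz⟩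
      · left
        rw [norm_mul]
        calc ‖W₂‖ * ‖W₃‖ ≤ 1 * ‖W₃‖ := mul_le_mul_of_nonneg_right hn2 n3
          _ ≤ _ := by rw [one_mul]; exact h3
      right
      refine ⟨r2 * r3, Sum.elim (fun _ : Unit => ζ) z, mul_nonneg hr2 hr3,
        mul_le_one₀ hr2' hr3 hr3', ?_, ?_⟩
      · rw [Fintype.prod_sum_type, hW2, hW3]
        simp only [Sum.elim_inl, Sum.elim_inr, Finset.univ_unique, Finset.prod_singleton]
        push_cast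
        ring
      · rw [Fintype.sum_sum_type]
        simp only [Sum.elim_inl, Sum.elim_inr, Finset.univ_unique, Finset.sum_singleton]
        linarith

theorem wj_sum (B : ℝ) (hB : 0 ≤ B) (J : ℕ) :
    (∀ j ∈ range (J + 1), 0 ≤ wj B J j ∧ wj B J j ≤ 1) ∧ ∑ j ∈ range (J + 1), wj B J j = 1 := by
  have hexp : ∀ j : ℕ, 0 < Real.exp (-(j : ℝ) * B) ∧ Real.exp (-(j : ℝ) * B) ≤ 1 := by
    intro j
    refine ⟨Real.exp_pos _, Real.exp_le_one_iff.2 ?_⟩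
    have : 0 ≤ (j : ℝ) * B := by positivity
    linarith
  have hB1 : 0 < Real.exp (-B) ∧ Real.exp (-B) ≤ 1 :=
    ⟨Real.exp_pos _, Real.exp_le_one_iff.2 (by linarith)⟩
  refine ⟨?_, ?_⟩
  · intro j _
    unfold wj
    split_ifs with h
    · exact ⟨(hexp J).1.le, (hexp J).2⟩
    · refine ⟨mul_nonneg (hexp j).1.le (by linarith [hB1.2]), ?_⟩
      calc Real.exp (-(j : ℝ) * B) * (1 - Real.exp (-B)) ≤ 1 * 1 := by
            apply mul_le_mul (hexp j).2 (by linarith [hB1.1]) (by linarith [hB1.2]) zero_le_one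
        _ = 1 := one_mul 1
  · rw [Finset.sum_range_succ]
    have h1 : ∑ j ∈ range J, wj B J j
        = ∑ j ∈ range J, (Real.exp (-(j : ℝ) * B) - Real.exp (-((j + 1 : ℕ) : ℝ) * B)) := by
      apply Finset.sum_congr rfl
      intro j hj
      have hjJ : j ≠ J := (Finset.mem_range.mp hj).ne
      unfold wj
      rw [if_neg hjJ, mul_sub, mul_one, ← Real.exp_add]
      congr 2
      push_cast
      ring
    rw [h1, Finset.sum_range_sub' (fun j : ℕ => Real.exp (-(j : ℝ) * B))]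
    unfold wj
    rw [if_pos rfl]
    simp

end Pool.Agent.Helper380.VDCX.Jr5
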