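import Mathlib
import Pool.Agent.Helper380.VDC.Defs
import Pool.Agent.Helper380.VDC.Defs3

set_option autoImplicit false

namespace Pool.Agent.Helper380.VDCX.Jr6

open Real Finset





















/-- the three-tier weights: `∑ c_j G(d_j² a; q)` is in the sector up to `exp(-L)` -/
theorem hW_final3
    (decomp : ∀ {ι : Type} [DecidableEq ι] (S : Finset ι) (p : ι → ℕ), Function.Injective p →
      (∀ i, (p i).Prime) → ∀ (a : ℤ) (q : ℕ), 1 ≤ q → IsCoprime a (q : ℤ) →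
      ∃ (h : ι → ℕ → ℂ) (n : ι → ℕ) (m : ℕ) (R : ℂ),
        (∀ i ∈ S, ∀ k, n i ≤ k → h i k = 1) ∧
        (∀ i ∈ S, ∀ k, k < n i → ‖h i k‖ ≤ √2 * √(p i : ℝ) / (p i : ℝ) ^ (n i - k)) ∧
        (∀ i ∈ S, ∀ k, ‖h i k‖ ≤ 1) ∧
        1 ≤ m ∧ (∀ i ∈ S, Nat.Coprime (p i) m) ∧ (m = 1 → R = 1) ∧ ‖R‖ ^ 2 ≤ 2 / (m : ℝ) ∧
        ∀ f : ι → ℕ, G (((∏ i ∈ S, p i ^ f i : ℕ) : ℤ) ^ 2 * a) 0 q = R * ∏ i ∈ S, h i (f i))
    (regroup : ∀ {ι : Type} [Fintype ι] [DecidableEq ι] (K : ℕ) (s : ℝ) (h : ι → ℕ → ℂ),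
      ∑ fb ∈ Jset ι K, ∏ i, ((-1 : ℂ) ^ (fb.2 i) * (s : ℂ) ^ (fb.1 i) * h i (fb.1 i - fb.2 i)) =
        ∑ f ∈ (Fintype.piFinset fun _ : ι => range (K + 1)).filter (fun f => ∑ i, f i ≤ K),
          ∏ i, cc s (h i) (f i))
    (regroupw : ∀ {ι : Type} [Fintype ι] [DecidableEq ι] (u : ι → ℕ) (K : ℕ) (s : ι → ℝ)
      (h : ι → ℕ → ℂ),
      ∑ fb ∈ Jw ι u K, ∏ i, ((-1 : ℂ) ^ (fb.2 i) * (s i : ℂ) ^ (fb.1 i) * h i (fb.1 i - fb.2 i)) =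
        ∑ f ∈ (Fintype.piFinset fun _ : ι => range (K + 1)).filter (fun f => ∑ i, f i * u i ≤ K),
          ∏ i, cc (s i) (h i) (f i))
    (L P₁ P₃ K₁ K₂ J : ℕ) (hL : 1 ≤ L) (hP : P₁ ≤ P₃) (s B : ℝ)
    (tierA : ∀ (n : PP P₁ → ℕ) (h : PP P₁ → ℕ → ℂ),
      (∀ i, ∀ k, n i ≤ k → h i k = 1) →
      (∀ i, ∀ k, k < n i → ‖h i k‖ ≤ √2 * √(i.1 : ℝ) / (i.1 : ℝ) ^ (n i - k)) →
      (∀ i k, ‖h i k‖ ≤ 1) → ∀ (W : ℂ),
      (W = ∑ f ∈ (Fintype.piFinset fun _ : PP P₁ => range (K₁ + 1)).filter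
          (fun f => ∑ i, f i ≤ K₁), ∏ i, cc s (h i) (f i)) →
      ‖W‖ ≤ 1 ∧ (‖W‖ ≤ Real.exp (-(L : ℝ)) ∨ ∃ (r : ℝ) (z : PP P₁ → ℂ), 0 ≤ r ∧ r ≤ 1 ∧
        W = (r : ℂ) * ∏ i, (1 + z i) ∧ ∑ i, ‖z i‖ ≤ 1 / 4))
    (tierB : ∀ (n : PQ P₁ P₃ → ℕ) (h : PQ P₁ P₃ → ℕ → ℂ),
      (∀ i, ∀ k, n i ≤ k → h i k = 1) →
      (∀ i, ∀ k, k < n i → ‖h i k‖ ≤ √2 * √(i.1 : ℝ) / (i.1 : ℝ) ^ (n i - k)) →
      (∀ i k, ‖h i k‖ ≤ 1) → ∀ (W : ℕ → ℂ) (W2 : ℂ),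
      (∀ j, W j = ∑ f ∈ (Fintype.piFinset fun _ : PQ P₁ P₃ => range (K₂ + 1)).filter
          (fun f => ∑ i, f i ≤ K₂), ∏ i, cc (1 - 1 / 2 ^ (j + 2)) (h i) (f i)) →
      (W2 = ∑ j ∈ range (J + 1), (wj B J j : ℂ) * W j) →
      ‖W2‖ ≤ 1 ∧ (‖W2‖ ≤ Real.exp (-(L : ℝ)) ∨ ∃ (r : ℝ) (ζ : ℂ), 0 ≤ r ∧ r ≤ 1 ∧
        W2 = (r : ℂ) * (1 + ζ) ∧ ‖ζ‖ ≤ 1 / 8))
    (tierC : ∀ (n : PQ P₃ (2 * 8 ^ L) → ℕ) (h : PQ P₃ (2 * 8 ^ L) → ℕ → ℂ),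
      (∀ i, ∀ k, n i ≤ k → h i k = 1) →
      (∀ i, ∀ k, k < n i → ‖h i k‖ ≤ √2 * √(i.1 : ℝ) / (i.1 : ℝ) ^ (n i - k)) →
      (∀ i k, ‖h i k‖ ≤ 1) → ∀ (W : ℂ),
      (W = ∑ f ∈ (Fintype.piFinset fun _ : PQ P₃ (2 * 8 ^ L) => range (16 * L + 1)).filter
          (fun f => ∑ i, f i * Nat.log 2 i.1 ≤ 16 * L),
            ∏ i, cc ((i.1 : ℝ) ^ (-(1 / 4 : ℝ))) (h i) (f i)) →
      ‖W‖ ≤ 1 ∧ (‖W‖ ≤ Real.exp (-(L : ℝ)) ∨ ∃ (r : ℝ) (z : PQ P₃ (2 * 8 ^ L) → ℂ),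
        0 ≤ r ∧ r ≤ 1 ∧ W = (r : ℂ) * ∏ i, (1 + z i) ∧ ∑ i, ‖z i‖ ≤ 1 / 8))
    (combine3 : ∀ {ι₁ ι₂ : Type} [Fintype ι₁] [Fintype ι₂] (W₁ W₂ W₃ R I : ℂ) (L : ℕ),
      (‖W₁‖ ≤ 1 ∧ (‖W₁‖ ≤ Real.exp (-(L : ℝ)) ∨ ∃ (r : ℝ) (z : ι₁ → ℂ), 0 ≤ r ∧ r ≤ 1 ∧
        W₁ = (r : ℂ) * ∏ i, (1 + z i) ∧ ∑ i, ‖z i‖ ≤ 1 / 4)) →
      (‖W₂‖ ≤ 1 ∧ (‖W₂‖ ≤ Real.exp (-(L : ℝ)) ∨ ∃ (r : ℝ) (ζ : ℂ), 0 ≤ r ∧ r ≤ 1 ∧
        W₂ = (r : ℂ) * (1 + ζ) ∧ ‖ζ‖ ≤ 1 / 8)) →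
      (‖W₃‖ ≤ 1 ∧ (‖W₃‖ ≤ Real.exp (-(L : ℝ)) ∨ ∃ (r : ℝ) (z : ι₂ → ℂ), 0 ≤ r ∧ r ≤ 1 ∧
        W₃ = (r : ℂ) * ∏ i, (1 + z i) ∧ ∑ i, ‖z i‖ ≤ 1 / 8)) →
      (R = 1 ∨ ‖R‖ ≤ Real.exp (-(L : ℝ))) → ‖I‖ ≤ 1 → |I.im| ≤ I.re →
      -Real.exp (-(L : ℝ)) ≤ ((R * (W₁ * (W₂ * W₃))) * I).re)
    (a : ℤ) (q : ℕ) (hq : 1 ≤ q) (hcop : IsCoprime a (q : ℤ))
    (I : ℂ) (hI : ‖I‖ ≤ 1) (hI2 : |I.im| ≤ I.re) :
    -Real.exp (-(L : ℝ)) ≤
      ((∑ j ∈ (Jset (PP P₁) K₁) ×ˢ ((range (J + 1) ×ˢ (Jset (PQ P₁ P₃) K₂)) ×ˢ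
          (Jw (PQ P₃ (2 * 8 ^ L)) (fun i => Nat.log 2 i.1) (16 * L))),
        ((cf s j.1 * ((wj B J j.2.1.1 * cf (1 - 1 / 2 ^ (j.2.1.1 + 2)) j.2.1.2) *
            cg (fun i : PQ P₃ (2 * 8 ^ L) => (i.1 : ℝ) ^ (-(1 / 4 : ℝ))) j.2.2) : ℝ) : ℂ) *
          G (((dd (fun i : PP P₁ => i.1) j.1 *
            (dd (fun i : PQ P₁ P₃ => i.1) j.2.1.2 *
              dd (fun i : PQ P₃ (2 * 8 ^ L) => i.1) j.2.2) : ℕ) : ℤ) ^ 2 * a) 0 q) * I).re := by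
  classical
  let p : PP P₁ ⊕ (PQ P₁ P₃ ⊕ PQ P₃ (2 * 8 ^ L)) → ℕ :=
    Sum.elim (fun i => i.1) (Sum.elim (fun i => i.1) (fun i => i.1))
  have hA1 : ∀ i : PP P₁, i.1 ≤ P₁ ∧ i.1.Prime := by
    intro i
    have := i.2
    rw [Finset.mem_filter, Finset.mem_range] at this
    exact ⟨by omega, this.2⟩
  have hB1 : ∀ i : PQ P₁ P₃, i.1 ≤ P₃ ∧ i.1.Prime ∧ P₁ < i.1 := by
    intro i
    have := i.2
    rw [Finset.mem_filter, Finset.mem_range] at this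
    exact ⟨by omega, this.2.1, this.2.2⟩
  have hC1 : ∀ i : PQ P₃ (2 * 8 ^ L), i.1 ≤ 2 * 8 ^ L ∧ i.1.Prime ∧ P₃ < i.1 := by
    intro i
    have := i.2
    rw [Finset.mem_filter, Finset.mem_range] at this
    exact ⟨by omega, this.2.1, this.2.2⟩
  have hinj : Function.Injective p := by
    rintro (i | i | i) (j | j | j) hij
    · have : i.1 = j.1 := hij
      rw [Subtype.ext this]
    · exfalso
      have h0 : i.1 = j.1 := hij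
      have h1 := (hA1 i).1
      have h2 := (hB1 j).2.2
      omega
    · exfalso
      have h0 : i.1 = j.1 := hij
      have h1 := (hA1 i).1
      have h2 := (hC1 j).2.2
      omega
    · exfalso
      have h0 : i.1 = j.1 := hij
      have h1 := (hA1 j).1
      have h2 := (hB1 i).2.2
      omega
    · have : i.1 = j.1 := hij
      rw [Subtype.ext this]
    · exfalso
      have h0 : i.1 = j.1 := hij
      have h1 := (hB1 i).1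
      have h2 := (hC1 j).2.2
      omega
    · exfalso
      have h0 : i.1 = j.1 := hij
      have h1 := (hA1 j).1
      have h2 := (hC1 i).2.2
      omega
    · exfalso
      have h0 : i.1 = j.1 := hij
      have h1 := (hB1 j).1
      have h2 := (hC1 i).2.2
      omega
    · have : i.1 = j.1 := hij
      rw [Subtype.ext this]
  have hpr : ∀ i, (p i).Prime := by
    rintro (i | i | i)
    · exact (hA1 i).2
    · exact (hB1 i).2.1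
    · exact (hC1 i).2.1
  obtain ⟨h, n, m, R, h1, h2, h3, hm1, hmc, hR1, hR2, hG⟩ :=
    decomp (Finset.univ : Finset (PP P₁ ⊕ (PQ P₁ P₃ ⊕ PQ P₃ (2 * 8 ^ L)))) p hinj hpr a q hq hcop
  obtain ⟨W1, hW1⟩ : ∃ W1 : ℂ, W1 = ∑ f ∈ (Fintype.piFinset fun _ : PP P₁ => range (K₁ + 1)).filter
          (fun f => ∑ i, f i ≤ K₁), ∏ i, cc s (h (Sum.inl i)) (f i) := ⟨_, rfl⟩
  obtain ⟨Wf, hWf⟩ : ∃ Wf : ℕ → ℂ, ∀ j, Wf j =
      ∑ f ∈ (Fintype.piFinset fun _ : PQ P₁ P₃ => range (K₂ + 1)).filter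
          (fun f => ∑ i, f i ≤ K₂), ∏ i, cc (1 - 1 / 2 ^ (j + 2)) (h (Sum.inr (Sum.inl i))) (f i) :=
    ⟨_, fun j => rfl⟩
  obtain ⟨W2, hW2⟩ : ∃ W2 : ℂ, W2 = ∑ j ∈ range (J + 1), (wj B J j : ℂ) * Wf j := ⟨_, rfl⟩
  obtain ⟨W3, hW3⟩ : ∃ W3 : ℂ, W3 =
      ∑ f ∈ (Fintype.piFinset fun _ : PQ P₃ (2 * 8 ^ L) => range (16 * L + 1)).filter
          (fun f => ∑ i, f i * Nat.log 2 i.1 ≤ 16 * L),
            ∏ i, cc ((i.1 : ℝ) ^ (-(1 / 4 : ℝ))) (h (Sum.inr (Sum.inr i))) (f i) := ⟨_, rfl⟩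
  have hTA := tierA (fun i => n (Sum.inl i)) (fun i => h (Sum.inl i))
    (fun i k hk => h1 (Sum.inl i) (Finset.mem_univ _) k hk)
    (fun i k hk => h2 (Sum.inl i) (Finset.mem_univ _) k hk)
    (fun i k => h3 (Sum.inl i) (Finset.mem_univ _) k) W1 hW1
  have hTB := tierB (fun i => n (Sum.inr (Sum.inl i))) (fun i => h (Sum.inr (Sum.inl i)))
    (fun i k hk => h1 (Sum.inr (Sum.inl i)) (Finset.mem_univ _) k hk)
    (fun i k hk => h2 (Sum.inr (Sum.inl i)) (Finset.mem_univ _) k hk)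
    (fun i k => h3 (Sum.inr (Sum.inl i)) (Finset.mem_univ _) k) Wf W2 hWf hW2
  have hTC := tierC (fun i => n (Sum.inr (Sum.inr i))) (fun i => h (Sum.inr (Sum.inr i)))
    (fun i k hk => h1 (Sum.inr (Sum.inr i)) (Finset.mem_univ _) k hk)
    (fun i k hk => h2 (Sum.inr (Sum.inr i)) (Finset.mem_univ _) k hk)
    (fun i k => h3 (Sum.inr (Sum.inr i)) (Finset.mem_univ _) k) W3 hW3
  have hRR : R = 1 ∨ ‖R‖ ≤ Real.exp (-(L : ℝ)) := by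
    by_cases hm : m = 1
    · exact Or.inl (hR1 hm)
    · right
      have hmp : (Nat.minFac m).Prime := Nat.minFac_prime hm
      have hmd : Nat.minFac m ∣ m := Nat.minFac_dvd m
      have hbig : 2 * 8 ^ L < Nat.minFac m := by
        by_contra hcon
        push Not at hcon
        by_cases hP1 : Nat.minFac m ≤ P₁
        · have hmem : Nat.minFac m ∈ (range (P₁ + 1)).filter Nat.Prime := by
            rw [Finset.mem_filter, Finset.mem_range]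
            exact ⟨by omega, hmp⟩
          have hc : Nat.Coprime (Nat.minFac m) m :=
            hmc (Sum.inl ⟨Nat.minFac m, hmem⟩) (Finset.mem_univ _)
          exact hmp.one_lt.ne' (Nat.eq_one_of_dvd_coprimes hc dvd_rfl hmd)
        · push Not at hP1
          by_cases hP3 : Nat.minFac m ≤ P₃
          · have hmem : Nat.minFac m ∈ (range (P₃ + 1)).filter
                (fun p => p.Prime ∧ P₁ < p) := by
              rw [Finset.mem_filter, Finset.mem_range]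
              exact ⟨by omega, hmp, hP1⟩
            have hc : Nat.Coprime (Nat.minFac m) m :=
              hmc (Sum.inr (Sum.inl ⟨Nat.minFac m, hmem⟩)) (Finset.mem_univ _)
            exact hmp.one_lt.ne' (Nat.eq_one_of_dvd_coprimes hc dvd_rfl hmd)
          · push Not at hP3
            have hmem : Nat.minFac m ∈ (range (2 * 8 ^ L + 1)).filter
                (fun p => p.Prime ∧ P₃ < p) := by
              rw [Finset.mem_filter, Finset.mem_range]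
              exact ⟨by omega, hmp, hP3⟩
            have hc : Nat.Coprime (Nat.minFac m) m :=
              hmc (Sum.inr (Sum.inr ⟨Nat.minFac m, hmem⟩)) (Finset.mem_univ _)
            exact hmp.one_lt.ne' (Nat.eq_one_of_dvd_coprimes hc dvd_rfl hmd)
      have hle : Nat.minFac m ≤ m := Nat.minFac_le (by omega)
      have hmR : (2 * 8 ^ L : ℝ) ≤ (m : ℝ) := by
        have : 2 * 8 ^ L ≤ m := by omega
        exact_mod_cast this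
      have h8 : (0 : ℝ) < 8 ^ L := by positivity
      have hb1 : ‖R‖ ^ 2 ≤ 1 / 8 ^ L := by
        refine hR2.trans ?_
        rw [div_le_div_iff₀ (by linarith) h8]
        linarith
      have he2 : Real.exp 2 ≤ 8 := by
        have h01 := Real.exp_one_lt_d9
        have h02 : Real.exp 2 = Real.exp 1 * Real.exp 1 := by
          rw [← Real.exp_add]; norm_num
        rw [h02]
        have h03 := Real.exp_pos 1
        nlinarith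
      have he3 : Real.exp (2 * L) ≤ 8 ^ L := by
        have h04 : Real.exp (2 * (L : ℝ)) = (Real.exp 2) ^ L := by
          rw [← Real.exp_nat_mul, mul_comm]
        rw [h04]
        exact pow_le_pow_left₀ (Real.exp_pos _).le he2 L
      have hb2 : ‖R‖ ^ 2 ≤ (Real.exp (-(L : ℝ))) ^ 2 := by
        refine hb1.trans ?_
        have h05 : (Real.exp (-(L : ℝ))) ^ 2 = 1 / Real.exp (2 * L) := by
          rw [← Real.exp_nat_mul, one_div, ← Real.exp_neg]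
          congr 1
          push_cast
          ring
        rw [h05]
        exact one_div_le_one_div_of_le (Real.exp_pos _) he3
      exact (pow_le_pow_iff_left₀ (norm_nonneg _) (Real.exp_pos _).le (by norm_num)).1 hb2
  have hW2' : W2 = ∑ jy ∈ (range (J + 1)) ×ˢ (Jset (PQ P₁ P₃) K₂), (wj B J jy.1 : ℂ) *
      ∏ i, ((-1 : ℂ) ^ (jy.2.2 i) * ((1 - 1 / 2 ^ (jy.1 + 2) : ℝ) : ℂ) ^ (jy.2.1 i) *
        h (Sum.inr (Sum.inl i)) (jy.2.1 i - jy.2.2 i)) := by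
    rw [hW2, Finset.sum_product]
    refine Finset.sum_congr rfl fun j _ => ?_
    rw [hWf j, ← regroup K₂ (1 - 1 / 2 ^ (j + 2)) (fun i => h (Sum.inr (Sum.inl i))),
      Finset.mul_sum]
  have hW1' := regroup K₁ s (fun i : PP P₁ => h (Sum.inl i))
  rw [← hW1] at hW1'
  have hW3' := regroupw (fun i : PQ P₃ (2 * 8 ^ L) => Nat.log 2 i.1) (16 * L)
    (fun i => (i.1 : ℝ) ^ (-(1 / 4 : ℝ))) (fun i => h (Sum.inr (Sum.inr i)))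
  rw [← hW3] at hW3'
  have hsum : (∑ j ∈ (Jset (PP P₁) K₁) ×ˢ ((range (J + 1) ×ˢ (Jset (PQ P₁ P₃) K₂)) ×ˢ
          (Jw (PQ P₃ (2 * 8 ^ L)) (fun i => Nat.log 2 i.1) (16 * L))),
        ((cf s j.1 * ((wj B J j.2.1.1 * cf (1 - 1 / 2 ^ (j.2.1.1 + 2)) j.2.1.2) *
            cg (fun i : PQ P₃ (2 * 8 ^ L) => (i.1 : ℝ) ^ (-(1 / 4 : ℝ))) j.2.2) : ℝ) : ℂ) *
          G (((dd (fun i : PP P₁ => i.1) j.1 *
            (dd (fun i : PQ P₁ P₃ => i.1) j.2.1.2 *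
              dd (fun i : PQ P₃ (2 * 8 ^ L) => i.1) j.2.2) : ℕ) : ℤ) ^ 2 * a) 0 q) =
      R * (W1 * (W2 * W3)) := by
    rw [← hW1', hW2', ← hW3', Finset.sum_mul_sum, Finset.sum_mul_sum, Finset.sum_product,
      Finset.mul_sum]
    refine Finset.sum_congr rfl fun x _ => ?_
    rw [Finset.sum_product, Finset.mul_sum]
    refine Finset.sum_congr rfl fun y _ => ?_
    rw [Finset.mul_sum, Finset.mul_sum]
    refine Finset.sum_congr rfl fun z _ => ?_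
    have hg := hG (Sum.elim (fun i => x.1 i - x.2 i)
      (Sum.elim (fun i => y.2.1 i - y.2.2 i) (fun i => z.1 i - z.2 i)))
    simp only [Fintype.prod_sum_type, Sum.elim_inl, Sum.elim_inr, p] at hg
    simp only [dd]
    rw [hg]
    simp only [cf, cg, Finset.prod_mul_distrib]
    push_cast
    ring
  rw [hsum]
  exact combine3 W1 W2 W3 R I L hTA hTB hTC hRR hI hI2

end Pool.Agent.Helper380.VDCX.Jr6
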