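import Mathlib
import Pool.Agent.Helper380.VDC.Defs
import Pool.Agent.Helper380.VDC.Defs3

set_option autoImplicit false

namespace Pool.Agent.Helper380.VDCX.Jr7

open Real Finset





















theorem cf_le_35317 {ι : Type} [Fintype ι] (s : ℝ) (hs0 : 0 ≤ s) (hs1 : s ≤ 1)
    (fb : (ι → ℕ) × (ι → ℕ)) : |cf s fb| ≤ 1 := by
  unfold cf
  rw [Finset.abs_prod]
  apply Finset.prod_le_one
  · intro i _; exact abs_nonneg _
  · intro i _
    rw [abs_mul, abs_pow, abs_pow, abs_neg, abs_one, one_pow, one_mul, abs_of_nonneg hs0]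
    exact pow_le_one₀ hs0 hs1

theorem dd_le_35317 {ι : Type} [Fintype ι] [DecidableEq ι] (B K : ℕ) (hB : 1 ≤ B) (p : ι → ℕ)
    (hp : ∀ i, 1 ≤ p i ∧ p i ≤ B) (fb : (ι → ℕ) × (ι → ℕ)) (hfb : fb ∈ Jset ι K) :
    1 ≤ dd p fb ∧ dd p fb ≤ B ^ K := by
  unfold dd
  constructor
  · exact Finset.one_le_prod'' (fun i => Nat.one_le_pow _ _ (hp i).1)
  · have h1 : ∑ i, fb.1 i ≤ K := by
      unfold Jset at hfb
      exact (Finset.mem_filter.mp hfb).2.1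
    calc ∏ i, p i ^ (fb.1 i - fb.2 i) ≤ ∏ i, B ^ (fb.1 i - fb.2 i) :=
          Finset.prod_le_prod' (fun i _ => Nat.pow_le_pow_left (hp i).2 _)
      _ = B ^ (∑ i, (fb.1 i - fb.2 i)) := Finset.prod_pow_eq_pow_sum _ _ _
      _ ≤ B ^ K := by
          apply Nat.pow_le_pow_right hB
          refine le_trans ?_ h1
          exact Finset.sum_le_sum (fun i _ => Nat.sub_le _ _)

theorem sum_cf_35317 {ι : Type} [Fintype ι] [DecidableEq ι]
    (K : ℕ) (s : ℝ)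
    (regroup : ∀ (h : ι → ℕ → ℂ),
      ∑ fb ∈ Jset ι K, ∏ i, ((-1 : ℂ) ^ (fb.2 i) * (s : ℂ) ^ (fb.1 i) * h i (fb.1 i - fb.2 i)) =
        ∑ f ∈ (Fintype.piFinset fun _ : ι => range (K + 1)).filter (fun f => ∑ i, f i ≤ K),
          ∏ i, cc s (h i) (f i)) :
    ∑ fb ∈ Jset ι K, cf s fb = 1 := by
  have h1 := regroup (fun _ _ => 1)
  have h2 : ∑ f ∈ (Fintype.piFinset fun _ : ι => range (K + 1)).filter (fun f => ∑ i, f i ≤ K),
          ∏ i, cc s (fun _ => (1:ℂ)) (f i) = 1 := by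
    rw [Finset.sum_eq_single (fun _ => 0)]
    · apply Finset.prod_eq_one
      intro i _
      unfold cc
      rw [if_pos rfl]
    · intro f _ hf
      obtain ⟨i, hi⟩ := Function.ne_iff.mp hf
      apply Finset.prod_eq_zero (Finset.mem_univ i)
      unfold cc
      rw [if_neg hi, sub_self, mul_zero]
    · intro h
      exfalso
      apply h
      rw [Finset.mem_filter, Fintype.mem_piFinset]
      refine ⟨fun i => Finset.mem_range.mpr (Nat.succ_pos K), ?_⟩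
      simp
  rw [h2] at h1
  have h3 : ((∑ fb ∈ Jset ι K, cf s fb : ℝ) : ℂ) = 1 := by
    rw [← h1]
    unfold cf
    push_cast
    apply Finset.sum_congr rfl
    intro fb _
    apply Finset.prod_congr rfl
    intro i _
    rw [mul_one]
  exact_mod_cast h3

theorem cardPP_35317 (P : ℕ) : Fintype.card (PP P) ≤ P := by
  rw [Fintype.card_coe]
  calc ((range (P + 1)).filter Nat.Prime).card ≤ (Finset.Icc 1 P).card := by
        apply Finset.card_le_card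
        intro p hp
        rw [Finset.mem_filter, Finset.mem_range] at hp
        rw [Finset.mem_Icc]
        exact ⟨hp.2.one_lt.le, by omega⟩
    _ = P := by simp

theorem cardPQ_35317 (P Q : ℕ) : Fintype.card (PQ P Q) ≤ Q := by
  rw [Fintype.card_coe]
  calc ((range (Q + 1)).filter (fun p => p.Prime ∧ P < p)).card ≤ (Finset.Icc 1 Q).card := by
        apply Finset.card_le_card
        intro p hp
        rw [Finset.mem_filter, Finset.mem_range] at hp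
        rw [Finset.mem_Icc]
        exact ⟨hp.2.1.one_lt.le, by omega⟩
    _ = Q := by simp


theorem cg_le_35317 {ι : Type} [Fintype ι] (s : ι → ℝ) (hs0 : ∀ i, 0 ≤ s i) (hs1 : ∀ i, s i ≤ 1)
    (fb : (ι → ℕ) × (ι → ℕ)) : |cg s fb| ≤ 1 := by
  unfold cg
  rw [Finset.abs_prod]
  apply Finset.prod_le_one
  · intro i _; exact abs_nonneg _
  · intro i _
    rw [abs_mul, abs_pow, abs_pow, abs_neg, abs_one, one_pow, one_mul, abs_of_nonneg (hs0 i)]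
    exact pow_le_one₀ (hs0 i) (hs1 i)

theorem sum_cg_35317 {ι : Type} [Fintype ι] [DecidableEq ι] (u : ι → ℕ)
    (K : ℕ) (s : ι → ℝ)
    (regroupw : ∀ (h : ι → ℕ → ℂ),
      ∑ fb ∈ Jw ι u K, ∏ i, ((-1 : ℂ) ^ (fb.2 i) * (s i : ℂ) ^ (fb.1 i) * h i (fb.1 i - fb.2 i)) =
        ∑ f ∈ (Fintype.piFinset fun _ : ι => range (K + 1)).filter (fun f => ∑ i, f i * u i ≤ K),
          ∏ i, cc (s i) (h i) (f i)) :
    ∑ fb ∈ Jw ι u K, cg s fb = 1 := by
  have h1 := regroupw (fun _ _ => 1)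
  have h2 : ∑ f ∈ (Fintype.piFinset fun _ : ι => range (K + 1)).filter (fun f => ∑ i, f i * u i ≤ K),
          ∏ i, cc (s i) (fun _ => (1:ℂ)) (f i) = 1 := by
    rw [Finset.sum_eq_single (fun _ => 0)]
    · apply Finset.prod_eq_one
      intro i _
      unfold cc
      rw [if_pos rfl]
    · intro f _ hf
      obtain ⟨i, hi⟩ := Function.ne_iff.mp hf
      apply Finset.prod_eq_zero (Finset.mem_univ i)
      unfold cc
      rw [if_neg hi, sub_self, mul_zero]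
    · intro h
      exfalso
      apply h
      rw [Finset.mem_filter, Fintype.mem_piFinset]
      refine ⟨fun i => Finset.mem_range.mpr (Nat.succ_pos K), ?_⟩
      simp
  rw [h2] at h1
  have h3 : ((∑ fb ∈ Jw ι u K, cg s fb : ℝ) : ℂ) = 1 := by
    rw [← h1]
    unfold cg
    push_cast
    apply Finset.sum_congr rfl
    intro fb _
    apply Finset.prod_congr rfl
    intro i _
    rw [mul_one]
  exact_mod_cast h3

theorem ddw_le_35317 (P Q K : ℕ) (hP : 4 ≤ P) (fb : (PQ P Q → ℕ) × (PQ P Q → ℕ))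
    (hfb : fb ∈ Jw (PQ P Q) (fun i => Nat.log 2 i.1) K) :
    1 ≤ dd (fun i : PQ P Q => i.1) fb ∧ dd (fun i : PQ P Q => i.1) fb ≤ 4 ^ K := by
  have hmem : ∀ i : PQ P Q, 4 ≤ i.1 := by
    intro i
    have := i.2
    rw [Finset.mem_filter, Finset.mem_range] at this
    omega
  unfold dd
  constructor
  · exact Finset.one_le_prod'' (fun i => Nat.one_le_pow _ _ (lt_of_lt_of_le (by norm_num) (hmem i)))
  · have h1 : ∑ i, fb.1 i * Nat.log 2 (i : PQ P Q).1 ≤ K := by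
      unfold Jw at hfb
      exact (Finset.mem_filter.mp hfb).2.1
    calc ∏ i : PQ P Q, i.1 ^ (fb.1 i - fb.2 i) ≤ ∏ i : PQ P Q, 4 ^ (fb.1 i * Nat.log 2 i.1) := by
          apply Finset.prod_le_prod'
          intro i _
          have h4 := hmem i
          have h5 : i.1 ≤ 4 ^ (Nat.log 2 i.1) := by
            have h6 : i.1 < 2 ^ (Nat.log 2 i.1 + 1) := Nat.lt_pow_succ_log_self (by norm_num) _
            have h7 : 1 ≤ Nat.log 2 i.1 := Nat.log_pos (by norm_num) (by omega)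
            have h8 : (4 : ℕ) ^ (Nat.log 2 i.1) = 2 ^ (2 * Nat.log 2 i.1) := by
              rw [pow_mul]; norm_num
            rw [h8]
            exact h6.le.trans (Nat.pow_le_pow_right (by norm_num) (by omega))
          calc i.1 ^ (fb.1 i - fb.2 i) ≤ i.1 ^ (fb.1 i) :=
                Nat.pow_le_pow_right (by omega) (Nat.sub_le _ _)
            _ ≤ (4 ^ (Nat.log 2 i.1)) ^ (fb.1 i) := Nat.pow_le_pow_left h5 _
            _ = 4 ^ (fb.1 i * Nat.log 2 i.1) := by rw [← pow_mul, mul_comm]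
      _ = 4 ^ (∑ i : PQ P Q, fb.1 i * Nat.log 2 i.1) := Finset.prod_pow_eq_pow_sum _ _ _
      _ ≤ 4 ^ K := Nat.pow_le_pow_right (by norm_num) h1

theorem cardJw_35317 (P Q K : ℕ) (hP : 4 ≤ P)
    (card_Jset : ∀ (ι : Type) [Fintype ι] [DecidableEq ι] (K : ℕ),
      (Jset ι K).card ≤ (2 * Fintype.card ι + 2) ^ K) :
    (Jw (PQ P Q) (fun i => Nat.log 2 i.1) K).card ≤ (2 * Q + 2) ^ (K / Nat.log 2 P) := by
  have hv : 1 ≤ Nat.log 2 P := Nat.log_pos (by norm_num) (by omega)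
  have hsub : Jw (PQ P Q) (fun i => Nat.log 2 i.1) K ⊆ Jset (PQ P Q) (K / Nat.log 2 P) := by
    intro fb hfb
    unfold Jw at hfb
    rw [Finset.mem_filter, Finset.mem_product, Fintype.mem_piFinset, Fintype.mem_piFinset] at hfb
    obtain ⟨⟨h1, h2⟩, h3, h4⟩ := hfb
    have h5 : ∑ i, fb.1 i ≤ K / Nat.log 2 P := by
      rw [Nat.le_div_iff_mul_le (by omega), Finset.sum_mul]
      refine le_trans (Finset.sum_le_sum ?_) h3
      intro i _
      apply Nat.mul_le_mul_left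
      apply Nat.log_mono_right
      have := i.2
      rw [Finset.mem_filter, Finset.mem_range] at this
      omega
    unfold Jset
    rw [Finset.mem_filter, Finset.mem_product, Fintype.mem_piFinset, Fintype.mem_piFinset]
    refine ⟨⟨?_, h2⟩, h5, h4⟩
    intro i
    rw [Finset.mem_range]
    have : fb.1 i ≤ ∑ i, fb.1 i := Finset.single_le_sum (f := fb.1) (fun _ _ => Nat.zero_le _) (Finset.mem_univ i)
    omega
  refine (Finset.card_le_card hsub).trans ((card_Jset _ _).trans (Nat.pow_le_pow_left ?_ _))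
  have := cardPQ_35317 P Q
  omega

/-- bookkeeping for the three-tier weights -/
theorem weights3
    (regroup : ∀ {ι : Type} [Fintype ι] [DecidableEq ι] (K : ℕ) (s : ℝ) (h : ι → ℕ → ℂ),
      ∑ fb ∈ Jset ι K, ∏ i, ((-1 : ℂ) ^ (fb.2 i) * (s : ℂ) ^ (fb.1 i) * h i (fb.1 i - fb.2 i)) =
        ∑ f ∈ (Fintype.piFinset fun _ : ι => range (K + 1)).filter (fun f => ∑ i, f i ≤ K),
          ∏ i, cc s (h i) (f i))
    (regroupw : ∀ {ι : Type} [Fintype ι] [DecidableEq ι] (u : ι → ℕ) (K : ℕ) (s : ι → ℝ)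
      (h : ι → ℕ → ℂ),
      ∑ fb ∈ Jw ι u K, ∏ i, ((-1 : ℂ) ^ (fb.2 i) * (s i : ℂ) ^ (fb.1 i) * h i (fb.1 i - fb.2 i)) =
        ∑ f ∈ (Fintype.piFinset fun _ : ι => range (K + 1)).filter (fun f => ∑ i, f i * u i ≤ K),
          ∏ i, cc (s i) (h i) (f i))
    (card_Jset : ∀ (ι : Type) [Fintype ι] [DecidableEq ι] (K : ℕ),
      (Jset ι K).card ≤ (2 * Fintype.card ι + 2) ^ K)
    (wj_sum : ∀ (B : ℝ), 0 ≤ B → ∀ (J : ℕ),
      (∀ j ∈ range (J + 1), 0 ≤ wj B J j ∧ wj B J j ≤ 1) ∧ ∑ j ∈ range (J + 1), wj B J j = 1)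
    (L P₁ P₃ Q K₁ K₂ J : ℕ) (hP1 : 1 ≤ P₁) (hP3 : 4 ≤ P₃) (hQ : 1 ≤ Q) (s B : ℝ) (hs0 : 0 ≤ s)
    (hs1 : s ≤ 1) (hB : 0 ≤ B) :
    (∀ j ∈ (Jset (PP P₁) K₁) ×ˢ ((range (J + 1) ×ˢ (Jset (PQ P₁ P₃) K₂)) ×ˢ
          (Jw (PQ P₃ Q) (fun i => Nat.log 2 i.1) (16 * L))),
      |cf s j.1 * ((wj B J j.2.1.1 * cf (1 - 1 / 2 ^ (j.2.1.1 + 2)) j.2.1.2) *
            cg (fun i : PQ P₃ Q => (i.1 : ℝ) ^ (-(1 / 4 : ℝ))) j.2.2)| ≤ 1) ∧
    (∀ j ∈ (Jset (PP P₁) K₁) ×ˢ ((range (J + 1) ×ˢ (Jset (PQ P₁ P₃) K₂)) ×ˢ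
          (Jw (PQ P₃ Q) (fun i => Nat.log 2 i.1) (16 * L))),
      1 ≤ dd (fun i : PP P₁ => i.1) j.1 *
            (dd (fun i : PQ P₁ P₃ => i.1) j.2.1.2 * dd (fun i : PQ P₃ Q => i.1) j.2.2) ∧
      dd (fun i : PP P₁ => i.1) j.1 *
            (dd (fun i : PQ P₁ P₃ => i.1) j.2.1.2 * dd (fun i : PQ P₃ Q => i.1) j.2.2) ≤
        P₁ ^ K₁ * (P₃ ^ K₂ * 4 ^ (16 * L))) ∧
    ((Jset (PP P₁) K₁) ×ˢ ((range (J + 1) ×ˢ (Jset (PQ P₁ P₃) K₂)) ×ˢ
          (Jw (PQ P₃ Q) (fun i => Nat.log 2 i.1) (16 * L)))).card ≤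
        (2 * P₁ + 2) ^ K₁ * (((J + 1) * (2 * P₃ + 2) ^ K₂) * (2 * Q + 2) ^ (16 * L / Nat.log 2 P₃)) ∧
    ∑ j ∈ (Jset (PP P₁) K₁) ×ˢ ((range (J + 1) ×ˢ (Jset (PQ P₁ P₃) K₂)) ×ˢ
          (Jw (PQ P₃ Q) (fun i => Nat.log 2 i.1) (16 * L))),
      cf s j.1 * ((wj B J j.2.1.1 * cf (1 - 1 / 2 ^ (j.2.1.1 + 2)) j.2.1.2) *
            cg (fun i : PQ P₃ Q => (i.1 : ℝ) ^ (-(1 / 4 : ℝ))) j.2.2) = 1 := by
  have hsj : ∀ j : ℕ, (0:ℝ) ≤ 1 - 1 / 2 ^ (j + 2) ∧ (1:ℝ) - 1 / 2 ^ (j + 2) ≤ 1 := by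
    intro j
    have h1 : (1:ℝ) ≤ 2 ^ (j + 2) := one_le_pow₀ (by norm_num)
    have h2 : (0:ℝ) ≤ 1 / 2 ^ (j + 2) := by positivity
    have h3 : (1:ℝ) / 2 ^ (j + 2) ≤ 1 := by
      rw [div_le_one (by positivity)]; exact h1
    constructor <;> linarith
  have hsg : ∀ i : PQ P₃ Q, (0:ℝ) ≤ (i.1 : ℝ) ^ (-(1 / 4 : ℝ)) ∧ (i.1 : ℝ) ^ (-(1 / 4 : ℝ)) ≤ 1 := by
    intro i
    have hi : 1 ≤ i.1 := by
      have := i.2
      rw [Finset.mem_filter, Finset.mem_range] at this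
      omega
    have hi' : (1:ℝ) ≤ (i.1 : ℝ) := by exact_mod_cast hi
    exact ⟨Real.rpow_nonneg (by positivity) _, Real.rpow_le_one_of_one_le_of_nonpos hi' (by norm_num)⟩
  refine ⟨?_, ?_, ?_, ?_⟩
  · intro j hj
    rw [Finset.mem_product, Finset.mem_product, Finset.mem_product] at hj
    have hw := (wj_sum B hB J).1 j.2.1.1 hj.2.1.1
    rw [abs_mul, abs_mul, abs_mul]
    have h1 := cf_le_35317 s hs0 hs1 j.1
    have h2 := cf_le_35317 (1 - 1 / 2 ^ (j.2.1.1 + 2)) (hsj _).1 (hsj _).2 j.2.1.2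
    have h3 := cg_le_35317 (fun i : PQ P₃ Q => (i.1 : ℝ) ^ (-(1 / 4 : ℝ))) (fun i => (hsg i).1)
      (fun i => (hsg i).2) j.2.2
    have h4 : |wj B J j.2.1.1| ≤ 1 := by rw [abs_of_nonneg hw.1]; exact hw.2
    exact mul_le_one₀ h1 (by positivity) (mul_le_one₀ (mul_le_one₀ h4 (abs_nonneg _) h2) (abs_nonneg _) h3)
  · intro j hj
    rw [Finset.mem_product, Finset.mem_product, Finset.mem_product] at hj
    have h1 := dd_le_35317 P₁ K₁ hP1 (fun i : PP P₁ => i.1) (fun i => by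
      have := i.2
      rw [Finset.mem_filter, Finset.mem_range] at this
      exact ⟨this.2.one_lt.le, by omega⟩) j.1 hj.1
    have h2 := dd_le_35317 P₃ K₂ (by omega) (fun i : PQ P₁ P₃ => i.1) (fun i => by
      have := i.2
      rw [Finset.mem_filter, Finset.mem_range] at this
      exact ⟨this.2.1.one_lt.le, by omega⟩) j.2.1.2 hj.2.1.2
    have h3 := ddw_le_35317 P₃ Q (16 * L) hP3 j.2.2 hj.2.2
    exact ⟨Nat.mul_le_mul h1.1 (Nat.mul_le_mul h2.1 h3.1), Nat.mul_le_mul h1.2 (Nat.mul_le_mul h2.2 h3.2)⟩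
  · rw [Finset.card_product, Finset.card_product, Finset.card_product, Finset.card_range]
    apply Nat.mul_le_mul
    · refine (card_Jset (PP P₁) K₁).trans (Nat.pow_le_pow_left ?_ _)
      have := cardPP_35317 P₁
      omega
    · apply Nat.mul_le_mul
      · apply Nat.mul_le_mul_left
        refine (card_Jset (PQ P₁ P₃) K₂).trans (Nat.pow_le_pow_left ?_ _)
        have := cardPQ_35317 P₁ P₃
        omega
      · exact cardJw_35317 P₃ Q (16 * L) hP3 card_Jset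
  · have e1 : ∑ y ∈ (range (J + 1)) ×ˢ (Jset (PQ P₁ P₃) K₂),
        wj B J y.1 * cf (1 - 1 / 2 ^ (y.1 + 2)) y.2 = 1 := by
      rw [Finset.sum_product]
      refine Eq.trans ?_ (wj_sum B hB J).2
      apply Finset.sum_congr rfl
      intro a _
      have := sum_cf_35317 (ι := PQ P₁ P₃) K₂ (1 - 1 / 2 ^ (a + 2)) (fun h => regroup K₂ _ h)
      simp only []
      rw [← Finset.mul_sum, this, mul_one]
    have e2 : ∑ z ∈ Jw (PQ P₃ Q) (fun i => Nat.log 2 i.1) (16 * L),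
        cg (fun i : PQ P₃ Q => (i.1 : ℝ) ^ (-(1 / 4 : ℝ))) z = 1 :=
      sum_cg_35317 (ι := PQ P₃ Q) _ (16 * L) _ (fun h => regroupw _ (16 * L) _ h)
    have e3 := sum_cf_35317 (ι := PP P₁) K₁ s (fun h => regroup K₁ s h)
    have e4 : ∑ y ∈ ((range (J + 1)) ×ˢ (Jset (PQ P₁ P₃) K₂)) ×ˢ
        (Jw (PQ P₃ Q) (fun i => Nat.log 2 i.1) (16 * L)),
        (wj B J y.1.1 * cf (1 - 1 / 2 ^ (y.1.1 + 2)) y.1.2) *
          cg (fun i : PQ P₃ Q => (i.1 : ℝ) ^ (-(1 / 4 : ℝ))) y.2 = 1 := by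
      rw [Finset.sum_product]
      rw [← Finset.sum_mul_sum (f := fun y : ℕ × ((PQ P₁ P₃ → ℕ) × (PQ P₁ P₃ → ℕ)) =>
        wj B J y.1 * cf (1 - 1 / 2 ^ (y.1 + 2)) y.2), e1, e2, one_mul]
    rw [Finset.sum_product]
    rw [← Finset.sum_mul_sum (f := fun x : (PP P₁ → ℕ) × (PP P₁ → ℕ) => cf s x)
      (g := fun y : (ℕ × ((PQ P₁ P₃ → ℕ) × (PQ P₁ P₃ → ℕ))) × ((PQ P₃ Q → ℕ) × (PQ P₃ Q → ℕ)) =>
        (wj B J y.1.1 * cf (1 - 1 / 2 ^ (y.1.1 + 2)) y.1.2) *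
          cg (fun i : PQ P₃ Q => (i.1 : ℝ) ^ (-(1 / 4 : ℝ))) y.2), e3, e4, one_mul]

end Pool.Agent.Helper380.VDCX.Jr7
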