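import Mathlib

set_option autoImplicit false

namespace Pool.Agent.Helper380.VDCX.Jr8a

open Real Finset

set_option maxHeartbeats 4000000 in
/-- parameters with size bounds -/
theorem params_exist (L : ℕ) (hL : 100 ≤ L) :
    ∃ (P₁ K₁ K₂ J : ℕ) (S₁ η : ℝ), 2 ≤ P₁ ∧ P₁ ≤ (400 * L) ^ 4 ∧ 1 ≤ S₁ ∧
      40 * √(P₁ : ℝ) / Real.log P₁ ≤ S₁ ∧ 24 * S₁ * (L + 12 * S₁) ≤ (K₁ : ℝ) ∧
      0 < η ∧ η ≤ 1 / 10000 ∧ 1 / √(P₁ : ℝ) ≤ η ∧ (L : ℝ) ≤ J * (1 / (480 * η)) ∧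
      24 * η * 2 ^ (J + 2) ≤ 1 ∧ 2 * L * 2 ^ (J + 2) ≤ K₂ ∧ J ≤ L ∧
      (K₁ : ℝ) ≤ 10 ^ 13 * (L : ℝ) ^ 2 / (Real.log L) ^ 2 ∧
      (K₂ : ℝ) ≤ 10 ^ 13 * (L : ℝ) ^ 2 / (Real.log L) ^ 2 := by
  obtain ⟨X, hX⟩ : ∃ X : ℝ, X = (L : ℝ) := ⟨_, rfl⟩
  have hX100 : (100:ℝ) ≤ X := by rw [hX]; exact_mod_cast hL
  have hX0 : 0 < X := by linarith
  obtain ⟨l, hl⟩ : ∃ l : ℝ, l = Real.log X := ⟨_, rfl⟩
  have hl4 : 4 ≤ l := by
    rw [hl, Real.le_log_iff_exp_le hX0]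
    have h1 : Real.exp 4 = Real.exp 1 ^ 4 := by
      rw [← Real.exp_nat_mul]; norm_num
    have h2 : Real.exp 1 < 3 := lt_trans Real.exp_one_lt_d9 (by norm_num)
    have h3 : Real.exp 1 ^ 4 ≤ 3 ^ 4 := pow_le_pow_left₀ (Real.exp_pos 1).le h2.le 4
    rw [h1]
    norm_num at h3
    linarith
  have hl0 : 0 < l := by linarith
  obtain ⟨r, hr⟩ : ∃ r : ℝ, r = Real.exp (l / 4) := ⟨_, rfl⟩
  have hr4 : r ^ 4 = X := by
    rw [hr, ← Real.exp_nat_mul]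
    have : ((4:ℕ):ℝ) * (l / 4) = l := by push_cast; ring
    rw [this, hl, Real.exp_log hX0]
  have hlr : l ≤ 4 * r - 4 := by
    have := Real.add_one_le_exp (l / 4)
    rw [← hr] at this; linarith
  have hr1 : 2 ≤ r := by linarith
  have hlr2 : l ≤ 2 * r ^ 2 := by
    have h1 := Real.add_one_le_exp (l / 2)
    have h2 : Real.exp (l / 2) = r ^ 2 := by
      rw [hr, ← Real.exp_nat_mul]; congr 1; push_cast; ring
    rw [h2] at h1; linarith
  have hr2 : 10 ≤ r ^ 2 := by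
    by_contra hcon
    rw [not_le] at hcon
    have : r ^ 4 < 100 := by nlinarith [sq_nonneg r]
    linarith
  have hr0 : 0 < r := by linarith
  have hlX5 : l ≤ X / 5 := by
    have : X = r ^ 2 * r ^ 2 := by rw [← hr4]; ring
    nlinarith
  have hlsq : l ^ 2 ≤ 16 * r ^ 2 := by nlinarith
  have hlsqX : l ^ 2 ≤ 4 * X := by
    have : X = r ^ 2 * r ^ 2 := by rw [← hr4]; ring
    nlinarith
  obtain ⟨m, hm⟩ : ∃ m : ℕ, m = ⌈2000 * X / l⌉₊ := ⟨_, rfl⟩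
  have hm1 : 2000 * X / l ≤ (m : ℝ) := by rw [hm]; exact Nat.le_ceil _
  have hm2 : (m : ℝ) ≤ 2001 * X / l := by
    have h1 : (m : ℝ) < 2000 * X / l + 1 := by rw [hm]; exact Nat.ceil_lt_add_one (by positivity)
    have h2 : 1 ≤ X / l := by rw [le_div_iff₀ hl0]; linarith
    have h3 : 2001 * X / l = 2000 * X / l + X / l := by ring
    rw [h3]; linarith
  have hm3 : 1000 * r ^ 2 ≤ (m : ℝ) := by
    refine le_trans ?_ hm1
    rw [le_div_iff₀ hl0]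
    have : X = r ^ 2 * r ^ 2 := by rw [← hr4]; ring
    rw [this]
    nlinarith [mul_le_mul_of_nonneg_left hlr2 (by positivity : (0:ℝ) ≤ r ^ 2)]
  have hm4 : (10000:ℝ) ≤ m := by linarith
  have hm0 : (0:ℝ) < m := by linarith
  have hmn : 10000 ≤ m := by exact_mod_cast hm4
  have hsqrt : √((m ^ 2 : ℕ) : ℝ) = m := by
    push_cast
    exact Real.sqrt_sq hm0.le
  have hlogP : l ≤ Real.log ((m ^ 2 : ℕ) : ℝ) := by
    rw [hl]
    apply Real.log_le_log hX0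
    push_cast
    have h1 : X = (r ^ 2) ^ 2 := by rw [← hr4]; ring
    rw [h1]
    apply pow_le_pow_left₀ (by positivity)
    nlinarith
  obtain ⟨J, hJ⟩ : ∃ J : ℕ, J = ⌈480 * X / m⌉₊ := ⟨_, rfl⟩
  have hJ1 : 480 * X / m ≤ (J : ℝ) := by rw [hJ]; exact Nat.le_ceil _
  have hJ2 : (J : ℝ) ≤ 0.24 * l + 1 := by
    have h1 : (J : ℝ) < 480 * X / m + 1 := by rw [hJ]; exact Nat.ceil_lt_add_one (by positivity)
    have h2 : 480 * X / m ≤ 0.24 * l := by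
      rw [div_le_iff₀ hm0]
      have h3 : 2000 * X ≤ m * l := by rwa [div_le_iff₀ hl0] at hm1
      linarith
    linarith
  have hpow : (2:ℝ) ^ (J + 2) ≤ 8 * r := by
    have h1 : (2:ℝ) ^ (J + 2) = Real.exp (((J + 2 : ℕ) : ℝ) * Real.log 2) := by
      rw [Real.exp_nat_mul, Real.exp_log (by norm_num)]
    have h8 : Real.exp (3 * Real.log 2) = 8 := by
      have : (3:ℝ) * Real.log 2 = ((3:ℕ):ℝ) * Real.log 2 := by norm_num
      rw [this, Real.exp_nat_mul, Real.exp_log (by norm_num)]; norm_num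
    have h2 : ((J + 2 : ℕ) : ℝ) * Real.log 2 ≤ 3 * Real.log 2 + l / 4 := by
      push_cast
      have h3 := Real.log_two_lt_d9
      have h4 := Real.log_two_gt_d9
      have h5 : ((J:ℝ) + 2) * Real.log 2 ≤ (0.24 * l + 3) * Real.log 2 :=
        mul_le_mul_of_nonneg_right (by linarith) (by linarith)
      have h6 : 0.24 * l * Real.log 2 ≤ 0.24 * l * 1 :=
        mul_le_mul_of_nonneg_left (by linarith) (by positivity)
      linarith
    rw [h1]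
    calc Real.exp (((J + 2 : ℕ) : ℝ) * Real.log 2) ≤ Real.exp (3 * Real.log 2 + l / 4) :=
          Real.exp_le_exp.mpr h2
      _ = 8 * r := by rw [Real.exp_add, h8, ← hr]
  obtain ⟨S, hS⟩ : ∃ S : ℝ, S = 40 * m / l := ⟨_, rfl⟩
  have hS1 : 1 ≤ S := by
    rw [hS, le_div_iff₀ hl0]; linarith
  have hS2 : S ≤ 80040 * X / l ^ 2 := by
    rw [hS, div_le_div_iff₀ hl0 (by positivity)]
    rw [le_div_iff₀ hl0] at hm2
    nlinarith
  have hl16 : 16 ≤ l ^ 2 := by nlinarith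
  have hl20 : 0 < l ^ 2 := by positivity
  obtain ⟨T, hT⟩ : ∃ T : ℝ, T = X ^ 2 / l ^ 2 := ⟨_, rfl⟩
  have hXl : X / l ^ 2 ≤ X / 16 := div_le_div_of_nonneg_left hX0.le (by norm_num) hl16
  have hT1 : 1 ≤ T := by
    rw [hT, le_div_iff₀ hl20]; nlinarith
  have hK1 : 24 * S * (X + 12 * S) ≤ 24 * 80040 * 60031 * T := by
    have h1 : X + 12 * S ≤ 60031 * X := by
      have : S ≤ 80040 * (X / 16) := by
        calc S ≤ 80040 * X / l ^ 2 := hS2
          _ = 80040 * (X / l ^ 2) := by ring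
          _ ≤ _ := by linarith
      linarith
    calc 24 * S * (X + 12 * S) ≤ 24 * S * (60031 * X) :=
          mul_le_mul_of_nonneg_left h1 (by positivity)
      _ ≤ 24 * (80040 * X / l ^ 2) * (60031 * X) := by
          refine mul_le_mul_of_nonneg_right ?_ (by positivity)
          linarith
      _ = 24 * 80040 * 60031 * T := by rw [hT]; ring
  rw [← hX, ← hl]
  refine ⟨m ^ 2, ⌈24 * S * (X + 12 * S)⌉₊, 2 * L * 2 ^ (J + 2), J, S, 1 / m, ?_, ?_, hS1, ?_, ?_,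
    ?_, ?_, ?_, ?_, ?_, ?_, ?_, ?_, ?_⟩
  · nlinarith
  · have h1 : (m : ℝ) ≤ 501 * L := by
      rw [← hX]
      refine hm2.trans ?_
      rw [div_le_iff₀ hl0]; nlinarith
    have h2 : m ≤ 501 * L := by exact_mod_cast h1
    have h3 : m ^ 2 ≤ (501 * L) ^ 2 := Nat.pow_le_pow_left h2 2
    refine h3.trans ?_
    obtain ⟨Q, hQ⟩ : ∃ Q : ℕ, Q = L * L := ⟨_, rfl⟩
    have h4 : (400 * L) ^ 4 = (160000 * Q) * (160000 * Q) := by rw [hQ]; ring
    have h5 : (501 * L) ^ 2 = 251001 * Q := by rw [hQ]; ring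
    rw [h4, h5]
    have h6 : 1 ≤ Q := by rw [hQ]; exact Nat.mul_pos (by omega) (by omega)
    calc 251001 * Q ≤ (160000 * Q) * 160000 := by omega
      _ ≤ (160000 * Q) * (160000 * Q) := Nat.mul_le_mul_left _ (by omega)
  · rw [hsqrt, hS]
    exact div_le_div_of_nonneg_left (by positivity) hl0 hlogP
  · exact Nat.le_ceil _
  · positivity
  · rw [div_le_div_iff₀ hm0 (by norm_num)]; linarith
  · rw [hsqrt]
  · have h1 : (1:ℝ) / (480 * (1 / m)) = m / 480 := by field_simp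
    rw [h1]
    rw [div_le_iff₀ hm0] at hJ1
    linarith
  · have h1 : 24 * (1 / (m:ℝ)) * 2 ^ (J + 2) = (24 * 2 ^ (J + 2)) / m := by ring
    rw [h1, div_le_one hm0]
    nlinarith
  · exact le_rfl
  · have h1 : (J : ℝ) ≤ L := by rw [← hX]; linarith
    exact_mod_cast h1
  · have h1 : ((⌈24 * S * (X + 12 * S)⌉₊ : ℕ) : ℝ) < 24 * S * (X + 12 * S) + 1 :=
      Nat.ceil_lt_add_one (by positivity)
    have h2 : 10 ^ 13 * X ^ 2 / l ^ 2 = 10 ^ 13 * T := by rw [hT]; ring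
    rw [h2]
    nlinarith
  · push_cast
    rw [← hX, le_div_iff₀ hl20]
    have h1 : 2 * X * 2 ^ (J + 2) ≤ 16 * X * r := by nlinarith
    have h2 : 2 * X * 2 ^ (J + 2) * l ^ 2 ≤ (16 * X * r) * (16 * r ^ 2) :=
      mul_le_mul h1 hlsq (by positivity) (by positivity)
    refine h2.trans ?_
    have h3 : X ^ 2 = X * r ^ 4 := by rw [sq, hr4]
    rw [h3]
    have h4 : (16 * X * r) * (16 * r ^ 2) = 256 * (X * r ^ 3) := by ring
    have h5 : 10 ^ 13 * (X * r ^ 4) = 10 ^ 13 * r * (X * r ^ 3) := by ring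
    rw [h4, h5]
    refine mul_le_mul_of_nonneg_right ?_ (by positivity)
    linarith

end Pool.Agent.Helper380.VDCX.Jr8a
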