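import Mathlib

set_option autoImplicit false

namespace Pool.Agent.Helper380.VDCX.Jr8b

open Real Finset

/-- the size of everything -/
theorem size_bound (L P₁ K₁ K₂ J : ℕ) (hL : 100 ≤ L) (hP2 : 2 ≤ P₁) (hP : P₁ ≤ (400 * L) ^ 4)
    (hJ : J ≤ L) (hK1 : (K₁ : ℝ) ≤ 10 ^ 13 * (L : ℝ) ^ 2 / (Real.log L) ^ 2)
    (hK2 : (K₂ : ℝ) ≤ 10 ^ 13 * (L : ℝ) ^ 2 / (Real.log L) ^ 2) :
    (10 * ((((((2 * P₁ + 2) ^ K₁ * (((J + 1) * (2 * ((400 * L) ^ 4) + 2) ^ K₂) *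
          (2 * (2 * 8 ^ L) + 2) ^ (16 * L / Nat.log 2 ((400 * L) ^ 4))) : ℕ)) : ℝ) *
        ((P₁ ^ K₁ * (((400 * L) ^ 4) ^ K₂ * 4 ^ (16 * L)) : ℕ) : ℝ)) / Real.exp (-(L : ℝ)))) ^ 13 ≤
      Real.exp (10 ^ 17 * (L : ℝ) ^ 2 / Real.log L) := by
  obtain ⟨l, hl⟩ : ∃ l : ℝ, l = Real.log L := ⟨_, rfl⟩
  have hLr : (100 : ℝ) ≤ L := by exact_mod_cast hL
  have hL0 : (0 : ℝ) < L := by linarith
  have h2a := Real.log_two_gt_d9
  have h2b := Real.log_two_lt_d9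
  have hl1 : 4.38 ≤ l := by
    have h1 : (19 : ℝ) * Real.log 2 ≤ 3 * Real.log 100 := by
      have e1 : (19 : ℝ) * Real.log 2 = Real.log (2 ^ 19) := by
        rw [Real.log_pow]
        norm_num
      have e2 : (3 : ℝ) * Real.log 100 = Real.log (100 ^ 3) := by
        rw [Real.log_pow]
        norm_num
      rw [e1, e2]
      exact Real.log_le_log (by norm_num) (by norm_num)
    have h2 : Real.log 100 ≤ l := by
      rw [hl]
      exact Real.log_le_log (by norm_num) hLr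
    linarith
  have hl0 : 0 < l := by linarith
  have hlL : l ≤ L := by
    have := Real.log_le_sub_one_of_pos hL0
    rw [hl]
    linarith
  obtain ⟨s, hs⟩ : ∃ s : ℝ, s = (L : ℝ) ^ 2 / l := ⟨_, rfl⟩
  have hLs : (L : ℝ) ≤ s := by
    rw [hs, le_div_iff₀ hl0]
    nlinarith
  have h400 : Real.log 400 ≤ 9 * Real.log 2 := by
    have e1 : (9 : ℝ) * Real.log 2 = Real.log (2 ^ 9) := by
      rw [Real.log_pow]
      norm_num
    rw [e1]
    exact Real.log_le_log (by norm_num) (by norm_num)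
  have h400' : 8 * Real.log 2 ≤ Real.log 400 := by
    have e1 : (8 : ℝ) * Real.log 2 = Real.log (2 ^ 8) := by
      rw [Real.log_pow]
      norm_num
    rw [e1]
    exact Real.log_le_log (by norm_num) (by norm_num)
  obtain ⟨Q, hQ⟩ : ∃ Q : ℝ, Q = (400 * (L : ℝ)) ^ 4 := ⟨_, rfl⟩
  have hQ0 : 0 < Q := by rw [hQ]; positivity
  have hQ1 : 1 ≤ Q := by
    rw [hQ]
    exact one_le_pow₀ (by linarith)
  have hlQ : Real.log Q = 4 * (Real.log 400 + l) := by
    rw [hQ, Real.log_pow, Real.log_mul (by norm_num) hL0.ne', ← hl]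
    norm_num
  have hQe : 2 * Q + 2 ≤ Real.exp (11 * l) := by
    have h1 : 2 * Q + 2 ≤ 4 * Q := by linarith
    have h2 : 4 * Q = Real.exp (Real.log (4 * Q)) := (Real.exp_log (by positivity)).symm
    have h3 : Real.log (4 * Q) = 2 * Real.log 2 + 4 * (Real.log 400 + l) := by
      rw [Real.log_mul (by norm_num) hQ0.ne', hlQ]
      have : Real.log 4 = 2 * Real.log 2 := by
        have e : (4 : ℝ) = 2 ^ 2 := by norm_num
        rw [e, Real.log_pow]
        norm_num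
      rw [this]
    refine h1.trans ?_
    rw [h2]
    apply Real.exp_le_exp.2
    rw [h3]
    linarith
  have hP1Q : (P₁ : ℝ) ≤ Q := by
    rw [hQ]
    exact_mod_cast hP
  have hpow : ∀ (b : ℝ) (K : ℕ), 0 ≤ b → b ≤ Real.exp (11 * l) →
      (K : ℝ) ≤ 10 ^ 13 * (L : ℝ) ^ 2 / (Real.log L) ^ 2 → b ^ K ≤ Real.exp (11 * 10 ^ 13 * s) := by
    intro b K hb hbe hK
    have h1 : b ^ K ≤ (Real.exp (11 * l)) ^ K := pow_le_pow_left₀ hb hbe K
    rw [← Real.exp_nat_mul] at h1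
    refine h1.trans (Real.exp_le_exp.2 ?_)
    rw [← hl] at hK
    have h2 : (K : ℝ) * (11 * l) ≤ (10 ^ 13 * (L : ℝ) ^ 2 / l ^ 2) * (11 * l) :=
      mul_le_mul_of_nonneg_right hK (by positivity)
    refine h2.trans (le_of_eq ?_)
    rw [hs]
    field_simp
  have f1 : (2 * (P₁ : ℝ) + 2) ^ K₁ ≤ Real.exp (11 * 10 ^ 13 * s) :=
    hpow _ _ (by positivity) (by linarith) hK1
  have f2 : (2 * Q + 2) ^ K₂ ≤ Real.exp (11 * 10 ^ 13 * s) :=
    hpow _ _ (by positivity) hQe hK2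
  have f3 : (P₁ : ℝ) ^ K₁ ≤ Real.exp (11 * 10 ^ 13 * s) :=
    hpow _ _ (by positivity) (by linarith) hK1
  have f4 : Q ^ K₂ ≤ Real.exp (11 * 10 ^ 13 * s) :=
    hpow _ _ (by positivity) (by linarith) hK2
  have f5 : (J : ℝ) + 1 ≤ Real.exp L := by
    have h1 : (J : ℝ) ≤ L := by exact_mod_cast hJ
    have h2 := Real.add_one_le_exp (L : ℝ)
    linarith
  have f6 : (10 : ℝ) ≤ Real.exp L := by
    have h2 := Real.add_one_le_exp (L : ℝ)
    linarith
  have f7 : (4 : ℝ) ^ (16 * L) ≤ Real.exp (32 * L) := by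
    have h1 : (4 : ℝ) ≤ Real.exp 2 := by
      have h3 : (2 : ℝ) ≤ Real.exp 1 := by
        have := Real.add_one_le_exp (1 : ℝ)
        linarith
      have h4 : Real.exp 2 = Real.exp 1 * Real.exp 1 := by
        rw [← Real.exp_add]
        norm_num
      rw [h4]
      nlinarith
    have h2 : (4 : ℝ) ^ (16 * L) ≤ (Real.exp 2) ^ (16 * L) := pow_le_pow_left₀ (by norm_num) h1 _
    rw [← Real.exp_nat_mul] at h2
    refine h2.trans (Real.exp_le_exp.2 (le_of_eq ?_))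
    push_cast
    ring
  obtain ⟨k, hk⟩ : ∃ k, k = Nat.log 2 ((400 * L) ^ 4) := ⟨_, rfl⟩
  have hkl : l ≤ k := by
    have h1 : (400 * L) ^ 4 < 2 ^ (k + 1) := by
      rw [hk]
      exact Nat.lt_pow_succ_log_self (by norm_num) _
    have h2 : Q < 2 ^ (k + 1) := by
      rw [hQ]
      exact_mod_cast h1
    have h3 : Real.log Q < Real.log (2 ^ (k + 1)) := Real.log_lt_log hQ0 h2
    rw [Real.log_pow, hlQ] at h3
    push_cast at h3
    by_contra hcon
    push Not at hcon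
    have h4 : ((k : ℝ) + 1) * Real.log 2 ≤ (l + 1) * 1 := by
      apply mul_le_mul _ _ _ _
      · linarith
      · linarith
      · linarith
      · linarith
    linarith
  have hk0 : (0 : ℝ) < k := by linarith
  have f8 : (2 * (2 * (8 : ℝ) ^ L) + 2) ^ (16 * L / k) ≤ Real.exp (96 * s) := by
    have h8 : (1 : ℝ) ≤ 8 ^ L := one_le_pow₀ (by norm_num)
    have h9 : (8 : ℝ) ≤ Real.exp 3 := by
      have h3 : (2 : ℝ) ≤ Real.exp 1 := by
        have := Real.add_one_le_exp (1 : ℝ)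
        linarith
      have h4 : Real.exp 3 = (Real.exp 1) ^ 3 := by
        rw [← Real.exp_nat_mul]
        norm_num
      rw [h4]
      calc (8 : ℝ) = 2 ^ 3 := by norm_num
        _ ≤ (Real.exp 1) ^ 3 := pow_le_pow_left₀ (by norm_num) h3 3
    have h10 : 2 * (2 * (8 : ℝ) ^ L) + 2 ≤ Real.exp (6 * L) := by
      have h11 : 2 * (2 * (8 : ℝ) ^ L) + 2 ≤ 8 ^ (L + 1) := by
        rw [pow_succ]
        linarith
      have h12 : (8 : ℝ) ^ (L + 1) ≤ (Real.exp 3) ^ (L + 1) := pow_le_pow_left₀ (by norm_num) h9 _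
      rw [← Real.exp_nat_mul] at h12
      refine h11.trans (h12.trans (Real.exp_le_exp.2 ?_))
      push_cast
      linarith
    have h13 : (2 * (2 * (8 : ℝ) ^ L) + 2) ^ (16 * L / k) ≤ (Real.exp (6 * L)) ^ (16 * L / k) :=
      pow_le_pow_left₀ (by positivity) h10 _
    rw [← Real.exp_nat_mul] at h13
    refine h13.trans (Real.exp_le_exp.2 ?_)
    have h14 : ((16 * L / k : ℕ) : ℝ) ≤ ((16 * L : ℕ) : ℝ) / k := Nat.cast_div_le
    have h15 : ((16 * L : ℕ) : ℝ) / k ≤ ((16 * L : ℕ) : ℝ) / l :=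
      div_le_div_of_nonneg_left (by positivity) hl0 hkl
    have h16 : ((16 * L / k : ℕ) : ℝ) * (6 * L) ≤ (((16 * L : ℕ) : ℝ) / l) * (6 * L) :=
      mul_le_mul_of_nonneg_right (h14.trans h15) (by positivity)
    refine h16.trans (le_of_eq ?_)
    rw [hs]
    push_cast
    field_simp
    ring
  rw [← hk]
  push_cast
  rw [← hQ, Real.exp_neg, div_inv_eq_mul]
  have g1 : (2 * (P₁ : ℝ) + 2) ^ K₁ * (((J : ℝ) + 1) * (2 * Q + 2) ^ K₂ *
      (2 * (2 * (8 : ℝ) ^ L) + 2) ^ (16 * L / k)) ≤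
      Real.exp (11 * 10 ^ 13 * s) * (Real.exp L * Real.exp (11 * 10 ^ 13 * s) * Real.exp (96 * s)) := by
    gcongr
  have g2 : (P₁ : ℝ) ^ K₁ * (Q ^ K₂ * 4 ^ (16 * L)) ≤
      Real.exp (11 * 10 ^ 13 * s) * (Real.exp (11 * 10 ^ 13 * s) * Real.exp (32 * L)) := by
    gcongr
  have g3 : 10 * ((2 * (P₁ : ℝ) + 2) ^ K₁ * (((J : ℝ) + 1) * (2 * Q + 2) ^ K₂ *
      (2 * (2 * (8 : ℝ) ^ L) + 2) ^ (16 * L / k)) * ((P₁ : ℝ) ^ K₁ * (Q ^ K₂ * 4 ^ (16 * L))) *
        Real.exp L) ≤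
      Real.exp L * ((Real.exp (11 * 10 ^ 13 * s) * (Real.exp L * Real.exp (11 * 10 ^ 13 * s) *
        Real.exp (96 * s))) * (Real.exp (11 * 10 ^ 13 * s) * (Real.exp (11 * 10 ^ 13 * s) *
          Real.exp (32 * L))) * Real.exp L) := by
    gcongr
  simp only [← Real.exp_add] at g3
  refine (pow_le_pow_left₀ (by positivity) g3 13).trans ?_
  rw [← Real.exp_nat_mul]
  apply Real.exp_le_exp.2
  have hfin : (10 : ℝ) ^ 17 * (L : ℝ) ^ 2 / Real.log L = 10 ^ 17 * s := by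
    rw [hs, hl]
    ring
  rw [hfin]
  push_cast
  nlinarith

end Pool.Agent.Helper380.VDCX.Jr8b
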