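import Mathlib
import Pool.Agent.Helper380.VDC.Jr8a
import Pool.Agent.Helper380.VDC.Jr8b

set_option autoImplicit false

namespace Pool.Agent.Helper380.VDCX.Jr8

open Real Finset

/-- existence of parameters -/
theorem params3 : ∃ (C : ℝ) (L₀ : ℕ), 0 < C ∧ 2 ≤ L₀ ∧ ∀ L : ℕ, L₀ ≤ L →
    ∃ (P₁ K₁ K₂ J : ℕ) (S₁ η : ℝ), 2 ≤ P₁ ∧ P₁ ≤ (400 * L) ^ 4 ∧ 1 ≤ S₁ ∧
      40 * √(P₁ : ℝ) / Real.log P₁ ≤ S₁ ∧ 24 * S₁ * (L + 12 * S₁) ≤ (K₁ : ℝ) ∧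
      0 < η ∧ η ≤ 1 / 10000 ∧ 1 / √(P₁ : ℝ) ≤ η ∧ (L : ℝ) ≤ J * (1 / (480 * η)) ∧
      24 * η * 2 ^ (J + 2) ≤ 1 ∧ 2 * L * 2 ^ (J + 2) ≤ K₂ ∧
      (10 * ((((((2 * P₁ + 2) ^ K₁ * (((J + 1) * (2 * ((400 * L) ^ 4) + 2) ^ K₂) *
          (2 * (2 * 8 ^ L) + 2) ^ (16 * L / Nat.log 2 ((400 * L) ^ 4))) : ℕ)) : ℝ) *
        ((P₁ ^ K₁ * (((400 * L) ^ 4) ^ K₂ * 4 ^ (16 * L)) : ℕ) : ℝ)) / Real.exp (-(L : ℝ)))) ^ 13 ≤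
      Real.exp (C * (L : ℝ) ^ 2 / Real.log L) := by
  refine ⟨10 ^ 17, 100, by norm_num, by norm_num, fun L hL => ?_⟩
  obtain ⟨P₁, K₁, K₂, J, S₁, η, a1, a2, a3, a4, a5, a6, a7, a8, a9, a10, a11, a12, a13, a14⟩ :=
    Jr8a.params_exist L hL
  exact ⟨P₁, K₁, K₂, J, S₁, η, a1, a2, a3, a4, a5, a6, a7, a8, a9, a10, a11,
    Jr8b.size_bound L P₁ K₁ K₂ J hL a1 a2 a12 a13 a14⟩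

end Pool.Agent.Helper380.VDCX.Jr8
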