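import Mathlib
import Pool.Agent.Helper380.VDC.Defs
import Pool.Agent.Helper380.VDC.Defs3

set_option autoImplicit false

namespace Pool.Agent.Helper380.VDCX.Jr9

open Real Finset





theorem int_cos_zero (k : ℕ) (hk : 1 ≤ k) :
    ∫ x in (0:ℝ)..1, Real.cos (2 * π * (k : ℝ) ^ 2 * x) = 0 := by
  have hk0 : (0:ℝ) < (k:ℝ) := by exact_mod_cast hk
  have hc : 2 * π * (k : ℝ) ^ 2 ≠ 0 := by positivity
  rw [intervalIntegral.integral_comp_mul_left (fun y => Real.cos y) hc]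
  rw [integral_cos]
  have h1 : Real.sin (2 * π * (k : ℝ) ^ 2 * 1) = 0 := by
    have := Real.sin_nat_mul_pi (2 * k ^ 2)
    rw [← this]
    congr 1
    push_cast
    ring
  rw [h1]
  simp

theorem adm_nonneg {H : ℕ} {c0 : ℝ} {c : ℕ → ℝ} (h : Admissible H c0 c) : 0 ≤ c0 := by
  obtain ⟨h1, -⟩ := h
  have hI : ∀ k ∈ Icc 1 H, IntervalIntegrable
      (fun x : ℝ => c k * Real.cos (2 * π * (k : ℝ) ^ 2 * x)) MeasureTheory.volume 0 1 := by
    intro k _
    exact (by fun_prop : Continuous fun x : ℝ => c k * Real.cos (2 * π * (k : ℝ) ^ 2 * x)).intervalIntegrable _ _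
  have h2 : ∫ x in (0:ℝ)..1, (c0 + ∑ k ∈ Icc 1 H, c k * Real.cos (2 * π * (k : ℝ) ^ 2 * x)) = c0 := by
    rw [intervalIntegral.integral_add (by simp) (IntervalIntegrable.sum _ hI |> fun h => by
      simpa [Finset.sum_fn] using h)]
    rw [intervalIntegral.integral_finsetSum hI]
    have : ∀ k ∈ Icc 1 H, ∫ x in (0:ℝ)..1, c k * Real.cos (2 * π * (k : ℝ) ^ 2 * x) = 0 := by
      intro k hk
      rw [intervalIntegral.integral_const_mul, int_cos_zero k (Finset.mem_Icc.1 hk).1, mul_zero]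
    rw [Finset.sum_eq_zero this]
    simp
  rw [← h2]
  exact intervalIntegral.integral_nonneg (by norm_num) (fun x _ => h1 x)

theorem adm_mono {H' H : ℕ} (hH : H' ≤ H) {c0 : ℝ} {b : ℕ → ℝ} (h : Admissible H' c0 b) :
    ∃ c : ℕ → ℝ, Admissible H c0 c := by
  obtain ⟨h1, h2⟩ := h
  refine ⟨fun k => if k ≤ H' then b k else 0, ?_, ?_⟩
  · intro x
    have : ∑ k ∈ Icc 1 H, (if k ≤ H' then b k else 0) * Real.cos (2 * π * (k : ℝ) ^ 2 * x)
        = ∑ k ∈ Icc 1 H', b k * Real.cos (2 * π * (k : ℝ) ^ 2 * x) := by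
      rw [← Finset.sum_subset (Finset.Icc_subset_Icc_right hH)]
      · refine Finset.sum_congr rfl fun k hk => ?_
        rw [if_pos (Finset.mem_Icc.1 hk).2]
      · intro k hk hk'
        rw [if_neg, zero_mul]
        intro h3
        exact hk' (Finset.mem_Icc.2 ⟨(Finset.mem_Icc.1 hk).1, h3⟩)
    rw [this]
    exact h1 x
  · have : ∑ k ∈ Icc 1 H, (if k ≤ H' then b k else 0)
        = ∑ k ∈ Icc 1 H', b k := by
      rw [← Finset.sum_subset (Finset.Icc_subset_Icc_right hH)]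
      · refine Finset.sum_congr rfl fun k hk => ?_
        rw [if_pos (Finset.mem_Icc.1 hk).2]
      · intro k hk hk'
        rw [if_neg]
        intro h3
        exact hk' (Finset.mem_Icc.2 ⟨(Finset.mem_Icc.1 hk).1, h3⟩)
    rw [this]
    exact h2

theorem delta_le {H : ℕ} {c0 : ℝ} {c : ℕ → ℝ} (h : Admissible H c0 c) : delta H ≤ c0 := by
  refine csInf_le ⟨0, ?_⟩ ⟨c, h⟩
  rintro y ⟨c', hc'⟩
  exact adm_nonneg hc'

theorem delta_le_one (H : ℕ) : delta H ≤ 1 := by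
  refine delta_le (c := fun _ => 0) ⟨?_, ?_⟩
  · intro x; simp
  · simp

/-- from the construction for every large `L` to the bound in terms of `H` -/
theorem final_step3
    (main : ∃ (C : ℝ) (L₀ : ℕ), 0 < C ∧ 2 ≤ L₀ ∧ ∀ L : ℕ, L₀ ≤ L → ∀ N : ℕ,
      Real.exp (C * (L : ℝ) ^ 2 / Real.log L) ≤ (N : ℝ) →
      ∃ (c0 : ℝ) (b : ℕ → ℝ), Admissible (N ^ 2) c0 b ∧ c0 ≤ 4 * Real.exp (-(L : ℝ))) :
    ∃ c C : ℝ, 0 < c ∧ 0 < C ∧ ∀ H : ℕ, 3 ≤ H →
      delta H ≤ C * Real.exp (-c * √(Real.log H * Real.log (Real.log H))) := by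
  obtain ⟨C, L₀, hC, hL₀, hmain⟩ := main
  obtain ⟨c, hc⟩ : ∃ c : ℝ, c = 1 / (4 * √C + 1) := ⟨_, rfl⟩
  have hsC : 0 < √C := Real.sqrt_pos.2 hC
  have hc0 : 0 < c := by rw [hc]; positivity
  have hcC : C * c ^ 2 ≤ 1 / 16 := by
    rw [hc, div_pow, one_pow, mul_one_div, div_le_iff₀ (by positivity)]
    nlinarith [Real.sq_sqrt hC.le, hsC]
  obtain ⟨Z, hZ⟩ : ∃ Z : ℝ, Z = 2 / c + L₀ + 2 := ⟨_, rfl⟩
  have h2c : 0 < 2 / c := by positivity
  have hL₀0 : (0:ℝ) ≤ L₀ := Nat.cast_nonneg _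
  have hZ1 : 2 / c ≤ Z := by rw [hZ]; linarith
  have hZ2 : (L₀ : ℝ) ≤ Z := by rw [hZ]; linarith
  have hZ3 : 2 ≤ Z := by rw [hZ]; linarith
  refine ⟨c, 4 * Real.exp 1 + Real.exp (c * Z ^ 4), hc0, by positivity, ?_⟩
  intro H hH
  obtain ⟨x, hx⟩ : ∃ x : ℝ, x = Real.log H := ⟨_, rfl⟩
  obtain ⟨y, hy⟩ : ∃ y : ℝ, y = Real.log x := ⟨_, rfl⟩
  rw [← hx, ← hy]
  have hH0 : (0:ℝ) < H := by exact_mod_cast (by omega : 0 < H)
  have hx0 : 0 ≤ x := by
    rw [hx]; exact Real.log_nonneg (by exact_mod_cast (by omega : 1 ≤ H))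
  have hyx : y ≤ x := by rw [hy]; exact Real.log_le_self hx0
  have hsq : √(x * y) ≤ x := by
    calc √(x * y) ≤ √(x * x) := Real.sqrt_le_sqrt (mul_le_mul_of_nonneg_left hyx hx0)
      _ = x := Real.sqrt_mul_self hx0
  rcases lt_or_ge x (Z ^ 4) with h | h
  · calc delta H ≤ 1 := delta_le_one H
      _ = Real.exp (c * Z ^ 4) * Real.exp (-(c * Z ^ 4)) := by rw [← Real.exp_add]; simp
      _ ≤ (4 * Real.exp 1 + Real.exp (c * Z ^ 4)) * Real.exp (-c * √(x * y)) := by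
        apply mul_le_mul
        · linarith [Real.exp_pos 1]
        · apply Real.exp_le_exp.2
          have : c * √(x * y) ≤ c * Z ^ 4 := mul_le_mul_of_nonneg_left (by linarith) hc0.le
          linarith
        · positivity
        · positivity
  · obtain ⟨z, hz⟩ : ∃ z : ℝ, z = √(√x) := ⟨_, rfl⟩
    have hz0 : 0 ≤ z := by rw [hz]; positivity
    have hz2 : z ^ 2 = √x := by rw [hz]; exact Real.sq_sqrt (Real.sqrt_nonneg _)
    have hz4 : z ^ 4 = x := by
      have : z ^ 4 = (z ^ 2) ^ 2 := by ring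
      rw [this, hz2]; exact Real.sq_sqrt hx0
    have hzZ : Z ≤ z := by
      rw [← hz4] at h
      exact (pow_le_pow_iff_left₀ (by linarith) hz0 (by norm_num : (4:ℕ) ≠ 0)).1 h
    have hyz : y = 4 * Real.log z := by
      rw [hy, ← hz4, Real.log_pow]; norm_num
    have hx16 : 16 ≤ x := by
      have : (2:ℝ) ^ 4 ≤ Z ^ 4 := pow_le_pow_left₀ (by norm_num) hZ3 4
      norm_num at this
      linarith
    have hy1 : 1 ≤ y := by
      rw [hy, Real.le_log_iff_exp_le (by linarith)]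
      linarith [Real.exp_one_lt_d9]
    have hs1 : z ^ 2 ≤ √(x * y) := by
      rw [hz2]; exact Real.sqrt_le_sqrt (by nlinarith)
    have hcz : 2 ≤ c * z := by
      have h1 : c * (2 / c) ≤ c * z := mul_le_mul_of_nonneg_left (by linarith) hc0.le
      have h2 : c * (2 / c) = 2 := by field_simp
      linarith
    have hbig : z + 1 ≤ c * √(x * y) := by
      have h1 : c * z ^ 2 ≤ c * √(x * y) := mul_le_mul_of_nonneg_left hs1 hc0.le
      have h2 : 2 * z ≤ c * z ^ 2 := by nlinarith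
      linarith
    obtain ⟨L, hL⟩ : ∃ L : ℕ, L = ⌊c * √(x * y)⌋₊ := ⟨_, rfl⟩
    have hL1 : (L : ℝ) ≤ c * √(x * y) := by rw [hL]; exact Nat.floor_le (by positivity)
    have hL2 : c * √(x * y) < L + 1 := by rw [hL]; exact Nat.lt_floor_add_one _
    have hzL : z ≤ L := by linarith
    have hLL : L₀ ≤ L := by
      have : (L₀ : ℝ) ≤ L := by linarith
      exact_mod_cast this
    have hlogL : y / 4 ≤ Real.log L := by
      have : Real.log z ≤ Real.log L := Real.log_le_log (by linarith) hzL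
      linarith
    have hlogL0 : 0 < Real.log L := by linarith
    have hexpo : C * (L : ℝ) ^ 2 / Real.log L ≤ x / 4 := by
      rw [div_le_iff₀ hlogL0]
      have h1 : (L : ℝ) ^ 2 ≤ (c * √(x * y)) ^ 2 := pow_le_pow_left₀ (Nat.cast_nonneg _) hL1 2
      have h2 : (c * √(x * y)) ^ 2 = c ^ 2 * (x * y) := by
        rw [mul_pow, Real.sq_sqrt (by nlinarith)]
      have h3 : C * (L : ℝ) ^ 2 ≤ C * (c ^ 2 * (x * y)) := by
        rw [← h2]; exact mul_le_mul_of_nonneg_left h1 hC.le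
      have h4 : C * (c ^ 2 * (x * y)) ≤ 1 / 16 * (x * y) := by
        rw [← mul_assoc]
        exact mul_le_mul_of_nonneg_right hcC (by nlinarith)
      have h5 : x / 4 * (y / 4) ≤ x / 4 * Real.log L := mul_le_mul_of_nonneg_left hlogL (by linarith)
      linarith
    obtain ⟨w, hw⟩ : ∃ w : ℝ, w = Real.exp (x / 4) := ⟨_, rfl⟩
    have hw5 : 5 ≤ w := by
      rw [hw]; linarith [Real.add_one_le_exp (x / 4)]
    have hw4 : w ^ 4 = H := by
      rw [hw, ← Real.exp_nat_mul]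
      have : ((4:ℕ):ℝ) * (x / 4) = x := by push_cast; ring
      rw [this, hx, Real.exp_log hH0]
    have hN : w ≤ (Nat.sqrt H : ℝ) := by
      have h1 : H < (Nat.sqrt H + 1) ^ 2 := Nat.lt_succ_sqrt' H
      have h2 : (H : ℝ) < ((Nat.sqrt H : ℝ) + 1) ^ 2 := by exact_mod_cast h1
      have h3 : (w ^ 2) ^ 2 < ((Nat.sqrt H : ℝ) + 1) ^ 2 := by
        rw [← pow_mul]; rw [hw4]; exact h2
      have h4 : w ^ 2 < (Nat.sqrt H : ℝ) + 1 := lt_of_pow_lt_pow_left₀ 2 (by positivity) h3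
      nlinarith
    obtain ⟨c0, b, hadm, hc0'⟩ := hmain L hLL (Nat.sqrt H) (by
      calc Real.exp (C * (L : ℝ) ^ 2 / Real.log L) ≤ Real.exp (x / 4) := Real.exp_le_exp.2 hexpo
        _ = w := hw.symm
        _ ≤ _ := hN)
    obtain ⟨c', hc'⟩ := adm_mono (Nat.sqrt_le' H) hadm
    calc delta H ≤ c0 := delta_le hc'
      _ ≤ 4 * Real.exp (-(L : ℝ)) := hc0'
      _ ≤ 4 * Real.exp (1 + -c * √(x * y)) := by
        apply mul_le_mul_of_nonneg_left _ (by norm_num)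
        apply Real.exp_le_exp.2
        linarith
      _ = 4 * Real.exp 1 * Real.exp (-c * √(x * y)) := by rw [Real.exp_add]; ring
      _ ≤ (4 * Real.exp 1 + Real.exp (c * Z ^ 4)) * Real.exp (-c * √(x * y)) := by
        apply mul_le_mul_of_nonneg_right _ (Real.exp_pos _).le
        linarith [Real.exp_pos (c * Z ^ 4)]

end Pool.Agent.Helper380.VDCX.Jr9
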