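import Mathlib
import Pool.Agent.Helper380.VDC.Defs
import Pool.Agent.Helper380.VDC.Jb1
import Pool.Agent.Helper380.VDC.Jb2
import Pool.Agent.Helper380.VDC.Jb3
import Pool.Agent.Helper380.VDC.Jb4
import Pool.Agent.Helper380.VDC.Jb5
import Pool.Agent.Helper380.VDC.Jb6
import Pool.Agent.Helper380.VDC.Jb7
import Pool.Agent.Helper380.VDC.Jb8
import Pool.Agent.Helper380.VDC.Jb9
import Pool.Agent.Helper380.VDC.Jn1

set_option autoImplicit false

namespace Pool.Agent.Helper380.VDCX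

open Real Finset

theorem low : ∃ C : ℝ, 0 < C ∧ ∀ H : ℕ, 1 ≤ H →
      1 / C * Real.exp (-C * √(Real.log H) * Real.log (2 + Real.log H)) ≤ delta H :=
  Jb9.low_final
    (fun H c0 c h => Jb8.low_one (Jb3.smooth_all (Jb2.smooth_step Jb1.two_classes)) Jb5.coeff_le
      (Jb6.key Jb4.moment) H c0 c h.1 h.2)
    (Jn1.lower 1 le_rfl) Jb7.cheb3

end Pool.Agent.Helper380.VDCX
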