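import Mathlib
import Pool.Agent.Helper380.VDC.Defs
import Pool.Agent.Helper380.VDC.Defs4
import Pool.Agent.Helper380.VDC.Jb1
import Pool.Agent.Helper380.VDC.Jb5
import Pool.Agent.Helper380.VDC.Jb7
import Pool.Agent.Helper380.VDC.Jn1
import Pool.Agent.Helper380.VDC.Jq1
import Pool.Agent.Helper380.VDC.Jq2
import Pool.Agent.Helper380.VDC.Jq3
import Pool.Agent.Helper380.VDC.Jq4
import Pool.Agent.Helper380.VDC.Jq5
import Pool.Agent.Helper380.VDC.Jq6
import Pool.Agent.Helper380.VDC.Jq7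
import Pool.Agent.Helper380.VDC.Jq8
import Pool.Agent.Helper380.VDC.Jq9
import Pool.Agent.Helper380.VDC.Jq10

set_option autoImplicit false

namespace Pool.Agent.Helper380.VDCX

open Real Finset

theorem low2 : ∃ C : ℝ, 0 < C ∧ ∀ H : ℕ, 3 ≤ H →
      1 / C * Real.exp (-C * √(Real.log H * Real.log (Real.log H))) ≤ delta H :=
  Jq10.low_final2
    (fun H c0 c h P hP hP1 N R m0 hR hN hNP hm hsmall =>
      Jq9.key2 Jq7.moment2 Jq8.QQ_diff Jq8.QQ_real Jq8.QQ_small Jq8.QQ_bdd Jq8.mass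
        (Jq4.w0_nonneg Jq3.re_pos Jq3.QQ_deriv) H c0 c (Jb5.coeff_le H c0 c h.1) h.2 P hP1 N R m0
        hR hN
        (fun t ht => Jq6.multi_all (Jq2.multi_step (Jq1.level_measure Jb1.two_classes))
          (Jq5.local_params Jq3.re_pos Jq3.im_le (Jq4.w0_nonneg Jq3.re_pos Jq3.QQ_deriv))
          P hP N R hR hN hNP t ht _ rfl H c0 c h.1)
        hm hsmall)
    Jn1.lower Jb7.cheb3

end Pool.Agent.Helper380.VDCX
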