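import Mathlib
import Pool.Agent.Helper380.VDC.Defs
import Pool.Agent.Helper380.VDC.J01
import Pool.Agent.Helper380.VDC.J02
import Pool.Agent.Helper380.VDC.J03
import Pool.Agent.Helper380.VDC.J04
import Pool.Agent.Helper380.VDC.J05
import Pool.Agent.Helper380.VDC.J06
import Pool.Agent.Helper380.VDC.J07
import Pool.Agent.Helper380.VDC.J08
import Pool.Agent.Helper380.VDC.J09
import Pool.Agent.Helper380.VDC.J10a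
import Pool.Agent.Helper380.VDC.J10b
import Pool.Agent.Helper380.VDC.J10c
import Pool.Agent.Helper380.VDC.J11
import Pool.Agent.Helper380.VDC.J12
import Pool.Agent.Helper380.VDC.J13
import Pool.Agent.Helper380.VDC.Jk1
import Pool.Agent.Helper380.VDC.Jk2
import Pool.Agent.Helper380.VDC.Jk3
import Pool.Agent.Helper380.VDC.Jk6
import Pool.Agent.Helper380.VDC.Jk7
import Pool.Agent.Helper380.VDC.Jm1
import Pool.Agent.Helper380.VDC.Jm2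
import Pool.Agent.Helper380.VDC.Jm3
import Pool.Agent.Helper380.VDC.Jm4
import Pool.Agent.Helper380.VDC.Jm5
import Pool.Agent.Helper380.VDC.Jm6
import Pool.Agent.Helper380.VDC.Jm7
import Pool.Agent.Helper380.VDC.Jm8

set_option autoImplicit false

namespace Pool.Agent.Helper380.VDCX

open Real Finset

theorem F_expand' (d N q : ℕ) (hd : 1 ≤ d) (hN : 1 ≤ N) (hq : 1 ≤ q) (a : ℤ) (β M : ℝ)
    (hM : ∀ l, ‖G ((d : ℤ) ^ 2 * a) l q‖ ≤ M) :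
    ∃ err : ℂ, ‖err‖ ≤ M * ((q : ℝ) ^ 2 * (d : ℝ) ^ 2 * (1 / (N : ℝ) ^ 2 + 4 * β ^ 2 * (N : ℝ) ^ 2)) ∧
      F d N ((a : ℝ) / (q : ℝ) + β) = Ar N β * (G ((d : ℤ) ^ 2 * a) 0 q + err) :=
  J08.F_expand (fun t ht β a q hq => J06.theta t ht β a q hq)
    (fun t ht β q hq g M hM => (J07.dual_bound t ht β q hq g M hM).2) d N q hd hN hq a β M hM

theorem G_dil' (a l : ℤ) (q d : ℕ) (hq : 1 ≤ q) (hd : 1 ≤ d) (h : IsCoprime a (q : ℤ)) :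
    ‖G ((d : ℤ) ^ 2 * a) l q‖ ≤ √2 * d / √(q : ℝ) :=
  J05.G_dil J04.G_norm_sq_le a l q d hq hd h

theorem comb' {ι : Type} [Fintype ι] [DecidableEq ι] (p n : ι → ℕ) (hp : ∀ i, 2 ≤ p i) (s : ℝ)
    (hs : 3 / 4 ≤ s) (hs1 : s < 1) (h : ι → ℕ → ℂ)
    (h1 : ∀ i, ∀ k, n i ≤ k → h i k = 1)
    (h2 : ∀ i, ∀ k, k < n i → ‖h i k‖ ≤ √2 * √(p i : ℝ) / (p i : ℝ) ^ (n i - k))
    (h3 : ∀ i k, ‖h i k‖ ≤ 1) (K : ℕ) (W : ℂ)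
    (hW : W = ∑ f ∈ (Fintype.piFinset fun _ : ι => range (K + 1)).filter (fun f => ∑ i, f i ≤ K),
        ∏ i, cc s (h i) (f i)) :
    (∑ i, n i ≤ K → ‖W‖ ≤ 1 ∧ ∃ z : ι → ℂ, W = (s : ℂ) ^ (∑ i, n i) * ∏ i, (1 + z i) ∧
      ∀ i, ‖z i‖ ≤ (1 - s) * (if n i = 0 then 0 else 6 / √(p i : ℝ))) ∧
    (K < ∑ i, n i →
      ‖W‖ ≤ ∏ i, (if n i = 0 then (1 : ℝ) else s ^ (n i) * (1 + 12 / √(p i : ℝ)))) :=
  Jm1.comb_gen Jk1.loc0 Jk2.loc_abs Jk2.loc_sum Jk3.trunc_full Jk3.trunc_abs p n hp s hs hs1 h h1 h2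
    h3 K W hW

theorem main_L (L : ℕ) (hL : 1 ≤ L) (N : ℕ) (hN : Real.exp (2 * 10 ^ 11 * (L : ℝ) ^ 2) ≤ (N : ℝ)) :
    ∃ (c0 : ℝ) (b : ℕ → ℝ), Admissible (N ^ 2) c0 b ∧ c0 ≤ 4 * Real.exp (-(L : ℝ)) := by
  classical
  obtain ⟨S0, hS0⟩ : ∃ S0 : ℝ, S0 = 16000 * L / Real.log ((400 * (L : ℝ)) ^ 2) := ⟨_, rfl⟩
  obtain ⟨K₁, hK₁⟩ : ∃ K₁ : ℕ, K₁ = ⌈24 * S0 * (L + 12 * S0)⌉₊ := ⟨_, rfl⟩
  obtain ⟨hS1, hsize⟩ := Jm7.param_size2 L K₁ hL S0 hS0 hK₁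
  have hS0pos : 0 < S0 := by linarith
  obtain ⟨s, hs⟩ : ∃ s : ℝ, s = 1 - 1 / (24 * S0) := ⟨_, rfl⟩
  have hq0 : 1 / (24 * S0) ≤ 1 / 24 := by
    apply one_div_le_one_div_of_le (by norm_num); linarith
  have hq1 : 0 < 1 / (24 * S0) := by positivity
  have hs34 : 3 / 4 ≤ s := by rw [hs]; linarith
  have hs1 : s < 1 := by rw [hs]; linarith
  have hsum : ∑ i : PP ((400 * L) ^ 2), 1 / √((i.1 : ℕ) : ℝ) ≤ S0 := by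
    have hx : 2 ≤ (400 * L) ^ 2 := by
      have : 400 ≤ 400 * L := by omega
      nlinarith
    have h := Jm4.cheb ((400 * L) ^ 2) hx
    have e1 : ∑ i : PP ((400 * L) ^ 2), 1 / √((i.1 : ℕ) : ℝ) =
        ∑ p ∈ (range ((400 * L) ^ 2 + 1)).filter Nat.Prime, 1 / √(p : ℝ) :=
      Finset.sum_coe_sort ((range ((400 * L) ^ 2 + 1)).filter Nat.Prime)
        (fun p : ℕ => 1 / √(p : ℝ))
    rw [e1, hS0]
    refine h.trans (le_of_eq ?_)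
    have e2 : √((((400 * L) ^ 2 : ℕ)) : ℝ) = 400 * (L : ℝ) := by
      push_cast
      rw [Real.sqrt_sq (by positivity)]
    rw [e2]
    push_cast
    ring
  have hK1' : 24 * S0 * (L + 12 * S0) ≤ (K₁ : ℝ) := by
    rw [hK₁]; exact Nat.le_ceil _
  have tierA : ∀ (n : PP ((400 * L) ^ 2) → ℕ) (h : PP ((400 * L) ^ 2) → ℕ → ℂ),
      (∀ i, ∀ k, n i ≤ k → h i k = 1) →
      (∀ i, ∀ k, k < n i → ‖h i k‖ ≤ √2 * √(i.1 : ℝ) / (i.1 : ℝ) ^ (n i - k)) →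
      (∀ i k, ‖h i k‖ ≤ 1) → ∀ (W : ℂ),
      (W = ∑ f ∈ (Fintype.piFinset fun _ : PP ((400 * L) ^ 2) => range (K₁ + 1)).filter
          (fun f => ∑ i, f i ≤ K₁), ∏ i, cc s (h i) (f i)) →
      ‖W‖ ≤ 1 ∧ (‖W‖ ≤ Real.exp (-(L : ℝ)) ∨ ∃ (r : ℝ) (z : PP ((400 * L) ^ 2) → ℂ), 0 ≤ r ∧ r ≤ 1 ∧
        W = (r : ℂ) * ∏ i, (1 + z i) ∧ ∑ i, ‖z i‖ ≤ 1 / 4) := by
    intro n h h1 h2 h3 W hW
    refine Jm2.tier1 (fun i : PP ((400 * L) ^ 2) => i.1) n s S0 L K₁ hS1 hsum hs hK1' W ?_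
    refine comb' (fun i : PP ((400 * L) ^ 2) => i.1) n ?_ s hs34 hs1 h h1 h2 h3 K₁ W hW
    intro i
    exact (Finset.mem_filter.1 i.2).2.two_le
  have tierB : ∀ (n : PQ ((400 * L) ^ 2) (2 * 8 ^ L) → ℕ)
      (h : PQ ((400 * L) ^ 2) (2 * 8 ^ L) → ℕ → ℂ),
      (∀ i, ∀ k, n i ≤ k → h i k = 1) →
      (∀ i, ∀ k, k < n i → ‖h i k‖ ≤ √2 * √(i.1 : ℝ) / (i.1 : ℝ) ^ (n i - k)) →
      (∀ i k, ‖h i k‖ ≤ 1) → ∀ (W : ℂ),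
      (W = ∑ f ∈ (Fintype.piFinset fun _ : PQ ((400 * L) ^ 2) (2 * 8 ^ L) => range (4 * L + 1)).filter
          (fun f => ∑ i, f i ≤ 4 * L), ∏ i, cc (3 / 4) (h i) (f i)) →
      ‖W‖ ≤ 1 ∧ (‖W‖ ≤ Real.exp (-(L : ℝ)) ∨ ∃ (r : ℝ) (z : PQ ((400 * L) ^ 2) (2 * 8 ^ L) → ℂ),
        0 ≤ r ∧ r ≤ 1 ∧ W = (r : ℂ) * ∏ i, (1 + z i) ∧ ∑ i, ‖z i‖ ≤ 1 / 4) := by
    intro n h h1 h2 h3 W hW
    refine Jm2.tier2 (fun i : PQ ((400 * L) ^ 2) (2 * 8 ^ L) => i.1) n L (4 * L) hL rfl ?_ W ?_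
    · intro i
      exact (Finset.mem_filter.1 i.2).2.2
    · refine comb' (fun i : PQ ((400 * L) ^ 2) (2 * 8 ^ L) => i.1) n ?_ (3 / 4) le_rfl (by norm_num)
        h h1 h2 h3 (4 * L) W hW
      intro i
      exact (Finset.mem_filter.1 i.2).2.1.two_le
  have hε : 0 < Real.exp (-(L : ℝ)) := Real.exp_pos _
  have hε1 : Real.exp (-(L : ℝ)) ≤ 1 := by
    rw [Real.exp_le_one_iff]; simp
  have hP1 : 1 ≤ (400 * L) ^ 2 := Nat.one_le_pow _ _ (by omega)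
  have hQ1 : 1 ≤ 2 * 8 ^ L := by
    have := Nat.one_le_pow L 8 (by norm_num)
    omega
  obtain ⟨w1, w2, w3, w4⟩ := Jm6.weights2 Jk6.regroup Jk7.card_Jset ((400 * L) ^ 2) (2 * 8 ^ L)
    K₁ (4 * L) hP1 hQ1 s (3 / 4) (by linarith) hs1.le (by norm_num) (by norm_num)
  have hNbig := hsize.trans hN
  have hA : 1 ≤ (2 * (400 * L) ^ 2 + 2) ^ K₁ * (2 * (2 * 8 ^ L) + 2) ^ (4 * L) :=
    Nat.one_le_iff_ne_zero.2 (Nat.mul_ne_zero (pow_ne_zero _ (by omega)) (pow_ne_zero _ (by omega)))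
  have hD : 1 ≤ ((400 * L) ^ 2) ^ K₁ * (2 * 8 ^ L) ^ (4 * L) :=
    Nat.one_le_iff_ne_zero.2 (Nat.mul_ne_zero (pow_ne_zero _ (by omega)) (pow_ne_zero _ (by omega)))
  have hW := fun (a : ℤ) (q : ℕ) (hq : 1 ≤ q) (hcop : IsCoprime a (q : ℤ)) (I : ℂ) (hI : ‖I‖ ≤ 1)
    (hI2 : |I.im| ≤ I.re) =>
    Jm5.hW_final2 (fun {ι} _ => J13.decomp J01.G_norm_le_one J01.G_of_dvd J02.G_mul J03.G_sq_unit
      J04.G_norm_sq_le) Jk6.regroup L K₁ hL s tierA tierB Jm3.combine a q hq hcop I hI hI2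
  have hN1 : 1 ≤ N := by
    have : (0 : ℝ) < N := lt_of_lt_of_le (Real.exp_pos _) hN
    exact_mod_cast this
  have minor := fun (q d : ℕ) (hq : 1 ≤ q) (hd : 1 ≤ d)
      (hdD : d ≤ ((400 * L) ^ 2) ^ K₁ * (2 * 8 ^ L) ^ (4 * L)) (a : ℤ) (hcop : IsCoprime a (q : ℤ))
      (β : ℝ) (hqN : q ≤ N) (hβ : |β| ≤ 1 / (((N : ℝ) + 1) * q)) h =>
    J10a.minor J01.G_norm_le_one G_dil' F_expand' J09.Ar_facts _ _ N q d hA hD hN1 hq hd hdD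
      (Real.exp (-(L : ℝ))) hε hε1 a hcop β hqN hβ h
  have major := fun (q d : ℕ) (hdD : d ≤ ((400 * L) ^ 2) ^ K₁ * (2 * 8 ^ L) ^ (4 * L)) (β : ℝ) hq hβ =>
    J10b.major_err _ _ N q d hA hD hN1 hdD (Real.exp (-(L : ℝ))) hε hε1 β hq hβ hNbig
  have arcs := J10c.arcs _ (fun j => cf s j.1 * cf (3 / 4) j.2)
    (fun j => dd (fun i : PP ((400 * L) ^ 2) => i.1) j.1 *
            dd (fun i : PQ ((400 * L) ^ 2) (2 * 8 ^ L) => i.1) j.2) _ _ N hA hD w1 w2 w3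
    (Real.exp (-(L : ℝ))) hε hε1 hNbig hW J01.G_norm_le_one F_expand' J09.Ar_facts minor major
  obtain ⟨c0, b, hb1, hb2, hb3⟩ := J12.transfer _ (fun j => cf s j.1 * cf (3 / 4) j.2)
    (fun j => dd (fun i : PP ((400 * L) ^ 2) => i.1) j.1 *
            dd (fun i : PQ ((400 * L) ^ 2) (2 * 8 ^ L) => i.1) j.2) _ _ N hA hD w1 w2 w3 w4
    (Real.exp (-(L : ℝ))) hε hε1 hNbig J01.G_of_dvd J01.G_norm_le_one F_expand' J11.F_re arcs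
  exact ⟨c0, b, ⟨hb1, hb2⟩, hb3⟩

theorem upper (H : ℕ) (hH : 1 ≤ H) :
    delta H ≤ 11 * Real.exp (-√(Real.log H) / 10 ^ 6) :=
  Jm8.final_step2 main_L H hH

end Pool.Agent.Helper380.VDCX
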