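import Mathlib
import Pool.Agent.Helper380.VDC.Defs
import Pool.Agent.Helper380.VDC.Defs3
import Pool.Agent.Helper380.VDC.J01
import Pool.Agent.Helper380.VDC.J02
import Pool.Agent.Helper380.VDC.J03
import Pool.Agent.Helper380.VDC.J04
import Pool.Agent.Helper380.VDC.J09
import Pool.Agent.Helper380.VDC.J10a
import Pool.Agent.Helper380.VDC.J10b
import Pool.Agent.Helper380.VDC.J10c
import Pool.Agent.Helper380.VDC.J11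
import Pool.Agent.Helper380.VDC.J12
import Pool.Agent.Helper380.VDC.J13
import Pool.Agent.Helper380.VDC.Jk2
import Pool.Agent.Helper380.VDC.Jk6
import Pool.Agent.Helper380.VDC.Jk7
import Pool.Agent.Helper380.VDC.Jm2
import Pool.Agent.Helper380.VDC.Jm4
import Pool.Agent.Helper380.VDC.Base3
import Pool.Agent.Helper380.VDC.Jr1
import Pool.Agent.Helper380.VDC.Jr2
import Pool.Agent.Helper380.VDC.Jr3
import Pool.Agent.Helper380.VDC.Jr4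
import Pool.Agent.Helper380.VDC.Jr5
import Pool.Agent.Helper380.VDC.Jr6
import Pool.Agent.Helper380.VDC.Jr7
import Pool.Agent.Helper380.VDC.Jr8
import Pool.Agent.Helper380.VDC.Jr9
import Pool.Agent.Helper380.VDC.Jr10
import Pool.Agent.Helper380.VDC.Jr11

set_option autoImplicit false

namespace Pool.Agent.Helper380.VDCX

open Real Finset

theorem main3_aux (L P₁ K₁ K₂ J : ℕ) (S₁ η C : ℝ) (hL : 1 ≤ L) (hP₁ : 2 ≤ P₁)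
    (hP13 : P₁ ≤ (400 * L) ^ 4)
    (hS1 : 1 ≤ S₁) (hcheb : 40 * √(P₁ : ℝ) / Real.log P₁ ≤ S₁)
    (hK1' : 24 * S₁ * (L + 12 * S₁) ≤ (K₁ : ℝ)) (hη : 0 < η) (hη1 : η ≤ 1 / 10000)
    (hPη : 1 / √(P₁ : ℝ) ≤ η) (hJ : (L : ℝ) ≤ J * (1 / (480 * η)))
    (hA' : 24 * η * 2 ^ (J + 2) ≤ 1) (hK2 : 2 * L * 2 ^ (J + 2) ≤ K₂)
    (hsize : (10 * ((((((2 * P₁ + 2) ^ K₁ * (((J + 1) * (2 * ((400 * L) ^ 4) + 2) ^ K₂) *
          (2 * (2 * 8 ^ L) + 2) ^ (16 * L / Nat.log 2 ((400 * L) ^ 4))) : ℕ)) : ℝ) *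
        ((P₁ ^ K₁ * (((400 * L) ^ 4) ^ K₂ * 4 ^ (16 * L)) : ℕ) : ℝ)) / Real.exp (-(L : ℝ)))) ^ 13 ≤
      Real.exp C) (N : ℕ) (hN : Real.exp C ≤ (N : ℝ)) :
    ∃ (c0 : ℝ) (b : ℕ → ℝ), Admissible (N ^ 2) c0 b ∧ c0 ≤ 4 * Real.exp (-(L : ℝ)) := by
  classical
  have hS0pos : 0 < S₁ := by linarith
  obtain ⟨s, hs⟩ : ∃ s : ℝ, s = 1 - 1 / (24 * S₁) := ⟨_, rfl⟩
  have hq0 : 1 / (24 * S₁) ≤ 1 / 24 := by
    apply one_div_le_one_div_of_le (by norm_num); linarith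
  have hq1 : 0 < 1 / (24 * S₁) := by positivity
  have hs34 : 3 / 4 ≤ s := by rw [hs]; linarith
  have hs1 : s < 1 := by rw [hs]; linarith
  have hsum : ∑ i : PP P₁, 1 / √((i.1 : ℕ) : ℝ) ≤ S₁ := by
    have h := Jm4.cheb P₁ hP₁
    have e1 : ∑ i : PP P₁, 1 / √((i.1 : ℕ) : ℝ) =
        ∑ p ∈ (range (P₁ + 1)).filter Nat.Prime, 1 / √(p : ℝ) :=
      Finset.sum_coe_sort ((range (P₁ + 1)).filter Nat.Prime)
        (fun p : ℕ => 1 / √(p : ℝ))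
    rw [e1]
    exact h.trans hcheb
  have tierA : ∀ (n : PP P₁ → ℕ) (h : PP P₁ → ℕ → ℂ),
      (∀ i, ∀ k, n i ≤ k → h i k = 1) →
      (∀ i, ∀ k, k < n i → ‖h i k‖ ≤ √2 * √(i.1 : ℝ) / (i.1 : ℝ) ^ (n i - k)) →
      (∀ i k, ‖h i k‖ ≤ 1) → ∀ (W : ℂ),
      (W = ∑ f ∈ (Fintype.piFinset fun _ : PP P₁ => range (K₁ + 1)).filter
          (fun f => ∑ i, f i ≤ K₁), ∏ i, cc s (h i) (f i)) →
      ‖W‖ ≤ 1 ∧ (‖W‖ ≤ Real.exp (-(L : ℝ)) ∨ ∃ (r : ℝ) (z : PP P₁ → ℂ), 0 ≤ r ∧ r ≤ 1 ∧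
        W = (r : ℂ) * ∏ i, (1 + z i) ∧ ∑ i, ‖z i‖ ≤ 1 / 4) := by
    intro n h h1 h2 h3 W hW
    refine Jm2.tier1 (fun i : PP P₁ => i.1) n s S₁ L K₁ hS1 hsum hs hK1' W ?_
    refine comb3 (fun i : PP P₁ => i.1) n ?_ s hs34 hs1 h h1 h2 h3 K₁ W hW
    intro i
    exact (Finset.mem_filter.1 i.2).2.two_le
  have tierB : ∀ (n : PQ P₁ ((400 * L) ^ 4) → ℕ) (h : PQ P₁ ((400 * L) ^ 4) → ℕ → ℂ),
      (∀ i, ∀ k, n i ≤ k → h i k = 1) →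
      (∀ i, ∀ k, k < n i → ‖h i k‖ ≤ √2 * √(i.1 : ℝ) / (i.1 : ℝ) ^ (n i - k)) →
      (∀ i k, ‖h i k‖ ≤ 1) → ∀ (W : ℕ → ℂ) (W2 : ℂ),
      (∀ j, W j = ∑ f ∈ (Fintype.piFinset fun _ : PQ P₁ ((400 * L) ^ 4) => range (K₂ + 1)).filter
          (fun f => ∑ i, f i ≤ K₂), ∏ i, cc (1 - 1 / 2 ^ (j + 2)) (h i) (f i)) →
      (W2 = ∑ j ∈ range (J + 1), (wj (1 / (480 * η)) J j : ℂ) * W j) →
      ‖W2‖ ≤ 1 ∧ (‖W2‖ ≤ Real.exp (-(L : ℝ)) ∨ ∃ (r : ℝ) (ζ : ℂ), 0 ≤ r ∧ r ≤ 1 ∧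
        W2 = (r : ℂ) * (1 + ζ) ∧ ‖ζ‖ ≤ 1 / 8) := by
    intro n h h1 h2 h3 W W2 hW hW2
    refine Jr4.tier2m (fun i : PQ P₁ ((400 * L) ^ 4) => i.1) n η (1 / (480 * η)) L K₂ J hη hη1 ?_
      rfl hJ hA' hK2 W ?_ W2 hW2
    · intro i
      refine le_trans ?_ hPη
      have hlt : P₁ < i.1 := (Finset.mem_filter.1 i.2).2.2
      have h0 : (0 : ℝ) < √(P₁ : ℝ) := Real.sqrt_pos.2 (by exact_mod_cast (by omega : 0 < P₁))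
      apply one_div_le_one_div_of_le h0
      exact Real.sqrt_le_sqrt (by exact_mod_cast hlt.le)
    · intro j _
      have hj0 : (0 : ℝ) < 1 / 2 ^ (j + 2) := by positivity
      have hj1 : (1 : ℝ) / 2 ^ (j + 2) ≤ 1 / 4 := by
        apply one_div_le_one_div_of_le (by norm_num)
        have : (1 : ℝ) ≤ 2 ^ j := one_le_pow₀ (by norm_num)
        rw [pow_add]
        linarith
      refine comb3 (fun i : PQ P₁ ((400 * L) ^ 4) => i.1) n ?_ (1 - 1 / 2 ^ (j + 2)) (by linarith)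
        (by linarith) h h1 h2 h3 K₂ (W j) (hW j)
      intro i
      exact (Finset.mem_filter.1 i.2).2.1.two_le
  have tierC : ∀ (n : PQ ((400 * L) ^ 4) (2 * 8 ^ L) → ℕ)
      (h : PQ ((400 * L) ^ 4) (2 * 8 ^ L) → ℕ → ℂ),
      (∀ i, ∀ k, n i ≤ k → h i k = 1) →
      (∀ i, ∀ k, k < n i → ‖h i k‖ ≤ √2 * √(i.1 : ℝ) / (i.1 : ℝ) ^ (n i - k)) →
      (∀ i k, ‖h i k‖ ≤ 1) → ∀ (W : ℂ),
      (W = ∑ f ∈ (Fintype.piFinset fun _ : PQ ((400 * L) ^ 4) (2 * 8 ^ L) =>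
          range (16 * L + 1)).filter
          (fun f => ∑ i, f i * Nat.log 2 i.1 ≤ 16 * L),
            ∏ i, cc ((i.1 : ℝ) ^ (-(1 / 4 : ℝ))) (h i) (f i)) →
      ‖W‖ ≤ 1 ∧ (‖W‖ ≤ Real.exp (-(L : ℝ)) ∨
        ∃ (r : ℝ) (z : PQ ((400 * L) ^ 4) (2 * 8 ^ L) → ℂ),
        0 ≤ r ∧ r ≤ 1 ∧ W = (r : ℂ) * ∏ i, (1 + z i) ∧ ∑ i, ‖z i‖ ≤ 1 / 8) := by
    intro n h h1 h2 h3 W hW
    refine Jr3.tier4 Jr1.loc0g Jr1.loc_absg Jk2.loc_sum Jr2.trunc_fullw Jr2.trunc_absw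
      (fun i : PQ ((400 * L) ^ 4) (2 * 8 ^ L) => i.1) n L (16 * L) hL rfl ?_ h h1 h2 h3 W hW
    intro i
    exact (Finset.mem_filter.1 i.2).2.2
  have hε : 0 < Real.exp (-(L : ℝ)) := Real.exp_pos _
  have hε1 : Real.exp (-(L : ℝ)) ≤ 1 := by
    rw [Real.exp_le_one_iff]; simp
  have hP1 : 1 ≤ P₁ := by omega
  have hP3 : 4 ≤ (400 * L) ^ 4 := by
    have h1 : 400 ≤ 400 * L := by omega
    have h2 : 400 ^ 4 ≤ (400 * L) ^ 4 := Nat.pow_le_pow_left h1 4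
    omega
  have hQ1 : 1 ≤ 2 * 8 ^ L := by
    have := Nat.one_le_pow L 8 (by norm_num)
    omega
  have hB0 : 0 ≤ 1 / (480 * η) := by positivity
  obtain ⟨w1, w2, w3, w4⟩ := Jr7.weights3 Jk6.regroup Jr2.regroupw Jk7.card_Jset Jr5.wj_sum
    L P₁ ((400 * L) ^ 4) (2 * 8 ^ L) K₁ K₂ J hP1 hP3 hQ1 s (1 / (480 * η)) (by linarith) hs1.le hB0
  have hNbig := hsize.trans hN
  have hA : 1 ≤ (2 * P₁ + 2) ^ K₁ * (((J + 1) * (2 * ((400 * L) ^ 4) + 2) ^ K₂) *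
          (2 * (2 * 8 ^ L) + 2) ^ (16 * L / Nat.log 2 ((400 * L) ^ 4))) :=
    Nat.one_le_iff_ne_zero.2 (Nat.mul_ne_zero (pow_ne_zero _ (by omega))
      (Nat.mul_ne_zero (Nat.mul_ne_zero (by omega) (pow_ne_zero _ (by omega)))
        (pow_ne_zero _ (by omega))))
  have hD : 1 ≤ P₁ ^ K₁ * (((400 * L) ^ 4) ^ K₂ * 4 ^ (16 * L)) :=
    Nat.one_le_iff_ne_zero.2 (Nat.mul_ne_zero (pow_ne_zero _ (by omega))
      (Nat.mul_ne_zero (pow_ne_zero _ (by omega)) (pow_ne_zero _ (by omega))))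
  have hW := fun (a : ℤ) (q : ℕ) (hq : 1 ≤ q) (hcop : IsCoprime a (q : ℤ)) (I : ℂ) (hI : ‖I‖ ≤ 1)
    (hI2 : |I.im| ≤ I.re) =>
    Jr6.hW_final3 (fun {ι} _ => J13.decomp J01.G_norm_le_one J01.G_of_dvd J02.G_mul J03.G_sq_unit
      J04.G_norm_sq_le) Jk6.regroup Jr2.regroupw L P₁ ((400 * L) ^ 4) K₁ K₂ J hL hP13 s
      (1 / (480 * η)) tierA tierB tierC Jr5.combine3 a q hq hcop I hI hI2
  have hN1 : 1 ≤ N := by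
    have : (0 : ℝ) < N := lt_of_lt_of_le (Real.exp_pos _) hN
    exact_mod_cast this
  have minor := fun (q d : ℕ) (hq : 1 ≤ q) (hd : 1 ≤ d)
      (hdD : d ≤ P₁ ^ K₁ * (((400 * L) ^ 4) ^ K₂ * 4 ^ (16 * L))) (a : ℤ)
      (hcop : IsCoprime a (q : ℤ))
      (β : ℝ) (hqN : q ≤ N) (hβ : |β| ≤ 1 / (((N : ℝ) + 1) * q)) h =>
    J10a.minor J01.G_norm_le_one G_dil3 F_expand3 J09.Ar_facts _ _ N q d hA hD hN1 hq hd hdD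
      (Real.exp (-(L : ℝ))) hε hε1 a hcop β hqN hβ h
  have major := fun (q d : ℕ) (hdD : d ≤ P₁ ^ K₁ * (((400 * L) ^ 4) ^ K₂ * 4 ^ (16 * L)))
      (β : ℝ) hq hβ =>
    J10b.major_err _ _ N q d hA hD hN1 hdD (Real.exp (-(L : ℝ))) hε hε1 β hq hβ hNbig
  have arcs := J10c.arcs _
    (fun j => cf s j.1 * ((wj (1 / (480 * η)) J j.2.1.1 * cf (1 - 1 / 2 ^ (j.2.1.1 + 2)) j.2.1.2) *
      cg (fun i : PQ ((400 * L) ^ 4) (2 * 8 ^ L) => (i.1 : ℝ) ^ (-(1 / 4 : ℝ))) j.2.2))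
    (fun j => dd (fun i : PP P₁ => i.1) j.1 *
      (dd (fun i : PQ P₁ ((400 * L) ^ 4) => i.1) j.2.1.2 *
        dd (fun i : PQ ((400 * L) ^ 4) (2 * 8 ^ L) => i.1) j.2.2)) _ _ N hA hD w1 w2 w3
    (Real.exp (-(L : ℝ))) hε hε1 hNbig hW J01.G_norm_le_one F_expand3 J09.Ar_facts minor major
  obtain ⟨c0, b, hb1, hb2, hb3⟩ := J12.transfer _
    (fun j => cf s j.1 * ((wj (1 / (480 * η)) J j.2.1.1 * cf (1 - 1 / 2 ^ (j.2.1.1 + 2)) j.2.1.2) *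
      cg (fun i : PQ ((400 * L) ^ 4) (2 * 8 ^ L) => (i.1 : ℝ) ^ (-(1 / 4 : ℝ))) j.2.2))
    (fun j => dd (fun i : PP P₁ => i.1) j.1 *
      (dd (fun i : PQ P₁ ((400 * L) ^ 4) => i.1) j.2.1.2 *
        dd (fun i : PQ ((400 * L) ^ 4) (2 * 8 ^ L) => i.1) j.2.2)) _ _ N hA hD w1 w2 w3 w4
    (Real.exp (-(L : ℝ))) hε hε1 hNbig J01.G_of_dvd J01.G_norm_le_one F_expand3 J11.F_re arcs
  exact ⟨c0, b, ⟨hb1, hb2⟩, hb3⟩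

theorem main3 : ∃ (C : ℝ) (L₀ : ℕ), 0 < C ∧ 2 ≤ L₀ ∧ ∀ L : ℕ, L₀ ≤ L → ∀ N : ℕ,
      Real.exp (C * (L : ℝ) ^ 2 / Real.log L) ≤ (N : ℝ) →
      ∃ (c0 : ℝ) (b : ℕ → ℝ), Admissible (N ^ 2) c0 b ∧ c0 ≤ 4 * Real.exp (-(L : ℝ)) := by
  obtain ⟨C, L₀, hC, hL₀, h⟩ := Jr8.params3
  refine ⟨C, L₀, hC, hL₀, fun L hL N hN => ?_⟩
  obtain ⟨P₁, K₁, K₂, J, S₁, η, a1, a2, a3, a4, a5, a6, a7, a8, a9, a10, a11, a12⟩ := h L hL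
  exact main3_aux L P₁ K₁ K₂ J S₁ η _ (by omega) a1 a2 a3 a4 a5 a6 a7 a8 a9 a10
    (by exact_mod_cast a11) a12 N hN

theorem upper3 : ∃ c C : ℝ, 0 < c ∧ 0 < C ∧ ∀ H : ℕ, 3 ≤ H →
      delta H ≤ C * Real.exp (-c * √(Real.log H * Real.log (Real.log H))) :=
  Jr9.final_step3 main3

theorem set3 : ∃ c C : ℝ, 0 < c ∧ 0 < C ∧ ∀ N : ℕ, 3 ≤ N → ∀ A : Finset ℕ, A ⊆ Icc 1 N →
      (∀ a ∈ A, ∀ a' ∈ A, ∀ k : ℕ, 1 ≤ k → a ≠ a' + k ^ 2) →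
      (A.card : ℝ) ≤ C * N * Real.exp (-c * √(Real.log N * Real.log (Real.log N))) :=
  Jr11.set_final upper3 Jr10.set_bound

end Pool.Agent.Helper380.VDCX
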